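import Pool.Agent.MP_b5e119_nt.G27.Defs

namespace Pool.Agent.G27

open Finset Filter Topology Pool.Agent.G60

theorem tau_pow (s : ℕ) : ∃ C : ℕ, 1 ≤ C ∧ ∀ n : ℕ, n ≠ 0 → #n.divisors ^ s ≤ C * n := by
  refine ⟨(s.factorial * 2 ^ s) ^ 2 ^ s, Nat.one_le_iff_ne_zero.2 (by positivity), fun n hn => ?_⟩
  have h1 : ∀ p ∈ n.primeFactors, (n.factorization p + 1) ^ s ≤
      (if p < 2 ^ s then s.factorial * 2 ^ s else 1) * p ^ n.factorization p := by
    intro p hp
    have hp2 := (Nat.prime_of_mem_primeFactors hp).two_le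
    generalize n.factorization p = a
    split_ifs with h
    · calc (a + 1) ^ s ≤ (a + 1).ascFactorial s := Nat.pow_succ_le_ascFactorial _ _
        _ = s.factorial * (a + s).choose s := Nat.ascFactorial_eq_factorial_mul_choose _ _
        _ ≤ s.factorial * 2 ^ (a + s) := Nat.mul_le_mul_left _ (Nat.choose_le_two_pow _ _)
        _ = s.factorial * 2 ^ s * 2 ^ a := by ring
        _ ≤ _ := Nat.mul_le_mul_left _ (Nat.pow_le_pow_left hp2 _)
    · calc (a + 1) ^ s ≤ (2 ^ a) ^ s := Nat.pow_le_pow_left Nat.lt_two_pow_self _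
        _ = (2 ^ s) ^ a := by rw [← pow_mul, ← pow_mul, mul_comm]
        _ ≤ _ := by rw [one_mul]; exact Nat.pow_le_pow_left (not_lt.1 h) _
  have h2 : ∏ p ∈ n.primeFactors, p ^ n.factorization p = n :=
    Nat.prod_factorization_pow_eq_self hn
  rw [Nat.card_divisors hn, ← prod_pow]
  refine (prod_le_prod' h1).trans ?_
  rw [prod_mul_distrib, h2]
  refine Nat.mul_le_mul_right _ ?_
  rw [prod_ite, prod_const, prod_const_one, mul_one]
  refine Nat.pow_le_pow_right (by positivity) ?_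
  calc _ ≤ #(range (2 ^ s)) := card_le_card fun p hp => mem_range.2 (mem_filter.1 hp).2
    _ = _ := card_range _

theorem tau_sqrt (n : ℕ) : #n.divisors ≤ 2 * Nat.sqrt n := by
  have h : n.divisors ⊆ Icc 1 (Nat.sqrt n) ∪ (Icc 1 (Nat.sqrt n)).image (n / ·) := by
    intro d hd
    obtain ⟨⟨e, he⟩, hn⟩ := Nat.mem_divisors.1 hd
    have hd0 : 0 < d := Nat.pos_of_mem_divisors hd
    have he0 : 0 < e := Nat.pos_of_ne_zero fun h => hn (by rw [he, h, mul_zero])
    rcases le_total d e with h | h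
    · refine mem_union_left _ (mem_Icc.2 ⟨hd0, Nat.le_sqrt.2 ?_⟩)
      rw [he]
      exact Nat.mul_le_mul_left _ h
    · refine mem_union_right _ (mem_image.2 ⟨e, mem_Icc.2 ⟨he0, Nat.le_sqrt.2 ?_⟩, ?_⟩)
      · rw [he]
        exact Nat.mul_le_mul_right _ h
      · rw [he, Nat.mul_div_cancel _ he0]
  have h1 := (card_le_card h).trans (card_union_le _ _)
  have h2 : #((Icc 1 (Nat.sqrt n)).image (n / ·)) ≤ #(Icc 1 (Nat.sqrt n)) := card_image_le
  rw [Nat.card_Icc] at h1 h2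
  omega

theorem tau_row : TAU_s := by
  refine ⟨fun n => ?_, fun δ hδ => ?_⟩
  · have h1 : ((#n.divisors : ℕ) : ℝ) ≤ 2 * (Nat.sqrt n : ℝ) := by exact_mod_cast tau_sqrt n
    have h2 : (Nat.sqrt n : ℝ) ≤ √n := Real.nat_sqrt_le_real_sqrt
    linarith
  · obtain ⟨s, hs⟩ := exists_nat_one_div_lt hδ
    obtain ⟨C, C1, hC⟩ := tau_pow (s + 1)
    have C1' : (1 : ℝ) ≤ C := by exact_mod_cast C1
    refine ⟨C, by linarith, fun n => ?_⟩
    rcases Nat.eq_zero_or_pos n with rfl | hn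
    · simp only [Nat.divisors_zero, card_empty, Nat.cast_zero]
      positivity
    have n1 : (1 : ℝ) ≤ n := by exact_mod_cast hn
    refine le_of_pow_le_pow_left₀ (Nat.succ_ne_zero s) (by positivity) ?_
    have h1 : (#n.divisors : ℝ) ^ (s + 1) ≤ C * n := by exact_mod_cast hC n hn.ne'
    refine h1.trans ?_
    rw [mul_pow, ← Real.rpow_natCast ((n : ℝ) ^ δ), ← Real.rpow_mul (by linarith)]
    refine mul_le_mul (le_self_pow₀ C1' (Nat.succ_ne_zero s)) ?_ (by positivity) (by positivity)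
    refine Real.self_le_rpow_of_one_le n1 ?_
    rw [div_lt_iff₀ (by positivity)] at hs
    push_cast
    exact hs.le

end Pool.Agent.G27
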