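import Pool.Agent.MP_b5e119_nt.G27.Defs

namespace Pool.Agent.G27

open Finset Pool.Agent.G60

theorem bur1j_shift (f : ℕ → ℝ) (hf : ∀ n, |f n| ≤ 1) (u L h : ℕ) :
    |∑ t ∈ range L, f (u + t) - ∑ t ∈ range L, f (u + t + h)| ≤ 2 * h := by
  induction h with
  | zero => simp
  | succ h ih =>
    have e : ∑ t ∈ range L, f (u + t + (h + 1)) - ∑ t ∈ range L, f (u + t + h) =
        f (u + L + h) - f (u + h) := by
      clear ih
      induction L with
      | zero => simp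
      | succ L ihL =>
        rw [sum_range_succ, sum_range_succ]
        have : u + L + (h + 1) = u + (L + 1) + h := by ring
        rw [this]; linarith
    have a1 := abs_le.1 (hf (u + L + h))
    have a2 := abs_le.1 (hf (u + h))
    have a3 := abs_le.1 ih
    rw [abs_le]; push_cast; constructor <;> linarith

theorem bur1j_abs (a : ℤ) (r : ℕ) : |(jacobiSym a r : ℝ)| ≤ 1 := by
  rcases jacobiSym.trichotomy a r with h | h | h <;> simp [h]

theorem bur1j_congr {r : ℕ} {a b : ℕ} (h : (a : ZMod r) = b) :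
    jacobiSym (a : ℤ) r = jacobiSym (b : ℤ) r := by
  rw [ZMod.natCast_eq_natCast_iff'] at h
  apply jacobiSym.mod_left'
  exact_mod_cast h

theorem bur1j_per {w : ℕ → ℤ} (hw : Wt w) (n k : ℕ) : w (n + 8 * k) = w n := by
  induction k with
  | zero => simp
  | succ k ih => rw [mul_add, mul_one, ← add_assoc, hw.2, ih]

theorem bur1j_row (hE : ENEJ_s) : BUR1J_s := by
  intro r u L A B 𝒜 w τ W hr hw h𝒜 hne hAL hLA hB hτ hW
  have hr0 : r ≠ 0 := by rintro rfl; simp at hr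
  have : NeZero r := ⟨hr0⟩
  obtain ⟨Bad, hBad, hW'⟩ : ∃ Bad : Finset ℕ, (∀ x, x < r →
      τ * B ≤ |∑ b ∈ Icc 1 B, (jacobiSym ((x + b : ℕ) : ℤ) r : ℝ)| → x ∈ Bad) ∧ (#Bad : ℝ) ≤ W :=
    ⟨_, fun x h1 h2 => mem_filter.2 ⟨mem_range.2 h1, h2⟩, hW⟩
  clear hW
  obtain ⟨g, hg⟩ : ∃ g : ℕ → ℝ, ∀ n, g n = (jacobiSym (n : ℤ) r : ℝ) := ⟨_, fun _ => rfl⟩
  simp only [← hg] at hBad
  have hg1 : ∀ n, |g n| ≤ 1 := fun n => by rw [hg]; exact bur1j_abs _ _
  have hw1 : ∀ n, |(w n : ℝ)| ≤ 1 := fun n => by exact_mod_cast hw.1 n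
  obtain ⟨f, hf⟩ : ∃ f : ℕ → ℝ, ∀ n, f n = ((w n * jacobiSym (n : ℤ) r : ℤ) : ℝ) :=
    ⟨_, fun _ => rfl⟩
  simp only [← hf]
  have hf' : ∀ n, f n = w n * g n := fun n => by rw [hf, hg]; push_cast; rfl
  have hf1 : ∀ n, |f n| ≤ 1 := fun n => by
    rw [hf', abs_mul]; exact mul_le_one₀ (hw1 _) (abs_nonneg _) (hg1 _)
  obtain ⟨T, hT⟩ : ∃ T : ℕ → ℝ, ∀ x, T x = ∑ b ∈ Icc 1 B, g (x + b) := ⟨_, fun _ => rfl⟩
  simp only [← hT] at hBad
  obtain ⟨X, hX⟩ : ∃ X : ℕ × ℕ → ℕ, ∀ z, X z =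
      (((u + z.1 : ℕ) : ZMod r) * ((8 * z.2 : ℕ) : ZMod r)⁻¹).val := ⟨_, fun _ => rfl⟩
  obtain ⟨P, hP⟩ : ∃ P : Finset (ℕ × ℕ), P = range L ×ˢ 𝒜 := ⟨_, rfl⟩
  have hun : ∀ z ∈ P, IsUnit ((8 * z.2 : ℕ) : ZMod r) := by
    intro z hz
    rw [hP, mem_product] at hz
    obtain ⟨h1, _, h3⟩ := h𝒜 _ hz.2
    refine (ZMod.isUnit_iff_coprime _ _).2 (Nat.Coprime.mul_left ?_ ?_)
    · exact Nat.Coprime.pow_left 3 (Nat.coprime_two_left.2 hr)
    · exact (Nat.Prime.coprime_iff_not_dvd h1).2 h3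
  have hXa : ∀ z ∈ P, ((X z : ℕ) : ZMod r) * ((8 * z.2 : ℕ) : ZMod r) = ((u + z.1 : ℕ) : ZMod r) := by
    intro z hz
    rw [hX, ZMod.natCast_zmod_val, mul_assoc, ZMod.inv_mul_of_unit _ (hun z hz), mul_one]
  have hXp : ∀ z, X z < r := fun z => by rw [hX]; exact ZMod.val_lt _
  have hfac : ∀ z ∈ P, ∑ b ∈ Icc 1 B, f (u + z.1 + 8 * (z.2 * b)) =
      (w (u + z.1) * g (8 * z.2)) * T (X z) := by
    intro z hz
    simp only [hT]
    rw [mul_sum]
    refine sum_congr rfl fun b _ => ?_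
    rw [hf', bur1j_per hw, mul_assoc]
    congr 1
    simp only [hg]
    rw [← Int.cast_mul, ← jacobiSym.mul_left, ← Nat.cast_mul]
    congr 1
    apply bur1j_congr
    rw [Nat.cast_add, ← hXa z hz]
    push_cast
    ring
  have hTB : ∀ x, |T x| ≤ B := by
    intro x
    rw [hT]
    refine (abs_sum_le_sum_abs _ _).trans ?_
    refine (sum_le_sum fun b _ => hg1 (x + b)).trans ?_
    simp
  obtain ⟨Q, hQ⟩ : ∃ Q : Finset (ℕ × ℕ), Q = {z ∈ P | X z ∈ Bad} := ⟨_, rfl⟩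
  have hQ1 : (#Q : ℝ) = ∑ x ∈ Bad, (1 : ℝ) * (#{z ∈ P | X z = x} : ℝ) := by
    have : #Q = ∑ x ∈ Bad, #{z ∈ Q | X z = x} :=
      card_eq_sum_card_fiberwise fun z hz => by
        rw [hQ] at hz; exact (mem_filter.1 hz).2
    rw [this, Nat.cast_sum]
    refine sum_congr rfl fun x hx => ?_
    rw [one_mul]
    congr 2
    ext z
    simp only [hQ, mem_filter]
    constructor
    · rintro ⟨⟨a, _⟩, c⟩; exact ⟨a, c⟩
    · rintro ⟨a, c⟩; exact ⟨⟨a, c ▸ hx⟩, c⟩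
  have hQ2 : ∑ x ∈ Bad, (#{z ∈ P | X z = x} : ℝ) ^ 2 ≤ 9 * L * #𝒜 := by
    have hE' := hE r u L A 𝒜 h𝒜 hAL hLA
    rw [← hP] at hE'
    have e1 : ∑ x ∈ Bad, #{z ∈ P | X z = x} ^ 2 =
        #(Bad.biUnion fun x => {z ∈ P | X z = x} ×ˢ {z ∈ P | X z = x}) := by
      rw [card_biUnion]
      · refine sum_congr rfl fun x _ => ?_
        rw [card_product, sq]
      · intro x _ y _ hxy
        simp only [Function.onFun]
        rw [disjoint_left]
        intro w hw hw'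
        simp only [mem_product, mem_filter] at hw hw'
        exact hxy (hw.1.2.symm.trans hw'.1.2)
    have e2 : (Bad.biUnion fun x => {z ∈ P | X z = x} ×ˢ {z ∈ P | X z = x}) ⊆
        {z ∈ P ×ˢ P | (u + z.1.1) * z.2.2 ≡ (u + z.2.1) * z.1.2 [MOD r]} := by
      intro v hv
      simp only [mem_biUnion, mem_product, mem_filter] at hv
      obtain ⟨x, _, ⟨h1, h2⟩, h3, h4⟩ := hv
      refine mem_filter.2 ⟨mem_product.2 ⟨h1, h3⟩, ?_⟩
      rw [← ZMod.natCast_eq_natCast_iff, Nat.cast_mul, Nat.cast_mul, ← hXa _ h1, ← hXa _ h3, h2, h4]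
      push_cast
      ring
    have e3 := (card_le_card e2).trans hE'
    rw [← e1] at e3
    exact_mod_cast e3
  have hQ3 : (#Q : ℝ) ≤ √(W * (9 * L * #𝒜)) := by
    apply Real.le_sqrt_of_sq_le
    rw [hQ1]
    refine (sum_mul_sq_le_sq_mul_sq _ _ _).trans ?_
    have : ∑ x ∈ Bad, (1 : ℝ) ^ 2 ≤ W := by
      rw [sum_const, nsmul_eq_mul, one_pow, mul_one]; exact hW'
    have h0 : 0 ≤ W := le_trans (Nat.cast_nonneg _) hW'
    exact mul_le_mul this hQ2 (sum_nonneg fun _ _ => sq_nonneg _) h0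
  obtain ⟨v, hu⟩ : ∃ v : ℕ × ℕ → ℝ, ∀ z, v z = w (u + z.1) * g (8 * z.2) :=
    ⟨_, fun _ => rfl⟩
  simp only [← hu] at hfac
  have hu1 : ∀ z, |v z| ≤ 1 := fun z => by
    rw [hu, abs_mul]; exact mul_le_one₀ (hw1 _) (abs_nonneg _) (hg1 _)
  have hS1 : |∑ z ∈ P, v z * T (X z)| ≤ τ * B * (L * #𝒜) + B * #Q := by
    refine (abs_sum_le_sum_abs _ _).trans ?_
    have : ∀ z ∈ P, |v z * T (X z)| ≤ τ * B + (if X z ∈ Bad then (B : ℝ) else 0) := by
      intro z _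
      have b1 : |v z * T (X z)| ≤ |T (X z)| := by
        rw [abs_mul]; exact mul_le_of_le_one_left (abs_nonneg _) (hu1 _)
      have b0 : 0 ≤ τ * B := by positivity
      split_ifs with hb
      · linarith [hTB (X z)]
      · have : ¬ τ * B ≤ |T (X z)| := fun h => hb (hBad _ (hXp z) h)
        linarith [not_le.1 this]
    refine (sum_le_sum this).trans (le_of_eq ?_)
    rw [sum_add_distrib, ← sum_filter, sum_const, sum_const, nsmul_eq_mul, nsmul_eq_mul, ← hQ]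
    simp only [hP, card_product, card_range]
    push_cast
    ring
  obtain ⟨S, hS⟩ : ∃ S : ℝ, S = ∑ t ∈ range L, f (u + t) := ⟨_, rfl⟩
  rw [← hS]
  have hS2 : |#𝒜 * B * S - ∑ z ∈ P, v z * T (X z)| ≤ #𝒜 * B * (16 * A * B) := by
    have e : #𝒜 * B * S - ∑ z ∈ P, v z * T (X z) =
        ∑ a ∈ 𝒜, ∑ b ∈ Icc 1 B, (S - ∑ t ∈ range L, f (u + t + 8 * (a * b))) := by
      rw [← sum_congr rfl hfac, hP, sum_product_right]
      simp only [sum_sub_distrib, sum_const, Nat.card_Icc, Nat.add_sub_cancel, nsmul_eq_mul]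
      rw [mul_assoc]
      congr 1
      exact sum_congr rfl fun a _ => sum_comm
    rw [e]
    refine (abs_sum_le_sum_abs _ _).trans ?_
    have : ∀ a ∈ 𝒜, |∑ b ∈ Icc 1 B, (S - ∑ t ∈ range L, f (u + t + 8 * (a * b)))| ≤
        B * (16 * A * B) := by
      intro a ha
      refine (abs_sum_le_sum_abs _ _).trans ?_
      have : ∀ b ∈ Icc 1 B, |S - ∑ t ∈ range L, f (u + t + 8 * (a * b))| ≤ 16 * A * B := by
        intro b hb
        rw [hS]
        refine (bur1j_shift f hf1 u L (8 * (a * b))).trans ?_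
        have a1 : (a : ℝ) ≤ A := by exact_mod_cast (h𝒜 a ha).2.1
        have a2 : (b : ℝ) ≤ B := by exact_mod_cast (mem_Icc.1 hb).2
        have a3 : (a : ℝ) * b ≤ A * B := by gcongr
        push_cast
        linarith
      refine (sum_le_sum this).trans (le_of_eq ?_)
      simp
    refine (sum_le_sum this).trans (le_of_eq ?_)
    simp only [sum_const, nsmul_eq_mul]
    ring
  have hA' : (0 : ℝ) < #𝒜 := by exact_mod_cast hne.card_pos
  have hB' : (0 : ℝ) < B := by exact_mod_cast hB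
  have hAB : (0 : ℝ) < #𝒜 * B := by positivity
  have key : #𝒜 * B * |S| ≤ #𝒜 * B * (16 * A * B) + (τ * B * (L * #𝒜) +
      B * √(W * (9 * L * #𝒜))) := by
    have t1 : |(#𝒜 : ℝ) * B * S| = #𝒜 * B * |S| := by rw [abs_mul, abs_of_pos hAB]
    have t2 := abs_sub_abs_le_abs_sub ((#𝒜 : ℝ) * B * S) (∑ z ∈ P, v z * T (X z))
    have t3 := mul_le_mul_of_nonneg_left hQ3 hB'.le
    linarith
  refine le_of_mul_le_mul_left (key.trans (le_of_eq ?_)) hAB
  field_simp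
  ring

end Pool.Agent.G27
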