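import Pool.Agent.MP_b5e119_nt.G27.Defs

namespace Pool.Agent.G27

open Finset Filter Topology Pool.Agent.G60

theorem burgg_mu {N : ℕ} (hN : N ≠ 0) (n : ℕ) :
    ∑ d ∈ N.divisors, (if d ∣ n then ArithmeticFunction.moebius d else 0) =
      if n.Coprime N then 1 else 0 := by
  have e : {d ∈ N.divisors | d ∣ n} = (n.gcd N).divisors := by
    ext d
    simp only [mem_filter, Nat.mem_divisors, Nat.dvd_gcd_iff]
    exact ⟨fun h => ⟨⟨h.2, h.1.1⟩, Nat.gcd_ne_zero_right hN⟩, fun h => ⟨⟨h.1.2, hN⟩, h.1.1⟩⟩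
  rw [← sum_filter, e, ← ArithmeticFunction.coe_mul_zeta_apply,
    ArithmeticFunction.moebius_mul_coe_zeta, ArithmeticFunction.one_apply]

theorem burgg_int (g : ℕ → ℤ) (u T d : ℕ) (hd : 0 < d) : ∃ a L : ℕ, L ≤ T ∧
    ∑ t ∈ range T, (if d ∣ u + t then g (u + t) else 0) = ∑ t ∈ range L, g (d * (a + t)) := by
  induction T with
  | zero => exact ⟨0, 0, le_rfl, by simp⟩
  | succ T _ =>
    have h1 := Nat.div_add_mod (u + d - 1) d
    have h2 := Nat.mod_lt (u + d - 1) hd
    have h3 := Nat.div_add_mod (u + T) d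
    have h4 := Nat.mod_lt (u + T) hd
    set a := (u + d - 1) / d
    set b := (u + T) / d
    have key : ∀ t, t < b + 1 - a → u ≤ d * (a + t) ∧ d * (a + t) ≤ u + T := fun t ht => by
      have h5 : d * (a + t) ≤ d * b := Nat.mul_le_mul_left _ (by omega)
      have h6 : d * a ≤ d * (a + t) := Nat.mul_le_mul_left _ (by omega)
      omega
    have hinj : Set.InjOn (fun t => d * (a + t) - u) (range (b + 1 - a) : Finset ℕ) := by
      intro t ht t' ht' h
      have h5 := key t (mem_range.1 (mem_coe.1 ht))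
      have h6 := key t' (mem_range.1 (mem_coe.1 ht'))
      have h7 : d * (a + t) = d * (a + t') := by simp only at h; omega
      have := Nat.eq_of_mul_eq_mul_left hd h7
      omega
    refine ⟨a, b + 1 - a, ?_, ?_⟩
    · have := card_le_card_of_injOn (t := range (T + 1)) _ (fun t ht => by
        have := key t (mem_range.1 (mem_coe.1 ht))
        exact mem_coe.2 (mem_range.2 (by omega))) hinj
      simpa using this
    · rw [← sum_filter]
      symm
      refine sum_nbij (fun t => d * (a + t) - u) (fun t ht => ?_) hinj (fun t ht => ?_)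
        fun t ht => ?_
      · have := key t (mem_range.1 ht)
        refine mem_filter.2 ⟨mem_range.2 (by omega), ?_⟩
        rw [Nat.add_sub_cancel' this.1]
        exact Dvd.intro _ rfl
      · obtain ⟨h5, m, hm⟩ := mem_filter.1 (mem_coe.1 ht)
        have h6 := mem_range.1 h5
        have h7 : a ≤ m := Nat.le_of_lt_succ (Nat.lt_of_mul_lt_mul_left (a := d) (by
          rw [Nat.mul_succ]; omega))
        have h8 : m ≤ b := Nat.le_of_lt_succ (Nat.lt_of_mul_lt_mul_left (a := d) (by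
          rw [Nat.mul_succ]; omega))
        refine ⟨m - a, mem_coe.2 (mem_range.2 (by omega)), ?_⟩
        simp only [Nat.add_sub_cancel' h7]
        omega
      · rw [Nat.add_sub_cancel' (key t (mem_range.1 ht)).1]

theorem burgg_sum {N : ℕ} (hN : N ≠ 0) (f g : ℕ → ℤ) (u T : ℕ) (E : ℝ)
    (hf : ∀ n, f n = if n.Coprime N then g n else 0) (hg : ∀ m n, g (m * n) = g m * g n)
    (h1 : ∀ n, |g n| ≤ 1) (hE : ∀ a L, L ≤ T → |∑ t ∈ range L, (g (a + t) : ℝ)| ≤ E) :
    |∑ t ∈ range T, (f (u + t) : ℝ)| ≤ #N.divisors * E := by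
  have e : ∑ t ∈ range T, f (u + t) = ∑ d ∈ N.divisors, ArithmeticFunction.moebius d *
      ∑ t ∈ range T, (if d ∣ u + t then g (u + t) else 0) := by
    simp only [mul_sum]
    rw [sum_comm]
    refine sum_congr rfl fun t _ => ?_
    have := burgg_mu hN (u + t)
    rw [hf, show (if (u + t).Coprime N then g (u + t) else 0) =
      (if (u + t).Coprime N then 1 else 0) * g (u + t) by split_ifs <;> simp, ← this, sum_mul]
    exact sum_congr rfl fun d _ => by split_ifs <;> simp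
  rw [← Int.cast_sum, e, Int.cast_sum]
  refine (abs_sum_le_sum_abs _ _).trans ((sum_le_card_nsmul _ _ E fun d hd => ?_).trans (by simp))
  obtain ⟨a, L, hL, h⟩ := burgg_int g u T d (Nat.pos_of_mem_divisors hd)
  have h2 := hE a L hL
  have h3 : |(ArithmeticFunction.moebius d : ℝ)| ≤ 1 := by
    exact_mod_cast ArithmeticFunction.abs_moebius_le_one
  have h4 : |(g d : ℝ)| ≤ 1 := by exact_mod_cast h1 d
  rw [h]
  simp only [hg]
  rw [← mul_sum]
  push_cast
  rw [abs_mul, abs_mul]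
  exact (mul_le_of_le_one_left (by positivity) h3).trans
    ((mul_le_of_le_one_left (abs_nonneg _) h4).trans h2)

theorem burgg_row (hT : TAU_s) (hS : STRU_s) (hB : BURJ_s) (hZ : ZER_s) : BURGG_s := by
  obtain ⟨κ, hκ, r₀, hB⟩ := hB
  obtain ⟨k, k0, k1, k2⟩ : ∃ k : ℝ, 0 < k ∧ k ≤ 1 / 1000 ∧ 2 * k ≤ 0.3 * κ :=
    ⟨min (1 / 1000) (0.15 * κ), by positivity, min_le_left _ _, by
      have := min_le_right (1 / 1000 : ℝ) (0.15 * κ); linarith⟩
  obtain ⟨C, hC, hτ⟩ := hT.2 (k / 2) (by positivity)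
  have ev1 : ∀ᶠ N : ℕ in atTop, 9 * C ≤ (N : ℝ) ^ (k / 2) :=
    ((tendsto_rpow_atTop (by positivity)).comp tendsto_natCast_atTop_atTop).eventually_ge_atTop _
  have ev2 : ∀ᶠ N : ℕ in atTop, (r₀ : ℝ) ≤ (N : ℝ) ^ (0.3 : ℝ) :=
    ((tendsto_rpow_atTop (by norm_num)).comp tendsto_natCast_atTop_atTop).eventually_ge_atTop _
  obtain ⟨N₀, h₀⟩ := eventually_atTop.1 (ev1.and ev2)
  refine ⟨k, k0, k1, N₀, fun N _ hN χ h2 h1 u T hTN => ?_⟩
  obtain ⟨e1, e2⟩ := h₀ N hN
  obtain ⟨r, w, r1, r2, r3, w1, w2, w3⟩ := hS N χ h2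
  have N0 := NeZero.ne N
  have N1 : (1 : ℝ) ≤ N := by exact_mod_cast Nat.pos_of_ne_zero N0
  have Np : (0 : ℝ) < N := by linarith
  have rN : (r : ℝ) ≤ N := by exact_mod_cast Nat.le_of_dvd (Nat.pos_of_ne_zero N0) r3
  have a1 : (N : ℝ) ^ (0.318 : ℝ) ≤ T * (N : ℝ) ^ (-(2 * k)) := by
    refine le_trans ?_ (mul_le_mul_of_nonneg_right hTN (by positivity))
    rw [← Real.rpow_add Np]
    exact Real.rpow_le_rpow_of_exponent_le N1 (by linarith)
  have p0 : (0 : ℝ) ≤ T * (N : ℝ) ^ (-(2 * k)) := by positivity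
  have hE : ∀ a L, L ≤ T → |∑ t ∈ range L,
      ((w (a + t) * jacobiSym ((a + t : ℕ) : ℤ) r : ℤ) : ℝ)| ≤ 8 * (T * (N : ℝ) ^ (-(2 * k))) := by
    intro a L hL
    rcases le_total ((N : ℝ) ^ (0.3 : ℝ)) r with h | h
    · have b1 := hB r a L w (by exact_mod_cast e2.trans h) r2 r1 w1
      have b2 : (r : ℝ) ^ (0.318 : ℝ) ≤ (N : ℝ) ^ (0.318 : ℝ) :=
        Real.rpow_le_rpow (Nat.cast_nonneg _) rN (by norm_num)
      have b3 : (r : ℝ) ^ (-κ) ≤ (N : ℝ) ^ (-(2 * k)) := by
        refine (Real.rpow_le_rpow_of_nonpos (by positivity) h (by linarith)).trans ?_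
        rw [← Real.rpow_mul Np.le]
        exact Real.rpow_le_rpow_of_exponent_le N1 (by linarith)
      have b4 : (L : ℝ) * (r : ℝ) ^ (-κ) ≤ T * (N : ℝ) ^ (-(2 * k)) :=
        mul_le_mul (by exact_mod_cast hL) b3 (by positivity) (Nat.cast_nonneg _)
      linarith
    · obtain ⟨v, hv⟩ : ∃ v : (ZMod N)ˣ, χ v ≠ 1 := by
        by_contra hc
        push Not at hc
        exact h1 (MulChar.ext fun v => by rw [hc v, MulChar.one_apply_coe])
      have c1 : (v : ZMod N).val.Coprime N := ZMod.val_coe_unit_coprime v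
      have c2 : re χ (v : ZMod N).val = -1 := by
        refine (re_unit h2 c1).resolve_left fun e => hv ?_
        have := re_coe h2 (v : ZMod N).val
        rw [e, ZMod.natCast_zmod_val] at this
        simpa using this.symm
      obtain ⟨u₀, c3, c4, c5⟩ : ∃ u₀ : ℕ, Odd u₀ ∧ u₀.Coprime N ∧ re χ u₀ = -1 := by
        rcases Nat.even_or_odd (v : ZMod N).val with h | h
        · refine ⟨(v : ZMod N).val + N, h.add_odd (Nat.not_even_iff_odd.1 fun h' => ?_), by
            simpa using c1, (re_congr χ (by simp)).trans c2⟩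
          have := Nat.eq_one_of_dvd_coprimes c1 h.two_dvd h'.two_dvd
          omega
        · exact ⟨_, h, c1, c2⟩
      have b1 := hZ r u₀ a L w r1.pos w1 w2 (Nat.Coprime.mul_right
        ((Nat.coprime_two_right.2 c3).pow_right 3) (c4.coprime_dvd_right r3))
        ((w3 u₀ c4).symm.trans c5)
      have b2 : (N : ℝ) ^ (0.3 : ℝ) ≤ (N : ℝ) ^ (0.318 : ℝ) :=
        Real.rpow_le_rpow_of_exponent_le N1 (by norm_num)
      linarith
  have main := burgg_sum N0 (re χ) (fun n => w n * jacobiSym n r) u T _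
    (fun n => by
      split_ifs with h
      · exact w3 n h
      · exact re_nonunit χ h)
    (fun m n => by simp only [w2, Nat.cast_mul, jacobiSym.mul_left]; ring)
    (fun n => by
      rw [abs_mul]
      refine mul_le_one₀ (w1.1 n) (abs_nonneg _) ?_
      rcases jacobiSym.trichotomy (n : ℤ) r with h | h | h <;> simp [h]) hE
  refine main.trans ?_
  have f1 : (N : ℝ) ^ (-k) = (N : ℝ) ^ (k / 2) * (N : ℝ) ^ (k / 2) * (N : ℝ) ^ (-(2 * k)) := by
    rw [← Real.rpow_add Np, ← Real.rpow_add Np]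
    congr 1
    ring
  calc (#N.divisors : ℝ) * (8 * (T * (N : ℝ) ^ (-(2 * k))))
      ≤ C * (N : ℝ) ^ (k / 2) * (9 * (T * (N : ℝ) ^ (-(2 * k)))) :=
        mul_le_mul (hτ N) (by linarith) (by positivity) (by positivity)
    _ = 9 * C * ((N : ℝ) ^ (k / 2) * (T * (N : ℝ) ^ (-(2 * k)))) := by ring
    _ ≤ (N : ℝ) ^ (k / 2) * ((N : ℝ) ^ (k / 2) * (T * (N : ℝ) ^ (-(2 * k)))) := by gcongr
    _ = _ := by rw [f1]; ring

end Pool.Agent.G27
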