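import Pool.Agent.MP_b5e119_nt.G27.Defs

namespace Pool.Agent.G27

open Finset Filter Topology Pool.Agent.G60

lemma burj_ceil (y : ℝ) (hy : 1 ≤ y) : ∃ A : ℕ, 0 < A ∧ y ≤ A ∧ (A : ℝ) ≤ 2 * y := by
  refine ⟨⌈y⌉₊, Nat.ceil_pos.2 (by linarith), Nat.le_ceil y, ?_⟩
  have := Nat.ceil_lt_add_one (show 0 ≤ y by linarith)
  linarith

lemma burj_mul (u K : ℝ) (a b : ℕ) (h1 : 1 ≤ u) (hK : K ≤ u) (hab : a < b) :
    K * u ^ a ≤ u ^ b := by
  have h0 : 0 ≤ u ^ a := by positivity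
  calc K * u ^ a ≤ u * u ^ a := mul_le_mul_of_nonneg_right hK h0
    _ = u ^ (a + 1) := by rw [pow_succ']
    _ ≤ u ^ b := pow_le_pow_right₀ h1 hab

lemma burj_level (s : Finset ℕ) (F : ℕ → ℝ) (t M : ℝ) (ht : 0 < t) (h : ∑ x ∈ s, F x ^ 8 ≤ M) :
    (#{x ∈ s | t ≤ |F x|} : ℝ) * t ^ 8 ≤ M := by
  refine le_trans ?_ h
  rw [← nsmul_eq_mul]
  refine (card_nsmul_le_sum _ (fun x => F x ^ 8) _ fun x hx => ?_).trans
    (sum_le_sum_of_subset_of_nonneg (filter_subset _ _) fun x _ _ => by positivity)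
  have h1 := pow_le_pow_left₀ ht.le (mem_filter.1 hx).2 8
  rwa [Even.pow_abs (by decide)] at h1

lemma burj_W (C u v B W : ℝ) (hC : 0 < C) (hu : 0 < u) (hv : 0 < v) (hB : v ≤ B)
    (h : W * (1 / (3 * u) * B) ^ 8 ≤ C * (v ^ 8 * B ^ 4 + B ^ 8 * v ^ 4)) :
    W ≤ 2 * C * 6561 * (u ^ 8 * v ^ 4) := by
  have hB0 : 0 < B := hv.trans_le hB
  have h1 : v ^ 4 ≤ B ^ 4 := pow_le_pow_left₀ hv.le hB 4
  have h2 : v ^ 8 * B ^ 4 ≤ B ^ 8 * v ^ 4 := by
    have : v ^ 4 * (v ^ 4 * B ^ 4) ≤ B ^ 4 * (v ^ 4 * B ^ 4) :=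
      mul_le_mul_of_nonneg_right h1 (by positivity)
    linarith
  have h3 : W * (1 / (3 * u) * B) ^ 8 ≤ 2 * C * 6561 * (u ^ 8 * v ^ 4) * (1 / (3 * u) * B) ^ 8 := by
    have e : 2 * C * 6561 * (u ^ 8 * v ^ 4) * (1 / (3 * u) * B) ^ 8 = C * (2 * (B ^ 8 * v ^ 4)) := by
      field_simp
      norm_num
    rw [e]
    exact h.trans (mul_le_mul_of_nonneg_left (by linarith) hC.le)
  exact le_of_mul_le_mul_right h3 (by positivity)

lemma burj_sqrt (u W N A g : ℝ) (hu : 0 < u) (hN : 0 ≤ N) (hA : 0 < A)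
    (h : 9 * u ^ 2 * W * g ^ 2 ≤ N * A) : √(W * (N * A * g ^ 2)) / A ≤ 1 / (3 * u) * N := by
  rw [div_le_iff₀ hA]
  refine Real.sqrt_le_iff.2 ⟨by positivity, ?_⟩
  have e : (1 / (3 * u) * N * A) ^ 2 = N * A / (9 * u ^ 2) * (N * A) := by
    field_simp
    ring
  have e2 : W * (N * A * g ^ 2) = N * A / (9 * u ^ 2) * (9 * u ^ 2 * W * g ^ 2) := by
    field_simp
  rw [e, e2]
  exact mul_le_mul_of_nonneg_left h (by positivity)

lemma burj_blocks (F : ℕ → ℝ) (η : ℝ) (K : ℕ) (hK : 0 < K) (hη : 0 ≤ η) (hF : ∀ n, |F n| ≤ 1)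
    (h : ∀ a, |∑ t ∈ range K, F (a + t)| ≤ η * K) (L : ℕ) :
    ∀ a, |∑ t ∈ range L, F (a + t)| ≤ K + η * L := by
  induction L using Nat.strong_induction_on with
  | _ L ih =>
    intro a
    rcases le_or_gt L K with hL | hL
    · have h1 : |∑ t ∈ range L, F (a + t)| ≤ ∑ _t ∈ range L, (1 : ℝ) :=
        (abs_sum_le_sum_abs _ _).trans (sum_le_sum fun t _ => hF _)
      simp only [sum_const, card_range, nsmul_eq_mul, mul_one] at h1
      have h2 : (L : ℝ) ≤ K := by exact_mod_cast hL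
      have h3 : 0 ≤ η * L := by positivity
      linarith
    · obtain ⟨L', rfl⟩ := Nat.exists_eq_add_of_le hL.le
      rw [sum_range_add]
      have h1 := ih L' (by omega) (a + K)
      simp only [add_assoc] at h1
      have h2 := h a
      have h3 := abs_add_le (∑ t ∈ range K, F (a + t)) (∑ t ∈ range L', F (a + (K + t)))
      push_cast
      linarith

lemma burj_log (n k : ℕ) (u : ℝ) (hn : 0 < n) (hu : 0 < u) (h : (n : ℝ) ≤ u ^ k) :
    (Nat.log 2 n : ℝ) ≤ 2 * k * u := by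
  have h1 : ((2 : ℝ)) ^ Nat.log 2 n ≤ u ^ k := by
    refine le_trans ?_ h
    exact_mod_cast Nat.pow_log_le_self 2 hn.ne'
  have h2 := Real.log_le_log (by positivity) h1
  rw [Real.log_pow, Real.log_pow] at h2
  have h3 := Real.log_two_gt_d9
  have h4 : Real.log u ≤ u := (Real.log_le_sub_one_of_pos hu).trans (by linarith)
  have h5 : (k : ℝ) * Real.log u ≤ k * u := mul_le_mul_of_nonneg_left h4 (Nat.cast_nonneg k)
  have h6 : (0 : ℝ) ≤ Nat.log 2 n := Nat.cast_nonneg _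
  nlinarith

lemma burj_card (hC : CHEB_s) (r A : ℕ) (hr : 0 < r) :
    #{q ∈ range (A + 1) | q.Prime} ≤ #{q ∈ range (A + 1) | q.Prime ∧ ¬q ∣ r} + Nat.log 2 r := by
  refine le_trans (card_le_card ?_) ((card_union_le _ _).trans (Nat.add_le_add_left (hC.2.2 r hr) _))
  intro q hq
  rw [mem_filter] at hq
  rw [mem_union, mem_filter, mem_filter, Nat.mem_divisors]
  by_cases h : q ∣ r
  · exact Or.inr ⟨⟨h, hr.ne'⟩, hq.2⟩
  · exact Or.inl ⟨hq.1, hq.2, h⟩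

theorem burj_row (hCHEB : CHEB_s) (hMOMJ : MOMJ_s) (hBUR1J : BUR1J_s) : BURJ_s := by
  obtain ⟨C, hC, hM⟩ := hMOMJ (1 / 8000) (by norm_num)
  obtain ⟨K, hK⟩ : ∃ K : ℝ, K = 16000 + 81 * (2 * C * 6561) := ⟨_, rfl⟩
  have hK24 : 16000 ≤ K := by rw [hK]; nlinarith
  have hKC : 81 * (2 * C * 6561) ≤ K := by rw [hK]; linarith
  refine ⟨1 / 8000, by norm_num, ⌈K ^ 8000⌉₊ + 3, fun p a L w hp hsq hodd hw => ?_⟩
  have hp0 : 0 < p := by omega
  have hP : (0 : ℝ) < p := by exact_mod_cast hp0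
  obtain ⟨u, hu⟩ : ∃ u : ℝ, u = (p : ℝ) ^ (1 / 8000 : ℝ) := ⟨_, rfl⟩
  have hu0 : 0 < u := by rw [hu]; exact Real.rpow_pos_of_pos hP _
  have hk : ∀ k : ℕ, u ^ k = (p : ℝ) ^ ((k : ℝ) / 8000) := by
    intro k
    rw [hu, ← Real.rpow_natCast, ← Real.rpow_mul hP.le]
    congr 1
    ring
  have hpu : (p : ℝ) = u ^ 8000 := by rw [hk]; norm_num
  have hKu : K ≤ u := by
    have h1 : K ^ 8000 ≤ u ^ 8000 := by
      rw [← hpu]
      refine (Nat.le_ceil _).trans ?_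
      exact_mod_cast (by omega : ⌈K ^ 8000⌉₊ ≤ p)
    exact le_of_pow_le_pow_left₀ (by norm_num) hu0.le h1
  have hu24 : 16000 ≤ u := hK24.trans hKu
  have hu1 : 1 ≤ u := by linarith
  have hκ : (p : ℝ) ^ (-(1 / 8000 : ℝ)) = 1 / u := by
    rw [Real.rpow_neg hP.le, ← hu, one_div]
  have h318 : (p : ℝ) ^ (0.318 : ℝ) = u ^ 2544 := by
    rw [hk]
    norm_num
  have hsqrt : √(p : ℝ) = u ^ 4000 := by
    rw [hpu, show 8000 = 4000 * 2 by rfl, pow_mul, Real.sqrt_sq (by positivity)]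
  rw [hκ, h318]
  obtain ⟨N, hN0, hN1, hN2⟩ := burj_ceil (u ^ 2544) (one_le_pow₀ hu1)
  obtain ⟨A, hA0, hA1, hA2⟩ := burj_ceil (u ^ 1500) (one_le_pow₀ hu1)
  obtain ⟨B, hB0, hB1, hB2⟩ := burj_ceil (u ^ 1000) (one_le_pow₀ hu1)
  have hAr : (0 : ℝ) < A := by exact_mod_cast hA0
  have hBr : (0 : ℝ) < B := by exact_mod_cast hB0
  have hNr : (0 : ℝ) ≤ N := Nat.cast_nonneg N
  have hA3 : (A : ℝ) ≤ u ^ 1501 :=
    hA2.trans (burj_mul u 2 1500 1501 hu1 (by linarith) (by norm_num))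
  have hN3 : (N : ℝ) ≤ u ^ 2545 :=
    hN2.trans (burj_mul u 2 2544 2545 hu1 (by linarith) (by norm_num))
  have hAN : A ≤ N := by
    exact_mod_cast hA3.trans ((pow_le_pow_right₀ hu1 (by norm_num)).trans hN1)
  have hNA : N * A ≤ p := by
    have h1 : (N : ℝ) * A ≤ u ^ 2545 * u ^ 1501 := mul_le_mul hN3 hA3 hAr.le (by positivity)
    rw [← pow_add] at h1
    have h2 : u ^ (2545 + 1501) ≤ (p : ℝ) := by
      rw [hpu]; exact pow_le_pow_right₀ hu1 (by norm_num)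
    exact_mod_cast h1.trans h2
  obtain ⟨P, hPd⟩ : ∃ P : Finset ℕ, P = {q ∈ range (A + 1) | q.Prime ∧ ¬q ∣ p} := ⟨_, rfl⟩
  have hPm : ∀ q ∈ P, q.Prime ∧ q ≤ A ∧ ¬q ∣ p := by
    intro q hq
    rw [hPd, mem_filter, mem_range] at hq
    exact ⟨hq.2.1, by omega, hq.2.2⟩
  have hPc : u ^ 1497 ≤ (#P : ℝ) := by
    have hA4 : 2 ≤ A := by
      have : (2 : ℝ) ≤ A := by
        have := burj_mul u 2 0 1500 hu1 (by linarith) (by norm_num)
        rw [pow_zero, mul_one] at this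
        exact this.trans hA1
      exact_mod_cast this
    have h1 : (A : ℝ) ≤ 4 * Nat.log 2 A * #{q ∈ range (A + 1) | q.Prime} := by
      exact_mod_cast hCHEB.1 A hA4
    have h2 : (#{q ∈ range (A + 1) | q.Prime} : ℝ) ≤ #P + Nat.log 2 p := by
      rw [hPd]; exact_mod_cast burj_card hCHEB p A hp0
    have h3 := burj_log A 1501 u hA0 hu0 hA3
    have h4 := burj_log p 8000 u hp0 hu0 hpu.le
    push_cast at h3 h4
    generalize (#{q ∈ range (A + 1) | q.Prime} : ℝ) = π₀ at h1 h2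
    have hπ : 0 ≤ π₀ := by
      by_contra hneg
      have h5 : (0 : ℝ) ≤ 4 * Nat.log 2 A := by positivity
      have := mul_nonpos_of_nonneg_of_nonpos h5 (not_le.1 hneg).le
      linarith
    have h5 : 4 * (Nat.log 2 A : ℝ) ≤ u * u := by nlinarith
    have h6 : u ^ 1498 * (u * u) ≤ π₀ * (u * u) := by
      have e : u ^ 1498 * (u * u) = u ^ 1500 := by ring
      rw [e]
      have := mul_le_mul_of_nonneg_right h5 hπ
      linarith
    have h7 : u ^ 1498 ≤ π₀ := le_of_mul_le_mul_right h6 (by positivity)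
    have h8 := burj_mul u 2 1497 1498 hu1 (by linarith) (by norm_num)
    have h9 := burj_mul u 16000 1 1497 hu1 hu24 (by norm_num)
    rw [pow_one] at h9
    linarith
  have hPr : (0 : ℝ) < #P := lt_of_lt_of_le (by positivity) hPc
  have hPn : P.Nonempty := card_pos.1 (by exact_mod_cast hPr)
  have hτ : 0 < 1 / (3 * u) := by positivity
  have hW := burj_level _ _ _ _ (mul_pos hτ hBr) (hM p B hsq hodd)
  have e1 : C * (p : ℝ) ^ (1 / 8000 : ℝ) * ((p : ℝ) * B ^ 4 + B ^ 8 * √p) =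
      C * u * ((u ^ 1000) ^ 8 * B ^ 4 + B ^ 8 * (u ^ 1000) ^ 4) := by
    rw [hsqrt, ← pow_mul, ← pow_mul, ← hpu, ← hu]
  rw [e1] at hW
  have hW2 := burj_W (C * u) u (u ^ 1000) B _ (by positivity) hu0 (by positivity) hB1 hW
  have h2 := burj_sqrt u (2 * (C * u) * 6561 * (u ^ 8 * (u ^ 1000) ^ 4)) N #P 3 hu0 hNr hPr
    (by
      have h1 : u ^ 2544 * u ^ 1497 ≤ (N : ℝ) * #P := mul_le_mul hN1 hPc (by positivity) hNr
      rw [← pow_add] at h1
      have h3 := burj_mul u _ 4011 (2544 + 1497) hu1 (hKC.trans hKu) (by norm_num)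
      refine le_trans (le_of_eq ?_) (h3.trans h1)
      ring)
  have h3 : 16 * (A : ℝ) * B ≤ 1 / (3 * u) * N := by
    rw [one_div_mul_eq_div, le_div_iff₀ (by positivity)]
    have h1 : (A : ℝ) * B ≤ 2 * u ^ 1500 * (2 * u ^ 1000) :=
      mul_le_mul hA2 hB2 hBr.le (by positivity)
    have h4 := burj_mul u 192 2501 2544 hu1 (by linarith) (by norm_num)
    have h5 := mul_le_mul_of_nonneg_right h1 hu0.le
    have e : 2 * u ^ 1500 * (2 * u ^ 1000) * u = 4 * u ^ 2501 := by ring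
    rw [e] at h5
    have e2 : 16 * (A : ℝ) * B * (3 * u) = 48 * (A * B * u) := by ring
    rw [e2]
    linarith
  have e4 : (N : ℝ) * #P * 3 ^ 2 = 9 * N * #P := by ring
  rw [e4] at h2
  have key := burj_blocks (fun n => ((w n * jacobiSym (n : ℤ) p : ℤ) : ℝ)) (1 / u) N hN0
    (by positivity) (fun n => by
      have h1 : |w n * jacobiSym (n : ℤ) p| ≤ 1 := by
        rw [abs_mul]
        refine mul_le_one₀ (hw.1 n) (abs_nonneg _) ?_
        rcases jacobiSym.trichotomy (n : ℤ) p with e | e | e <;> simp [e]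
      exact_mod_cast h1) (fun b => by
      refine (hBUR1J p b N A B P w _ _ hodd hw hPm hPn hAN hNA hB0 hτ hW2).trans ?_
      have e3 : 1 / u * (N : ℝ) = 3 * (1 / (3 * u) * N) := by field_simp
      rw [e3]
      linarith) L a
  have e5 : (L : ℝ) * (1 / u) = 1 / u * L := mul_comm _ _
  rw [e5]
  exact key.trans (by linarith)

end Pool.Agent.G27
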