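import Pool.Agent.MP_b5e119_nt.G27.Defs

namespace Pool.Agent.G27

open Finset Filter Topology Pool.Agent.G60

theorem cha_sub (N : ℕ) {i j : ℕ} (h : i ≤ j) : QQ N i ⊆ QQ N j := fun q hq => by
  have h1 := mem_filter.1 hq
  have h2 := mem_filter.1 h1.1
  have h3 := mem_range.1 h2.1
  have h4 := Nat.pow_le_pow_right (show 0 < 2 by norm_num) h
  exact mem_filter.2 ⟨mem_filter.2 ⟨mem_range.2 (by omega), h2.2⟩, h1.2⟩

theorem cha_sq (x y : ℂ) {t : ℝ} (ht : 0 < t) :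
    ‖x - y‖ ^ 2 ≤ (1 + 1 / t) * ‖x‖ ^ 2 + (1 + t) * ‖y‖ ^ 2 := by
  have h1 := pow_le_pow_left₀ (norm_nonneg _) (norm_sub_le x y) 2
  have h2 : 0 ≤ (‖x‖ - t * ‖y‖) ^ 2 / t := by positivity
  have h3 : (‖x‖ - t * ‖y‖) ^ 2 / t = 1 / t * ‖x‖ ^ 2 + t * ‖y‖ ^ 2 - 2 * ‖x‖ * ‖y‖ := by
    field_simp
    ring
  nlinarith

theorem cha_step (g : ℕ → ℂ) (A B : Finset ℕ) (hA : (0 : ℝ) < #A) (hB : (0 : ℝ) < #B) {t : ℝ}
    (ht : 0 < t) : (∑ q ∈ B, ‖g q + 1‖ ^ 2) / #B ≤ (1 + 1 / t) * ((∑ q ∈ A, ‖g q + 1‖ ^ 2) / #A) +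
      (1 + t) * ((∑ q ∈ A, ∑ q' ∈ B, ‖g q - g q'‖ ^ 2) / ((#A : ℝ) * #B)) := by
  have h1 : ∑ q ∈ A, ∑ q' ∈ B, ‖g q' + 1‖ ^ 2 ≤
      ∑ q ∈ A, ∑ q' ∈ B, ((1 + 1 / t) * ‖g q + 1‖ ^ 2 + (1 + t) * ‖g q - g q'‖ ^ 2) := by
    refine sum_le_sum fun q _ => sum_le_sum fun q' _ => ?_
    have e : g q' + 1 = (g q + 1) - (g q - g q') := by ring
    rw [e]
    exact cha_sq _ _ ht
  simp only [sum_add_distrib, sum_const, nsmul_eq_mul, ← mul_sum] at h1
  rw [div_le_iff₀ hB]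
  refine le_of_mul_le_mul_left (h1.trans (le_of_eq ?_)) hA
  field_simp

theorem cha_alg {a b c D d t : ℝ} {k : ℕ} (ht : 0 < t) (hd : 0 ≤ d)
    (h1 : a ≤ (1 + 1 / t) * b + (1 + t) * d) (ih : b ≤ (1 + 1 / t) ^ k * (c + (1 + t) * D)) :
    a ≤ (1 + 1 / t) ^ (k + 1) * (c + (1 + t) * (D + d)) := by
  have h3 : (1 : ℝ) ≤ 1 + 1 / t := le_add_of_nonneg_right (by positivity)
  have h4 : (1 : ℝ) ≤ (1 + 1 / t) ^ (k + 1) := one_le_pow₀ h3
  have h5 := mul_le_mul_of_nonneg_left ih (zero_le_one.trans h3)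
  have h6 := mul_le_mul_of_nonneg_right h4 (mul_nonneg (show 0 ≤ 1 + t by linarith) hd)
  rw [pow_succ] at h6 ⊢
  generalize 1 + 1 / t = u at *
  generalize u ^ k = v at *
  linarith

theorem cha_chain (N : ℕ) (χ : Ch N) (j₀ : ℕ) (h : (QQ N j₀).Nonempty) {t : ℝ} (ht : 0 < t) (k : ℕ) :
    aa N χ (j₀ + k) ≤ (1 + 1 / t) ^ k * (aa N χ j₀ + (1 + t) * DD N χ j₀ (j₀ + k)) := by
  have hp : ∀ j, j₀ ≤ j → (0 : ℝ) < #(QQ N j) := fun j hj => by
    exact_mod_cast card_pos.2 (h.mono (cha_sub N hj))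
  induction k with
  | zero =>
    unfold DD
    rw [add_zero, Ico_self, sum_empty, pow_zero, mul_zero, add_zero, one_mul]
  | succ k ih =>
    have h1 := cha_step (fun q => χ (q : ZMod N)) (QQ N (j₀ + k)) (QQ N (j₀ + k + 1))
      (hp _ (by omega)) (hp _ (by omega)) ht
    rw [← add_assoc]
    unfold DD aa at *
    rw [sum_Ico_succ_top (Nat.le_add_right j₀ k)]
    exact cha_alg ht (div_nonneg (sum_nonneg fun _ _ => sum_nonneg fun _ _ => sq_nonneg _)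
      (mul_nonneg (Nat.cast_nonneg _) (Nat.cast_nonneg _))) h1 ih

theorem cha_row : CHA_s := by
  refine ⟨fun N χ j₀ j l hl h1 h2 h => ?_, fun N _ χ j h hL => ?_⟩
  · obtain ⟨k, rfl⟩ := Nat.exists_eq_add_of_le h1
    have h0 : (0 : ℝ) < l := by exact_mod_cast hl
    have h3 : (k : ℝ) ≤ l := by exact_mod_cast (show k ≤ l by omega)
    have h4 : (1 + 1 / (l : ℝ)) ^ k ≤ 3 := by
      have h5 : 1 + 1 / (l : ℝ) ≤ Real.exp (1 / l) := by linarith [Real.add_one_le_exp (1 / (l : ℝ))]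
      have h6 := pow_le_pow_left₀ (by positivity) h5 k
      rw [← Real.exp_nat_mul] at h6
      have h7 : (k : ℝ) * (1 / l) ≤ 1 := by
        rw [mul_one_div, div_le_one h0]
        exact h3
      linarith [Real.exp_le_exp.2 h7, Real.exp_one_lt_d9]
    refine (cha_chain N χ j₀ h h0 k).trans (mul_le_mul_of_nonneg_right h4 ?_)
    unfold aa DD
    refine add_nonneg (div_nonneg (sum_nonneg fun _ _ => sq_nonneg _) (Nat.cast_nonneg _))
      (mul_nonneg (by linarith) (sum_nonneg fun _ _ => div_nonneg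
        (sum_nonneg fun _ _ => sum_nonneg fun _ _ => sq_nonneg _)
        (mul_nonneg (Nat.cast_nonneg _) (Nat.cast_nonneg _))))
  · classical
    have h0 : (0 : ℝ) < #(QQ N j) := by exact_mod_cast card_pos.2 h
    have h1 : (∑ q ∈ QQ N j, -χ (q : ZMod N)).re < (#(QQ N j) : ℝ) / 2 := by
      by_contra h2
      exact hL (mem_filter.2 ⟨mem_univ _, not_lt.1 h2⟩)
    have h2 : ∀ q ∈ QQ N j, ‖χ (q : ZMod N) + 1‖ ^ 2 = 2 - 2 * (-χ (q : ZMod N)).re := by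
      intro q hq
      have h3 := mem_filter.1 hq
      have h4 : q.Coprime N := (Nat.Prime.coprime_iff_not_dvd (mem_filter.1 h3.1).2).2 h3.2
      have h5 : ‖χ (q : ZMod N)‖ = 1 := χ.unit_norm_eq_one (ZMod.unitOfCoprime q h4)
      have h6 := Complex.sq_norm (χ (q : ZMod N))
      rw [h5, Complex.normSq_apply] at h6
      rw [Complex.sq_norm, Complex.normSq_apply]
      simp only [Complex.add_re, Complex.add_im, Complex.one_re, Complex.one_im, Complex.neg_re]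
      linarith
    unfold aa
    rw [le_div_iff₀ h0, sum_congr rfl h2, sum_sub_distrib, ← mul_sum, ← Complex.re_sum, sum_const,
      nsmul_eq_mul]
    linarith

end Pool.Agent.G27
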