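import Pool.Agent.MP_b5e119_nt.G27.Defs

namespace Pool.Agent.G27

open Finset Filter Topology Pool.Agent.G60

theorem chng_ff (p : ℕ) [NeZero p] {u : ℕ} (h0 : 0 < u) (h : u < p) :
    ff p (u : ZMod p) = lam u := by
  rw [ff, if_neg, ZMod.val_cast_of_lt h]
  rw [ZMod.natCast_eq_zero_iff]
  exact Nat.not_dvd_of_pos_of_lt h0 h

theorem chng_cnt (hC : CHEB_s) (p : ℕ) [NeZero p] (w : ZMod p → ℝ) (hw : ∀ a, 0 ≤ w a)
    (P : Finset ℕ) (Y : ℕ) (hP : ∀ q ∈ P, q.Prime ∧ q * Y < p) :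
    ∑ q ∈ P, ∑ n ∈ Icc 1 Y, w ((q * n : ℕ) : ZMod p) ≤ Nat.log 2 p * ∑ a, w a := by
  have h1 : ∀ q ∈ P, ∑ n ∈ Icc 1 Y, w ((q * n : ℕ) : ZMod p) ≤
      ∑ u ∈ Ico 1 p, if q ∣ u then w (u : ZMod p) else 0 := fun q hq => by
    obtain ⟨a, b⟩ := hP q hq
    rw [← sum_filter, ← sum_image (s := Icc 1 Y) (g := fun n => q * n)
      (f := fun u : ℕ => w (u : ZMod p)) fun x _ y _ e => Nat.eq_of_mul_eq_mul_left a.pos e]
    refine sum_le_sum_of_subset_of_nonneg (fun u hu => ?_) fun u _ _ => hw _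
    obtain ⟨n, hn, rfl⟩ := mem_image.1 hu
    rw [mem_Icc] at hn
    exact mem_filter.2 ⟨mem_Ico.2 ⟨Nat.mul_pos a.pos hn.1,
      (Nat.mul_le_mul_left q hn.2).trans_lt b⟩, dvd_mul_right q n⟩
  have h2 : ∑ u ∈ Ico 1 p, w (u : ZMod p) ≤ ∑ a, w a := by
    rw [← sum_image (s := Ico 1 p) (g := fun u : ℕ => (u : ZMod p)) (f := w) fun x hx y hy e => by
      have := congrArg ZMod.val e
      rwa [ZMod.val_cast_of_lt (mem_Ico.1 hx).2, ZMod.val_cast_of_lt (mem_Ico.1 hy).2] at this]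
    exact sum_le_univ_sum_of_nonneg hw
  refine (sum_le_sum h1).trans ?_
  rw [sum_comm]
  refine le_trans ?_ (mul_le_mul_of_nonneg_left h2 (Nat.cast_nonneg _))
  rw [mul_sum]
  refine sum_le_sum fun u hu => ?_
  rw [mem_Ico] at hu
  rw [← sum_filter, sum_const, nsmul_eq_mul]
  refine mul_le_mul_of_nonneg_right ?_ (hw _)
  have : #{q ∈ P | q ∣ u} ≤ #{q ∈ u.divisors | q.Prime} := card_le_card fun q hq =>
    mem_filter.2 ⟨Nat.mem_divisors.2 ⟨(mem_filter.1 hq).2, by omega⟩, (hP q (mem_filter.1 hq).1).1⟩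
  exact_mod_cast this.trans ((hC.2.2 u hu.1).trans (Nat.log_mono_right hu.2.le))

open Classical in
theorem chng_pair (hP : PARG_s) (hL : LOCG_s) (N : ℕ) [NeZero N] (Λ : Finset (Ch N)) (Y : ℕ)
    (h2 : 2 * #Λ * WW N ≤ UN N Y) (G : ZMod N → ℂ)
    (hG : ∀ a, G a = ∑ χ ∈ Λᶜ, cu N (fun a => (ff N a : ℂ)) χ * χ a) {q q' : ℕ} (hq : q.Prime)
    (hq' : q'.Prime) (d : ¬q ∣ N) (d' : ¬q' ∣ N) (k : q * Y < N) (k' : q' * Y < N) :
    (UN N Y : ℝ) / 2 * ∑ χ ∈ Λ, nu N χ * ‖χ (q : ZMod N) - χ (q' : ZMod N)‖ ^ 2 ≤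
      2 * ∑ n ∈ Icc 1 Y, ‖G ((q * n : ℕ) : ZMod N)‖ ^ 2 +
        2 * ∑ n ∈ Icc 1 Y, ‖G ((q' * n : ℕ) : ZMod N)‖ ^ 2 := by
  have a := hL N Λ (fun χ => cu N (fun a => (ff N a : ℂ)) χ * (χ (q : ZMod N) - χ (q' : ZMod N)))
    Y h2
  simp only [norm_mul, mul_pow] at a
  refine a.trans ?_
  rw [mul_sum, mul_sum, ← sum_add_distrib]
  refine sum_le_sum fun n hn => ?_
  rw [mem_Icc] at hn
  by_cases hc : n.Coprime N
  swap
  · rw [sum_eq_zero fun χ _ => by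
      rw [MulChar.map_nonunit χ (mt (ZMod.isUnit_iff_coprime n N).1 hc), mul_zero],
      norm_zero, zero_pow two_ne_zero]
    positivity
  have e : ∀ r : ℕ, r.Prime → ¬r ∣ N → r * Y < N →
      ∑ χ ∈ Λ, cu N (fun a => (ff N a : ℂ)) χ * χ ((r * n : ℕ) : ZMod N) +
        G ((r * n : ℕ) : ZMod N) = ((-lam n : ℤ) : ℂ) := fun r hr dr kr => by
    rw [hG, sum_add_sum_compl, ← (hP N).1 (fun a => (ff N a : ℂ)) _
      ((ZMod.isUnit_iff_coprime _ N).2 (Nat.Coprime.mul_left (hr.coprime_iff_not_dvd.2 dr) hc)),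
      chng_ff N (Nat.mul_pos hr.pos hn.1) ((Nat.mul_le_mul_left r hn.2).trans_lt kr),
      lam_mul hr.ne_zero (by omega), lam_prime hr, neg_one_mul]
  have e2 : ∑ χ ∈ Λ, cu N (fun a => (ff N a : ℂ)) χ * (χ (q : ZMod N) - χ (q' : ZMod N)) *
      χ (n : ZMod N) = G ((q' * n : ℕ) : ZMod N) - G ((q * n : ℕ) : ZMod N) := by
    have := (e q hq d k).trans (e q' hq' d' k').symm
    rw [show G ((q' * n : ℕ) : ZMod N) - G ((q * n : ℕ) : ZMod N) =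
      ∑ χ ∈ Λ, cu N (fun a => (ff N a : ℂ)) χ * χ ((q * n : ℕ) : ZMod N) -
        ∑ χ ∈ Λ, cu N (fun a => (ff N a : ℂ)) χ * χ ((q' * n : ℕ) : ZMod N) by
          linear_combination -this, ← sum_sub_distrib]
    refine sum_congr rfl fun χ _ => ?_
    rw [Nat.cast_mul, Nat.cast_mul, map_mul, map_mul]
    ring
  rw [e2]
  have := norm_sub_le (G ((q' * n : ℕ) : ZMod N)) (G ((q * n : ℕ) : ZMod N))
  have := pow_le_pow_left₀ (norm_nonneg _) this 2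
  nlinarith [sq_nonneg (‖G ((q' * n : ℕ) : ZMod N)‖ - ‖G ((q * n : ℕ) : ZMod N)‖)]

theorem chng_W (N : ℕ) (h : 1 < N) : 2 * √N + 1 ≤ WW N ∧ 1 ≤ WW N := by
  have a : (1 : ℝ) ≤ N := by exact_mod_cast h.le
  have b : (1 : ℝ) ≤ √N := Real.one_le_sqrt.2 a
  have c := Real.log_nonneg a
  have d := mul_nonneg (by linarith : (0 : ℝ) ≤ √N) c
  unfold WW
  constructor <;> nlinarith

theorem chng_U (hT : TAU_s) (hU : UNI_s) (N j : ℕ) (h : 1 < N) :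
    (N.totient : ℝ) ≤ 2 ^ (j + 1) * (UN N ((N - 1) / 2 ^ (j + 1)) + WW N) := by
  obtain ⟨Y, hY⟩ : ∃ Y, Y = (N - 1) / 2 ^ (j + 1) := ⟨_, rfl⟩
  rw [← hY]
  have x2 : N - 1 < 2 ^ (j + 1) * (Y + 1) := hY ▸ Nat.lt_mul_div_succ _ (by positivity)
  have x3 : (N : ℝ) ≤ 2 ^ (j + 1) * (Y + 1) := by
    have : N ≤ 2 ^ (j + 1) * (Y + 1) := by omega
    exact_mod_cast this
  have n0 : (0 : ℝ) < N := by exact_mod_cast (by omega : 0 < N)
  have u := (hU N (by omega)).2 Y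
  have t := hT.1 N
  have w := (chng_W N h).1
  have r0 : (0 : ℝ) ≤ N.totient / N := by positivity
  have r1 : (N.totient : ℝ) / N ≤ 1 := (div_le_one n0).2 (Nat.cast_le.2 N.totient_le)
  have e : (N.totient : ℝ) = N * (N.totient / N) := by field_simp
  rw [mul_div_assoc] at u
  generalize (N.totient : ℝ) / N = ρ at *
  have t0 : (0 : ℝ) < 2 ^ (j + 1) := by positivity
  rw [e]
  refine (mul_le_mul_of_nonneg_right x3 r0).trans ?_
  rw [mul_assoc]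
  refine mul_le_mul_of_nonneg_left ?_ t0.le
  nlinarith

open Classical in
theorem chng_level (hC : CHEB_s) (hT : TAU_s) (hU : UNI_s) (hP : PARG_s) (hL : LOCG_s) (N : ℕ)
    [NeZero N] (Λ : Finset (Ch N)) (j : ℕ) (hN : 1 < N) (ch' : 2 ^ j ≤ 8 * j * #(QQ N j))
    (h : (2 : ℝ) ^ (j + 4) * (2 * #Λ + 1) * WW N ≤ N.totient) :
    ∑ χ ∈ Λ, nu N χ * ((∑ q ∈ QQ N j, ∑ q' ∈ QQ N (j + 1),
      ‖χ (q : ZMod N) - χ (q' : ZMod N)‖ ^ 2) / ((#(QQ N j) : ℝ) * #(QQ N (j + 1)))) ≤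
      256 * j * Nat.log 2 N * ∑ χ ∈ Λᶜ, nu N χ := by
  have u0 := chng_U hT hU N j hN
  obtain ⟨Y, hY⟩ : ∃ Y, Y = (N - 1) / 2 ^ (j + 1) := ⟨_, rfl⟩
  rw [← hY] at u0
  have x1 : 2 ^ (j + 1) * Y ≤ N - 1 := hY ▸ Nat.mul_div_le _ _
  have w1 := (chng_W N hN).2
  have s0 : (0 : ℝ) ≤ #Λ * WW N := by positivity
  have t0 : (0 : ℝ) < 2 ^ (j + 1) := by positivity
  have x4 : 8 * (2 * #Λ + 1) * WW N ≤ UN N Y + WW N := by
    refine le_of_mul_le_mul_left (a := (2 : ℝ) ^ (j + 1)) (le_trans (le_of_eq ?_) (h.trans u0)) t0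
    ring
  have x5 : WW N ≤ UN N Y := by nlinarith
  have x6 : 2 * #Λ * WW N ≤ UN N Y := by nlinarith
  have kq : ∀ q ∈ QQ N (j + 1), q.Prime ∧ q * Y < N := fun q hq => by
    obtain ⟨a, b⟩ := mem_filter.1 (mem_filter.1 hq).1
    have : q * Y ≤ 2 ^ (j + 1) * Y :=
      Nat.mul_le_mul_right _ (Nat.lt_succ_iff.1 (mem_range.1 a))
    exact ⟨b, (this.trans x1).trans_lt (by omega)⟩
  have sb : QQ N j ⊆ QQ N (j + 1) := filter_subset_filter _ (filter_subset_filter _ (range_mono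
    (Nat.succ_le_succ (Nat.pow_le_pow_right two_pos j.le_succ))))
  obtain ⟨G, hG⟩ : ∃ G : ZMod N → ℂ,
      ∀ a, G a = ∑ χ ∈ Λᶜ, cu N (fun a => (ff N a : ℂ)) χ * χ a := ⟨_, fun _ => rfl⟩
  have g1 : ∑ a, ‖G a‖ ^ 2 = (N.totient : ℝ) * ∑ χ ∈ Λᶜ, nu N χ := by
    have := (hP N).2 fun χ => if χ ∈ Λᶜ then cu N (fun a => (ff N a : ℂ)) χ else 0
    simp only [ite_mul, zero_mul, sum_ite_mem, univ_inter, apply_ite (fun z : ℂ => ‖z‖ ^ 2),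
      norm_zero, zero_pow two_ne_zero] at this
    simp only [hG, nu]
    exact this
  have c1 := chng_cnt hC N (fun a => ‖G a‖ ^ 2) (fun _ => sq_nonneg _) _ _ kq
  have c2 := chng_cnt hC N (fun a => ‖G a‖ ^ 2) (fun _ => sq_nonneg _) _ _ fun q hq => kq q (sb hq)
  rw [g1] at c1 c2
  have m := sum_le_sum fun q (hq : q ∈ QQ N j) => sum_le_sum fun q' (hq' : q' ∈ QQ N (j + 1)) =>
    chng_pair hP hL N Λ Y x6 G hG (kq q (sb hq)).1 (kq q' hq').1 (mem_filter.1 hq).2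
      (mem_filter.1 hq').2 (kq q (sb hq)).2 (kq q' hq').2
  simp only [sum_add_distrib, sum_const, nsmul_eq_mul, ← mul_sum] at m
  have e : ∑ χ ∈ Λ, nu N χ * ((∑ q ∈ QQ N j, ∑ q' ∈ QQ N (j + 1),
      ‖χ (q : ZMod N) - χ (q' : ZMod N)‖ ^ 2) / ((#(QQ N j) : ℝ) * #(QQ N (j + 1)))) =
      (∑ q ∈ QQ N j, ∑ q' ∈ QQ N (j + 1), ∑ χ ∈ Λ, nu N χ *
        ‖χ (q : ZMod N) - χ (q' : ZMod N)‖ ^ 2) / ((#(QQ N j) : ℝ) * #(QQ N (j + 1))) := by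
    simp only [← mul_div_assoc, ← sum_div, mul_sum]
    rw [sum_comm]
    exact congrArg (· / _) (sum_congr rfl fun _ _ => sum_comm)
  rw [e]
  have ch : (2 : ℝ) ^ j ≤ 8 * j * #(QQ N j) := by exact_mod_cast ch'
  have ab : (#(QQ N j) : ℝ) ≤ #(QQ N (j + 1)) := Nat.cast_le.2 (card_le_card sb)
  have e0 : 0 ≤ ∑ χ ∈ Λᶜ, nu N χ := sum_nonneg fun _ _ => sq_nonneg _
  have j0 : (0 : ℝ) < 2 ^ j := by positivity
  have a0 : (0 : ℝ) < #(QQ N j) := by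
    by_contra n
    have : 8 * (j : ℝ) * #(QQ N j) ≤ 0 := mul_nonpos_of_nonneg_of_nonpos (by positivity) (not_lt.1 n)
    linarith
  have l0 : (0 : ℝ) ≤ Nat.log 2 N := Nat.cast_nonneg _
  have X0 : (0 : ℝ) < UN N Y := by linarith
  have pp : (N.totient : ℝ) ≤ 32 * j * #(QQ N j) * UN N Y := by
    rw [pow_succ] at u0
    nlinarith [mul_le_mul_of_nonneg_right ch X0.le, mul_le_mul_of_nonneg_left x5 j0.le]
  generalize (∑ q ∈ QQ N j, ∑ q' ∈ QQ N (j + 1), ∑ χ ∈ Λ, nu N χ *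
    ‖χ (q : ZMod N) - χ (q' : ZMod N)‖ ^ 2) = A at *
  generalize (∑ q ∈ QQ N j, ∑ n ∈ Icc 1 Y, ‖G ((q * n : ℕ) : ZMod N)‖ ^ 2) = S at *
  generalize (∑ q ∈ QQ N (j + 1), ∑ n ∈ Icc 1 Y, ‖G ((q * n : ℕ) : ZMod N)‖ ^ 2) = S' at *
  generalize (∑ χ ∈ Λᶜ, nu N χ) = ε at *
  generalize (#(QQ N j) : ℝ) = a at *
  generalize (#(QQ N (j + 1)) : ℝ) = b at *
  generalize (Nat.log 2 N : ℝ) = l at *
  generalize (UN N Y : ℝ) = X at *
  have b0 : 0 < b := a0.trans_le ab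
  have w := mul_le_mul_of_nonneg_left (mul_le_mul_of_nonneg_right pp e0) l0
  have w0 : 0 ≤ l * (32 * j * a * X * ε) := by positivity
  rw [div_le_iff₀ (mul_pos a0 b0)]
  refine le_of_mul_le_mul_left (a := X / 2) (m.trans ?_) (by linarith)
  have u1 := mul_le_mul_of_nonneg_left (c2.trans w) b0.le
  have u2 := mul_le_mul_of_nonneg_left (c1.trans w) a0.le
  have u3 := mul_le_mul_of_nonneg_right ab w0
  nlinarith

open Classical in
theorem chng_row (hCHEB : CHEB_s) (hTAU : TAU_s) (hUNI : UNI_s) (hCHQ : CHQ_s) (hPARG : PARG_s)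
    (hLOCG : LOCG_s) : CHNG_s := by
  intro N _ Λ j₀ J hN h0 h8 h
  have w1 := (chng_W N hN).2
  have s0 : (0 : ℝ) ≤ (2 * #Λ + 1) * WW N := by positivity
  have s1 : (1 : ℝ) ≤ (2 * #Λ + 1) * WW N :=
    one_le_mul_of_one_le_of_one_le (le_add_of_nonneg_left (by positivity)) w1
  have m0 : ∀ χ, 0 ≤ nu N χ := fun _ => sq_nonneg _
  have hJ : J ≤ Nat.log 2 N := by
    refine Nat.le_log_of_pow_le one_lt_two ?_
    have a : (2 : ℝ) ^ J ≤ 2 ^ (J + 4) := pow_le_pow_right₀ one_le_two (by omega)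
    have b : (0 : ℝ) < 2 ^ (J + 4) := by positivity
    have c : (N.totient : ℝ) ≤ N := Nat.cast_le.2 N.totient_le
    have : (2 : ℝ) ^ J ≤ N := by
      rw [mul_assoc] at h
      nlinarith
    exact_mod_cast this
  simp only [DD, mul_sum (Ico j₀ J)]
  rw [sum_comm]
  have e0 : 0 ≤ ∑ χ ∈ Λᶜ, nu N χ := sum_nonneg fun χ _ => m0 χ
  have l0 : (0 : ℝ) ≤ Nat.log 2 N := Nat.cast_nonneg _
  refine (sum_le_card_nsmul _ _ (256 * Nat.log 2 N * Nat.log 2 N * ∑ χ ∈ Λᶜ, nu N χ)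
    fun j hj => ?_).trans ?_
  · rw [mem_Ico] at hj
    refine (chng_level hCHEB hTAU hUNI hPARG hLOCG N Λ j hN (hCHQ N j₀ j (by omega) h0 hj.1 h8)
      (le_trans ?_ h)).trans ?_
    · rw [mul_assoc, mul_assoc]
      exact mul_le_mul_of_nonneg_right (pow_le_pow_right₀ one_le_two (by omega)) s0
    · have : (j : ℝ) ≤ Nat.log 2 N := Nat.cast_le.2 (by omega)
      gcongr
  · rw [nsmul_eq_mul, Nat.card_Ico, ← mul_assoc]
    have : ((J - j₀ : ℕ) : ℝ) ≤ Nat.log 2 N := Nat.cast_le.2 (by omega)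
    refine mul_le_mul_of_nonneg_right ?_ e0
    nlinarith [mul_le_mul_of_nonneg_right this (mul_nonneg l0 l0), mul_nonneg l0 l0]

end Pool.Agent.G27
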