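import Pool.Agent.MP_b5e119_nt.G27.Defs

namespace Pool.Agent.G27

open Finset Pool.Agent.G60

theorem chq_mono {l j₀ j : ℕ} (h1 : 1 ≤ j₀) (h2 : j₀ ≤ j) (h : 8 * j₀ * l ≤ 2 ^ j₀) :
    8 * j * l ≤ 2 ^ j := by
  induction j, h2 using Nat.le_induction with
  | base => exact h
  | succ j hj ih =>
    calc 8 * (j + 1) * l ≤ 8 * (2 * j) * l := by gcongr; omega
      _ = 8 * j * l * 2 := by ring
      _ ≤ 2 ^ j * 2 := by omega
      _ = 2 ^ (j + 1) := (pow_succ _ _).symm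

theorem chq_row (hC : CHEB_s) : CHQ_s := by
  intro N j₀ j hN h1 h2 h
  have a := chq_mono h1 h2 h
  have b : 2 ^ j ≤ 4 * j * #(PP j) := by
    have := hC.1 (2 ^ j) (by
      calc 2 = 2 ^ 1 := by norm_num
        _ ≤ 2 ^ j := Nat.pow_le_pow_right (by norm_num) (by omega))
    rwa [Nat.log_pow (by norm_num)] at this
  have c : #(PP j) ≤ #(QQ N j) + Nat.log 2 N := by
    refine le_trans (card_le_card (t := QQ N j ∪ {q ∈ N.divisors | q.Prime}) fun q hq => ?_)
      ((card_union_le _ _).trans (Nat.add_le_add_left (hC.2.2 N hN) _))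
    by_cases k : q ∣ N
    · exact mem_union_right _ (mem_filter.2 ⟨Nat.mem_divisors.2 ⟨k, hN.ne'⟩, (mem_filter.1 hq).2⟩)
    · exact mem_union_left _ (mem_filter.2 ⟨hq, k⟩)
  have d := Nat.mul_le_mul_left (4 * j) c
  have e1 : 4 * j * (#(QQ N j) + Nat.log 2 N) = 4 * (j * #(QQ N j)) + 4 * (j * Nat.log 2 N) := by
    ring
  have e2 : 8 * j * Nat.log 2 N = 8 * (j * Nat.log 2 N) := by ring
  have e3 : 8 * j * #(QQ N j) = 8 * (j * #(QQ N j)) := by ring
  omega

end Pool.Agent.G27
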