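import Pool.Agent.MP_b5e119_nt.G27.Defs

namespace Pool.Agent.G27

open Finset Filter Topology Pool.Agent.G60

theorem con1_phi (hPHI : PHI_s) (D : ℝ) (hD : 0 < D) : ∃ N₀ : ℕ, ∀ N : ℕ, N₀ ≤ N →
    D * N ≤ N.totient * (Nat.log 2 N : ℝ) := by
  obtain ⟨C, hC, h⟩ := hPHI
  obtain ⟨n, hn⟩ := exists_nat_ge ((D * C) ^ 4)
  refine ⟨2 ^ (n + 1), fun N hN => ?_⟩
  have hl : n + 1 ≤ Nat.log 2 N := Nat.le_log_of_pow_le (by norm_num) hN
  have h2 : 2 ≤ N := le_trans (by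
    have : 2 ^ 1 ≤ 2 ^ (n + 1) := Nat.pow_le_pow_right (by norm_num) (by omega)
    omega) hN
  have hl' : (n : ℝ) + 1 ≤ (Nat.log 2 N : ℝ) := by exact_mod_cast hl
  have hn0 : (0 : ℝ) ≤ n := Nat.cast_nonneg n
  have h1 := h N h2
  set l : ℝ := (Nat.log 2 N : ℝ) with hldef
  set u : ℝ := l ^ (1 / 4 : ℝ) with hu
  have hu1 : 1 ≤ u := Real.one_le_rpow (by linarith) (by norm_num)
  have hu4 : u ^ 4 = l := by
    rw [hu, ← Real.rpow_natCast, ← Real.rpow_mul (by linarith)]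
    norm_num
  have hDC : D * C ≤ u := by
    by_contra hc
    have : u ^ 4 < (D * C) ^ 4 := pow_lt_pow_left₀ (not_le.1 hc) (by linarith) (by norm_num)
    linarith
  have hφ : (0 : ℝ) ≤ N.totient := Nat.cast_nonneg _
  have hu2 : u ^ 2 ≤ u ^ 4 := pow_le_pow_right₀ hu1 (by norm_num)
  calc D * N ≤ D * (C * N.totient * u) := mul_le_mul_of_nonneg_left h1 hD.le
    _ = (D * C) * (N.totient * u) := by ring
    _ ≤ u * (N.totient * u) := mul_le_mul_of_nonneg_right hDC (by positivity)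
    _ = N.totient * u ^ 2 := by ring
    _ ≤ N.totient * l := by rw [← hu4]; exact mul_le_mul_of_nonneg_left hu2 hφ

theorem con1_nu (N : ℕ) [NeZero N] (χ : Ch N) : 0 ≤ nu N χ := by
  unfold nu; positivity

theorem con1_aa (N : ℕ) (χ : Ch N) (j : ℕ) : 0 ≤ aa N χ j := by
  unfold aa
  exact div_nonneg (sum_nonneg fun q _ => by positivity) (by positivity)

theorem con1_DD (N : ℕ) (χ : Ch N) (j J : ℕ) : 0 ≤ DD N χ j J := by
  unfold DD
  refine sum_nonneg fun j _ => div_nonneg ?_ (by positivity)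
  exact sum_nonneg fun q _ => sum_nonneg fun q' _ => by positivity

theorem con1_VQ (N : ℕ) (χ : Ch N) (j J : ℕ) : 0 ≤ VQ N χ j J := by
  unfold VQ
  exact add_nonneg (sum_nonneg fun q _ => by positivity) (con1_DD N χ j J)

/-- The primes of the first range are close to `-1` in the mean. -/
theorem con1_mean (hMUG : MUG_s) (N : ℕ) [NeZero N] (hN : 1 < N) (j : ℕ) (η : ℝ)
    (hb : ∀ q ∈ QQ N j, (bad N q : ℝ) ≤ N.totient * η) :
    ∑ χ : Ch N, nu N χ * ∑ q ∈ QQ N j, ‖χ (q : ZMod N) + 1‖ ^ 2 ≤ #(QQ N j) * (4 * η) := by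
  have hφ : (0 : ℝ) < N.totient := by exact_mod_cast Nat.totient_pos.2 (by omega)
  have h1 : ∀ q ∈ QQ N j, ∑ χ : Ch N, nu N χ * ‖χ (q : ZMod N) + 1‖ ^ 2 ≤ 4 * η := by
    intro q hq
    have hb' := hb q hq
    rw [QQ, mem_filter, PP, mem_filter] at hq
    have hq1 : q.Prime := hq.1.2
    have h := (hMUG N hN).2 q ((Nat.Prime.coprime_iff_not_dvd hq1).2 hq.2)
    rw [lam_prime hq1] at h
    have e : ∀ χ : Ch N, χ (q : ZMod N) - ((-1 : ℤ) : ℂ) = χ (q : ZMod N) + 1 := by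
      intro χ; push_cast; ring
    simp only [e] at h
    exact le_of_mul_le_mul_left (by linarith) hφ
  calc ∑ χ : Ch N, nu N χ * ∑ q ∈ QQ N j, ‖χ (q : ZMod N) + 1‖ ^ 2
      = ∑ q ∈ QQ N j, ∑ χ : Ch N, nu N χ * ‖χ (q : ZMod N) + 1‖ ^ 2 := by
        rw [sum_comm]; exact sum_congr rfl fun χ _ => mul_sum _ _ _
    _ ≤ ∑ q ∈ QQ N j, 4 * η := sum_le_sum h1
    _ = _ := by simp

theorem con1_num (l η e0 e1 I P D0 D1 W E : ℝ) (K : ℕ) (hl : 1 ≤ l) (hη : 0 ≤ η)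
    (hI : I ≤ 4 * η) (he0 : e0 ≤ 4 * η) (hD0 : D0 ≤ 256 * (l + 1) ^ 3 * e0)
    (he1 : e1 ≤ e0 + 3 * (I + (1 + l) * D0)) (hD1 : D1 ≤ 256 * (l + 1) ^ 3 * e1)
    (hP : P ≤ 2 * l ^ K) (hW : W ≤ P * (4 * η)) (hE : E ≤ e1 + (W + D1) * l ^ 5) :
    E ≤ 134217728 * l ^ (K + 12) * η := by
  have hl0 : 0 < l := by linarith
  have h3 : (l + 1) ^ 3 ≤ 8 * l ^ 3 := by
    calc (l + 1) ^ 3 ≤ (2 * l) ^ 3 := pow_le_pow_left₀ (by linarith) (by linarith) 3
      _ = _ := by ring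
  have mono : ∀ a b : ℕ, a ≤ b → l ^ a * η ≤ l ^ b * η := fun a b h =>
    mul_le_mul_of_nonneg_right (pow_le_pow_right₀ hl h) hη
  have a1 : D0 ≤ 8192 * (l ^ 3 * η) := by
    have b1 : 256 * (l + 1) ^ 3 * e0 ≤ 256 * (l + 1) ^ 3 * (4 * η) :=
      mul_le_mul_of_nonneg_left he0 (by positivity)
    have b2 : 256 * (l + 1) ^ 3 * (4 * η) ≤ 256 * (8 * l ^ 3) * (4 * η) :=
      mul_le_mul_of_nonneg_right (by linarith) (by positivity)
    linarith
  have a2 : e1 ≤ 49168 * (l ^ 4 * η) := by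
    have b1 : (1 + l) * D0 ≤ (1 + l) * (8192 * (l ^ 3 * η)) :=
      mul_le_mul_of_nonneg_left a1 (by linarith)
    have b2 : (1 + l) * (8192 * (l ^ 3 * η)) ≤ (2 * l) * (8192 * (l ^ 3 * η)) :=
      mul_le_mul_of_nonneg_right (by linarith) (by positivity)
    have b3 : (2 * l) * (8192 * (l ^ 3 * η)) = 16384 * (l ^ 4 * η) := by ring
    have b4 := mono 0 4 (by norm_num)
    rw [pow_zero, one_mul] at b4
    linarith
  have a3 : D1 ≤ 100696064 * (l ^ 7 * η) := by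
    have b1 : 256 * (l + 1) ^ 3 * e1 ≤ 256 * (l + 1) ^ 3 * (49168 * (l ^ 4 * η)) :=
      mul_le_mul_of_nonneg_left a2 (by positivity)
    have b2 : 256 * (l + 1) ^ 3 * (49168 * (l ^ 4 * η)) ≤
        256 * (8 * l ^ 3) * (49168 * (l ^ 4 * η)) :=
      mul_le_mul_of_nonneg_right (by linarith) (by positivity)
    have b3 : 256 * (8 * l ^ 3) * (49168 * (l ^ 4 * η)) = 100696064 * (l ^ 7 * η) := by ring
    linarith
  have a4 : W ≤ 8 * (l ^ K * η) := by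
    have b1 : P * (4 * η) ≤ 2 * l ^ K * (4 * η) := mul_le_mul_of_nonneg_right hP (by positivity)
    linarith
  have a5 : (W + D1) * l ^ 5 ≤ (8 * (l ^ K * η) + 100696064 * (l ^ 7 * η)) * l ^ 5 :=
    mul_le_mul_of_nonneg_right (by linarith) (by positivity)
  have a6 : (8 * (l ^ K * η) + 100696064 * (l ^ 7 * η)) * l ^ 5 =
      8 * (l ^ (K + 5) * η) + 100696064 * (l ^ 12 * η) := by ring
  have c1 := mono 4 (K + 12) (by omega)
  have c2 := mono (K + 5) (K + 12) (by omega)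
  have c3 := mono 12 (K + 12) (by omega)
  have c4 : 0 ≤ l ^ (K + 12) * η := by positivity
  rw [mul_assoc]
  linarith

theorem con1_row [Sg] (hPHI : PHI_s) (hCHQ : CHQ_s) (hMUG : MUG_s) (hCHNG : CHNG_s)
    (hCHA : CHA_s) (hFEWG : FEWG_s) : CON1_s := by
  classical
  intro A
  obtain ⟨K, N₁, h1⟩ := hFEWG
  obtain ⟨N₂, h2⟩ := con1_phi hPHI 1 one_pos
  obtain ⟨N₃, h3⟩ : ∃ N₃ : ℕ, ∀ N : ℕ, N₃ ≤ N → 134217728 ≤ Nat.log 2 N := by
    have : ∀ n : ℕ, ∃ N₃ : ℕ, ∀ N : ℕ, N₃ ≤ N → n ≤ Nat.log 2 N := fun n =>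
      ⟨2 ^ n, fun N hN => Nat.le_log_of_pow_le (by norm_num) hN⟩
    exact this 134217728
  refine ⟨A + K + 13 + 1, K, N₁ + N₂ + N₃ + 2, fun N _ hN hG => ?_⟩
  obtain ⟨j₀, j₁, J, hR, hj01, hj1, hjK, hL0, hL1⟩ := h1 N (by omega)
  refine ⟨j₀, J, hR, ?_⟩
  obtain ⟨hj0, -, -, h8, -⟩ := hR
  have hlN := h3 N (by omega)
  have hl : (134217728 : ℝ) ≤ (Nat.log 2 N : ℝ) := by exact_mod_cast hlN
  have hφ := h2 N (by omega)
  have hN1 : 1 < N := by omega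
  have hne : ∀ j, j₀ ≤ j → (QQ N j).Nonempty := by
    intro j hj
    have := hCHQ N j₀ j (by omega) hj0 hj h8
    refine card_pos.1 (Nat.pos_of_ne_zero fun h => ?_)
    rw [h, mul_zero] at this
    exact absurd this (not_le.2 (by positivity))
  have hD0 := hCHNG N (LQ N j₀) j₀ j₁ hN1 hj0 h8 hL0
  have hD1 := hCHNG N (LQ N j₁) j₀ J hN1 hj0 h8 hL1
  have hch := fun χ : Ch N =>
    hCHA.1 N χ j₀ j₁ (Nat.log 2 N) (by omega) hj01 (by omega) (hne j₀ le_rfl)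
  have hPn : #(QQ N j₀) ≤ 2 * Nat.log 2 N ^ K := by
    have b1 : #(QQ N j₀) ≤ #(PP j₀) := card_filter_le _ _
    have b2 : #(PP j₀) ≤ #(range (2 ^ j₀ + 1)) := card_filter_le _ _
    rw [card_range] at b2
    have b3 : 0 < 2 ^ j₀ := by positivity
    omega
  have hbn : ∀ q ∈ QQ N j₀, bad N q * Nat.log 2 N ^ (A + K + 13 + 1) ≤ N := by
    intro q hq
    rw [QQ, mem_filter, PP, mem_filter, mem_range] at hq
    exact hG.2 q hq.1.2.pos (by omega)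
  set l : ℝ := (Nat.log 2 N : ℝ) with hldef
  have hl0 : 0 < l := by linarith
  have hP : (#(QQ N j₀) : ℝ) ≤ 2 * l ^ K := by rw [hldef]; exact_mod_cast hPn
  have hP0 : (0 : ℝ) < #(QQ N j₀) := by exact_mod_cast card_pos.2 (hne j₀ le_rfl)
  set η : ℝ := 1 / l ^ (A + K + 13) with hη
  have hη0 : 0 ≤ η := by positivity
  have hb : ∀ q ∈ QQ N j₀, (bad N q : ℝ) ≤ N.totient * η := by
    intro q hq
    have b1 : (bad N q : ℝ) * l ^ (A + K + 13 + 1) ≤ N := by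
      rw [hldef]; exact_mod_cast hbn q hq
    rw [hη, mul_one_div, le_div_iff₀ (by positivity)]
    refine le_of_mul_le_mul_right ?_ hl0
    rw [mul_assoc, ← pow_succ]
    linarith
  have hW := con1_mean hMUG N hN1 j₀ η hb
  have hI : ∑ χ : Ch N, nu N χ * aa N χ j₀ ≤ 4 * η := by
    have e : ∑ χ : Ch N, nu N χ * aa N χ j₀ =
        (∑ χ : Ch N, nu N χ * ∑ q ∈ QQ N j₀, ‖χ (q : ZMod N) + 1‖ ^ 2) / #(QQ N j₀) := by
      rw [sum_div]
      exact sum_congr rfl fun χ _ => by rw [aa, mul_div_assoc]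
    rw [e, div_le_iff₀ hP0]
    linarith
  have hoff : ∀ j, j₀ ≤ j → ∀ χ : Ch N, χ ∉ LQ N j → nu N χ ≤ nu N χ * aa N χ j :=
    fun j hj χ hχ => le_mul_of_one_le_right (con1_nu N χ) (hCHA.2 N χ j (hne j hj) hχ)
  have he0 : ∑ χ ∈ (LQ N j₀)ᶜ, nu N χ ≤ 4 * η := by
    refine le_trans ?_ hI
    refine le_trans (sum_le_sum fun χ hχ => hoff j₀ le_rfl χ (mem_compl.1 hχ)) ?_
    exact sum_le_sum_of_subset_of_nonneg (subset_univ _) fun χ _ _ =>
      mul_nonneg (con1_nu N χ) (con1_aa N χ j₀)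
  have he1 : ∑ χ ∈ (LQ N j₁)ᶜ, nu N χ ≤ ∑ χ ∈ (LQ N j₀)ᶜ, nu N χ +
      3 * (∑ χ : Ch N, nu N χ * aa N χ j₀ + (1 + l) * ∑ χ ∈ LQ N j₀, nu N χ * DD N χ j₀ j₁) := by
    have hpt : ∀ χ : Ch N, (if χ ∈ (LQ N j₁)ᶜ then nu N χ else 0) ≤
        (if χ ∈ (LQ N j₀)ᶜ then nu N χ else 0) + 3 * (nu N χ * aa N χ j₀ +
          (1 + l) * (if χ ∈ LQ N j₀ then nu N χ * DD N χ j₀ j₁ else 0)) := by
      intro χ
      have m0 := con1_nu N χ
      have m1 : 0 ≤ nu N χ * aa N χ j₀ := mul_nonneg m0 (con1_aa N χ j₀)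
      have m2 : 0 ≤ (1 + l) * (nu N χ * DD N χ j₀ j₁) :=
        mul_nonneg (by linarith) (mul_nonneg m0 (con1_DD N χ j₀ j₁))
      by_cases hL : χ ∈ LQ N j₀
      · have hL' : χ ∉ (LQ N j₀)ᶜ := fun h => mem_compl.1 h hL
        rw [if_pos hL, if_neg hL']
        by_cases hM : χ ∈ (LQ N j₁)ᶜ
        · rw [if_pos hM]
          have b1 := hoff j₁ hj01 χ (mem_compl.1 hM)
          have b2 := mul_le_mul_of_nonneg_left (hch χ) m0
          have b3 : nu N χ * (3 * (aa N χ j₀ + (1 + l) * DD N χ j₀ j₁)) =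
              3 * (nu N χ * aa N χ j₀ + (1 + l) * (nu N χ * DD N χ j₀ j₁)) := by ring
          linarith
        · rw [if_neg hM]; linarith
      · have hL' : χ ∈ (LQ N j₀)ᶜ := mem_compl.2 hL
        rw [if_neg hL, if_pos hL', mul_zero]
        split_ifs <;> linarith
    have hs := sum_le_sum fun χ (_ : χ ∈ (univ : Finset (Ch N))) => hpt χ
    rw [sum_add_distrib, ← mul_sum, sum_add_distrib, ← mul_sum, sum_ite_mem, sum_ite_mem,
      sum_ite_mem, univ_inter, univ_inter, univ_inter] at hs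
    exact hs
  have hE : ∑ χ : Ch N with 1 < VQ N χ j₀ J * l ^ 5, nu N χ ≤ ∑ χ ∈ (LQ N j₁)ᶜ, nu N χ +
      (∑ χ : Ch N, nu N χ * ∑ q ∈ QQ N j₀, ‖χ (q : ZMod N) + 1‖ ^ 2 +
        ∑ χ ∈ LQ N j₁, nu N χ * DD N χ j₀ J) * l ^ 5 := by
    have hpt : ∀ χ : Ch N, (if 1 < VQ N χ j₀ J * l ^ 5 then nu N χ else 0) ≤
        (if χ ∈ (LQ N j₁)ᶜ then nu N χ else 0) +
          (nu N χ * ∑ q ∈ QQ N j₀, ‖χ (q : ZMod N) + 1‖ ^ 2 +
            (if χ ∈ LQ N j₁ then nu N χ * DD N χ j₀ J else 0)) * l ^ 5 := by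
      intro χ
      have m0 := con1_nu N χ
      have m1 : 0 ≤ nu N χ * ∑ q ∈ QQ N j₀, ‖χ (q : ZMod N) + 1‖ ^ 2 :=
        mul_nonneg m0 (sum_nonneg fun q _ => by positivity)
      have m5 : 0 ≤ l ^ 5 := by positivity
      by_cases hL : χ ∈ LQ N j₁
      · have hL' : χ ∉ (LQ N j₁)ᶜ := fun h => mem_compl.1 h hL
        rw [if_pos hL, if_neg hL', ← mul_add, zero_add, mul_assoc]
        have m3 : 0 ≤ nu N χ * (VQ N χ j₀ J * l ^ 5) :=
          mul_nonneg m0 (mul_nonneg (con1_VQ N χ j₀ J) m5)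
        split_ifs with hc
        · exact le_mul_of_one_le_right m0 hc.le
        · exact m3
      · have hL' : χ ∈ (LQ N j₁)ᶜ := mem_compl.2 hL
        rw [if_neg hL, if_pos hL', add_zero]
        have := mul_nonneg m1 m5
        split_ifs <;> linarith
    have hs := sum_le_sum fun χ (_ : χ ∈ (univ : Finset (Ch N))) => hpt χ
    rw [sum_add_distrib, ← sum_mul, sum_add_distrib, sum_ite_mem, sum_ite_mem,
      univ_inter, univ_inter, ← sum_filter] at hs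
    exact hs
  have hnum := con1_num l η _ _ _ _ _ _ _ _ K (by linarith) hη0 hI he0 hD0 he1 hD1 hP hW hE
  calc _ ≤ 134217728 * l ^ (K + 12) * η * l ^ A :=
        mul_le_mul_of_nonneg_right hnum (by positivity)
    _ = 134217728 / l := by rw [hη]; field_simp; ring
    _ ≤ 1 := by rw [div_le_one hl0]; exact hl

end Pool.Agent.G27
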