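import Pool.Agent.MP_b5e119_nt.G27.Defs

namespace Pool.Agent.G27

open Finset Filter Topology Pool.Agent.G60

theorem con2_num (C : ℝ) (hC : 0 < C) : ∃ l₀ : ℕ, ∀ l : ℕ, l₀ ≤ l → 1 ≤ l ∧
    C * (l : ℝ) ^ (1 / 4 : ℝ) ≤ l ∧
    (C + 1) * (l : ℝ) ^ (1 / 4 : ℝ) * (12000 *
      (((Nat.sqrt l + 1) * (Nat.log 2 l + 1) : ℕ) : ℝ)) ≤ l := by
  refine ⟨⌈(312000 * (C + 1)) ^ 8⌉₊, fun l hl => ?_⟩
  have hl' : (312000 * (C + 1)) ^ 8 ≤ (l : ℝ) := Nat.ceil_le.1 hl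
  have hK : (1 : ℝ) ≤ 312000 * (C + 1) := by linarith
  have hl1 : (1 : ℝ) ≤ l := (one_le_pow₀ hK).trans hl'
  obtain ⟨u, hu⟩ : ∃ u : ℝ, u = (l : ℝ) ^ (1 / 8 : ℝ) := ⟨_, rfl⟩
  have hu0 : 0 ≤ u := hu ▸ Real.rpow_nonneg (by linarith) _
  have hu8 : u ^ 8 = l := by
    rw [hu, ← Real.rpow_natCast, ← Real.rpow_mul (by linarith)]
    norm_num
  have hu2 : (l : ℝ) ^ (1 / 4 : ℝ) = u ^ 2 := by
    rw [hu, ← Real.rpow_natCast, ← Real.rpow_mul (by linarith)]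
    norm_num
  have huK : 312000 * (C + 1) ≤ u := by
    refine le_of_pow_le_pow_left₀ (n := 8) (by norm_num) hu0 ?_
    rw [hu8]
    exact hl'
  have hu1 : 1 ≤ u := hK.trans huK
  have hs : (Nat.sqrt l : ℝ) ≤ u ^ 4 := by
    refine le_of_pow_le_pow_left₀ (n := 2) (by norm_num) (by positivity) ?_
    rw [← pow_mul, show 4 * 2 = 8 from rfl, hu8]
    exact_mod_cast Nat.sqrt_le' l
  have hL : (Nat.log 2 l : ℝ) ≤ 12 * u := by
    have h1 : (2 : ℝ) ^ Nat.log 2 l ≤ l := by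
      exact_mod_cast Nat.pow_log_le_self 2 (by
        have : 1 ≤ l := by exact_mod_cast hl1
        omega)
    have h2 := Real.log_le_log (by positivity) h1
    rw [Real.log_pow, ← hu8, Real.log_pow] at h2
    have h3 := Real.log_two_gt_d9
    have h4 := Real.log_le_sub_one_of_pos (show 0 < u by linarith)
    have h5 : (0 : ℝ) ≤ Nat.log 2 (l) := Nat.cast_nonneg _
    rw [hu8] at *
    push_cast at h2
    nlinarith
  have hu4 : 1 ≤ u ^ 4 := one_le_pow₀ hu1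
  have hz : (((Nat.sqrt l + 1) * (Nat.log 2 l + 1) : ℕ) : ℝ) ≤ 26 * u ^ 5 := by
    push_cast
    have : ((Nat.sqrt l : ℝ) + 1) * ((Nat.log 2 l : ℝ) + 1) ≤ (2 * u ^ 4) * (13 * u) := by
      apply mul_le_mul (by linarith) (by linarith) (by positivity) (by positivity)
    linarith [show (2 * u ^ 4) * (13 * u) = 26 * u ^ 5 by ring]
  refine ⟨by exact_mod_cast hl1, ?_, ?_⟩
  · rw [hu2, ← hu8]
    have h6 : u ≤ u ^ 6 := by
      calc u = u ^ 1 := (pow_one u).symm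
        _ ≤ u ^ 6 := pow_le_pow_right₀ hu1 (by norm_num)
    have : C ≤ u ^ 6 := by linarith
    calc C * u ^ 2 ≤ u ^ 6 * u ^ 2 := by gcongr
      _ = u ^ 8 := by ring
  · rw [hu2]
    calc (C + 1) * u ^ 2 * (12000 * (((Nat.sqrt l + 1) * (Nat.log 2 l + 1) : ℕ) : ℝ))
        ≤ (C + 1) * u ^ 2 * (12000 * (26 * u ^ 5)) := by gcongr
      _ = 312000 * (C + 1) * u ^ 7 := by ring
      _ ≤ u * u ^ 7 := by gcongr
      _ = l := by rw [← hu8]; ring

theorem con2_cop {N j q : ℕ} (hq : q ∈ QQ N j) : q.Prime ∧ q ≤ 2 ^ j ∧ q.Coprime N := by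
  simp only [QQ, PP, mem_filter, mem_range] at hq
  exact ⟨hq.1.2, by omega, (Nat.Prime.coprime_iff_not_dvd hq.1.2).2 hq.2⟩

theorem con2_four : ‖(1 : ℂ) + 1‖ ^ 2 = 4 := by
  rw [show (1 : ℂ) + 1 = 2 by norm_num]
  norm_num

theorem con2_small {N : ℕ} (χ : Ch N) {j₀ J q : ℕ} (hV : VQ N χ j₀ J ≤ 1) (hq : q ∈ QQ N j₀) :
    χ (q : ZMod N) ≠ 1 := by
  intro h
  have h1 : ‖χ (q : ZMod N) + 1‖ ^ 2 ≤ ∑ q ∈ QQ N j₀, ‖χ (q : ZMod N) + 1‖ ^ 2 :=
    single_le_sum (f := fun q : ℕ => ‖χ (q : ZMod N) + 1‖ ^ 2) (fun _ _ => by positivity) hq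
  have h2 : 0 ≤ DD N χ j₀ J := sum_nonneg fun j _ =>
    div_nonneg (sum_nonneg fun _ _ => sum_nonneg fun _ _ => sq_nonneg _)
      (mul_nonneg (Nat.cast_nonneg _) (Nat.cast_nonneg _))
  rw [h, con2_four] at h1
  unfold VQ at hV
  linarith

theorem con2_one {N : ℕ} {χ : Ch N} {n : ℕ} (h : re χ n = 1) : χ (n : ZMod N) = 1 := by
  unfold re at h
  split_ifs at h with h1 h2
  · exact h1
  all_goals simp at h

theorem con2_half {N : ℕ} {χ : Ch N} (h2 : χ ^ 2 = 1) {j c : ℕ} (hc : 2 ^ j < c)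
    (hne : (QQ N j).Nonempty) (ha : aa N χ j ≤ 2) : #(QQ N j) ≤ 2 * #(KQ χ c) := by
  have h1 := card_filter_add_card_filter_not (s := QQ N j) (fun q => re χ q = -1)
  have h3 : #{q ∈ QQ N j | re χ q = -1} ≤ #(KQ χ c) := by
    refine card_le_card fun q hq => ?_
    rw [mem_filter] at hq
    obtain ⟨a1, a2, -⟩ := con2_cop hq.1
    simp only [KQ, mem_filter, mem_range]
    exact ⟨by omega, a1, hq.2⟩
  have h4 : (4 : ℝ) * #{q ∈ QQ N j | ¬re χ q = -1} ≤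
      ∑ q ∈ QQ N j, ‖χ (q : ZMod N) + 1‖ ^ 2 := by
    refine le_trans ?_ (sum_le_sum_of_subset_of_nonneg (filter_subset (fun q => ¬re χ q = -1) _)
      fun _ _ _ => by positivity)
    rw [sum_congr rfl (g := fun _ => (4 : ℝ))]
    · simp [mul_comm]
    · intro q hq
      rw [mem_filter] at hq
      rcases re_unit h2 (con2_cop hq.1).2.2 with e | e
      · rw [con2_one e, con2_four]
      · exact absurd e hq.2
  have h5 : (0 : ℝ) < #(QQ N j) := by exact_mod_cast hne.card_pos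
  unfold aa at ha
  rw [div_le_iff₀ h5] at ha
  have h6 : 4 * #{q ∈ QQ N j | ¬re χ q = -1} ≤ 2 * #(QQ N j) := by exact_mod_cast h4.trans ha
  omega

theorem con2_row (hCHQ : CHQ_s) (hVIN1 : VIN1G_s) (hPRN : PRN_s) : CON2_s := by
  obtain ⟨N₁, hprn⟩ := hPRN
  obtain ⟨l₀, hl₀⟩ := con2_num 1 one_pos
  refine ⟨max N₁ (2 ^ (l₀ + 2)), fun N _ hN j₀ J χ hR hV => ?_⟩
  have hN1 : N₁ ≤ N := le_of_max_le_left hN
  have hl : l₀ + 2 ≤ Nat.log 2 N := Nat.le_log_of_pow_le (by norm_num) (le_of_max_le_right hN)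
  have hN0 : 0 < N := Nat.pos_of_ne_zero (NeZero.ne N)
  have hup : N < 2 ^ (Nat.log 2 N + 1) := Nat.lt_pow_succ_log_self (by norm_num) N
  have hR' := hR
  obtain ⟨hj1, hj2, hJl, hj8, hJ⟩ := hR'
  have hne : ∀ j, j₀ ≤ j → (QQ N j).Nonempty := by
    intro j hj
    have h := hCHQ N j₀ j hN0 hj1 hj hj8
    rw [← card_pos]
    by_contra h0
    have h1 : #(QQ N j) = 0 := by omega
    rw [h1, mul_zero] at h
    exact absurd h (Nat.not_le.2 (by positivity))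
  have hlR : (2 : ℝ) ≤ Nat.log 2 N := by exact_mod_cast (show 2 ≤ Nat.log 2 N by omega)
  have hV1 : VQ N χ j₀ J ≤ 1 := by
    by_contra h
    have h5 : (1 : ℝ) ≤ (Nat.log 2 N : ℝ) ^ 5 := one_le_pow₀ (by linarith)
    nlinarith
  have hmul : ∀ χ' : Ch N, VQ N χ' j₀ J * (Nat.log 2 N : ℝ) ^ 5 ≤ 1 → χ * χ' = 1 := by
    intro χ' hV'
    have h1 := (hVIN1 N χ j₀ J (by omega) hj2 hJl (hne j₀ le_rfl) hV).1
    have h2 := (hVIN1 N χ' j₀ J (by omega) hj2 hJl (hne j₀ le_rfl) hV').1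
    refine hprn N hN1 _ j₀ J hR ?_
    have h3 : ∑ q ∈ QQ N J, ‖(χ * χ') (q : ZMod N) - 1‖ / (q : ℝ) ≤
        ∑ q ∈ QQ N J, (‖χ (q : ZMod N) + 1‖ / q + ‖χ' (q : ZMod N) + 1‖ / q) := by
      refine sum_le_sum fun q _ => ?_
      rw [← add_div]
      refine div_le_div_of_nonneg_right ?_ (Nat.cast_nonneg _)
      have h4 : ‖χ (q : ZMod N)‖ ≤ 1 := DirichletCharacter.norm_le_one χ _
      rw [MulChar.mul_apply, show χ (q : ZMod N) * χ' (q : ZMod N) - 1 =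
        χ (q : ZMod N) * (χ' (q : ZMod N) + 1) - (χ (q : ZMod N) + 1) by ring]
      refine (norm_sub_le _ _).trans ?_
      rw [norm_mul]
      have := mul_le_mul_of_nonneg_right h4 (norm_nonneg (χ' (q : ZMod N) + 1))
      linarith
    rw [sum_add_distrib] at h3
    have h4 : (16 : ℝ) / Nat.log 2 N = 8 / Nat.log 2 N + 8 / Nat.log 2 N := by ring
    linarith
  refine ⟨?_, hmul, fun c hc hre hc3 => ?_⟩
  · rintro rfl
    obtain ⟨q, hq⟩ := hne j₀ le_rfl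
    exact con2_small _ hV1 hq
      (MulChar.one_apply ((ZMod.isUnit_iff_coprime q N).2 (con2_cop hq).2.2))
  · have hsq : χ ^ 2 = 1 := by rw [sq]; exact hmul χ hV
    have hcop : c.Coprime N := by
      by_contra h
      rw [re_nonunit χ h] at hre
      exact absurd hre (by norm_num)
    have hc2 := hc.two_le
    have hbig : 2 ^ j₀ < c := by
      by_contra h
      refine con2_small χ hV1 (q := c) ?_ (con2_one hre)
      simp only [QQ, PP, mem_filter, mem_range]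
      exact ⟨⟨by omega, hc⟩, (Nat.Prime.coprime_iff_not_dvd hc).1 hcop⟩
    have h1 : 2 ^ Nat.log 2 (c - 1) ≤ c - 1 := Nat.pow_log_le_self 2 (by omega)
    have h2 : c - 1 < 2 ^ (Nat.log 2 (c - 1) + 1) := Nat.lt_pow_succ_log_self (by norm_num) _
    have h3 : j₀ ≤ Nat.log 2 (c - 1) := Nat.le_log_of_pow_le (by norm_num) (by omega)
    obtain ⟨j, hj⟩ : ∃ j, j = Nat.log 2 (c - 1) := ⟨_, rfl⟩
    rw [← hj] at h1 h2 h3
    have h4 : 3 * j < Nat.log 2 N + 1 := by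
      have e1 : 2 ^ (3 * j) ≤ c ^ 3 := by
        rw [mul_comm, pow_mul]
        exact Nat.pow_le_pow_left (by omega) 3
      exact (Nat.pow_lt_pow_iff_right (by norm_num : 1 < 2)).1 (by omega)
    obtain ⟨-, -, hn2⟩ := hl₀ (Nat.log 2 N) (by omega)
    have hv1 : (1 : ℝ) ≤ (Nat.log 2 N : ℝ) ^ (1 / 4 : ℝ) :=
      Real.one_le_rpow (by linarith) (by norm_num)
    obtain ⟨z, hz⟩ : ∃ z, z = (Nat.sqrt (Nat.log 2 N) + 1) * (Nat.log 2 (Nat.log 2 N) + 1) :=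
      ⟨_, rfl⟩
    rw [← hz] at hn2 hJ
    have hz2 : 12000 * z ≤ Nat.log 2 N := by
      have e1 : (0 : ℝ) ≤ z := Nat.cast_nonneg _
      have e2 : (12000 : ℝ) * z ≤ Nat.log 2 N := by nlinarith
      exact_mod_cast e2
    have h5 := (hVIN1 N χ j₀ J (by omega) hj2 hJl (hne j₀ le_rfl) hV).2 j h3 (by omega)
    have h6 : aa N χ j ≤ 2 := by
      refine h5.trans ?_
      have e1 : (2 : ℝ) ^ 4 ≤ (Nat.log 2 N : ℝ) ^ 4 := by gcongr
      rw [div_le_iff₀ (by linarith)]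
      linarith
    have h7 := con2_half hsq (c := c) (by omega) (hne j h3) h6
    have h8 := hCHQ N j₀ j hN0 hj1 h3 hj8
    have h9 : j * #(QQ N j) ≤ Nat.log 2 N * (2 * #(KQ χ c)) := Nat.mul_le_mul (by omega) h7
    have h10 : 2 ^ (j + 1) = 2 * 2 ^ j := by ring
    calc c ≤ 2 * 2 ^ j := by omega
      _ ≤ 2 * (8 * j * #(QQ N j)) := by omega
      _ = 16 * (j * #(QQ N j)) := by ring
      _ ≤ 16 * (Nat.log 2 N * (2 * #(KQ χ c))) := by omega
      _ = 32 * Nat.log 2 N * #(KQ χ c) := by ring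

end Pool.Agent.G27
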