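import Pool.Agent.MP_b5e119_nt.G27.Defs

namespace Pool.Agent.G27

open Finset Filter Topology Pool.Agent.G60

theorem cong_row [Sg] (hMUG : MUG_s) (hCON1 : CON1_s) (hCON2 : CON2_s) : CONG_s := by
  classical
  intro A
  obtain ⟨B, K, N₁, h1⟩ := hCON1 (A + 1)
  obtain ⟨N₂, h2⟩ := hCON2
  refine ⟨B, K, N₁ + N₂ + 2 ^ 2, fun N _ hN hG => ?_⟩
  obtain ⟨j₀, J, hR, hm⟩ := h1 N (by omega) hG
  have hl : 2 ≤ Nat.log 2 N := Nat.le_log_of_pow_le (by norm_num) (by omega)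
  have hl' : (2 : ℝ) ≤ (Nat.log 2 N : ℝ) := by exact_mod_cast hl
  set l : ℝ := (Nat.log 2 N : ℝ) with hldef
  have hA : 1 ≤ l ^ A := one_le_pow₀ (by linarith)
  have htot := (hMUG N (by omega)).1
  have hnu : ∀ χ : Ch N, 0 ≤ nu N χ := fun χ => by unfold nu; positivity
  set E : ℝ := ∑ χ : Ch N with 1 < VQ N χ j₀ J * l ^ 5, nu N χ with hE
  have hE0 : 0 ≤ E := sum_nonneg fun χ _ => hnu χ
  have hE2 : E * l ^ A * 2 ≤ 1 := by
    have : E * l ^ A * 2 ≤ E * l ^ A * l :=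
      mul_le_mul_of_nonneg_left hl' (mul_nonneg hE0 (by positivity))
    rw [pow_succ, ← mul_assoc] at hm
    linarith
  have hE1 : E * 1 ≤ E * l ^ A := mul_le_mul_of_nonneg_left hA hE0
  obtain ⟨χ, hχ⟩ : ∃ χ : Ch N, VQ N χ j₀ J * l ^ 5 ≤ 1 := by
    by_contra hc
    have : E = 1 := by
      rw [hE, filter_true_of_mem fun χ _ => not_le.1 fun h => hc ⟨χ, h⟩, htot]
    linarith
  obtain ⟨hne, hu, hsp⟩ := h2 N (by omega) j₀ J χ hR hχ
  refine ⟨χ, by rw [sq]; exact hu χ hχ, hne, ?_, hsp⟩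
  have hle : 1 - nu N χ ≤ E := by
    have e1 : ∑ χ' : Ch N, nu N χ' = nu N χ + ∑ χ' ∈ univ.erase χ, nu N χ' :=
      (add_sum_erase _ _ (mem_univ χ)).symm
    have e2 : ∑ χ' ∈ univ.erase χ, nu N χ' ≤ E := by
      refine sum_le_sum_of_subset_of_nonneg (fun χ' h' => ?_) fun χ' _ _ => hnu χ'
      rw [mem_filter]
      refine ⟨mem_univ _, not_le.1 fun h => (mem_erase.1 h').1 ?_⟩
      exact mul_left_cancel ((hu χ' h).trans (hu χ hχ).symm)
    linarith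
  have := mul_le_mul_of_nonneg_right hle (by positivity : 0 ≤ l ^ A)
  linarith [mul_nonneg hE0 (by positivity : 0 ≤ l ^ A)]

end Pool.Agent.G27
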