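import Pool.Agent.MP_b5e119_nt.G27.Defs

namespace Pool.Agent.G27

open Finset Filter Topology Pool.Agent.G60

theorem dirg_one (M : ℕ) [NeZero M] : bad M 1 = 0 := by
  unfold bad
  rw [card_eq_zero, filter_eq_empty_iff]
  intro a _
  simp [lam]

theorem dirg_mono [Sg] {N G H : ℕ} {δ : ℝ} (h : OD N H δ) (hG : G ≤ H) : OD N G δ :=
  fun M g _ e hg => h M g e (hg.trans hG)

theorem dirg_pullb [Sg] (hP : PULL_s) {N H m M g t : ℕ} {β : ℝ} [NeZero M] (h : BD N H m β)
    (e : M * g = N) (ht : 0 < t) (hH : g * t ≤ H) : (badP M m t : ℝ) ≤ β * M := by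
  obtain ⟨M', hM'⟩ := Nat.gcd_dvd_right t M
  have hM0 : M' ≠ 0 := fun h0 => NeZero.ne M (by rw [hM', h0, mul_zero])
  have : NeZero M' := ⟨hM0⟩
  have e1 : M' * Nat.gcd t M = M := by rw [mul_comm]; exact hM'.symm
  have i1 := (hP M M' _ t e1 rfl).2 m
  have i2 := h M' (Nat.gcd t M * g) (by rw [← mul_assoc, e1, e])
    (le_trans (by rw [mul_comm]; exact Nat.mul_le_mul_left g (Nat.gcd_le_left M ht)) hH)
  have e2 : (M : ℝ) = M' * (Nat.gcd t M : ℕ) := by exact_mod_cast e1.symm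
  calc (badP M m t : ℝ) ≤ (Nat.gcd t M : ℕ) * (bad M' m : ℝ) := by exact_mod_cast i1
    _ ≤ (Nat.gcd t M : ℕ) * (β * M') := mul_le_mul_of_nonneg_left i2 (Nat.cast_nonneg _)
    _ = β * M := by rw [e2]; ring

theorem dirg_pullo [Sg] (hP : PULL_s) {N H M g t : ℕ} {δ : ℝ} [NeZero M] (h : OD N H δ)
    (e : M * g = N) (ht : 0 < t) (hH : g * t ≤ H) : (odP M t : ℝ) ≤ δ * M := by
  obtain ⟨M', hM'⟩ := Nat.gcd_dvd_right t M
  have hM0 : M' ≠ 0 := fun h0 => NeZero.ne M (by rw [hM', h0, mul_zero])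
  have : NeZero M' := ⟨hM0⟩
  have e1 : M' * Nat.gcd t M = M := by rw [mul_comm]; exact hM'.symm
  have i1 := (hP M M' _ t e1 rfl).1
  have i2 := h M' (Nat.gcd t M * g) (by rw [← mul_assoc, e1, e])
    (le_trans (by rw [mul_comm]; exact Nat.mul_le_mul_left g (Nat.gcd_le_left M ht)) hH)
  have e2 : (M : ℝ) = M' * (Nat.gcd t M : ℕ) := by exact_mod_cast e1.symm
  calc (odP M t : ℝ) ≤ (Nat.gcd t M : ℕ) * (od M' : ℝ) := by exact_mod_cast i1
    _ ≤ (Nat.gcd t M : ℕ) * (δ * M') :=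
      mul_le_mul_of_nonneg_left (by linarith) (Nat.cast_nonneg _)
    _ = δ * M := by rw [e2]; ring

theorem dirg_row [Sg] (hP : PULL_s) (hT : TRG_s) (hF : FAR_s) : DIRG_s := by
  intro y
  induction y with
  | zero => exact ⟨1, one_pos, fun N G δ _ _ m h0 h1 => absurd h1 (by omega)⟩
  | succ y ih =>
    obtain ⟨C, hC, ih⟩ := ih
    obtain ⟨n, hn⟩ : ∃ n, n = y + 1 := ⟨_, rfl⟩
    have n0 : 0 < n := by omega
    have c1 : n * C ≤ n ^ 3 + n * (2 + 2 * C) := by nlinarith [Nat.zero_le (n ^ 3), Nat.zero_le (n * C)]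
    have c2 : C ≤ n * C := Nat.le_mul_of_pos_left _ n0
    have c3 : n * n ≤ n ^ 3 + n * (2 + 2 * C) := by
      have : n * n ≤ n ^ 3 := by
        calc n * n = n * n * 1 := (mul_one _).symm
          _ ≤ n * n * n := Nat.mul_le_mul_left _ n0
          _ = n ^ 3 := by ring
      omega
    refine ⟨n ^ 3 + n * (2 + 2 * C), by positivity, fun N G δ hN hO m m0 hm M g _ e hg => ?_⟩
    generalize hC' : n ^ 3 + n * (2 + 2 * C) = C' at hO c1 c3 ⊢
    have C0 : 0 < C' := lt_of_lt_of_le (Nat.mul_pos n0 n0) c3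
    have d1 : (1 : ℝ) ≤ δ * M := by
      have := hO M g e (hg.trans (Nat.le_mul_of_pos_right _ C0))
      have h0 : (0 : ℝ) ≤ od M := Nat.cast_nonneg _
      linarith
    have b1 : ∀ s, 0 < s → s ≤ y → BD N (G * n) s (C * δ) :=
      ih N (G * n) δ hN (dirg_mono hO (by rw [mul_assoc]; exact Nat.mul_le_mul_left G c1))
    have hg' : g ≤ G * n := hg.trans (Nat.le_mul_of_pos_right _ n0)
    rcases Nat.lt_or_ge y m with h | h
    · obtain rfl : m = n := by omega
      rcases Nat.lt_or_ge m 2 with h2 | h2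
      · obtain rfl : m = 1 := by omega
        rw [dirg_one, Nat.cast_zero, mul_assoc]
        positivity
      have t1 : (bad M m : ℝ) ≤ far M m (Ico 1 m) +
          ∑ s ∈ Ico 1 m, ((odP M s : ℝ) + odP M (m * s) + badP M s m + bad M s) := by
        exact_mod_cast hT M m (Ico 1 m) m0
      have t2 : (far M m (Ico 1 m) : ℝ) ≤ (m : ℝ) ^ 3 := by exact_mod_cast hF M m h2
      have t3 : ∀ s ∈ Ico 1 m, (odP M s : ℝ) + odP M (m * s) + badP M s m + bad M s ≤
          (2 + 2 * C) * (δ * M) := by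
        intro s hs
        obtain ⟨s1, s2⟩ := mem_Ico.1 hs
        have q1 : m * s ≤ C' := (Nat.mul_le_mul_left m s2.le).trans c3
        have u1 := dirg_pullo hP hO e s1
          (Nat.mul_le_mul hg ((Nat.le_mul_of_pos_left s m0).trans q1))
        have u2 := dirg_pullo hP hO e (Nat.mul_pos m0 s1) (Nat.mul_le_mul hg q1)
        have u3 := dirg_pullb hP (b1 s s1 (by omega)) e m0 (Nat.mul_le_mul_right _ hg)
        have u4 := b1 s s1 (by omega) M g e hg'
        linarith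
      have t4 := sum_le_card_nsmul _ _ _ t3
      rw [Nat.card_Ico, nsmul_eq_mul] at t4
      have t5 : ((m - 1 : ℕ) : ℝ) ≤ m := by exact_mod_cast Nat.sub_le m 1
      have t6 : ((m - 1 : ℕ) : ℝ) * ((2 + 2 * C) * (δ * M)) ≤ m * ((2 + 2 * C) * (δ * M)) :=
        mul_le_mul_of_nonneg_right t5 (by positivity)
      have t7 : (m : ℝ) ^ 3 ≤ (m : ℝ) ^ 3 * (δ * M) := le_mul_of_one_le_right (by positivity) d1
      have t8 : (C' : ℝ) = (m : ℝ) ^ 3 + m * (2 + 2 * C) := by rw [← hC']; push_cast; ring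
      rw [t8]
      nlinarith
    · have u := b1 m m0 h M g e hg'
      have v : (C : ℝ) ≤ C' := by exact_mod_cast c2.trans c1
      have w := mul_le_mul_of_nonneg_right v (zero_le_one.trans d1)
      nlinarith

end Pool.Agent.G27
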