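import Pool.Agent.MP_b5e119_nt.G60.Defs

/-! Statements of the rows of campaign h27n: sign patterns of `(λ a, λ (N - a))`, any modulus `N`. -/

namespace Pool.Agent.G27

open Finset Filter Topology Pool.Agent.G60

noncomputable section

variable [Sg]

def odP (M : ℕ) [NeZero M] (t : ℕ) : ℕ :=
  #{a : ZMod M | ff M (-((t : ZMod M) * a)) ≠ Sg.s * ff M ((t : ZMod M) * a)}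

def badP (M : ℕ) [NeZero M] (m t : ℕ) : ℕ :=
  #{a : ZMod M | ff M ((m : ZMod M) * ((t : ZMod M) * a)) ≠ lam m * ff M ((t : ZMod M) * a)}

/-- `od` has density `≤ δ` at all levels `N / g`, `g ≤ G`. -/
def OD (N G : ℕ) (δ : ℝ) : Prop :=
  ∀ (M g : ℕ) [NeZero M], M * g = N → g ≤ G → (od M : ℝ) + 1 ≤ δ * M

def BD (N G m : ℕ) (β : ℝ) : Prop :=
  ∀ (M g : ℕ) [NeZero M], M * g = N → g ≤ G → (bad M m : ℝ) ≤ β * M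

def Gd (N : ℕ) [NeZero N] (A K : ℕ) : Prop := od N * Nat.log 2 N ^ A ≤ N ∧
  ∀ m, 0 < m → m ≤ Nat.log 2 N ^ K → bad N m * Nat.log 2 N ^ A ≤ N

def cu (N : ℕ) [NeZero N] (g : ZMod N → ℂ) (χ : Ch N) : ℂ :=
  (∑ a, g a * (starRingEnd ℂ) (χ a)) / (N.totient : ℂ)

def nu (N : ℕ) [NeZero N] (χ : Ch N) : ℝ := ‖cu N (fun a => (ff N a : ℂ)) χ‖ ^ 2

/-- Primes up to `2 ^ j` that do not divide `N`. -/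
def QQ (N j : ℕ) : Finset ℕ := {q ∈ PP j | ¬q ∣ N}

open Classical in
def LQ (N j : ℕ) [NeZero N] : Finset (Ch N) :=
  {χ | (#(QQ N j) : ℝ) / 2 ≤ (∑ q ∈ QQ N j, -χ (q : ZMod N)).re}

def aa (N : ℕ) (χ : Ch N) (j : ℕ) : ℝ := (∑ q ∈ QQ N j, ‖χ (q : ZMod N) + 1‖ ^ 2) / #(QQ N j)

def DD (N : ℕ) (χ : Ch N) (j₀ J : ℕ) : ℝ := ∑ j ∈ Ico j₀ J,
  (∑ q ∈ QQ N j, ∑ q' ∈ QQ N (j + 1), ‖χ (q : ZMod N) - χ (q' : ZMod N)‖ ^ 2) /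
    ((#(QQ N j) : ℝ) * #(QQ N (j + 1)))

def VQ (N : ℕ) (χ : Ch N) (j₀ J : ℕ) : ℝ :=
  ∑ q ∈ QQ N j₀, ‖χ (q : ZMod N) + 1‖ ^ 2 + DD N χ j₀ J

def WW (N : ℕ) : ℝ := 4 * √N * (1 + Real.log N)

def UN (N Y : ℕ) : ℕ := #{n ∈ Icc 1 Y | n.Coprime N}

/-- The admissible range of the two ends of a chain. -/
def Rg (N j₀ J : ℕ) : Prop := 1 ≤ j₀ ∧ j₀ ≤ J ∧ J ≤ Nat.log 2 N ∧ 8 * j₀ * Nat.log 2 N ≤ 2 ^ j₀ ∧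
  Nat.log 2 N ≤ 2 * J + 64 * ((Nat.sqrt (Nat.log 2 N) + 1) * (Nat.log 2 (Nat.log 2 N) + 1))

open Classical in
/-- The values of a real character as integers. -/
def re {N : ℕ} (χ : Ch N) (n : ℕ) : ℤ :=
  if χ (n : ZMod N) = 1 then 1 else if χ (n : ZMod N) = -1 then -1 else 0

/-- Inert primes below `c`. -/
def KQ {N : ℕ} (χ : Ch N) (c : ℕ) : Finset ℕ := {q ∈ range c | q.Prime ∧ re χ q = -1}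

open Classical in
/-- Split primes up to `N ^ 0.33`. -/
def SP {N : ℕ} (χ : Ch N) : Finset ℕ :=
  {c ∈ range N | c.Prime ∧ re χ c = 1 ∧ (c : ℝ) ≤ (N : ℝ) ^ (0.33 : ℝ)}

def EX {N : ℕ} (χ : Ch N) (σ : ℤ) : ℕ := #{n ∈ Ico 1 N | n.Coprime N ∧ lam n ≠ σ * re χ n}

/-- A bounded weight of period 8. -/
def Wt (w : ℕ → ℤ) : Prop := (∀ n, |w n| ≤ 1) ∧ ∀ n, w (n + 8) = w n

/-! ### Part I: from few pairs to approximate multiplicativity -/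

def ODG_s : Prop := ∀ (M : ℕ) [NeZero M] (e : ℤ), (e = 1 ∨ e = -1) →
  (od M : ℤ) ≤ |∑ n ∈ Icc 1 (M - 1), lam n| + 2 * cnt M e (-Sg.s * e)

def ODSG_s : Prop := ∀ ε : ℝ, 0 < ε → ∃ r : ℕ, ∀ B : ℕ, ∃ N₀ : ℕ, ∀ N : ℕ, N₀ ≤ N →
  ∀ e : ℤ, (e = 1 ∨ e = -1) → (cnt N e (-Sg.s * e) : ℝ) ≤ (N : ℝ) ^ (1 - ε) →
    ∃ G : ℕ, N ≤ G ^ r ∧ OD N G (1 / (Nat.log 2 N : ℝ) ^ B)

def PULL_s : Prop := ∀ (M M' g t : ℕ) [NeZero M] [NeZero M'], M' * g = M → g = Nat.gcd t M →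
  odP M t ≤ g * od M' ∧ ∀ m, badP M m t ≤ g * bad M' m

def TRG_s : Prop := ∀ (M : ℕ) [NeZero M] (m : ℕ) (S : Finset ℕ), 0 < m →
  bad M m ≤ far M m S + ∑ s ∈ S, (odP M s + odP M (m * s) + badP M s m + bad M s)

def FAR_s : Prop := ∀ (M : ℕ) [NeZero M] (m : ℕ), 2 ≤ m → far M m (Ico 1 m) ≤ m ^ 3

def DIRG_s : Prop := ∀ y : ℕ, ∃ C : ℕ, 0 < C ∧ ∀ (N G : ℕ) (δ : ℝ), 0 < N → OD N (G * C) δ →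
  ∀ m, 0 < m → m ≤ y → BD N G m (C * δ)

def SUBG_s : Prop := ∀ (N G : ℕ) (β : ℝ) (l : List ℕ), 0 < N → 0 ≤ β →
  (∀ x ∈ l, 0 < x ∧ BD N (G * l.prod) x β) → BD N G l.prod (l.length * β)

def FEJG_s : Prop := ∀ (M : ℕ) [NeZero M] (m w : ℕ) (T : Finset ℕ), 2 ≤ m → m ^ 2 ≤ 2 ^ w →
  (∀ t ∈ T, 0 < t ∧ 2 * m ^ 2 * t ^ w < M) →
    far M m (T.image (· ^ w)) * #T ≤ 4 * m ^ 2 * M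

def ST2G_s : Prop := ∀ A K r : ℕ, ∃ B N₀ : ℕ, ∀ (N : ℕ) [NeZero N], N₀ ≤ N → ∀ G : ℕ,
  N ≤ G ^ r → OD N G (1 / (Nat.log 2 N : ℝ) ^ B) → Gd N A K

/-! ### Part II: concentration on one real character -/

def TAU_s : Prop := (∀ n : ℕ, (#n.divisors : ℝ) ≤ 2 * √n) ∧
  ∀ δ : ℝ, 0 < δ → ∃ C : ℝ, 0 < C ∧ ∀ n : ℕ, (#n.divisors : ℝ) ≤ C * (n : ℝ) ^ δ

def PHI_s : Prop := ∃ C : ℝ, 0 < C ∧ ∀ N : ℕ, 2 ≤ N →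
  (N : ℝ) ≤ C * N.totient * (Nat.log 2 N : ℝ) ^ (1 / 4 : ℝ)

def UNI_s : Prop := ∀ N : ℕ, 0 < N →
  (∀ u T : ℕ, (T : ℝ) * N.totient / N - #N.divisors ≤ #{t ∈ range T | (u + t).Coprime N}) ∧
    ∀ Y : ℕ, (Y : ℝ) * N.totient / N - #N.divisors ≤ UN N Y

def CHQ_s : Prop := ∀ N j₀ j : ℕ, 0 < N → 1 ≤ j₀ → j₀ ≤ j → 8 * j₀ * Nat.log 2 N ≤ 2 ^ j₀ →
  2 ^ j ≤ 8 * j * #(QQ N j)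

def PARG_s : Prop := ∀ (N : ℕ) [NeZero N],
  (∀ (g : ZMod N → ℂ) (a : ZMod N), IsUnit a → g a = ∑ χ : Ch N, cu N g χ * χ a) ∧
  ∀ d : Ch N → ℂ, ∑ a : ZMod N, ‖∑ χ : Ch N, d χ * χ a‖ ^ 2 = N.totient * ∑ χ : Ch N, ‖d χ‖ ^ 2

def MUG_s : Prop := ∀ (N : ℕ) [NeZero N], 1 < N → ∑ χ : Ch N, nu N χ = 1 ∧ ∀ m : ℕ, m.Coprime N →
  (N.totient : ℝ) * ∑ χ : Ch N, nu N χ * ‖χ (m : ZMod N) - (lam m : ℂ)‖ ^ 2 ≤ 4 * bad N m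

def SPECG_s : Prop := ∀ (N : ℕ) [NeZero N] (j r : ℕ), 2 ^ (j * r) < N →
  #(LQ N j) * #(QQ N j) ^ r ≤ N * (4 * r) ^ r

def PVP_s : Prop := ∀ (r : ℕ) [NeZero r] (ψ : Ch r) (Y : ℕ), ψ.IsPrimitive → ψ ≠ 1 →
  ‖∑ n ∈ Icc 1 Y, ψ (n : ZMod r)‖ ≤ 2 * √r * (1 + Real.log r)

def PV_s : Prop := ∀ (N : ℕ) [NeZero N] (ψ : Ch N) (Y : ℕ), ψ ≠ 1 →
  ‖∑ n ∈ Icc 1 Y, ψ (n : ZMod N)‖ ≤ WW N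

def LOCG_s : Prop := ∀ (N : ℕ) [NeZero N] (Λ : Finset (Ch N)) (d : Ch N → ℂ) (Y : ℕ),
  2 * #Λ * WW N ≤ UN N Y → (UN N Y : ℝ) / 2 * ∑ χ ∈ Λ, ‖d χ‖ ^ 2 ≤
    ∑ n ∈ Icc 1 Y, ‖∑ χ ∈ Λ, d χ * χ (n : ZMod N)‖ ^ 2

open Classical in
def CHNG_s : Prop := ∀ (N : ℕ) [NeZero N] (Λ : Finset (Ch N)) (j₀ J : ℕ), 1 < N → 1 ≤ j₀ →
  8 * j₀ * Nat.log 2 N ≤ 2 ^ j₀ → (2 : ℝ) ^ (J + 4) * (2 * #Λ + 1) * WW N ≤ N.totient →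
    ∑ χ ∈ Λ, nu N χ * DD N χ j₀ J ≤ 256 * ((Nat.log 2 N : ℝ) + 1) ^ 3 * ∑ χ ∈ Λᶜ, nu N χ

def CHA_s : Prop := (∀ (N : ℕ) (χ : Ch N) (j₀ j l : ℕ), 1 ≤ l → j₀ ≤ j → j ≤ j₀ + l →
  (QQ N j₀).Nonempty → aa N χ j ≤ 3 * (aa N χ j₀ + (1 + l) * DD N χ j₀ j)) ∧
  ∀ (N : ℕ) [NeZero N] (χ : Ch N) (j : ℕ), (QQ N j).Nonempty → χ ∉ LQ N j → 1 ≤ aa N χ j

def FEWG_s : Prop := ∃ K N₀ : ℕ, ∀ (N : ℕ) [NeZero N], N₀ ≤ N → ∃ j₀ j₁ J : ℕ, Rg N j₀ J ∧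
  j₀ ≤ j₁ ∧ j₁ ≤ Nat.log 2 N ∧ 2 ^ j₀ ≤ Nat.log 2 N ^ K ∧
  (2 : ℝ) ^ (j₁ + 4) * (2 * #(LQ N j₀) + 1) * WW N ≤ N.totient ∧
  (2 : ℝ) ^ (J + 4) * (2 * #(LQ N j₁) + 1) * WW N ≤ N.totient

def VIN1G_s : Prop := ∀ (N : ℕ) (χ : Ch N) (j₀ J : ℕ), 1 ≤ Nat.log 2 N → j₀ ≤ J →
  J ≤ Nat.log 2 N → (QQ N j₀).Nonempty → VQ N χ j₀ J * (Nat.log 2 N : ℝ) ^ 5 ≤ 1 →
    ∑ q ∈ QQ N J, ‖χ (q : ZMod N) + 1‖ / q ≤ 8 / Nat.log 2 N ∧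
      ∀ j, j₀ ≤ j → j ≤ J → aa N χ j ≤ 9 / (Nat.log 2 N : ℝ) ^ 4

def VIN2G_s : Prop := ∀ (N : ℕ) (ψ : Ch N) (Y : ℕ),
  ∑ n ∈ Icc 1 Y with n.Coprime N, ‖ψ (n : ZMod N) - 1‖ ≤
    2 * Y * ∑ q ∈ Icc 1 Y with (q.Prime ∧ ¬q ∣ N), ‖ψ (q : ZMod N) - 1‖ / q

def PRN_s : Prop := ∃ N₀ : ℕ, ∀ (N : ℕ) [NeZero N], N₀ ≤ N → ∀ (ψ : Ch N) (j₀ J : ℕ), Rg N j₀ J →
  ∑ q ∈ QQ N J, ‖ψ (q : ZMod N) - 1‖ / q ≤ 16 / Nat.log 2 N → ψ = 1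

open Classical in
def CON1_s : Prop := ∀ A : ℕ, ∃ B K N₀ : ℕ, ∀ (N : ℕ) [NeZero N], N₀ ≤ N → Gd N B K →
  ∃ j₀ J : ℕ, Rg N j₀ J ∧
    (∑ χ : Ch N with 1 < VQ N χ j₀ J * (Nat.log 2 N : ℝ) ^ 5, nu N χ) * (Nat.log 2 N : ℝ) ^ A ≤ 1

def CON2_s : Prop := ∃ N₀ : ℕ, ∀ (N : ℕ) [NeZero N], N₀ ≤ N → ∀ (j₀ J : ℕ) (χ : Ch N), Rg N j₀ J →
  VQ N χ j₀ J * (Nat.log 2 N : ℝ) ^ 5 ≤ 1 → χ ≠ 1 ∧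
    (∀ χ' : Ch N, VQ N χ' j₀ J * (Nat.log 2 N : ℝ) ^ 5 ≤ 1 → χ * χ' = 1) ∧
    ∀ c : ℕ, c.Prime → re χ c = 1 → c ^ 3 ≤ N → c ≤ 32 * Nat.log 2 N * #(KQ χ c)

def CONG_s : Prop := ∀ A : ℕ, ∃ B K N₀ : ℕ, ∀ (N : ℕ) [NeZero N], N₀ ≤ N → Gd N B K →
  ∃ χ : Ch N, χ ^ 2 = 1 ∧ χ ≠ 1 ∧ (1 - nu N χ) * (Nat.log 2 N : ℝ) ^ A ≤ 1 ∧
    ∀ c : ℕ, c.Prime → re χ c = 1 → c ^ 3 ≤ N → c ≤ 32 * Nat.log 2 N * #(KQ χ c)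

def STRG_s : Prop := ∃ N₀ : ℕ, ∀ (N : ℕ) [NeZero N], N₀ ≤ N → ∀ (χ : Ch N) (A : ℕ), 1 ≤ A →
  χ ^ 2 = 1 → (1 - nu N χ) * (Nat.log 2 N : ℝ) ^ A ≤ 1 → od N * Nat.log 2 N ≤ N →
    ∃ σ : ℤ, (σ = 1 ∨ σ = -1) ∧ EX χ σ * Nat.log 2 N ^ A ≤ N ∧ re χ (N - 1) = Sg.s

/-! ### Part III: real characters -/

def STRU_s : Prop := ∀ (N : ℕ) [NeZero N] (χ : Ch N), χ ^ 2 = 1 → ∃ (r : ℕ) (w : ℕ → ℤ),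
  Odd r ∧ Squarefree r ∧ r ∣ N ∧ Wt w ∧ (∀ m n, w (m * n) = w m * w n) ∧
    ∀ n : ℕ, n.Coprime N → re χ n = w n * jacobiSym n r

def CRTJ_s : Prop := ∀ (r : ℕ) (b : Fin 8 → ℕ), Squarefree r →
  ∑ x ∈ range r, ∏ i, jacobiSym ((x + b i : ℕ) : ℤ) r =
    ∏ p ∈ r.primeFactors, ∑ x ∈ range p, ∏ i, jacobiSym ((x + b i : ℕ) : ℤ) p

def WEIJ_s : Prop := ∀ (r : ℕ) (b : Fin 8 → ℕ) (i₀ : Fin 8), Squarefree r → Odd r →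
  |((∑ x ∈ range r, ∏ i, jacobiSym ((x + b i : ℕ) : ℤ) r : ℤ) : ℝ)| ≤
    40 ^ #r.primeFactors * √r * ∏ j ∈ univ.erase i₀, (Nat.gcd (Nat.dist (b i₀) (b j)) r : ℝ)

def MOMJ_s : Prop := ∀ δ : ℝ, 0 < δ → ∃ C : ℝ, 0 < C ∧ ∀ r B : ℕ, Squarefree r → Odd r →
  ∑ x ∈ range r, (∑ b ∈ Icc 1 B, (jacobiSym ((x + b : ℕ) : ℤ) r : ℝ)) ^ 8 ≤
    C * (r : ℝ) ^ δ * (r * B ^ 4 + B ^ 8 * √r)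

def ENEJ_s : Prop := ∀ (r u L A : ℕ) (P : Finset ℕ), (∀ a ∈ P, a.Prime ∧ a ≤ A ∧ ¬a ∣ r) →
  A ≤ L → L * A ≤ r →
    #{z ∈ (range L ×ˢ P) ×ˢ (range L ×ˢ P) |
      (u + z.1.1) * z.2.2 ≡ (u + z.2.1) * z.1.2 [MOD r]} ≤ 9 * L * #P

def BUR1J_s : Prop := ∀ (r u L A B : ℕ) (P : Finset ℕ) (w : ℕ → ℤ) (τ W : ℝ), Odd r → Wt w →
  (∀ a ∈ P, a.Prime ∧ a ≤ A ∧ ¬a ∣ r) → P.Nonempty → A ≤ L → L * A ≤ r → 0 < B → 0 < τ →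
  (#{x ∈ range r | τ * B ≤ |∑ b ∈ Icc 1 B, (jacobiSym ((x + b : ℕ) : ℤ) r : ℝ)|} : ℝ) ≤ W →
    |∑ t ∈ range L, ((w (u + t) * jacobiSym ((u + t : ℕ) : ℤ) r : ℤ) : ℝ)| ≤
      τ * L + √(W * (9 * L * #P)) / #P + 16 * A * B

def BURJ_s : Prop := ∃ κ : ℝ, 0 < κ ∧ ∃ r₀ : ℕ, ∀ (r u L : ℕ) (w : ℕ → ℤ), r₀ ≤ r → Squarefree r →
  Odd r → Wt w → |∑ t ∈ range L, ((w (u + t) * jacobiSym ((u + t : ℕ) : ℤ) r : ℤ) : ℝ)| ≤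
    2 * (r : ℝ) ^ (0.318 : ℝ) + L * (r : ℝ) ^ (-κ)

def ZER_s : Prop := ∀ (r u₀ u L : ℕ) (w : ℕ → ℤ), 0 < r → Wt w → (∀ m n, w (m * n) = w m * w n) →
  u₀.Coprime (8 * r) → w u₀ * jacobiSym u₀ r = -1 →
    |∑ t ∈ range L, ((w (u + t) * jacobiSym ((u + t : ℕ) : ℤ) r : ℤ) : ℝ)| ≤ 8 * r

def BURGG_s : Prop := ∃ κ : ℝ, 0 < κ ∧ κ ≤ 1 / 1000 ∧ ∃ N₀ : ℕ, ∀ (N : ℕ) [NeZero N], N₀ ≤ N →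
  ∀ χ : Ch N, χ ^ 2 = 1 → χ ≠ 1 → ∀ u T : ℕ, (N : ℝ) ^ (0.32 : ℝ) ≤ T →
    |∑ t ∈ range T, (re χ (u + t) : ℝ)| ≤ T * (N : ℝ) ^ (-κ)

def SIEGG_s : Prop := ∀ ε : ℝ, 0 < ε → ∃ c : ℝ, 0 < c ∧ ∀ (N : ℕ) [NeZero N] (χ : Ch N),
  χ ^ 2 = 1 → χ ≠ 1 → ∃ L : ℝ, c / (N : ℝ) ^ ε ≤ |L| ∧
    Tendsto (fun M : ℕ => ∑ n ∈ Icc 1 M, (re χ n : ℝ) / n) atTop (𝓝 L)

open Classical in
def NSP_s : Prop := ∀ (N : ℕ) [NeZero N] (χ : Ch N) (x : ℕ), χ ^ 2 = 1 →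
  ∑ n ∈ Icc 1 x with (∀ c : ℕ, c.Prime → c ∣ n → re χ c ≠ 1),
    |((∑ d ∈ n.divisors, re χ d : ℤ) : ℝ)| ≤ #N.divisors * √x

def MANYG_s : Prop := ∀ ε : ℝ, 0 < ε → ∃ N₀ : ℕ, ∀ (N : ℕ) [NeZero N], N₀ ≤ N → ∀ χ : Ch N,
  χ ^ 2 = 1 → χ ≠ 1 → (N : ℝ) ^ (-ε) ≤ ∑ c ∈ SP χ, 1 / (c : ℝ)

def FIN1G_s : Prop := ∃ N₀ : ℕ, ∀ (N : ℕ) [NeZero N], N₀ ≤ N → ∀ χ : Ch N, χ ^ 2 = 1 → χ ≠ 1 →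
  ∀ (u c T : ℕ) (τ : ℤ), (τ = 1 ∨ τ = -1) → re χ c = 1 → (N : ℝ) ^ (0.32 : ℝ) ≤ T →
    T * N.totient ≤ 4 * N * #{t ∈ range T | re χ (u + t * c) = τ}

def FING_s : Prop := ∃ N₀ : ℕ, ∀ (N : ℕ) [NeZero N], N₀ ≤ N → ∀ (χ : Ch N) (σ e s : ℤ) (c : ℕ),
  χ ^ 2 = 1 → χ ≠ 1 → (σ = 1 ∨ σ = -1) → (e = 1 ∨ e = -1) → (s = 1 ∨ s = -1) → c ∈ SP χ →
  c ≤ 32 * Nat.log 2 N * #(KQ χ c) → re χ (N - 1) = s → EX χ σ * Nat.log 2 N ^ 6 ≤ N →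
    N ≤ Nat.log 2 N ^ 4 * c *
      #{m ∈ Icc 1 ((N - 1) / c) | lam (c * m) = e ∧ lam (N - c * m) = -s * e}

def PRIG_s : Prop := ∀ ε : ℝ, 0 < ε → ∃ N₀ : ℕ, ∀ N : ℕ, N₀ ≤ N →
  ∀ e : ℤ, (e = 1 ∨ e = -1) → (N : ℝ) ^ (1 - ε) ≤ cnt N e (-Sg.s * e)

def TOPN_s : Prop := ∀ ε : ℝ, 0 < ε → ∃ N₀ : ℕ, ∀ N : ℕ, N₀ ≤ N →
  ∀ e e' : ℤ, (e = 1 ∨ e = -1) → (e' = 1 ∨ e' = -1) → (N : ℝ) ^ (1 - ε) ≤ cnt N e e'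

omit [Sg]

theorem re_nonunit {N : ℕ} (χ : Ch N) {n : ℕ} (h : ¬n.Coprime N) : re χ n = 0 := by
  have : χ (n : ZMod N) = 0 := MulChar.map_nonunit _ (mt (ZMod.isUnit_iff_coprime n N).1 h)
  simp [re, this]

theorem sq_unit {N : ℕ} {χ : Ch N} (h : χ ^ 2 = 1) {a : ZMod N} (ha : IsUnit a) :
    χ a = 1 ∨ χ a = -1 := by
  have : χ a ^ 2 = 1 := by rw [← MulChar.pow_apply' χ two_ne_zero, h, MulChar.one_apply ha]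
  exact sq_eq_one_iff.1 this

theorem re_unit {N : ℕ} {χ : Ch N} (h : χ ^ 2 = 1) {n : ℕ} (hn : n.Coprime N) :
    re χ n = 1 ∨ re χ n = -1 := by
  rcases sq_unit h ((ZMod.isUnit_iff_coprime n N).2 hn) with e | e
  · simp [re, e]
  · right; simp only [re, e]; norm_num

theorem re_coe {N : ℕ} {χ : Ch N} (h : χ ^ 2 = 1) (n : ℕ) : (re χ n : ℂ) = χ (n : ZMod N) := by
  by_cases hn : n.Coprime N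
  · rcases sq_unit h ((ZMod.isUnit_iff_coprime n N).2 hn) with e | e
    · simp [re, e]
    · simp only [re, e]; norm_num
  · rw [re_nonunit χ hn, MulChar.map_nonunit _ (mt (ZMod.isUnit_iff_coprime n N).1 hn)]; simp

theorem re_mul {N : ℕ} {χ : Ch N} (h : χ ^ 2 = 1) (m n : ℕ) : re χ (m * n) = re χ m * re χ n := by
  have : ((re χ (m * n) : ℤ) : ℂ) = ((re χ m * re χ n : ℤ) : ℂ) := by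
    push_cast
    rw [re_coe h, re_coe h, re_coe h, Nat.cast_mul, map_mul]
  exact_mod_cast this

theorem re_congr {N : ℕ} (χ : Ch N) {m n : ℕ} (h : (m : ZMod N) = n) : re χ m = re χ n := by
  simp only [re, h]

theorem abs_re_le {N : ℕ} (χ : Ch N) (n : ℕ) : |re χ n| ≤ 1 := by
  unfold re; split_ifs <;> simp

end

end Pool.Agent.G27
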