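import Pool.Agent.MP_b5e119_nt.G27.Defs

namespace Pool.Agent.G27

open Finset Pool.Agent.G60

/-- Numbers below `L` that are pairwise congruent modulo `a`. -/
theorem enej_one (S : Finset ℕ) (L a : ℕ) (hS : ∀ t ∈ S, t < L)
    (hc : ∀ t ∈ S, ∀ t' ∈ S, t ≡ t' [MOD a]) : #S ≤ L / a + 1 := by
  have : #S ≤ #(range (L / a + 1)) := by
    refine card_le_card_of_injOn (fun t => t / a) (fun t ht => ?_) (fun t ht t' ht' h => ?_)
    · have := Nat.div_le_div_right (c := a) (hS t ht).le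
      simp only [coe_range, Set.mem_Iio]
      omega
    · have h1 := hc t ht t' ht'
      have h2 := Nat.div_add_mod t a
      have h3 := Nat.div_add_mod t' a
      simp only at h
      unfold Nat.ModEq at h1
      rw [← h2, ← h3, h, h1]
  simpa using this

/-- Solutions of `t a' - t' a = v`. -/
theorem enej_two (L a a' : ℕ) (v : ℤ) (ha : 0 < a) (hco : a.Coprime a') :
    #{z ∈ range L ×ˢ range L | (z.1 : ℤ) * a' - z.2 * a = v} ≤ L / a + 1 := by
  set Z := {z ∈ range L ×ˢ range L | (z.1 : ℤ) * a' - z.2 * a = v} with hZ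
  have h1 : #Z = #(Z.image Prod.fst) := by
    refine (card_image_of_injOn fun z hz z' hz' h => ?_).symm
    have e1 := (mem_filter.1 hz).2
    have e2 := (mem_filter.1 hz').2
    rw [h] at e1
    have e3 : (z.2 : ℤ) * a = z'.2 * a := by linarith
    have e4 : (z.2 : ℤ) = z'.2 := mul_right_cancel₀ (by exact_mod_cast ha.ne') e3
    exact Prod.ext h (by exact_mod_cast e4)
  rw [h1]
  refine enej_one _ L a ?_ ?_
  · intro t ht
    obtain ⟨z, hz, rfl⟩ := mem_image.1 ht
    exact mem_range.1 (mem_product.1 (mem_filter.1 hz).1).1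
  · intro t ht t' ht'
    obtain ⟨z, hz, rfl⟩ := mem_image.1 ht
    obtain ⟨z', hz', rfl⟩ := mem_image.1 ht'
    have e1 := (mem_filter.1 hz).2
    have e2 := (mem_filter.1 hz').2
    rw [Nat.modEq_iff_dvd]
    have hc : IsCoprime (a : ℤ) a' := Nat.isCoprime_iff_coprime.2 hco
    refine hc.dvd_of_dvd_mul_right ⟨(z'.2 : ℤ) - z.2, ?_⟩
    linarith

theorem enej_pair (r u L A a a' : ℕ) (ha : 0 < a) (haA : a ≤ A) (ha'A : a' ≤ A) (hAL : A ≤ L)
    (hLA : L * A ≤ r) (hco : a.Coprime a') :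
    #{z ∈ range L ×ˢ range L | (u + z.1) * a' ≡ (u + z.2) * a [MOD r]} * a ≤ 4 * L := by
  have hL : 0 < L := by omega
  have hr : 0 < r := lt_of_lt_of_le (Nat.mul_pos hL (by omega)) hLA
  have hr' : (0 : ℤ) < r := by exact_mod_cast hr
  set c : ℤ := ((u : ℤ) * a - u * a') % r with hc
  have hc0 : 0 ≤ c := Int.emod_nonneg _ hr'.ne'
  have hc1 : c < r := Int.emod_lt_of_pos _ hr'
  have hsub : {z ∈ range L ×ˢ range L | (u + z.1) * a' ≡ (u + z.2) * a [MOD r]} ⊆
      {z ∈ range L ×ˢ range L | (z.1 : ℤ) * a' - z.2 * a = c} ∪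
        {z ∈ range L ×ˢ range L | (z.1 : ℤ) * a' - z.2 * a = c - r} := by
    intro z hz
    obtain ⟨h1, h2⟩ := mem_filter.1 hz
    obtain ⟨h3, h4⟩ := mem_product.1 h1
    rw [mem_range] at h3 h4
    rw [Nat.modEq_iff_dvd] at h2
    obtain ⟨k, hk⟩ := h2
    push_cast at hk
    have hq := Int.emod_add_mul_ediv ((u : ℤ) * a - u * a') r
    rw [← hc] at hq
    set q := ((u : ℤ) * a - u * a') / r
    have hv : (z.1 : ℤ) * a' - z.2 * a = c + r * (q - k) := by linarith
    have b1 : z.1 * a' < r := by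
      calc z.1 * a' ≤ z.1 * A := Nat.mul_le_mul_left _ ha'A
        _ < L * A := Nat.mul_lt_mul_of_pos_right h3 (by omega)
        _ ≤ r := hLA
    have b2 : z.2 * a < r := by
      calc z.2 * a ≤ z.2 * A := Nat.mul_le_mul_left _ haA
        _ < L * A := Nat.mul_lt_mul_of_pos_right h4 (by omega)
        _ ≤ r := hLA
    have b1' : (z.1 : ℤ) * a' < r := by exact_mod_cast b1
    have b2' : (z.2 : ℤ) * a < r := by exact_mod_cast b2
    have b3 : (0 : ℤ) ≤ z.1 * a' := by positivity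
    have b4 : (0 : ℤ) ≤ z.2 * a := by positivity
    have k1 : q - k < 1 := by
      by_contra hh
      have := mul_le_mul_of_nonneg_left (not_lt.1 hh) hr'.le
      linarith
    have k2 : -2 < q - k := by
      by_contra hh
      have := mul_le_mul_of_nonneg_left (not_lt.1 hh) hr'.le
      linarith
    rw [mem_union, mem_filter, mem_filter]
    rcases (by omega : q - k = 0 ∨ q - k = -1) with e | e
    · left; refine ⟨h1, ?_⟩; rw [hv, e]; ring
    · right; refine ⟨h1, ?_⟩; rw [hv, e]; ring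
  have h5 := (card_le_card hsub).trans (card_union_le _ _)
  have h6 := enej_two L a a' c ha hco
  have h7 := enej_two L a a' (c - r) ha hco
  have h8 : L / a * a ≤ L := Nat.div_mul_le_self _ _
  calc _ ≤ (2 * (L / a + 1)) * a := Nat.mul_le_mul_right _ (by omega)
    _ = 2 * (L / a * a) + 2 * a := by ring
    _ ≤ 4 * L := by omega

theorem enej_row : ENEJ_s := by
  intro r u L A P hP hAL hLA
  obtain ⟨F, hF⟩ : ∃ F : ℕ → ℕ → ℕ, ∀ a a', F a a' =
      #{z ∈ range L ×ˢ range L | (u + z.1) * a' ≡ (u + z.2) * a [MOD r]} := ⟨_, fun _ _ => rfl⟩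
  have hsymm : ∀ a a', F a a' = F a' a := by
    intro a a'
    rw [hF, hF]
    refine card_bij (fun z _ => z.swap) ?_ ?_ ?_
    · intro z hz
      simp only [mem_filter, mem_product, Prod.fst_swap, Prod.snd_swap] at hz ⊢
      exact ⟨⟨hz.1.2, hz.1.1⟩, hz.2.symm⟩
    · intro z _ z' _ h
      exact Prod.swap_injective h
    · intro z hz
      refine ⟨z.swap, ?_, Prod.swap_swap z⟩
      simp only [mem_filter, mem_product, Prod.fst_swap, Prod.snd_swap] at hz ⊢
      exact ⟨⟨hz.1.2, hz.1.1⟩, hz.2.symm⟩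
  have h1 : #{z ∈ (range L ×ˢ P) ×ˢ (range L ×ˢ P) |
      (u + z.1.1) * z.2.2 ≡ (u + z.2.1) * z.1.2 [MOD r]} ≤ ∑ a ∈ P, ∑ a' ∈ P, F a a' := by
    have hsub : {z ∈ (range L ×ˢ P) ×ˢ (range L ×ˢ P) |
        (u + z.1.1) * z.2.2 ≡ (u + z.2.1) * z.1.2 [MOD r]} ⊆
        (P ×ˢ P).biUnion fun p => ({z ∈ range L ×ˢ range L |
          (u + z.1) * p.2 ≡ (u + z.2) * p.1 [MOD r]}).image
            fun z : ℕ × ℕ => ((z.1, p.1), (z.2, p.2)) := by
      intro z hz
      simp only [mem_filter, mem_product] at hz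
      refine mem_biUnion.2 ⟨(z.1.2, z.2.2), mem_product.2 ⟨hz.1.1.2, hz.1.2.2⟩, ?_⟩
      refine mem_image.2 ⟨(z.1.1, z.2.1), ?_, rfl⟩
      exact mem_filter.2 ⟨mem_product.2 ⟨hz.1.1.1, hz.1.2.1⟩, hz.2⟩
    refine (card_le_card hsub).trans (card_biUnion_le.trans ?_)
    rw [← sum_product']
    refine sum_le_sum fun p _ => card_image_le.trans ?_
    rw [hF]
  have hdiag : ∀ a ∈ P, F a a ≤ L := by
    intro a ha
    obtain ⟨p1, p2, p3⟩ := hP a ha
    have hLr : L ≤ r := le_trans (Nat.le_mul_of_pos_right _ (lt_of_lt_of_le p1.pos p2)) hLA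
    rw [hF]
    refine le_trans (card_le_card_of_injOn Prod.fst (t := range L) ?_ ?_) (by simp)
    · intro z hz
      exact (mem_product.1 (mem_filter.1 hz).1).1
    · have key : ∀ z ∈ {z ∈ range L ×ˢ range L | (u + z.1) * a ≡ (u + z.2) * a [MOD r]},
          z.2 = z.1 := by
        intro z hz
        obtain ⟨q1, q2⟩ := mem_filter.1 hz
        obtain ⟨q3, q4⟩ := mem_product.1 q1
        rw [mem_range] at q3 q4
        have q5 := Nat.ModEq.cancel_right_of_coprime
          (((Nat.Prime.coprime_iff_not_dvd p1).2 p3).symm) q2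
        have q6 := Nat.ModEq.add_left_cancel' u q5
        exact (Nat.ModEq.eq_of_lt_of_lt q6 (by omega) (by omega)).symm
      intro z hz z' hz' h
      exact Prod.ext h (by rw [key z hz, key z' hz', h])
  have hlow : ∀ a ∈ P, ∑ a' ∈ P with a' < a, F a a' ≤ 4 * L := by
    intro a ha
    obtain ⟨p1, p2, _⟩ := hP a ha
    refine Nat.le_of_mul_le_mul_right ?_ p1.pos
    rw [sum_mul]
    have : ∀ a' ∈ {a' ∈ P | a' < a}, F a a' * a ≤ 4 * L := by
      intro a' ha'
      obtain ⟨q1, q2⟩ := mem_filter.1 ha'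
      rw [hF]
      exact enej_pair r u L A a a' p1.pos p2 (hP a' q1).2.1 hAL hLA
        ((Nat.coprime_primes p1 (hP a' q1).1).2 q2.ne')
    refine (sum_le_sum this).trans ?_
    rw [sum_const, smul_eq_mul, mul_comm]
    refine Nat.mul_le_mul_left _ ?_
    calc #{a' ∈ P | a' < a} ≤ #(range a) :=
          card_le_card fun x hx => mem_range.2 (mem_filter.1 hx).2
      _ = a := card_range a
  have hsplit : ∑ a ∈ P, ∑ a' ∈ P, F a a' = ∑ a ∈ P, ∑ a' ∈ P,
      ((if a' < a then F a a' else 0) + (if a = a' then F a a' else 0) +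
        (if a < a' then F a' a else 0)) := by
    refine sum_congr rfl fun a _ => sum_congr rfl fun a' _ => ?_
    rcases lt_trichotomy a a' with h | h | h
    · rw [if_neg (by omega), if_neg (by omega), if_pos h, hsymm]; simp
    · rw [if_neg (by omega), if_pos h, if_neg (by omega)]; simp
    · rw [if_pos h, if_neg (by omega), if_neg (by omega)]; simp
  have hA1 : ∑ a ∈ P, ∑ a' ∈ P, (if a' < a then F a a' else 0) ≤ #P * (4 * L) := by
    rw [← smul_eq_mul, ← sum_const]
    refine sum_le_sum fun a ha => ?_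
    rw [← sum_filter]; exact hlow a ha
  have hA2 : ∑ a ∈ P, ∑ a' ∈ P, (if a = a' then F a a' else 0) ≤ #P * L := by
    rw [← smul_eq_mul, ← sum_const]
    refine sum_le_sum fun a ha => ?_
    rw [sum_ite_eq, if_pos ha]; exact hdiag a ha
  have hA3 : ∑ a ∈ P, ∑ a' ∈ P, (if a < a' then F a' a else 0) ≤ #P * (4 * L) := by
    rw [sum_comm]; exact hA1
  simp only [sum_add_distrib] at hsplit
  calc _ ≤ _ := h1
    _ ≤ #P * (4 * L) + #P * L + #P * (4 * L) := by rw [hsplit]; omega
    _ = 9 * L * #P := by ring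

end Pool.Agent.G27
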