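import Pool.Agent.MP_b5e119_nt.G27.Defs

namespace Pool.Agent.G27

open Finset Filter Topology Pool.Agent.G60

theorem far_card (N : ℕ) [NeZero N] {c : ℕ} (hc : 0 < c) (P : ZMod N → Prop) [DecidablePred P] :
    #{a : ZMod N | P ((c : ZMod N) * a)} ≤ c * #{a : ZMod N | P a} := by
  have hN : 0 < N := Nat.pos_of_ne_zero (NeZero.ne N)
  rw [← card_range c, ← card_product, card_range]
  refine card_le_card_of_injOn (fun a => (c * a.val / N, (c : ZMod N) * a)) (fun a ha => ?_)
    fun a _ b _ h => ?_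
  · simp only [coe_filter, mem_univ, true_and, Set.mem_ofPred_eq] at ha
    simp only [coe_product, Set.mem_prod, mem_coe, mem_range, mem_filter, mem_univ, true_and]
    refine ⟨?_, ha⟩
    rw [Nat.div_lt_iff_lt_mul hN]
    exact Nat.mul_lt_mul_of_pos_left (ZMod.val_lt a) hc
  · simp only [Prod.mk.injEq] at h
    obtain ⟨h1, h2⟩ := h
    have h3 := congrArg ZMod.val h2
    rw [ZMod.val_mul, ZMod.val_mul, ZMod.val_natCast, Nat.mod_mul_mod, Nat.mod_mul_mod] at h3
    have h4 := Nat.div_add_mod (c * a.val) N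
    have h5 := Nat.div_add_mod (c * b.val) N
    rw [h1, h3, h5] at h4
    exact ZMod.val_injective N (Nat.eq_of_mul_eq_mul_left hc h4.symm)

theorem far_dir (N : ℕ) [NeZero N] (m : ℕ) (h2 : 2 ≤ m) (a : ZMod N) :
    ∃ k ∈ Finset.Ico 1 m, m * ((k : ZMod N) * a).valMinAbs.natAbs ≤ N := by
  have hp0 : (0 : ℝ) < N := by exact_mod_cast Nat.pos_of_ne_zero (NeZero.ne N)
  obtain ⟨j, k, hk0, hk, hle⟩ :=
    Real.exists_int_int_abs_mul_sub_le ((a.val : ℝ) / N) (n := m - 1) (by omega)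
  lift k to ℕ using hk0.le
  refine ⟨k, by rw [Finset.mem_Ico]; omega, ?_⟩
  have hm1 : ((m - 1 : ℕ) : ℝ) + 1 = m := by
    rw [Nat.cast_sub (by omega)]
    simp
  have hm0 : (0 : ℝ) < m := by exact_mod_cast (by omega : 0 < m)
  rw [hm1] at hle
  have h3 : (m : ℝ) * |(k : ℝ) * a.val - j * N| ≤ N := by
    have e : (k : ℝ) * a.val - j * N = (((k : ℤ) : ℝ) * ((a.val : ℝ) / N) - j) * N := by
      push_cast
      field_simp
    rw [e, abs_mul, abs_of_pos hp0]
    rw [le_div_iff₀ hm0] at hle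
    nlinarith
  have h4 : m * ((k : ℤ) * a.val - j * N).natAbs ≤ N := by
    have : ((m * ((k : ℤ) * a.val - j * N).natAbs : ℕ) : ℝ) ≤ N := by
      rw [Nat.cast_mul, Nat.cast_natAbs]
      push_cast
      exact h3
    exact_mod_cast this
  have h5 : ((k : ZMod N) * a).valMinAbs.natAbs ≤ ((k : ℤ) * a.val - j * N).natAbs := by
    refine ZMod.natAbs_min_of_le_div_two N _ _ ?_ (ZMod.natAbs_valMinAbs_le _)
    simp
  exact (Nat.mul_le_mul_left m h5).trans h4

theorem far_row : FAR_s := by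
  classical
  intro M _ m h2
  have hA : ∀ s ∈ Finset.Ico 1 m,
      #{a : ZMod M | ((m * s : ℕ) : ZMod M) * a = 0} ≤ m ^ 2 := by
    intro s hs
    have hs' := Finset.mem_Ico.1 hs
    have i4 := far_card M (c := m * s) (Nat.mul_pos (by omega) hs'.1) fun a => a = 0
    have i5 : #{a : ZMod M | a = 0} = 1 := by simp [filter_eq']
    rw [i5, mul_one] at i4
    refine i4.trans ?_
    rw [pow_two]
    exact Nat.mul_le_mul_left _ hs'.2.le
  have hB := (card_biUnion_le (s := Finset.Ico 1 m)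
    (t := fun s => univ.filter fun a : ZMod M => ((m * s : ℕ) : ZMod M) * a = 0)).trans
    (sum_le_card_nsmul _ _ _ hA)
  rw [Nat.card_Ico, smul_eq_mul] at hB
  have hC : (m - 1) * m ^ 2 ≤ m ^ 3 := by
    rw [pow_succ' m 2]
    exact Nat.mul_le_mul_right _ (Nat.sub_le _ _)
  refine le_trans ?_ (hB.trans hC)
  unfold far
  refine card_le_card fun a ha => ?_
  rw [mem_biUnion]
  obtain ⟨s, hs, hw⟩ := far_dir M m h2 a
  refine ⟨s, hs, ?_⟩
  simp only [mem_filter, mem_univ, true_and] at ha ⊢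
  have e := le_antisymm hw (ha s hs)
  have e2 : ((m * ((s : ZMod M) * a).valMinAbs.natAbs : ℕ) : ZMod M) = 0 := by
    rw [e, ZMod.natCast_self]
  rw [Nat.cast_mul, ZMod.natCast_natAbs_valMinAbs] at e2
  rw [Nat.cast_mul, mul_assoc]
  split_ifs at e2
  · exact e2
  · rwa [mul_neg, neg_eq_zero] at e2

end Pool.Agent.G27
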