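import Pool.Agent.MP_b5e119_nt.G27.Defs

namespace Pool.Agent.G27

open Finset Filter Topology Pool.Agent.G60

noncomputable section

def fejg_D (p : ℕ) [NeZero p] (H : ℕ) (x : ZMod p) : ℂ :=
  ∑ j ∈ range H, ZMod.stdAddChar ((j : ZMod p) * x)

def fejg_g (p : ℕ) [NeZero p] (H : ℕ) (x : ZMod p) : ℝ := ‖fejg_D p H x‖ ^ 2 - H

theorem fejg_orth (p : ℕ) [NeZero p] (c : ℤ) (h0 : c ≠ 0) (h1 : |c| < p) :
    ∑ a : ZMod p, ZMod.stdAddChar ((c : ZMod p) * a) = 0 := by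
  have h2 : (c : ZMod p) ≠ 0 := by
    rw [Ne, ZMod.intCast_zmod_eq_zero_iff_dvd]
    intro h
    exact h0 (Int.eq_zero_of_abs_lt_dvd h h1)
  have := AddChar.sum_mulShift (c : ZMod p) (ZMod.isPrimitive_stdAddChar p)
  rw [if_neg h2] at this
  simpa [mul_comm] using this

theorem fejg_g_eq (p : ℕ) [NeZero p] (H : ℕ) (x : ZMod p) : (fejg_g p H x : ℂ) =
    ∑ j ∈ range H, ∑ k ∈ range H,
      if j = k then 0 else ZMod.stdAddChar (((((j : ℤ) - k : ℤ)) : ZMod p) * x) := by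
  unfold fejg_g
  push_cast
  rw [← Complex.mul_conj', fejg_D, map_sum, sum_mul_sum]
  have h1 : (H : ℂ) = ∑ j ∈ range H, ∑ k ∈ range H, if j = k then (1 : ℂ) else 0 := by
    rw [sum_congr rfl fun j hj => by rw [sum_ite_eq, if_pos hj]]; simp
  rw [h1, ← sum_sub_distrib]
  refine sum_congr rfl fun j _ => ?_
  rw [← sum_sub_distrib]
  refine sum_congr rfl fun k _ => ?_
  rw [← AddChar.map_neg_eq_conj, ← AddChar.map_add_eq_mul]
  split_ifs with h
  · subst h; simp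
  · rw [sub_zero]; congr 1; ring

theorem fejg_D_le (p : ℕ) [NeZero p] (H : ℕ) (x : ZMod p) : ‖fejg_D p H x‖ ≤ H := by
  unfold fejg_D
  refine (norm_sum_le _ _).trans ?_
  simp

theorem fejg_off (p : ℕ) [NeZero p] (H m : ℕ) (x : ZMod p) (h : p ≤ m * x.valMinAbs.natAbs) :
    ‖fejg_D p H x‖ ≤ m / 2 := by
  have p0 : (0 : ℝ) < p := by exact_mod_cast Nat.pos_of_ne_zero (NeZero.ne p)
  set z : ℂ := ZMod.stdAddChar x with hz
  have h1 : fejg_D p H x = ∑ j ∈ range H, z ^ j := by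
    unfold fejg_D
    refine sum_congr rfl fun j _ => ?_
    rw [hz, ← AddChar.map_nsmul_eq_pow, nsmul_eq_mul]
  have z1 : ‖z‖ = 1 := by simp [hz]
  have h2 : ‖fejg_D p H x‖ * ‖z - 1‖ ≤ 2 := by
    rw [← norm_mul, h1, geom_sum_mul]
    refine (norm_sub_le _ _).trans ?_
    rw [norm_pow, z1]; norm_num
  set v : ℤ := x.valMinAbs with hv
  have v1 : (|(v : ℝ)|) = (v.natAbs : ℝ) := by rw [Nat.cast_natAbs]; push_cast; rfl
  have v2 : 2 * |(v : ℝ)| ≤ p := by
    have := ZMod.natAbs_valMinAbs_le x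
    have h3 : 2 * v.natAbs ≤ p := by omega
    rw [v1]; exact_mod_cast h3
  have v3 : (p : ℝ) ≤ m * |(v : ℝ)| := by rw [v1]; exact_mod_cast h
  have h3 : z = Complex.exp (Complex.I * ((2 * Real.pi * v / p : ℝ) : ℂ)) := by
    rw [hz, ← ZMod.coe_valMinAbs x, ZMod.stdAddChar_coe]
    congr 1; push_cast; ring
  have pi0 := Real.pi_pos
  have h4 : |2 * Real.pi * v / p / 2| = Real.pi * |(v : ℝ)| / p := by
    rw [show 2 * Real.pi * v / p / 2 = Real.pi * v / p by ring, abs_div, abs_mul, abs_of_pos pi0,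
      abs_of_pos p0]
  have h5 := Real.mul_abs_le_abs_sin (x := 2 * Real.pi * v / p / 2) (by
    rw [h4, div_le_div_iff₀ p0 two_pos]; nlinarith)
  have h6 : 4 * |(v : ℝ)| / p ≤ ‖z - 1‖ := by
    rw [h3, Complex.norm_exp_I_mul_ofReal_sub_one, Real.norm_eq_abs, abs_mul, abs_two]
    rw [h4] at h5
    have : 2 / Real.pi * (Real.pi * |(v : ℝ)| / p) = 2 * |(v : ℝ)| / p := by field_simp
    rw [this] at h5
    have e : 4 * |(v : ℝ)| / p = 2 * (2 * |(v : ℝ)| / p) := by ring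
    rw [e]; linarith
  have h7 : 4 ≤ m * ‖z - 1‖ := by
    have : (4 : ℝ) ≤ m * (4 * |(v : ℝ)| / p) := by
      rw [← mul_div_assoc, le_div_iff₀ p0]; nlinarith
    exact this.trans (mul_le_mul_of_nonneg_left h6 (Nat.cast_nonneg m))
  have n0 := norm_nonneg (fejg_D p H x)
  have m0 : (0 : ℝ) ≤ m := Nat.cast_nonneg m
  nlinarith [mul_le_mul_of_nonneg_left h7 n0, mul_le_mul_of_nonneg_left h2 m0]

theorem fejg_ne (w t t' : ℕ) (ht : 0 < t) (hne : t ≠ t') (h h' : ℤ) (h0 : h ≠ 0) (h0' : h' ≠ 0)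
    (h1 : |h| < 2 ^ w) (h1' : |h'| < 2 ^ w) : h * (t : ℤ) ^ w + h' * (t' : ℤ) ^ w ≠ 0 := by
  intro e
  obtain ⟨g, u, v, g0, hc, rfl, rfl⟩ := Nat.exists_coprime' (Nat.gcd_pos_of_pos_left t' ht)
  have e1 : h * (u : ℤ) ^ w + h' * (v : ℤ) ^ w = 0 := by
    have g1 : (g : ℤ) ^ w ≠ 0 := pow_ne_zero _ (by exact_mod_cast g0.ne')
    apply mul_left_cancel₀ g1
    push_cast at e
    rw [mul_pow, mul_pow] at e
    linear_combination e
  have c1 : IsCoprime ((u : ℤ) ^ w) ((v : ℤ) ^ w) := (Nat.isCoprime_iff_coprime.2 hc).pow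
  have d1 : (v : ℤ) ^ w ∣ h := c1.symm.dvd_of_dvd_mul_right ⟨-h', by linear_combination e1⟩
  have d2 : (u : ℤ) ^ w ∣ h' := c1.dvd_of_dvd_mul_right ⟨-h, by linear_combination e1⟩
  have k : ∀ (a : ℕ) (b : ℤ), b ≠ 0 → |b| < 2 ^ w → (a : ℤ) ^ w ∣ b → a ≤ 1 := by
    intro a b b0 b1 b2
    by_contra hc
    have a1 : (2 : ℤ) ^ w ≤ (a : ℤ) ^ w := pow_le_pow_left₀ (by norm_num) (by omega) w
    have a2 := Int.le_of_dvd (abs_pos.2 b0) ((dvd_abs _ _).2 b2)
    omega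
  have k1 := k v h h0 h1 d1
  have k2 := k u h' h0' h1' d2
  have u0 : u ≠ 0 := by rintro rfl; simp at ht
  have u1 : u = 1 := by omega
  have v1 : v = 0 := by
    by_contra hv
    apply hne
    rw [u1, show v = 1 by omega]
  subst u1 v1
  rcases Nat.eq_zero_or_pos w with rfl | hw
  · have := abs_pos.2 h0
    simp only [pow_zero] at h1
    omega
  · simp [hw.ne'] at d1
    exact h0 d1

theorem fejg_abs (H j k : ℕ) (hj : j ∈ range H) (hk : k ∈ range H) : |(j : ℤ) - k| < H := by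
  rw [mem_range] at hj hk
  rw [abs_lt]; omega

theorem fejg_mean (p : ℕ) [NeZero p] (H s : ℕ) (s0 : 0 < s) (hs : 2 * H * s < p) :
    ∑ a : ZMod p, fejg_g p H ((s : ZMod p) * a) = 0 := by
  have : ((∑ a : ZMod p, fejg_g p H ((s : ZMod p) * a) : ℝ) : ℂ) = 0 := by
    rw [Complex.ofReal_sum]
    simp only [fejg_g_eq]
    rw [sum_comm]
    refine sum_eq_zero fun j hj => ?_
    rw [sum_comm]
    refine sum_eq_zero fun k hk => ?_
    split_ifs with h
    · simp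
    · have a1 := fejg_abs H j k hj hk
      have a2 : (2 * H * s : ℤ) < p := by exact_mod_cast hs
      have a3 : (0 : ℤ) < s := by exact_mod_cast s0
      rw [← fejg_orth p (((j : ℤ) - k) * s) (mul_ne_zero (by omega) a3.ne') (by
        rw [abs_mul, abs_of_pos a3]; nlinarith [abs_nonneg ((j : ℤ) - k)])]
      refine sum_congr rfl fun a _ => ?_
      congr 1; push_cast; ring
  exact_mod_cast this

theorem fejg_cross (p : ℕ) [NeZero p] (H w t t' : ℕ) (hH : H ≤ 2 ^ w) (t0 : 0 < t) (t0' : 0 < t')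
    (hne : t ≠ t') (hs : 2 * H * t ^ w < p) (hs' : 2 * H * t' ^ w < p) :
    ∑ a : ZMod p, fejg_g p H (((t ^ w : ℕ) : ZMod p) * a) * fejg_g p H (((t' ^ w : ℕ) : ZMod p) * a)
      = 0 := by
  have : ((∑ a : ZMod p, fejg_g p H (((t ^ w : ℕ) : ZMod p) * a)
      * fejg_g p H (((t' ^ w : ℕ) : ZMod p) * a) : ℝ) : ℂ) = 0 := by
    rw [Complex.ofReal_sum]
    simp only [Complex.ofReal_mul, fejg_g_eq, sum_mul, mul_sum]
    rw [sum_comm]
    refine sum_eq_zero fun j' hj' => ?_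
    rw [sum_comm]
    refine sum_eq_zero fun k' hk' => ?_
    rw [sum_comm]
    refine sum_eq_zero fun j hj => ?_
    rw [sum_comm]
    refine sum_eq_zero fun k hk => ?_
    by_cases h : j = k
    · simp [h]
    by_cases h' : j' = k'
    · simp [h']
    simp only [if_neg h, if_neg h']
    have a1 := fejg_abs H j k hj hk
    have a1' := fejg_abs H j' k' hj' hk'
    have a0 : (H : ℤ) ≤ 2 ^ w := by exact_mod_cast hH
    have a2 : (2 * H * (t : ℤ) ^ w) < p := by exact_mod_cast hs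
    have a2' : (2 * H * (t' : ℤ) ^ w) < p := by exact_mod_cast hs'
    have a3 : (0 : ℤ) < (t : ℤ) ^ w := by positivity
    have a3' : (0 : ℤ) < (t' : ℤ) ^ w := by positivity
    rw [← fejg_orth p (((j : ℤ) - k) * (t : ℤ) ^ w + ((j' : ℤ) - k') * (t' : ℤ) ^ w)
      (fejg_ne w t t' t0 hne _ _ (by omega) (by omega) (by omega) (by omega)) (by
        refine (abs_add_le _ _).trans_lt ?_
        rw [abs_mul, abs_mul, abs_of_pos a3, abs_of_pos a3']
        nlinarith [abs_nonneg ((j : ℤ) - k), abs_nonneg ((j' : ℤ) - k')])]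
    refine sum_congr rfl fun a _ => ?_
    rw [← AddChar.map_add_eq_mul]
    congr 1; push_cast; ring
  exact_mod_cast this

theorem fejg_diag (p : ℕ) [NeZero p] (H s : ℕ) (H1 : 1 ≤ H) (s0 : 0 < s) (hs : 2 * H * s < p) :
    ∑ a : ZMod p, fejg_g p H ((s : ZMod p) * a) * fejg_g p H ((s : ZMod p) * a)
      ≤ 2 * (H : ℝ) ^ 3 * p := by
  have h1 : (1 : ℝ) ≤ H := by exact_mod_cast H1
  have h2 : ∀ x, fejg_g p H x * fejg_g p H x ≤ (H : ℝ) ^ 2 * fejg_g p H x + 2 * (H : ℝ) ^ 3 := by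
    intro x
    have a1 := fejg_D_le p H x
    have a2 := norm_nonneg (fejg_D p H x)
    have a3 : ‖fejg_D p H x‖ ^ 2 ≤ (H : ℝ) ^ 2 := by gcongr
    have a4 : 0 ≤ ‖fejg_D p H x‖ ^ 2 := by positivity
    unfold fejg_g
    generalize ‖fejg_D p H x‖ ^ 2 = u at *
    have a5 : u * u ≤ (H : ℝ) ^ 2 * u := mul_le_mul_of_nonneg_right a3 a4
    have a6 : (H : ℝ) ^ 2 * 1 ≤ (H : ℝ) ^ 2 * H := by gcongr
    have a7 : 0 ≤ (H : ℝ) * u := by positivity
    nlinarith
  refine (sum_le_sum fun a _ => h2 _).trans ?_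
  rw [sum_add_distrib, ← mul_sum, fejg_mean p H s s0 hs]
  simp [mul_comm]

theorem fejg_row : FEJG_s := by
  intro p hp m w T hm hw hT
  rcases T.eq_empty_or_nonempty with rfl | hne
  · simp
  set H := m ^ 2 with hH
  have H1 : 1 ≤ H := Nat.one_le_pow _ _ (by omega)
  have T0 : (0 : ℝ) < #T := by exact_mod_cast card_pos.2 hne
  have H0 : (0 : ℝ) < H := by exact_mod_cast H1
  set F : ZMod p → ℝ := fun a => ∑ t ∈ T, fejg_g p H (((t ^ w : ℕ) : ZMod p) * a) with hF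
  have up : ∑ a, F a ^ 2 ≤ #T * (2 * (H : ℝ) ^ 3 * p) := by
    simp only [hF, sq, sum_mul_sum]
    rw [sum_comm, ← nsmul_eq_mul]
    refine sum_le_card_nsmul _ _ _ fun t ht => ?_
    rw [sum_comm, sum_eq_single_of_mem t ht fun t' ht' h =>
      fejg_cross p H w t t' hw (hT t ht).1 (hT t' ht').1 h.symm (hT t ht).2 (hT t' ht').2]
    exact fejg_diag p H (t ^ w) H1 (pow_pos (hT t ht).1 w) (hT t ht).2
  have lo : (far p m (T.image (· ^ w)) : ℝ) * (#T * (3 / 4 * H)) ^ 2 ≤ ∑ a, F a ^ 2 := by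
    unfold far
    rw [← nsmul_eq_mul]
    refine (card_nsmul_le_sum _ (fun a => F a ^ 2) _ fun a ha => ?_).trans
      (sum_le_sum_of_subset_of_nonneg (subset_univ _) fun a _ _ => sq_nonneg _)
    have h1 := (mem_filter.1 ha).2
    have h2 : F a ≤ #T * (-(3 / 4 * H)) := by
      rw [← nsmul_eq_mul]
      refine sum_le_card_nsmul _ _ _ fun t ht => ?_
      have h3 := fejg_off p H m _ (h1 (t ^ w) (mem_image_of_mem _ ht))
      have h4 : ‖fejg_D p H (((t ^ w : ℕ) : ZMod p) * a)‖ ^ 2 ≤ ((m : ℝ) / 2) ^ 2 := by gcongr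
      have h5 : (H : ℝ) = (m : ℝ) ^ 2 := by rw [hH]; push_cast; rfl
      unfold fejg_g
      nlinarith
    have h6 : 0 ≤ (#T : ℝ) * (3 / 4 * H) := by positivity
    nlinarith
  have fin : (far p m (T.image (· ^ w)) : ℝ) * #T ≤ 4 * H * p := by
    have h1 := lo.trans up
    have p0 : (0 : ℝ) ≤ p := Nat.cast_nonneg p
    have h2 : 0 < (#T : ℝ) * (H : ℝ) ^ 2 := by positivity
    refine le_of_mul_le_mul_right ?_ h2
    have h3 : 0 ≤ (#T : ℝ) * (H : ℝ) ^ 3 * p := by positivity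
    nlinarith
  exact_mod_cast fin

end

end Pool.Agent.G27
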