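import Pool.Agent.MP_b5e119_nt.G27.Defs

namespace Pool.Agent.G27

open Finset Pool.Agent.G60

theorem fewg_big (N : ℕ) : ∃ p₀ : ℕ, ∀ p, p₀ ≤ p → N ≤ Nat.log 2 p :=
  ⟨2 ^ N, fun _ h => Nat.le_log_of_pow_le (by norm_num) h⟩

theorem fewg_pow (m : ℕ) (hm : 40 ≤ m) : (512 * (m + 6)) ^ 2 ≤ 2 ^ m := by
  induction m, hm using Nat.le_induction with
  | base => norm_num
  | succ m h ih => rw [pow_succ 2]; nlinarith

theorem fewg_card {a b p j r l t : ℕ} (h1 : a * b ^ r ≤ p * (4 * r) ^ r)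
    (h2 : 2 ^ j ≤ 8 * j * b) (h3 : p ≤ 2 ^ (l + 1)) (h4 : l ≤ j * r + j) (h5 : j * r ≤ l)
    (h6 : 32 * l ≤ 2 ^ t) : a ≤ 2 ^ (j + 1 + t * r) := by
  have k : a * 2 ^ (j * r) ≤ 2 ^ (j + 1 + t * r) * 2 ^ (j * r) :=
    calc a * 2 ^ (j * r) = a * (2 ^ j) ^ r := by rw [pow_mul]
      _ ≤ a * (8 * j * b) ^ r := Nat.mul_le_mul_left _ (Nat.pow_le_pow_left h2 r)
      _ = (8 * j) ^ r * (a * b ^ r) := by rw [mul_pow (8 * j)]; ring
      _ ≤ (8 * j) ^ r * (p * (4 * r) ^ r) := Nat.mul_le_mul_left _ h1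
      _ = p * (32 * (j * r)) ^ r := by
          rw [show 32 * (j * r) = 8 * j * (4 * r) by ring, mul_pow (8 * j)]; ring
      _ ≤ 2 ^ (j * r + j + 1) * (2 ^ t) ^ r :=
          Nat.mul_le_mul (h3.trans (Nat.pow_le_pow_right (by norm_num) (by omega)))
            (Nat.pow_le_pow_left (by omega) r)
      _ = 2 ^ (j + 1 + t * r) * 2 ^ (j * r) := by
          rw [← pow_mul, ← pow_add, ← pow_add]
          congr 1
          ring
  exact Nat.le_of_mul_le_mul_right k (by positivity)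

theorem fewg_lq (hS : SPECG_s) {N : ℕ} [NeZero N] {l m j : ℕ} (a1 : 2 ^ l ≤ N)
    (a2 : N < 2 ^ (l + 1)) (b2 : l < 2 ^ (m + 1)) (l1 : 1 ≤ l) (j0 : 0 < j)
    (c2 : 2 ^ j ≤ 8 * j * #(QQ N j)) :
    ∃ r, j * r < l ∧ #(LQ N j) ≤ 2 ^ (j + 1 + (m + 6) * r) := by
  obtain ⟨r, hr⟩ : ∃ r, r = (l - 1) / j := ⟨_, rfl⟩
  have r1 : j * r ≤ l - 1 := hr ▸ Nat.mul_div_le _ _
  have r2 : l - 1 < j * (r + 1) := hr ▸ Nat.lt_mul_div_succ _ j0
  rw [mul_add, mul_one] at r2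
  refine ⟨r, by omega, fewg_card (hS N j r ((Nat.pow_lt_pow_right (by norm_num)
    (by omega)).trans_le a1)) c2 a2.le (by omega) (by omega) ?_⟩
  rw [show m + 6 = m + 1 + 5 by ring, pow_add 2 (m + 1)]
  omega

theorem fewg_fin {N l m g a e J : ℕ} {φ : ℝ} (N0 : 0 < N) (a1 : 2 ^ l ≤ N) (a2 : N < 2 ^ (l + 1))
    (b2 : l < 2 ^ (m + 1)) (hg : l + 1 ≤ 2 * g) (hφ : (N : ℝ) ≤ φ * 2 ^ (2 * m + 1))
    (ha : a ≤ 2 ^ e) (h : J + e + g + 3 * m + 11 ≤ l) :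
    (2 : ℝ) ^ (J + 4) * (2 * a + 1) * WW N ≤ φ := by
  have n0 : (0 : ℝ) < N := by exact_mod_cast N0
  have d1 : √(N : ℝ) ≤ 2 ^ g := by
    refine Real.sqrt_le_iff.2 ⟨by positivity, ?_⟩
    rw [← pow_mul]
    exact_mod_cast a2.le.trans (Nat.pow_le_pow_right (by norm_num) (by omega))
  have d2 : 1 + Real.log N ≤ 2 ^ (m + 2) := by
    have x1 : Real.log N ≤ ((l + 1 : ℕ) : ℝ) * Real.log 2 := by
      rw [← Real.log_pow]
      exact Real.log_le_log n0 (by exact_mod_cast a2.le)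
    have x2 := Real.log_two_lt_d9
    have x3 : ((l + 1 : ℕ) : ℝ) ≤ 2 ^ (m + 1) := by exact_mod_cast b2
    have x4 : (1 : ℝ) ≤ 2 ^ (m + 1) := one_le_pow₀ (by norm_num)
    have x5 : (0 : ℝ) ≤ ((l + 1 : ℕ) : ℝ) := Nat.cast_nonneg _
    rw [pow_succ _ (m + 1)]
    nlinarith
  have d3 : 0 ≤ 1 + Real.log N := by
    have := Real.log_natCast_nonneg N
    linarith
  have d4 : 2 * (a : ℝ) + 1 ≤ 4 * 2 ^ e := by
    have x1 : (a : ℝ) ≤ 2 ^ e := by exact_mod_cast ha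
    have x2 : (1 : ℝ) ≤ 2 ^ e := one_le_pow₀ (by norm_num)
    linarith
  have d5 : (2 : ℝ) ^ (J + e + g + m + 10) * 2 ^ (2 * m + 1) ≤ φ * 2 ^ (2 * m + 1) := by
    refine le_trans ?_ hφ
    rw [← pow_add]
    exact_mod_cast (Nat.pow_le_pow_right (by norm_num) (by omega)).trans a1
  calc (2 : ℝ) ^ (J + 4) * (2 * a + 1) * WW N
      ≤ 2 ^ (J + 4) * (4 * 2 ^ e) * (4 * 2 ^ g * 2 ^ (m + 2)) := by
        unfold WW
        gcongr
    _ = 2 ^ (J + e + g + m + 10) := by ring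
    _ ≤ φ := le_of_mul_le_mul_right d5 (by positivity)

theorem fewg_row (hP : PHI_s) (hQ : CHQ_s) (hS : SPECG_s) : FEWG_s := by
  obtain ⟨C, C0, hC⟩ := hP
  obtain ⟨c, hc⟩ := pow_unbounded_of_one_lt C (show (1 : ℝ) < 2 by norm_num)
  obtain ⟨l₀, hl⟩ := fewg_big (40 + c)
  obtain ⟨p₀, hp⟩ := fewg_big (l₀ + 1)
  refine ⟨32, p₀, fun N _ h => ?_⟩
  have p0 : N ≠ 0 := NeZero.ne N
  obtain ⟨l, hl'⟩ : ∃ l, l = Nat.log 2 N := ⟨_, rfl⟩
  have a0 : l₀ + 1 ≤ l := hl' ▸ hp N h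
  have a1 : 2 ^ l ≤ N := hl' ▸ Nat.pow_log_le_self 2 p0
  have a2 : N < 2 ^ (l + 1) := hl' ▸ Nat.lt_pow_succ_log_self (by norm_num) N
  obtain ⟨m, hm⟩ : ∃ m, m = Nat.log 2 l := ⟨_, rfl⟩
  have b0 : 40 + c ≤ m := hm ▸ hl l (by omega)
  have b1 : 2 ^ m ≤ l := hm ▸ Nat.pow_log_le_self 2 (by omega)
  have b2 : l < 2 ^ (m + 1) := hm ▸ Nat.lt_pow_succ_log_self (by norm_num) l
  obtain ⟨s, hs⟩ : ∃ s, s = Nat.sqrt l := ⟨_, rfl⟩
  have s1 : s * s ≤ l := hs ▸ Nat.sqrt_le l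
  have s2 : l < (s + 1) * (s + 1) := hs ▸ Nat.lt_succ_sqrt l
  have s3 : 512 * (m + 6) ≤ s := by
    by_contra k
    have k : s + 1 ≤ 512 * (m + 6) := by omega
    have := (fewg_pow m (by omega)).trans b1
    have := Nat.mul_le_mul k k
    rw [← sq (512 * (m + 6))] at this
    omega
  obtain ⟨z, hz⟩ : ∃ z, z = (s + 1) * (m + 1) := ⟨_, rfl⟩
  have z1 : 256 * z ≤ l := by
    refine le_trans ?_ s1
    calc 256 * z = (s + 1) * (256 * (m + 1)) := by rw [hz]; ring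
      _ ≤ (2 * s) * (256 * (m + 1)) := Nat.mul_le_mul_right _ (by omega)
      _ = s * (512 * (m + 1)) := by ring
      _ ≤ s * s := Nat.mul_le_mul_left _ (by omega)
  have z2 : s + 1 ≤ z := hz ▸ Nat.le_mul_of_pos_right _ (by omega)
  have hφ : (N : ℝ) ≤ N.totient * 2 ^ (2 * m + 1) := by
    have N2 : 2 ≤ N := le_trans (by
      calc 2 = 2 ^ 1 := by norm_num
        _ ≤ 2 ^ l := Nat.pow_le_pow_right (by norm_num) (by omega)) a1
    refine (hC N N2).trans ?_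
    rw [← hl']
    have x1 : (1 : ℝ) ≤ l := by exact_mod_cast (show 1 ≤ l by omega)
    have x2 : (l : ℝ) ^ (1 / 4 : ℝ) ≤ 2 ^ (m + 1) :=
      (Real.rpow_le_self_of_one_le x1 (by norm_num)).trans (by exact_mod_cast b2.le)
    have x3 : C ≤ 2 ^ m := hc.le.trans (pow_le_pow_right₀ (by norm_num) (by omega))
    calc C * N.totient * (l : ℝ) ^ (1 / 4 : ℝ) ≤ 2 ^ m * N.totient * 2 ^ (m + 1) := by gcongr
      _ = N.totient * 2 ^ (2 * m + 1) := by ring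
  obtain ⟨j, hj⟩ : ∃ j, j = 16 * (m + 6) := ⟨_, rfl⟩
  have j1 : 8 * j * l ≤ 2 ^ j :=
    calc 8 * j * l = 2 ^ 7 * (m + 6) * l := by rw [hj]; ring
      _ ≤ 2 ^ 7 * 2 ^ (m + 6) * 2 ^ (m + 1) :=
          Nat.mul_le_mul (Nat.mul_le_mul_left _ Nat.lt_two_pow_self.le) b2.le
      _ = 2 ^ (7 + (m + 6) + (m + 1)) := by rw [← pow_add, ← pow_add]
      _ ≤ 2 ^ j := Nat.pow_le_pow_right (by norm_num) (by omega)
  obtain ⟨r, r1, r2⟩ := fewg_lq hS a1 a2 b2 (by omega) (show 0 < j by omega)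
    (hQ N j j (by omega) (by omega) le_rfl (hl' ▸ j1))
  obtain ⟨r', r3, r4⟩ := fewg_lq hS a1 a2 b2 (by omega) (show 0 < s + 1 by omega)
    (hQ N j (s + 1) (by omega) (by omega) (by omega) (hl' ▸ j1))
  have r5 : r' ≤ s := Nat.le_of_lt_succ (Nat.lt_of_mul_lt_mul_left (r3.trans s2))
  have e1 : 16 * ((m + 6) * r) = j * r := by rw [hj]; ring
  have e2 : (m + 6) * r' ≤ 6 * z := by
    calc (m + 6) * r' ≤ (6 * (m + 1)) * (s + 1) := Nat.mul_le_mul (by omega) (by omega)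
      _ = 6 * z := by rw [hz]; ring
  refine ⟨j, s + 1, (l - 64 * z) / 2 + 1, ?_, by omega, by omega, ?_,
    fewg_fin (g := (l + 2) / 2) (by omega) a1 a2 b2 (by omega) hφ r2 (by omega),
    fewg_fin (g := (l + 2) / 2) (by omega) a1 a2 b2 (by omega) hφ r4 (by omega)⟩
  · unfold Rg
    rw [← hl', ← hm, ← hs, ← hz]
    exact ⟨by omega, by omega, by omega, j1, by omega⟩
  · rw [← hl']
    calc 2 ^ j ≤ 2 ^ (m * 32) := Nat.pow_le_pow_right (by norm_num) (by omega)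
      _ = (2 ^ m) ^ 32 := pow_mul _ _ _
      _ ≤ l ^ 32 := Nat.pow_le_pow_left b1 _

end Pool.Agent.G27
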