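import Pool.Agent.MP_b5e119_nt.G27.Defs

namespace Pool.Agent.G27

open Finset Filter Topology Pool.Agent.G60

theorem fin1g_ev {κ : ℝ} (hκ : 0 < κ) (C : ℝ) :
    ∀ᶠ N : ℕ in atTop, C * (Nat.log 2 N : ℝ) ^ (1 / 4 : ℝ) ≤ (N : ℝ) ^ κ := by
  have h := tendsto_natCast_atTop_atTop.eventually
    ((isLittleO_log_rpow_atTop hκ).bound (c := 1 / (2 * |C| + 1)) (by positivity))
  filter_upwards [h, eventually_ge_atTop 2] with N hN h2
  have h0 := Real.log_natCast_nonneg N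
  rw [Real.norm_of_nonneg h0, Real.norm_of_nonneg (by positivity), one_div, ← div_eq_inv_mul,
    le_div_iff₀ (by positivity)] at hN
  have l1 : (1 : ℝ) ≤ Nat.log 2 N := by exact_mod_cast Nat.log_pos one_lt_two h2
  have l2 : (Nat.log 2 N : ℝ) ^ (1 / 4 : ℝ) ≤ Nat.log 2 N :=
    Real.rpow_le_self_of_one_le l1 (by norm_num)
  have l3 : (Nat.log 2 N : ℝ) * Real.log 2 ≤ Real.log N := by
    rw [← Real.log_pow]
    exact Real.log_le_log (by positivity) (by exact_mod_cast Nat.pow_log_le_self 2 (by omega))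
  have l4 : (Nat.log 2 N : ℝ) ≤ 2 * Real.log N := by nlinarith [Real.log_two_gt_d9]
  have l5 : 0 ≤ (Nat.log 2 N : ℝ) ^ (1 / 4 : ℝ) := by positivity
  have l6 := mul_le_mul (le_abs_self C) (l2.trans l4) l5 (abs_nonneg C)
  linarith

theorem fin1g_row (hTAU : TAU_s) (hPHI : PHI_s) (hUNI : UNI_s) (hB : BURGG_s) : FIN1G_s := by
  obtain ⟨κ, κ0, κ1, N₁, hB⟩ := hB
  obtain ⟨C, C0, hC⟩ := hPHI
  obtain ⟨D, D0, hD⟩ := hTAU.2 0.1 (by norm_num)
  obtain ⟨N₂, h₂⟩ := eventually_atTop.1 (fin1g_ev κ0 (2 * (1 + D) * C))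
  refine ⟨N₁ + N₂ + 2, fun N _ hN χ hχ h1 u c T τ hτ hc hT => ?_⟩
  have N1 : (1 : ℝ) ≤ N := by exact_mod_cast (by omega : 1 ≤ N)
  have N0 : (0 : ℝ) < N := by linarith
  have hcu : IsUnit (c : ZMod N) := (ZMod.isUnit_iff_coprime c N).2 (by
    by_contra h
    rw [re_nonunit χ h] at hc
    exact zero_ne_one hc)
  obtain ⟨w, hw⟩ := hcu.exists_left_inv
  obtain ⟨v, hv⟩ := ZMod.natCast_zmod_surjective ((u : ZMod N) * w)
  have e : ∀ t : ℕ, re χ (u + t * c) = re χ (v + t) := fun t => by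
    rw [re_congr χ (n := (v + t) * c) (by push_cast; rw [hv, add_mul, mul_assoc, hw, mul_one]),
      re_mul hχ, hc, mul_one]
  simp only [e]
  have k : (#{t ∈ range T | (v + t).Coprime N} : ℝ) + τ * ∑ t ∈ range T, (re χ (v + t) : ℝ) ≤
      2 * #{t ∈ range T | re χ (v + t) = τ} := by
    rw [card_filter, card_filter, Nat.cast_sum, Nat.cast_sum, mul_sum, mul_sum, ← sum_add_distrib]
    refine sum_le_sum fun t _ => ?_
    by_cases ht : (v + t).Coprime N
    · rw [if_pos ht]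
      rcases re_unit hχ ht with a | a <;> rcases hτ with rfl | rfl <;> rw [a] <;> norm_num
    · rw [if_neg ht, re_nonunit χ ht]
      rcases hτ with rfl | rfl <;> norm_num
  have b1 := hB N (by omega) χ hχ h1 v T hT
  have b2 : -((T : ℝ) * (N : ℝ) ^ (-κ)) ≤ τ * ∑ t ∈ range T, (re χ (v + t) : ℝ) := by
    have := abs_le.1 b1
    rcases hτ with rfl | rfl <;> push_cast <;> linarith [this.1, this.2]
  have b3 := (hUNI N (by omega)).1 v T
  have b4 : (N : ℝ) ^ (0.1 : ℝ) ≤ T * (N : ℝ) ^ (-κ) :=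
    calc (N : ℝ) ^ (0.1 : ℝ) ≤ (N : ℝ) ^ (0.32 + -κ) :=
          Real.rpow_le_rpow_of_exponent_le N1 (by linarith)
      _ ≤ _ := by
          rw [Real.rpow_add N0]
          exact mul_le_mul_of_nonneg_right hT (by positivity)
  have b5 := (hD N).trans (mul_le_mul_of_nonneg_left b4 D0.le)
  have b6 : 2 * (1 + D) * (N : ℝ) ^ (-κ) ≤ N.totient / N := by
    have p0 : 0 < (N : ℝ) ^ κ := by positivity
    rw [Real.rpow_neg N0.le, ← div_eq_mul_inv, div_le_div_iff₀ p0 N0]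
    have q1 := mul_le_mul_of_nonneg_left (hC N (by omega)) (by positivity : 0 ≤ 2 * (1 + D))
    have q2 := mul_le_mul_of_nonneg_left (h₂ N (by omega)) (Nat.cast_nonneg (α := ℝ) N.totient)
    linarith
  have b7 := mul_le_mul_of_nonneg_left b6 (Nat.cast_nonneg (α := ℝ) T)
  have b8 : (T : ℝ) * N.totient / N ≤ 4 * #{t ∈ range T | re χ (v + t) = τ} := by
    rw [mul_div_assoc] at b3 ⊢
    linarith
  rw [div_le_iff₀ N0] at b8
  have b9 : (T : ℝ) * N.totient ≤ 4 * N * #{t ∈ range T | re χ (v + t) = τ} := by linarith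
  exact_mod_cast b9

end Pool.Agent.G27
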