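import Pool.Agent.MP_b5e119_nt.G27.Defs

namespace Pool.Agent.G27

open Finset Filter Topology Pool.Agent.G60

theorem fing_div (hC : CHEB_s) {p u : ℕ} (hu : 0 < u) (hup : u ≤ p) (K : Finset ℕ)
    (hK : ∀ k ∈ K, k.Prime ∧ k ∣ u) : #K ≤ Nat.log 2 p := by
  have h1 : K ⊆ {q ∈ u.divisors | q.Prime} := by
    intro k hk
    obtain ⟨h, hd⟩ := hK k hk
    exact mem_filter.2 ⟨Nat.mem_divisors.2 ⟨hd, hu.ne'⟩, h⟩
  exact (card_le_card h1).trans ((hC.2.2 u hu).trans (Nat.log_mono_right hup))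

theorem fing_log (L : ℕ) : ∃ p₀ : ℕ, ∀ p : ℕ, p₀ ≤ p → L ≤ Nat.log 2 p :=
  ⟨2 ^ L, fun _ hp => Nat.le_log_of_pow_le Nat.one_lt_two hp⟩

theorem fing_phi (hP : PHI_s) : ∃ N₀ : ℕ, ∀ N : ℕ, N₀ ≤ N → N ≤ Nat.log 2 N * N.totient := by
  obtain ⟨C, hC, h⟩ := hP
  obtain ⟨p₀, hp₀⟩ := fing_log (⌈C ^ 2⌉₊ + 1)
  refine ⟨max p₀ 2, fun N hN => ?_⟩
  have h1 := hp₀ N (le_of_max_le_left hN)
  have h2 := h N (le_of_max_le_right hN)
  set l := Nat.log 2 N
  have h3 : C ^ 2 + 1 ≤ (l : ℝ) := by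
    have : ((⌈C ^ 2⌉₊ + 1 : ℕ) : ℝ) ≤ l := by exact_mod_cast h1
    have h' := Nat.le_ceil (C ^ 2)
    push_cast at this
    linarith
  have h4 : (1 : ℝ) ≤ l := by nlinarith
  have h5 : (l : ℝ) ^ (1 / 4 : ℝ) ≤ √l := by
    rw [Real.sqrt_eq_rpow]
    exact Real.rpow_le_rpow_of_exponent_le h4 (by norm_num)
  have h6 : C ≤ √l := Real.le_sqrt_of_sq_le (by linarith)
  have h7 : C * (l : ℝ) ^ (1 / 4 : ℝ) ≤ l := by
    calc C * (l : ℝ) ^ (1 / 4 : ℝ) ≤ √l * √l := by gcongr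
      _ = l := Real.mul_self_sqrt (by linarith)
  have h8 : (N : ℝ) ≤ l * N.totient := by
    calc (N : ℝ) ≤ _ := h2
      _ = C * (l : ℝ) ^ (1 / 4 : ℝ) * N.totient := by ring
      _ ≤ _ := by gcongr
  exact_mod_cast h8

theorem fing_T : ∃ N₀ : ℕ, ∀ N : ℕ, N₀ ≤ N → ∀ c T : ℕ, (c : ℝ) ≤ (N : ℝ) ^ (0.33 : ℝ) →
    N ≤ (T + 1) * (c * c) → (N : ℝ) ^ (0.32 : ℝ) ≤ T ∧ 1 ≤ T := by
  have h := (tendsto_rpow_atTop (show (0 : ℝ) < 0.02 by norm_num)).comp
    (tendsto_natCast_atTop_atTop (R := ℝ))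
  obtain ⟨N₀, hN₀⟩ := eventually_atTop.1 (h.eventually_ge_atTop 2)
  refine ⟨max N₀ 1, fun N hN c T hc hT => ?_⟩
  have h2 : (2 : ℝ) ≤ (N : ℝ) ^ (0.02 : ℝ) := hN₀ N (le_of_max_le_left hN)
  have h1 : (1 : ℝ) ≤ N := by exact_mod_cast le_of_max_le_right hN
  have h0 : (0 : ℝ) < N := by linarith
  have h3 : (1 : ℝ) ≤ (N : ℝ) ^ (0.32 : ℝ) := Real.one_le_rpow h1 (by norm_num)
  have h4 : (N : ℝ) ≤ (T + 1) * ((N : ℝ) ^ (0.33 : ℝ) * (N : ℝ) ^ (0.33 : ℝ)) := by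
    have : (N : ℝ) ≤ (T + 1) * (c * c) := by exact_mod_cast hT
    refine this.trans ?_
    gcongr
  have h5 : (N : ℝ) = (N : ℝ) ^ (0.02 : ℝ) * (N : ℝ) ^ (0.32 : ℝ) *
      ((N : ℝ) ^ (0.33 : ℝ) * (N : ℝ) ^ (0.33 : ℝ)) := by
    rw [← Real.rpow_add h0, ← Real.rpow_add h0, ← Real.rpow_add h0]
    norm_num
  have h6 : (0 : ℝ) < (N : ℝ) ^ (0.33 : ℝ) * (N : ℝ) ^ (0.33 : ℝ) := by positivity
  have h7 : (N : ℝ) ^ (0.02 : ℝ) * (N : ℝ) ^ (0.32 : ℝ) ≤ T + 1 :=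
    le_of_mul_le_mul_right (h5 ▸ h4) h6
  have h8 : (N : ℝ) ^ (0.32 : ℝ) ≤ T := by nlinarith
  exact ⟨h8, by exact_mod_cast h3.trans h8⟩

theorem fing_arith {l κ T c N φ e eX s G : ℕ} (hl : 20000 ≤ l) (hκ : 0 < κ) (hN : 0 < N)
    (h1 : κ * T * φ ≤ 4 * N * s) (h2 : s ≤ (l + 1) * eX + l * G) (h3 : eX * κ ≤ l * e)
    (h4 : e * l ^ 6 ≤ N) (h5 : c ≤ 32 * l * κ) (h6 : N ≤ 2 * c ^ 2 * T) (h7 : N ≤ l * φ) :
    N ≤ l ^ 4 * c * G := by
  have hl0 : 0 < l := by omega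
  have a1 : κ * T ≤ 4 * (l * s) := by
    refine Nat.le_of_mul_le_mul_right (c := N) ?_ hN
    calc κ * T * N ≤ κ * T * (l * φ) := Nat.mul_le_mul_left _ h7
      _ = l * (κ * T * φ) := by ring
      _ ≤ l * (4 * N * s) := Nat.mul_le_mul_left _ h1
      _ = _ := by ring
  have a2 : N ≤ 2048 * l ^ 2 * (κ ^ 2 * T) := by
    calc N ≤ 2 * c ^ 2 * T := h6
      _ ≤ 2 * (32 * l * κ) ^ 2 * T := by gcongr
      _ = _ := by ring
  have a6 : 20000 * l ≤ l * l := by gcongr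
  have a7 : 16384 * (l + 1) ≤ l * l := by omega
  have a3 : 8 * (l * ((l + 1) * eX)) ≤ κ * T := by
    refine Nat.le_of_mul_le_mul_right (c := κ * l ^ 6) ?_ (by positivity)
    calc 8 * (l * ((l + 1) * eX)) * (κ * l ^ 6) = 8 * l * (l + 1) * (eX * κ) * l ^ 6 := by ring
      _ ≤ 8 * l * (l + 1) * (l * e) * l ^ 6 := by gcongr
      _ = 8 * l ^ 2 * (l + 1) * (e * l ^ 6) := by ring
      _ ≤ 8 * l ^ 2 * (l + 1) * (2048 * l ^ 2 * (κ ^ 2 * T)) :=
        Nat.mul_le_mul_left _ (h4.trans a2)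
      _ = 16384 * (l + 1) * (l ^ 4 * (κ ^ 2 * T)) := by ring
      _ ≤ l * l * (l ^ 4 * (κ ^ 2 * T)) := Nat.mul_le_mul_right _ a7
      _ = _ := by ring
  have a8 : l * s ≤ l * ((l + 1) * eX) + l * (l * G) := by
    rw [← mul_add]
    exact Nat.mul_le_mul_left _ h2
  have a9 : κ * T ≤ 8 * (l * (l * G)) := by omega
  calc N ≤ 2 * c ^ 2 * T := h6
    _ = 2 * c * T * c := by ring
    _ ≤ 2 * c * T * (32 * l * κ) := Nat.mul_le_mul_left _ h5
    _ = 64 * l * c * (κ * T) := by ring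
    _ ≤ 64 * l * c * (8 * (l * (l * G))) := Nat.mul_le_mul_left _ a9
    _ = 512 * (l ^ 3 * c * G) := by ring
    _ ≤ l * (l ^ 3 * c * G) := Nat.mul_le_mul_right _ (by omega)
    _ = _ := by ring

theorem fing_row (hC : CHEB_s) (hP : PHI_s) (hF : FIN1G_s) : FING_s := by
  obtain ⟨p₀, hp₀⟩ := fing_log 20000
  obtain ⟨p₁, hp₁⟩ := fing_phi hP
  obtain ⟨p₂, hp₂⟩ := fing_T
  obtain ⟨p₃, hp₃⟩ := hF
  refine ⟨p₀ + p₁ + p₂ + p₃ + 2, fun N _ hN χ σ e s c hχ hχ1 hσ he hs hcS hκ hm1 hE => ?_⟩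
  obtain ⟨-, hc, hcl, hcp⟩ := mem_filter.1 hcS
  have : Fact c.Prime := ⟨hc⟩
  have hl3 := hp₀ N (by omega)
  have hφ := hp₁ N (by omega)
  set l := Nat.log 2 N with hl
  have hc2 := hc.two_le
  have hN2 : 2 ≤ N := by omega
  have hcop : ∀ n : ℕ, re χ n ≠ 0 → n.Coprime N := fun n h => by
    by_contra h'
    exact h (re_nonunit χ h')
  set K : Finset ℕ := KQ χ c with hKd
  have hK : ∀ k ∈ K, k.Prime ∧ 0 < k ∧ k < c ∧ re χ k = -1 := by
    intro k hk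
    obtain ⟨h1, h2, h3⟩ := mem_filter.1 hk
    exact ⟨h2, h2.pos, mem_range.1 h1, h3⟩
  have hκ0 : 0 < #K := by
    rcases Nat.eq_zero_or_pos #K with h | h
    · rw [h] at hκ
      omega
    · exact h
  set X := (N - 1) / c with hX
  set T := X / c with hT
  have hXc : X * c ≤ N - 1 := Nat.div_mul_le_self _ _
  have hTX : T * c ≤ X := Nat.div_mul_le_self _ _
  have hD : 0 < c * c := by positivity
  have hT1 : N ≤ (T + 1) * (c * c) := by
    have h1 : N - 1 < c * c * ((N - 1) / (c * c) + 1) := Nat.lt_mul_div_succ _ hD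
    rw [← Nat.div_div_eq_div_mul, mul_comm (c * c), ← hX, ← hT] at h1
    omega
  obtain ⟨hT2, hT3⟩ := hp₂ N (by omega) c T hcp hT1
  have hpJ : N ≤ 2 * c ^ 2 * T := by
    calc N ≤ (T + 1) * (c * c) := hT1
      _ ≤ (2 * T) * (c * c) := by gcongr; omega
      _ = _ := by ring
  have hp0 : (N : ZMod c) ≠ 0 := by
    rw [Ne, ZMod.natCast_eq_zero_iff]
    exact (Nat.Prime.coprime_iff_not_dvd hc).1 (hcop c (by rw [hcl]; norm_num))
  have hk0 : ∀ k ∈ K, (k : ZMod c) ≠ 0 := by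
    intro k hk h
    rw [ZMod.natCast_eq_zero_iff] at h
    have := Nat.le_of_dvd (hK k hk).2.1 h
    have := (hK k hk).2.2.1
    omega
  set r : ℕ → ℕ := fun k => ((N : ZMod c) * (k : ZMod c)⁻¹).val with hr
  have hrc : ∀ k, r k < c := fun k => ZMod.val_lt _
  have hr0 : ∀ k ∈ K, 0 < r k := fun k hk =>
    ZMod.val_pos.2 (mul_ne_zero hp0 (inv_ne_zero (hk0 k hk)))
  have hinj : Set.InjOn r K := by
    intro k hk k' hk' h
    have h1 := ZMod.val_injective c h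
    have h2 : (k : ZMod c) = k' := inv_injective (mul_left_cancel₀ hp0 h1)
    exact Nat.ModEq.eq_of_lt_of_lt ((ZMod.natCast_eq_natCast_iff _ _ _).1 h2) (hK k hk).2.2.1
      (hK k' hk').2.2.1
  have hτ : s * σ * e = 1 ∨ s * σ * e = -1 := by
    rcases hσ with rfl | rfl <;> rcases he with rfl | rfl <;> rcases hs with rfl | rfl <;> simp
  set S := {z ∈ K ×ˢ range T | re χ (r z.1 + z.2 * c) = s * σ * e} with hSd
  have hS : #K * T * N.totient ≤ 4 * N * #S := by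
    have b1 : #S = ∑ k ∈ K, #{t ∈ range T | re χ (r k + t * c) = s * σ * e} := by
      rw [hSd, card_filter, sum_product]
      exact sum_congr rfl fun k _ => (card_filter _ _).symm
    rw [b1, mul_sum, mul_assoc, ← smul_eq_mul]
    exact card_nsmul_le_sum _ _ _ fun k _ =>
      hp₃ N (by omega) χ hχ hχ1 (r k) c T _ hτ hcl hT2
  set EX' := {n ∈ Icc 1 X | n.Coprime N ∧ lam n ≠ σ * re χ n} with hEX
  set G := {m ∈ Icc 1 X | lam (c * m) = e ∧ lam (N - c * m) = -s * e} with hG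
  set m' : ℕ × ℕ → ℕ := fun z => r z.1 + z.2 * c with hm'
  set m : ℕ × ℕ → ℕ := fun z => (N - z.1 * m' z) / c with hm
  have key : ∀ z ∈ S, z.1 ∈ K ∧ 0 < m' z ∧ m' z ≤ X ∧ 0 < m z ∧ m z ≤ X ∧
      c * m z + z.1 * m' z = N ∧ re χ (m' z) = s * σ * e := by
    rintro ⟨k, t⟩ hz
    obtain ⟨h1, h2⟩ := mem_filter.1 hz
    obtain ⟨hk, ht⟩ := mem_product.1 h1
    simp only [mem_range] at hk ht h2
    have a0 : 0 < m' (k, t) := Nat.add_pos_left (hr0 k hk) _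
    have a1 : m' (k, t) ≤ X := by
      have b1 : (t + 1) * c ≤ T * c := by gcongr; omega
      have b2 := hrc k
      have b3 : (t + 1) * c = t * c + c := by ring
      change r k + t * c ≤ X
      omega
    have a2 : k * m' (k, t) ≤ N - 1 := by
      refine le_trans ?_ hXc
      rw [mul_comm]
      exact Nat.mul_le_mul a1 (hK k hk).2.2.1.le
    have a3 : 0 < k * m' (k, t) := Nat.mul_pos (hK k hk).2.1 a0
    have a4 : c ∣ N - k * m' (k, t) := by
      refine (Nat.modEq_iff_dvd' (by omega)).1 ((ZMod.natCast_eq_natCast_iff _ _ _).1 ?_)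
      change ((k * (r k + t * c) : ℕ) : ZMod c) = N
      have := hk0 k hk
      simp only [hr, Nat.cast_mul, Nat.cast_add, ZMod.natCast_self, mul_zero, add_zero,
        ZMod.natCast_val, ZMod.cast_id', id_eq]
      field_simp
    have a5 : c * m (k, t) = N - k * m' (k, t) := Nat.mul_div_cancel' a4
    refine ⟨hk, a0, a1, ?_, ?_, by simp only; omega, h2⟩
    · rcases Nat.eq_zero_or_pos (m (k, t)) with h | h
      · rw [h] at a5
        omega
      · exact h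
    · rw [hX, Nat.le_div_iff_mul_le (by omega), mul_comm]
      omega
  have hsub : S ⊆ {z ∈ S | m' z ∈ EX'} ∪ {z ∈ S | m z ∈ EX'} ∪ {z ∈ S | m z ∈ G} := by
    intro z hz
    obtain ⟨hk, a0, a1, a2, a3, a4, a5⟩ := key z hz
    by_cases c1 : m' z ∈ EX'
    · exact mem_union_left _ (mem_union_left _ (mem_filter.2 ⟨hz, c1⟩))
    by_cases c2 : m z ∈ EX'
    · exact mem_union_left _ (mem_union_right _ (mem_filter.2 ⟨hz, c2⟩))
    have b3 : re χ (z.1 * m' z) = re χ ((N - 1) * (c * m z)) := by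
      refine re_congr χ ?_
      have b4 : ((c * m z + z.1 * m' z : ℕ) : ZMod N) = 0 := by rw [a4, ZMod.natCast_self]
      rw [Nat.cast_mul (N - 1), Nat.cast_pred (by omega), ZMod.natCast_self]
      rw [Nat.cast_add] at b4
      linear_combination b4
    rw [re_mul hχ, re_mul hχ, re_mul hχ, hm1, hcl, a5, (hK _ hk).2.2.2] at b3
    have d1 : re χ (m' z) ≠ 0 := by
      rw [a5]
      rcases hτ with h | h <;> rw [h] <;> norm_num
    have d2 : re χ (m z) ≠ 0 := by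
      intro h
      rw [h] at b3
      rcases hτ with h | h <;> rw [h] at b3 <;> norm_num at b3
    have b1 : lam (m' z) = σ * re χ (m' z) := by
      by_contra h
      exact c1 (mem_filter.2 ⟨mem_Icc.2 ⟨a0, a1⟩, hcop _ d1, h⟩)
    have b2 : lam (m z) = σ * re χ (m z) := by
      by_contra h
      exact c2 (mem_filter.2 ⟨mem_Icc.2 ⟨a2, a3⟩, hcop _ d2, h⟩)
    have hs2 : σ * σ = 1 := by rcases hσ with rfl | rfl <;> norm_num
    have hs3 : s * s = 1 := by rcases hs with rfl | rfl <;> norm_num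
    have hk1 := (hK _ hk).2.1
    refine mem_union_right _ (mem_filter.2 ⟨hz, mem_filter.2 ⟨mem_Icc.2 ⟨a2, a3⟩, ?_, ?_⟩⟩)
    · rw [lam_mul (by omega) a2.ne', lam_prime hc, b2]
      linear_combination (σ * s) * b3 + (σ * re χ (m z) + σ * σ * e) * hs3 + e * hs2
    · rw [show N - c * m z = z.1 * m' z by omega, lam_mul hk1.ne' a0.ne', lam_prime (hK _ hk).1,
        b1, a5]
      linear_combination (-s * e) * hs2
  have hm'inj : ∀ z ∈ S, ∀ z' ∈ S, m' z = m' z' → z = z' := by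
    rintro ⟨k, t⟩ hz ⟨k', t'⟩ hz' h
    change r k + t * c = r k' + t' * c at h
    have b1 := congrArg (· % c) h
    simp only [Nat.add_mul_mod_self_right, Nat.mod_eq_of_lt (hrc _)] at b1
    have b2 : k = k' := hinj (key _ hz).1 (key _ hz').1 b1
    have b3 : t * c = t' * c := by omega
    rw [b2, Nat.eq_of_mul_eq_mul_right (by omega) b3]
  have hS1 : #{z ∈ S | m' z ∈ EX'} ≤ #EX' :=
    card_le_card_of_injOn m' (fun z hz => (mem_filter.1 hz).2)
      fun z hz z' hz' h => hm'inj z (mem_filter.1 hz).1 z' (mem_filter.1 hz').1 h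
  have hS2 : ∀ U : Finset ℕ, #{z ∈ S | m z ∈ U} ≤ l * #U := by
    intro U
    refine card_le_mul_card_image_of_maps_to (f := m) (fun z hz => (mem_filter.1 hz).2) _
      fun n _ => ?_
    rcases eq_empty_or_nonempty {z ∈ {z ∈ S | m z ∈ U} | m z = n} with h | ⟨z₀, h₀⟩
    · simp [h]
    obtain ⟨h₁, h₂⟩ := mem_filter.1 h₀
    obtain ⟨hk, a0, a1, a2, a3, a4, a5⟩ := key z₀ (mem_filter.1 h₁).1
    have hu : ∀ z ∈ {z ∈ {z ∈ S | m z ∈ U} | m z = n}, z ∈ S ∧ z.1 * m' z = z₀.1 * m' z₀ := by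
      intro z hz
      obtain ⟨b1, b2⟩ := mem_filter.1 hz
      have b3 := (key z (mem_filter.1 b1).1).2.2.2.2.2.1
      rw [b2] at b3
      rw [h₂] at a4
      exact ⟨(mem_filter.1 b1).1, by omega⟩
    rw [← card_image_of_injOn (f := Prod.fst)]
    · refine fing_div hC (Nat.mul_pos (hK _ hk).2.1 a0) (by omega) _ fun k hk' => ?_
      obtain ⟨z, hz, rfl⟩ := mem_image.1 hk'
      exact ⟨(hK _ (key z (hu z hz).1).1).1, (hu z hz).2 ▸ Dvd.intro _ rfl⟩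
    · intro z hz z' hz' h
      refine hm'inj z (hu z hz).1 z' (hu z' hz').1 ?_
      have b1 := (hu z hz).2
      rw [← (hu z' hz').2, h] at b1
      exact Nat.eq_of_mul_eq_mul_left (hK _ (key z' (hu z' hz').1).1).2.1 b1
  have hS3 : #S ≤ (l + 1) * #EX' + l * #G := by
    have b1 := (card_le_card hsub).trans (card_union_le _ _)
    have b2 := card_union_le {z ∈ S | m' z ∈ EX'} {z ∈ S | m z ∈ EX'}
    have b3 := hS2 EX'
    have b4 := hS2 G
    have b5 : (l + 1) * #EX' = l * #EX' + #EX' := by ring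
    omega
  have hE2 : #EX' * #K ≤ l * EX χ σ := by
    rw [← card_product]
    refine card_le_mul_card_image_of_maps_to (f := fun z : ℕ × ℕ => z.1 * z.2) (fun z hz => ?_) _
      fun u hu => ?_
    · obtain ⟨b1, b2⟩ := mem_product.1 hz
      obtain ⟨b3, b4, b4'⟩ := mem_filter.1 b1
      obtain ⟨b5, b6⟩ := mem_Icc.1 b3
      obtain ⟨b11, b7, b8, b9⟩ := hK _ b2
      have b10 : z.1 * z.2 ≤ X * c := Nat.mul_le_mul b6 b8.le
      refine mem_filter.2 ⟨mem_Ico.2 ⟨Nat.mul_pos b5 b7, by omega⟩,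
        Nat.Coprime.mul_left b4 (hcop _ (by rw [b9]; norm_num)), fun h => b4' ?_⟩
      rw [lam_mul (by omega) b7.ne', re_mul hχ, b9, lam_prime b11] at h
      linear_combination -h
    · obtain ⟨b1, b2⟩ := mem_Ico.1 (mem_filter.1 hu).1
      rw [← card_image_of_injOn (f := Prod.snd)]
      · refine fing_div hC b1 b2.le _ fun k hk' => ?_
        obtain ⟨z, hz, rfl⟩ := mem_image.1 hk'
        obtain ⟨b3, b4⟩ := mem_filter.1 hz
        exact ⟨(hK _ (mem_product.1 b3).2).1, b4 ▸ Dvd.intro_left _ rfl⟩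
      · intro z hz z' hz' h
        obtain ⟨b3, b4⟩ := mem_filter.1 hz
        obtain ⟨b5, b6⟩ := mem_filter.1 hz'
        refine Prod.ext ?_ h
        rw [← b6, h] at b4
        exact Nat.eq_of_mul_eq_mul_right (hK _ (mem_product.1 b5).2).2.1 b4
  exact fing_arith hl3 hκ0 (by omega) hS hS3 hE2 hE hκ hpJ hφ

end Pool.Agent.G27
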