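import Pool.Agent.MP_b5e119_nt.G27.Defs

namespace Pool.Agent.G27

open Finset Filter Topology Pool.Agent.G60

theorem locg_sq {ι : Type} (s : Finset ι) (u : ι → ℂ) :
    ‖∑ i ∈ s, u i‖ ^ 2 = ∑ i ∈ s, ∑ k ∈ s, (u i * (starRingEnd ℂ) (u k)).re := by
  have h := congrArg Complex.re (Complex.mul_conj' (∑ i ∈ s, u i))
  rw [← Complex.ofReal_pow, Complex.ofReal_re, map_sum, sum_mul_sum] at h
  simp only [← h, Complex.re_sum]

theorem locg_W (N : ℕ) : 0 ≤ WW N := by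
  have := Real.log_natCast_nonneg N
  unfold WW
  positivity

theorem locg_pair (hPV : PV_s) {N : ℕ} [NeZero N] (χ χ' : Ch N) (a b : ℂ) (Y : ℕ)
    (hab : χ = χ' → a = b) [Decidable (χ = χ')] :
    (if χ = χ' then (UN N Y : ℝ) * ‖a‖ ^ 2 else 0) - (‖a‖ ^ 2 + ‖b‖ ^ 2) / 2 * WW N ≤
      ∑ n ∈ Icc 1 Y, (a * χ (n : ZMod N) * (starRingEnd ℂ) (b * χ' (n : ZMod N))).re := by
  have e : ∀ n : ZMod N, a * χ n * (starRingEnd ℂ) (b * χ' n) =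
      a * (starRingEnd ℂ) b * (χ * χ'⁻¹) n := fun n => by
    rw [map_mul, MulChar.mul_apply, ← MulChar.star_apply']
    change _ = a * (starRingEnd ℂ) b * (χ n * (starRingEnd ℂ) (χ' n))
    ring
  simp only [e, ← Complex.re_sum, ← mul_sum]
  have h0 : 0 ≤ (‖a‖ ^ 2 + ‖b‖ ^ 2) / 2 * WW N := mul_nonneg (by positivity) (locg_W N)
  split_ifs with h
  · obtain rfl := hab h
    subst h
    have h1 : ∑ n ∈ Icc 1 Y, (χ * χ⁻¹) (n : ZMod N) = (UN N Y : ℂ) := by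
      rw [mul_inv_cancel, UN, card_filter, Nat.cast_sum]
      refine sum_congr rfl fun n _ => ?_
      split_ifs with hn
      · rw [MulChar.one_apply ((ZMod.isUnit_iff_coprime n N).2 hn), Nat.cast_one]
      · rw [MulChar.map_nonunit _ (mt (ZMod.isUnit_iff_coprime n N).1 hn), Nat.cast_zero]
    have h2 : a * (starRingEnd ℂ) a * (UN N Y : ℂ) = (((UN N Y : ℝ) * ‖a‖ ^ 2 : ℝ) : ℂ) := by
      rw [Complex.mul_conj']
      push_cast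
      ring
    rw [h1, h2, Complex.ofReal_re]
    linarith
  · have h1 := hPV N (χ * χ'⁻¹) Y fun e => h (mul_inv_eq_one.1 e)
    refine le_trans ?_ (abs_le.1 (Complex.abs_re_le_norm _)).1
    rw [norm_mul, norm_mul, Complex.norm_conj, zero_sub, neg_le_neg_iff]
    exact mul_le_mul (by nlinarith [sq_nonneg (‖a‖ - ‖b‖)]) h1 (norm_nonneg _) (by positivity)

theorem locg_row (hPV : PV_s) : LOCG_s := by
  classical
  intro N _ Λ d Y hΛ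
  have h2 : ∑ n ∈ Icc 1 Y, ‖∑ χ ∈ Λ, d χ * χ (n : ZMod N)‖ ^ 2 =
      ∑ χ ∈ Λ, ∑ χ' ∈ Λ, ∑ n ∈ Icc 1 Y, (d χ * χ (n : ZMod N) *
        (starRingEnd ℂ) (d χ' * χ' (n : ZMod N))).re := by
    simp only [locg_sq]
    exact sum_comm.trans (sum_congr rfl fun χ _ => sum_comm)
  have h3 := sum_le_sum fun χ (_ : χ ∈ Λ) => sum_le_sum fun χ' (_ : χ' ∈ Λ) =>
    locg_pair hPV χ χ' (d χ) (d χ') Y fun e => congrArg d e
  rw [← h2] at h3
  have h4 : ∑ χ ∈ Λ, ∑ χ' ∈ Λ, ((if χ = χ' then (UN N Y : ℝ) * ‖d χ‖ ^ 2 else 0) -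
      (‖d χ‖ ^ 2 + ‖d χ'‖ ^ 2) / 2 * WW N) =
      (UN N Y : ℝ) * ∑ χ ∈ Λ, ‖d χ‖ ^ 2 - #Λ * (∑ χ ∈ Λ, ‖d χ‖ ^ 2) * WW N := by
    simp only [sum_sub_distrib, ← sum_mul, ← sum_div, sum_add_distrib, sum_const, nsmul_eq_mul,
      ← mul_sum]
    rw [sum_congr rfl fun χ hχ => (sum_ite_eq Λ χ fun _ => (UN N Y : ℝ) * ‖d χ‖ ^ 2).trans
      (if_pos hχ), ← mul_sum]
    ring
  rw [h4] at h3
  have D0 : 0 ≤ ∑ χ ∈ Λ, ‖d χ‖ ^ 2 := by positivity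
  have h5 := mul_le_mul_of_nonneg_right hΛ D0
  linarith

end Pool.Agent.G27
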