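import Pool.Agent.MP_b5e119_nt.G27.Defs

namespace Pool.Agent.G27

open Finset Filter Topology Pool.Agent.G60

theorem manyg_harm (n : ℕ) : ∑ m ∈ Icc 1 n, (1 / (m : ℝ)) ≤ 1 + Real.log n := by
  have h := harmonic_le_one_add_log n
  rw [harmonic_eq_sum_Icc] at h
  simpa using h

/-- The hyperbola step: a small convolution sum makes the partial `L`-series small. -/
theorem manyg_hyp (hH : HYP_s) (a : ℕ → ℝ) (x U : ℕ) (δ R : ℝ) (hU : 0 < U) (hUx : U ≤ x)
    (hδ : 0 ≤ δ) (ha : ∀ n, |a n| ≤ 1) (hS : ∀ N, U ≤ N → |∑ n ∈ Icc 1 N, a n| ≤ δ * N)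
    (hR : |∑ n ∈ Icc 1 x, ∑ d ∈ n.divisors, a d| ≤ R) :
    x * |∑ n ∈ Icc 1 U, a n / n| ≤ R + U + 2 * δ * x * (1 + Real.log x) := by
  have h := hH a (fun _ => 1) x U hU hUx
  have e0 : ∀ n : ℕ, ∑ y ∈ n.divisorsAntidiagonal, a y.1 * (1 : ℝ) = ∑ d ∈ n.divisors, a d := by
    intro n
    rw [Nat.sum_divisorsAntidiagonal (fun i _ => a i * (1 : ℝ))]
    simp
  simp only [e0] at h
  simp only [sum_const, Nat.card_Icc, Nat.add_sub_cancel, nsmul_eq_mul, mul_one, one_mul] at h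
  have hx0 : (0 : ℝ) < x := by exact_mod_cast hU.trans_le hUx
  have h2 : |∑ m ∈ Icc 1 (x / U), (∑ d ∈ Icc 1 (x / m), a d - ∑ d ∈ Icc 1 U, a d)| ≤
      2 * δ * x * (1 + Real.log x) := by
    refine (abs_sum_le_sum_abs _ _).trans ?_
    have hb : ∀ m ∈ Icc 1 (x / U), |∑ d ∈ Icc 1 (x / m), a d - ∑ d ∈ Icc 1 U, a d| ≤
        2 * δ * x * (1 / (m : ℝ)) := by
      intro m hm
      rw [mem_Icc] at hm
      have hmU : m * U ≤ x := (Nat.le_div_iff_mul_le hU).1 hm.2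
      have hUm : U ≤ x / m := (Nat.le_div_iff_mul_le hm.1).2 (by rw [mul_comm]; exact hmU)
      have h3 := hS _ hUm
      have h4 := hS _ le_rfl
      have h5 : ((x / m : ℕ) : ℝ) ≤ x / m := Nat.cast_div_le
      have h6 : (U : ℝ) ≤ ((x / m : ℕ) : ℝ) := by exact_mod_cast hUm
      have h7 := abs_sub (∑ d ∈ Icc 1 (x / m), a d) (∑ d ∈ Icc 1 U, a d)
      have h8 : δ * ((x / m : ℕ) : ℝ) ≤ δ * (x / m) := mul_le_mul_of_nonneg_left h5 hδ
      have h9 : δ * (U : ℝ) ≤ δ * ((x / m : ℕ) : ℝ) := mul_le_mul_of_nonneg_left h6 hδ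
      have e : 2 * δ * x * (1 / (m : ℝ)) = 2 * (δ * (x / m)) := by ring
      rw [e]; linarith
    refine (sum_le_sum hb).trans ?_
    rw [← mul_sum]
    refine mul_le_mul_of_nonneg_left ?_ (by positivity)
    refine le_trans ?_ (manyg_harm x)
    refine sum_le_sum_of_subset_of_nonneg (Icc_subset_Icc le_rfl (Nat.div_le_self _ _)) ?_
    intro i _ _; positivity
  have h1 : |x * ∑ n ∈ Icc 1 U, a n / n - ∑ d ∈ Icc 1 U, a d * ((x / d : ℕ) : ℝ)| ≤ U := by
    rw [mul_sum, ← sum_sub_distrib]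
    refine (abs_sum_le_sum_abs _ _).trans ?_
    have hb : ∀ d ∈ Icc 1 U, |x * (a d / d) - a d * ((x / d : ℕ) : ℝ)| ≤ 1 := by
      intro d hd
      rw [mem_Icc] at hd
      have hd0 : (0 : ℝ) < d := by exact_mod_cast hd.1
      have h5 : ((x / d : ℕ) : ℝ) ≤ x / d := Nat.cast_div_le
      have h6 : (x : ℝ) / d ≤ ((x / d : ℕ) : ℝ) + 1 := by
        rw [div_le_iff₀ hd0]
        have := (Nat.lt_div_mul_add (a := x) hd.1).le
        have h7 : (x : ℝ) ≤ ((x / d * d + d : ℕ) : ℝ) := by exact_mod_cast this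
        push_cast at h7
        linarith
      have e : x * (a d / d) - a d * ((x / d : ℕ) : ℝ) = a d * (x / d - ((x / d : ℕ) : ℝ)) := by
        ring
      rw [e, abs_mul]
      have h8 : |(x : ℝ) / d - ((x / d : ℕ) : ℝ)| ≤ 1 := abs_le.2 ⟨by linarith, by linarith⟩
      exact mul_le_one₀ (ha d) (abs_nonneg _) h8
    refine (sum_le_sum hb).trans ?_
    simp
  have e : x * |∑ n ∈ Icc 1 U, a n / n| = |x * ∑ n ∈ Icc 1 U, a n / n| := by
    rw [abs_mul, abs_of_pos hx0]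
  rw [e]
  rw [abs_le] at h1 h2 hR ⊢
  constructor <;> linarith [h1.1, h1.2, h2.1, h2.2, hR.1, hR.2]

theorem manyg_tau (hH : HYP_s) (y : ℕ) :
    ∑ m ∈ Icc 1 y, (#m.divisors : ℝ) ≤ y * (1 + Real.log y) := by
  rcases Nat.eq_zero_or_pos y with rfl | hy
  · simp
  have h := hH (fun _ => 1) (fun _ => 1) y y hy le_rfl
  have e0 : ∀ n : ℕ, ∑ _z ∈ n.divisorsAntidiagonal, (1 : ℝ) * 1 = #n.divisors := by
    intro n
    rw [Nat.sum_divisorsAntidiagonal (fun _ _ => (1 : ℝ) * 1)]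
    simp
  simp only [e0] at h
  rw [h, Nat.div_self hy]
  simp only [Icc_self, sum_singleton, Nat.div_one, sub_self, add_zero, sum_const,
    Nat.card_Icc, Nat.add_sub_cancel, nsmul_eq_mul, mul_one, one_mul]
  refine le_trans ?_ (mul_le_mul_of_nonneg_left (manyg_harm y) (Nat.cast_nonneg y))
  rw [mul_sum]
  refine sum_le_sum fun d _ => ?_
  rw [mul_one_div]
  exact Nat.cast_div_le

theorem manyg_eq (a : ℕ → ℝ) (N : ℕ) (h1 : a 1 = 1) (hm : ∀ m n, a (m * n) = a m * a n)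
    (h0 : ∀ q, q.Prime → q ∣ N → a q = 0) :
    ∀ n, 0 < n → (∀ q, q.Prime → q ∣ n → ¬q ∣ N → a q = -1) →
      a n = if n.Coprime N then (lam n : ℝ) else 0 := by
  intro n
  induction n using Nat.strong_induction_on with
  | _ n ih =>
    intro hn h
    by_cases hn1 : n = 1
    · subst hn1; simp [h1, lam_one]
    · obtain ⟨m, hm'⟩ := Nat.minFac_dvd n
      have hp := Nat.minFac_prime hn1
      have hm0 : m ≠ 0 := by rintro rfl; omega
      have h2 := hp.two_le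
      have hmn : m < n := by
        have : 2 * m ≤ n.minFac * m := Nat.mul_le_mul_right m h2
        omega
      have e1 : a n = a n.minFac * a m := by rw [← hm, ← hm']
      have e2 : lam n = lam n.minFac * lam m := by rw [← lam_mul hp.ne_zero hm0, ← hm']
      have hd : m ∣ n := Dvd.intro_left _ hm'.symm
      have e3 : n.Coprime N ↔ n.minFac.Coprime N ∧ m.Coprime N := by
        rw [← Nat.coprime_mul_iff_left, ← hm']
      by_cases hq : n.minFac ∣ N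
      · have : ¬n.Coprime N := fun hc => (hp.coprime_iff_not_dvd.1 (e3.1 hc).1) hq
        rw [if_neg this, e1, h0 _ hp hq, zero_mul]
      · have e4 : n.Coprime N ↔ m.Coprime N := by
          rw [e3]; exact and_iff_right (hp.coprime_iff_not_dvd.2 hq)
        rw [e1, e2, h _ hp (Nat.minFac_dvd n) hq, lam_prime hp,
          ih m hmn (by omega) fun q hq hqm => h q hq (hqm.trans hd)]
        by_cases hc : m.Coprime N
        · rw [if_pos hc, if_pos (e4.2 hc)]; push_cast; ring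
        · rw [if_neg hc, if_neg fun h => hc (e4.1 h), mul_zero]

theorem manyg_sq (hSQ : SQ_s) (N x : ℕ) (hN : N ≠ 0) :
    |∑ n ∈ Icc 1 x, ∑ d ∈ n.divisors, (if d.Coprime N then (lam d : ℝ) else 0)| ≤
      #N.divisors * √x := by
  have hmu : ∀ d : ℕ, (if d.Coprime N then (lam d : ℝ) else 0) =
      ∑ e ∈ N.divisors, if e ∣ d then (ArithmeticFunction.moebius e : ℝ) * lam d else 0 := by
    intro d
    rw [← sum_filter, ← sum_mul]
    have e1 : {e ∈ N.divisors | e ∣ d} = (d.gcd N).divisors := by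
      ext e
      simp only [mem_filter, Nat.mem_divisors, Nat.dvd_gcd_iff]
      exact ⟨fun h => ⟨⟨h.2, h.1.1⟩, Nat.gcd_ne_zero_right hN⟩, fun h => ⟨⟨h.1.2, hN⟩, h.1.1⟩⟩
    have e2 : ∑ e ∈ (d.gcd N).divisors, (ArithmeticFunction.moebius e : ℤ) =
        if d.gcd N = 1 then 1 else 0 := by
      rw [← ArithmeticFunction.coe_mul_zeta_apply, ArithmeticFunction.moebius_mul_coe_zeta,
        ArithmeticFunction.one_apply]
    have e3 : ∑ e ∈ (d.gcd N).divisors, (ArithmeticFunction.moebius e : ℝ) =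
        if d.gcd N = 1 then 1 else 0 := by exact_mod_cast e2
    rw [e1, e3]
    by_cases h : d.gcd N = 1
    · rw [if_pos h, if_pos h, one_mul]
    · rw [if_neg h, if_neg h, zero_mul]
  simp only [hmu]
  rw [sum_congr rfl fun n _ => sum_comm, sum_comm]
  refine (abs_sum_le_sum_abs _ _).trans ?_
  have hb : ∀ e ∈ N.divisors, |∑ n ∈ Icc 1 x, ∑ d ∈ n.divisors,
      (if e ∣ d then (ArithmeticFunction.moebius e : ℝ) * lam d else 0)| ≤ √x := by
    intro e he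
    have e0 : 0 < e := Nat.pos_of_mem_divisors he
    have k1 : ∑ n ∈ Icc 1 x, ∑ d ∈ n.divisors,
        (if e ∣ d then (ArithmeticFunction.moebius e : ℝ) * lam d else 0) =
        (ArithmeticFunction.moebius e : ℝ) * lam e *
          ∑ n ∈ Icc 1 (x / e), ∑ d ∈ n.divisors, (lam d : ℝ) := by
      rw [mul_sum, sum_sigma', ← sum_filter]
      simp only [mul_sum]
      rw [sum_sigma']
      symm
      refine sum_bij (fun z _ => ⟨e * z.1, e * z.2⟩) ?_ ?_ ?_ ?_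
      · rintro ⟨n, d⟩ hz
        simp only [mem_sigma, mem_Icc, Nat.mem_divisors, mem_filter] at hz ⊢
        obtain ⟨⟨a1, a2⟩, a3, a4⟩ := hz
        refine ⟨⟨⟨Nat.mul_pos e0 a1, ?_⟩, Nat.mul_dvd_mul_left e a3, by positivity⟩,
          Dvd.intro _ rfl⟩
        rw [mul_comm]; exact (Nat.le_div_iff_mul_le e0).1 a2
      · rintro ⟨n, d⟩ _ ⟨n', d'⟩ _ h
        simp only [Sigma.mk.injEq, heq_eq_eq] at h ⊢
        exact ⟨Nat.eq_of_mul_eq_mul_left e0 h.1, Nat.eq_of_mul_eq_mul_left e0 h.2⟩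
      · rintro ⟨n, d⟩ hz
        simp only [mem_sigma, mem_Icc, Nat.mem_divisors, mem_filter] at hz
        obtain ⟨⟨⟨a1, a2⟩, ⟨k, rfl⟩, a4⟩, d', rfl⟩ := hz
        refine ⟨⟨d' * k, d'⟩, ?_, by simp [mul_assoc]⟩
        have a5 : d' * k ≠ 0 := by
          intro h; rw [mul_assoc, h] at a4; exact a4 (mul_zero _)
        simp only [mem_sigma, mem_Icc, Nat.mem_divisors]
        refine ⟨⟨Nat.pos_of_ne_zero a5, (Nat.le_div_iff_mul_le e0).2 ?_⟩, Dvd.intro _ rfl, a5⟩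
        rw [mul_comm, ← mul_assoc]; exact a2
      · rintro ⟨n, d⟩ hz
        simp only [mem_sigma, mem_Icc, Nat.mem_divisors] at hz
        have d0 : d ≠ 0 := fun h => hz.2.2 (Nat.eq_zero_of_zero_dvd (h ▸ hz.2.1))
        simp only
        rw [lam_mul e0.ne' d0]; push_cast; ring
    obtain ⟨s1, s2⟩ := hSQ (x / e)
    have k2 : ∑ n ∈ Icc 1 (x / e), ∑ d ∈ n.divisors, (lam d : ℝ) =
        ((∑ n ∈ Icc 1 (x / e), ∑ d ∈ n.divisors, lam d : ℤ) : ℝ) := by push_cast; rfl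
    have k3 : |(ArithmeticFunction.moebius e : ℝ)| ≤ 1 := by
      exact_mod_cast ArithmeticFunction.abs_moebius_le_one
    have k4 : |(lam e : ℝ)| ≤ 1 := by rcases lam_cases e with h | h <;> simp [h]
    have k5 : √((x / e : ℕ) : ℝ) ≤ √x := Real.sqrt_le_sqrt (by exact_mod_cast Nat.div_le_self _ _)
    have k6 : (0 : ℝ) ≤ ((∑ n ∈ Icc 1 (x / e), ∑ d ∈ n.divisors, lam d : ℤ) : ℝ) := by
      exact_mod_cast s1
    rw [k1, k2, abs_mul, abs_mul, abs_of_nonneg k6]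
    exact (mul_le_of_le_one_left k6 (mul_le_one₀ k3 (abs_nonneg _) k4)).trans (s2.trans k5)
  refine (sum_le_sum hb).trans ?_
  simp

/-- Only numbers with a split prime factor distinguish the character from `λ` on units. -/
theorem manyg_split (hSQ : SQ_s) (hH : HYP_s) (a : ℕ → ℝ) (N x : ℕ) (C : Finset ℕ) (hN : N ≠ 0)
    (ha : ∀ n, |a n| ≤ 1) (ha1 : a 1 = 1) (hm : ∀ m n, a (m * n) = a m * a n)
    (h0 : ∀ q, q.Prime → q ∣ N → a q = 0) (hx : 0 < x) (hC : ∀ c ∈ C, c.Prime)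
    (hin : ∀ q, q.Prime → q ≤ x → q ∉ C → ¬q ∣ N → a q = -1) :
    |∑ n ∈ Icc 1 x, ∑ d ∈ n.divisors, a d| ≤
      #N.divisors * √x + 4 * x * (1 + Real.log x) * ∑ c ∈ C, 1 / (c : ℝ) := by
  have hx1 : (1 : ℝ) ≤ x := by exact_mod_cast hx
  have hlx : 0 ≤ Real.log x := Real.log_nonneg hx1
  have s3 := manyg_sq hSQ N x hN
  have hpt : ∀ n ∈ Icc 1 x, |∑ d ∈ n.divisors, a d -
      ∑ d ∈ n.divisors, (if d.Coprime N then (lam d : ℝ) else 0)| ≤
      ∑ c ∈ C, if c ∣ n then 2 * (#n.divisors : ℝ) else 0 := by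
    intro n hn
    rw [mem_Icc] at hn
    have hnn : ∀ c ∈ C, (0 : ℝ) ≤ if c ∣ n then 2 * (#n.divisors : ℝ) else 0 := by
      intro c _; split_ifs <;> positivity
    by_cases hc : ∃ c ∈ C, c ∣ n
    · obtain ⟨c, hc, hcn⟩ := hc
      refine le_trans ?_ (single_le_sum hnn hc)
      rw [if_pos hcn, ← sum_sub_distrib]
      refine (abs_sum_le_sum_abs _ _).trans ?_
      have hb : ∀ d ∈ n.divisors, |a d - (if d.Coprime N then (lam d : ℝ) else 0)| ≤ 2 := by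
        intro d _
        have a1 := abs_le.1 (ha d)
        split_ifs
        · rcases lam_cases d with h | h <;> rw [h, abs_le] <;> push_cast <;> constructor <;>
            linarith [a1.1, a1.2]
        · rw [abs_le]; constructor <;> linarith [a1.1, a1.2]
      refine (sum_le_sum hb).trans ?_
      simp [mul_comm]
    · have e : ∑ d ∈ n.divisors, a d =
          ∑ d ∈ n.divisors, (if d.Coprime N then (lam d : ℝ) else 0) := by
        refine sum_congr rfl fun d hd => ?_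
        refine manyg_eq a N ha1 hm h0 d (Nat.pos_of_mem_divisors hd) fun q hq hqd => ?_
        have hqn : q ∣ n := hqd.trans (Nat.dvd_of_mem_divisors hd)
        exact hin q hq ((Nat.le_of_dvd hn.1 hqn).trans hn.2) fun h => hc ⟨q, h, hqn⟩
      rw [e, sub_self, abs_zero]
      exact sum_nonneg hnn
  have hc : ∀ c ∈ C, (∑ n ∈ Icc 1 x, if c ∣ n then 2 * (#n.divisors : ℝ) else 0) ≤
      4 * x * (1 + Real.log x) * (1 / (c : ℝ)) := by
    intro c hc
    have cp := hC c hc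
    have c0 : (0 : ℝ) < c := by exact_mod_cast cp.pos
    rw [← sum_filter]
    have hsub : {n ∈ Icc 1 x | c ∣ n} ⊆ (Icc 1 (x / c)).image (c * ·) := by
      intro n hn
      obtain ⟨h1, m, rfl⟩ := mem_filter.1 hn
      rw [mem_Icc] at h1
      refine mem_image.2 ⟨m, mem_Icc.2 ⟨?_, ?_⟩, rfl⟩
      · exact Nat.pos_of_mul_pos_left h1.1
      · exact (Nat.le_div_iff_mul_le cp.pos).2 (by rw [mul_comm]; exact h1.2)
    refine (sum_le_sum_of_subset_of_nonneg hsub fun _ _ _ => by positivity).trans ?_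
    rw [sum_image fun a _ b _ h => Nat.eq_of_mul_eq_mul_left cp.pos h]
    have hb : ∀ m ∈ Icc 1 (x / c), 2 * (#(c * m).divisors : ℝ) ≤ 4 * (#m.divisors : ℝ) := by
      intro m _
      have a1 : #(c * m).divisors ≤ #c.divisors * #m.divisors := by
        rw [Nat.divisors_mul]; exact card_mul_le
      have a2 : #c.divisors ≤ 2 := by rw [cp.divisors]; exact card_le_two
      have a3 : #(c * m).divisors ≤ 2 * #m.divisors := a1.trans (Nat.mul_le_mul_right _ a2)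
      have a4 : (#(c * m).divisors : ℝ) ≤ 2 * #m.divisors := by exact_mod_cast a3
      linarith
    refine (sum_le_sum hb).trans ?_
    rw [← mul_sum]
    have a5 := manyg_tau hH (x / c)
    have a6 : ((x / c : ℕ) : ℝ) ≤ x / c := Nat.cast_div_le
    have a7 : Real.log ((x / c : ℕ) : ℝ) ≤ Real.log x := by
      rcases Nat.eq_zero_or_pos (x / c) with h | h
      · rw [h]; simpa using hlx
      · exact Real.log_le_log (by exact_mod_cast h) (by exact_mod_cast Nat.div_le_self _ _)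
    have a8 : ((x / c : ℕ) : ℝ) * (1 + Real.log ((x / c : ℕ) : ℝ)) ≤ x / c * (1 + Real.log x) :=
      le_trans (mul_le_mul_of_nonneg_left (by linarith) (Nat.cast_nonneg _))
        (mul_le_mul_of_nonneg_right a6 (by linarith))
    have e : 4 * x * (1 + Real.log x) * (1 / (c : ℝ)) = 4 * (x / c * (1 + Real.log x)) := by ring
    rw [e]; linarith
  have h1 : |∑ n ∈ Icc 1 x, ∑ d ∈ n.divisors, a d -
      ∑ n ∈ Icc 1 x, ∑ d ∈ n.divisors, (if d.Coprime N then (lam d : ℝ) else 0)| ≤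
      4 * x * (1 + Real.log x) * ∑ c ∈ C, 1 / (c : ℝ) := by
    rw [← sum_sub_distrib, mul_sum]
    refine (abs_sum_le_sum_abs _ _).trans ((sum_le_sum hpt).trans ?_)
    rw [sum_comm]
    exact sum_le_sum hc
  rw [abs_le] at h1 s3 ⊢
  constructor <;> linarith [h1.1, h1.2, s3.1, s3.2]

theorem manyg_per (N : ℕ) [NeZero N] (χ : Ch N) (h2 : χ ^ 2 = 1) (h1 : χ ≠ 1) (M : ℕ) :
    |∑ n ∈ Icc 1 M, (re χ n : ℝ)| ≤ N := by
  have hz : ∀ u : ℕ, ∑ t ∈ range N, (re χ (u + t) : ℝ) = 0 := by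
    intro u
    have a1 : ∑ t ∈ range N, χ ((u : ZMod N) + (t : ZMod N)) =
        ∑ a : ZMod N, χ ((u : ZMod N) + a) := by
      refine sum_bij' (fun t _ => (t : ZMod N)) (fun a _ => a.val) (fun _ _ => mem_univ _)
        (fun a _ => mem_range.2 (ZMod.val_lt a)) (fun t ht => ZMod.val_cast_of_lt (mem_range.1 ht))
        (fun a _ => ZMod.natCast_zmod_val a) fun _ _ => rfl
    have a2 : ∑ a : ZMod N, χ ((u : ZMod N) + a) = ∑ a : ZMod N, χ a :=
      Equiv.sum_comp (Equiv.addLeft (u : ZMod N)) χ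
    have a3 : ((∑ t ∈ range N, re χ (u + t) : ℤ) : ℂ) = 0 := by
      push_cast
      simp only [re_coe h2, Nat.cast_add]
      rw [a1, a2, MulChar.sum_eq_zero_of_ne_one h1]
    have a4 : ∑ t ∈ range N, re χ (u + t) = 0 := by exact_mod_cast a3
    exact_mod_cast a4
  have hN : 0 < N := Nat.pos_of_ne_zero (NeZero.ne N)
  induction M using Nat.strong_induction_on with
  | _ M ih =>
    by_cases hM : M ≤ N
    · refine (abs_sum_le_sum_abs _ _).trans ?_
      have hb : ∀ n ∈ Icc 1 M, |(re χ n : ℝ)| ≤ 1 := fun n _ => by exact_mod_cast abs_re_le χ n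
      refine (sum_le_sum hb).trans ?_
      simpa using hM
    · obtain ⟨K, rfl⟩ : ∃ K, M = K + N := ⟨M - N, by omega⟩
      have e : ∀ Y : ℕ, ∑ n ∈ Icc 1 Y, (re χ n : ℝ) = ∑ t ∈ range Y, (re χ (1 + t) : ℝ) := by
        intro Y
        rw [← Ico_add_one_right_eq_Icc, sum_Ico_eq_sum_range, Nat.add_sub_cancel]
      have := ih K (by omega)
      rw [e] at this ⊢
      rw [sum_range_add]
      simp only [← add_assoc]
      rw [hz (1 + K), add_zero]
      exact this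

/-- `L(1, χ)` is bounded by the reciprocals of the small split primes. -/
theorem manyg_core (hSQ : SQ_s) (hH : HYP_s) (hT : TAIL_s) (hTAU : TAU_s) (hB : BURGG_s) :
    ∃ κ : ℝ, 0 < κ ∧ ∃ p₀ : ℕ, ∀ (p : ℕ) [NeZero p], p₀ ≤ p → ∀ χ : Ch p, χ ^ 2 = 1 → χ ≠ 1 →
      ∀ L : ℝ, Tendsto (fun N : ℕ => ∑ n ∈ Icc 1 N, (re χ n : ℝ) / n) atTop (𝓝 L) →
      |L| ≤ (p : ℝ) ^ (-κ) * (17 + 4 * Real.log p) +
        4 * (1 + Real.log p) * ∑ c ∈ SP χ, 1 / (c : ℝ) := by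
  obtain ⟨κ, hκ, hκ1, p₁, hB⟩ := hB
  obtain ⟨Cτ, hCτ, hτ⟩ := hTAU.2 (1 / 10) (by norm_num)
  have ev1 : ∀ᶠ p : ℕ in atTop, max 204800 Cτ ≤ (p : ℝ) ^ (1 / 200 : ℝ) :=
    ((tendsto_rpow_atTop (by norm_num)).comp tendsto_natCast_atTop_atTop).eventually_ge_atTop _
  obtain ⟨p₀, hp₀⟩ := eventually_atTop.1 (ev1.and
    ((eventually_ge_atTop p₁).and (eventually_ge_atTop 3)))
  refine ⟨κ, hκ, p₀, fun p _ hp χ hχ2 hχ1 L hlim => ?_⟩
  obtain ⟨h1, h3, h4⟩ := hp₀ p hp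
  have hp1 : (1 : ℝ) ≤ p := by exact_mod_cast (by omega : 1 ≤ p)
  have hp0 : (0 : ℝ) < p := by linarith
  obtain ⟨t, ht⟩ : ∃ t : ℝ, t = (p : ℝ) ^ (1 / 200 : ℝ) := ⟨_, rfl⟩
  rw [← ht, max_le_iff] at h1
  obtain ⟨h1, h1'⟩ := h1
  have ht0 : 0 < t := by linarith
  have ht1 : 1 ≤ t := by linarith
  have hpt : (p : ℝ) = t ^ 200 := by
    rw [ht, ← Real.rpow_natCast, ← Real.rpow_mul hp0.le]; norm_num
  have h64 : (p : ℝ) ^ (0.32 : ℝ) = t ^ 64 := by
    rw [ht, ← Real.rpow_natCast, ← Real.rpow_mul hp0.le]; norm_num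
  obtain ⟨δ, hδ⟩ : ∃ δ : ℝ, δ = (p : ℝ) ^ (-κ) := ⟨_, rfl⟩
  have hδ0 : 0 < δ := by rw [hδ]; positivity
  have hδt : 1 ≤ δ * t := by
    rw [hδ, ht, ← Real.rpow_add hp0]
    exact Real.one_le_rpow hp1 (by linarith)
  have h66' : (p : ℝ) ^ (0.33 : ℝ) = t ^ 66 := by
    rw [ht, ← Real.rpow_natCast, ← Real.rpow_mul hp0.le]; norm_num
  have h20 : (p : ℝ) ^ (1 / 10 : ℝ) = t ^ 20 := by
    rw [ht, ← Real.rpow_natCast, ← Real.rpow_mul hp0.le]; norm_num
  have hδ3 : (p : ℝ) / ((p ^ 2 : ℕ) : ℝ) ≤ δ := by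
    have a1 : t ≤ p := by rw [hpt]; exact le_self_pow₀ ht1 (by norm_num)
    have a2 : δ * t ≤ δ * p := mul_le_mul_of_nonneg_left a1 hδ0.le
    push_cast
    rw [div_le_iff₀ (by positivity)]
    nlinarith
  obtain ⟨x, hx⟩ : ∃ x : ℕ, x = ⌊t ^ 66⌋₊ := ⟨_, rfl⟩
  obtain ⟨U, hU⟩ : ∃ U : ℕ, U = ⌈t ^ 65⌉₊ := ⟨_, rfl⟩
  have h65 : 1 ≤ t ^ 65 := one_le_pow₀ ht1
  have hx1 : (x : ℝ) ≤ t ^ 66 := by rw [hx]; exact Nat.floor_le (by positivity)
  have hx2 : t ^ 66 < x + 1 := by rw [hx]; exact Nat.lt_floor_add_one _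
  have hU1 : t ^ 65 ≤ U := by rw [hU]; exact Nat.le_ceil _
  have hU2 : (U : ℝ) < t ^ 65 + 1 := by rw [hU]; exact Nat.ceil_lt_add_one (by positivity)
  have e66 : t ^ 66 = t ^ 65 * t := by ring
  have h66 : 102400 * t ^ 65 ≤ t ^ 66 := by rw [e66]; nlinarith
  have hUx' : (U : ℝ) ≤ x := by linarith
  have hUx : U ≤ x := by exact_mod_cast hUx'
  have hU0' : (0 : ℝ) < U := by linarith
  have hU0 : 0 < U := by exact_mod_cast hU0'
  have hx0 : (0 : ℝ) < x := by linarith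
  have hxp' : (x : ℝ) < p := by
    rw [hpt]
    exact hx1.trans_lt (pow_lt_pow_right₀ (by linarith) (by norm_num))
  have hxp : x < p := by exact_mod_cast hxp'
  have habs : ∀ n, |(re χ n : ℝ)| ≤ 1 := fun n => by exact_mod_cast abs_re_le χ n
  have hin : ∀ q, q.Prime → q ≤ x → q ∉ SP χ → ¬q ∣ p → (re χ q : ℝ) = -1 := by
    intro q hq hqx hno hqp
    rcases re_unit hχ2 (hq.coprime_iff_not_dvd.2 hqp) with h | h
    · refine absurd ?_ hno
      unfold SP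
      refine mem_filter.2 ⟨mem_range.2 (by omega), hq, h, ?_⟩
      rw [h66']
      exact le_trans (by exact_mod_cast hqx) hx1
    · rw [h]; norm_num
  have hsum : ∀ N, U ≤ N → |∑ n ∈ Icc 1 N, (re χ n : ℝ)| ≤ δ * N := by
    intro N hN
    have c1 : (U : ℝ) ≤ N := by exact_mod_cast hN
    have c2 : t ^ 64 ≤ t ^ 65 := pow_le_pow_right₀ ht1 (by norm_num)
    have := hB p h3 χ hχ2 hχ1 1 N (by rw [h64]; linarith)
    rw [hδ, mul_comm, ← Ico_add_one_right_eq_Icc, sum_Ico_eq_sum_range, Nat.add_sub_cancel]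
    exact this
  have hR := manyg_split hSQ hH (fun n => (re χ n : ℝ)) p x (SP χ) (by omega) habs
    (by simp [re]) (fun m n => by simp only [re_mul hχ2]; push_cast; rfl)
    (fun q hq hqp => by
      simp only [re_nonunit χ fun h => (hq.coprime_iff_not_dvd.1 h) hqp, Int.cast_zero])
    (by omega) (fun c hc => by unfold SP at hc; exact (mem_filter.1 hc).2.1) hin
  have hh := manyg_hyp hH (fun n => (re χ n : ℝ)) x U δ _ hU0 hUx hδ0.le habs hsum hR
  have htail := hT (fun n => (re χ n : ℝ)) L δ p U (p ^ 2) hU0 (by nlinarith)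
    hδ0.le hsum (manyg_per p χ hχ2 hχ1) hlim
  have hlg2 : Real.log ((p ^ 2 : ℕ) : ℝ) = 2 * Real.log p := by
    push_cast; rw [Real.log_pow]; norm_num
  rw [hlg2] at htail
  have hsq : #p.divisors * √(x : ℝ) ≤ U := by
    have d0 : √(x : ℝ) ≤ t ^ 33 := by
      rw [Real.sqrt_le_left (by positivity), ← pow_mul]; exact hx1
    have d1 := hτ p
    rw [h20] at d1
    have d2 : (#p.divisors : ℝ) ≤ t * t ^ 20 :=
      d1.trans (mul_le_mul_of_nonneg_right h1' (by positivity))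
    have d3 : #p.divisors * √(x : ℝ) ≤ t * t ^ 20 * t ^ 33 :=
      mul_le_mul d2 d0 (Real.sqrt_nonneg _) (by positivity)
    have d4 : t * t ^ 20 * t ^ 33 = t ^ 54 := by ring
    have d5 : t ^ 54 ≤ t ^ 65 := pow_le_pow_right₀ ht1 (by norm_num)
    linarith
  have hU4 : (U : ℝ) ≤ 4 * δ * x := by
    have d1 : t ^ 66 ≤ 2 * x := by linarith
    have d2 : t ^ 65 ≤ δ * t ^ 66 := by rw [e66]; nlinarith
    have d3 : δ * t ^ 66 ≤ δ * (2 * x) := mul_le_mul_of_nonneg_left d1 hδ0.le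
    linarith
  have hlog : Real.log x ≤ Real.log p := Real.log_le_log hx0 hxp'.le
  obtain ⟨T, hTe⟩ : ∃ T : ℝ, T = ∑ n ∈ Icc 1 U, (re χ n : ℝ) / n := ⟨_, rfl⟩
  simp only [← hTe] at hh htail
  obtain ⟨Z, hZ⟩ : ∃ Z : ℝ, Z = ∑ c ∈ SP χ, 1 / (c : ℝ) := ⟨_, rfl⟩
  have hZ0 : 0 ≤ Z := by rw [hZ]; exact sum_nonneg fun _ _ => by positivity
  rw [← hZ] at hh ⊢
  rw [← hδ]
  have hT1 : |T| ≤ δ * (10 + 2 * Real.log p) + 4 * (1 + Real.log p) * Z := by
    refine le_of_mul_le_mul_left ?_ hx0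
    have d1 : 2 * δ * x * (1 + Real.log x) ≤ 2 * δ * x * (1 + Real.log p) :=
      mul_le_mul_of_nonneg_left (by linarith) (by positivity)
    have d2 : 4 * x * (1 + Real.log x) * Z ≤ 4 * x * (1 + Real.log p) * Z :=
      mul_le_mul_of_nonneg_right (mul_le_mul_of_nonneg_left (by linarith) (by positivity)) hZ0
    have e : x * (δ * (10 + 2 * Real.log p) + 4 * (1 + Real.log p) * Z) =
        2 * (4 * δ * x) + 2 * δ * x * (1 + Real.log p) + 4 * x * (1 + Real.log p) * Z := by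
      ring
    rw [e]; linarith
  have d1 : |L| ≤ |L - T| + |T| := by simpa using abs_add_le (L - T) T
  have e : δ * (17 + 4 * Real.log p) =
      δ * (2 + 2 * Real.log p) + 5 * δ + δ * (10 + 2 * Real.log p) := by ring
  rw [e]; linarith

theorem manyg_row (hSQ : SQ_s) (hH : HYP_s) (hT : TAIL_s) (hTAU : TAU_s) (hB : BURGG_s)
    (hS : SIEGG_s) : MANYG_s := by
  intro ε hε
  obtain ⟨κ₁, hκ₁, p₁, hc⟩ := manyg_core hSQ hH hT hTAU hB
  obtain ⟨κ, hκ, hκ1, hκ2⟩ : ∃ κ : ℝ, 0 < κ ∧ κ ≤ κ₁ ∧ κ ≤ ε :=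
    ⟨min κ₁ ε, lt_min hκ₁ hε, min_le_left _ _, min_le_right _ _⟩
  obtain ⟨c₀, hc₀, hS⟩ := hS (κ / 2) (by positivity)
  have ev2 : ∀ᶠ p : ℕ in atTop, (21 + 32 / κ) / c₀ < (p : ℝ) ^ (κ / 4) :=
    ((tendsto_rpow_atTop (by positivity)).comp tendsto_natCast_atTop_atTop).eventually_gt_atTop _
  obtain ⟨p₀, hp₀⟩ := eventually_atTop.1 (ev2.and
    ((eventually_ge_atTop p₁).and (eventually_ge_atTop 3)))
  refine ⟨p₀, fun p _ hp χ hχ2 hχ1 => ?_⟩
  obtain ⟨h2, h3, h4⟩ := hp₀ p hp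
  obtain ⟨L, hL, hlim⟩ := hS p χ hχ2 hχ1
  have hL0 := hc p h3 χ hχ2 hχ1 L hlim
  by_contra hno
  rw [not_le] at hno
  have hp1 : (1 : ℝ) ≤ p := by exact_mod_cast (by omega : 1 ≤ p)
  have hp0 : (0 : ℝ) < p := by linarith
  have hlp : 0 ≤ Real.log p := Real.log_nonneg hp1
  obtain ⟨δ, hδ⟩ : ∃ δ : ℝ, δ = (p : ℝ) ^ (-κ) := ⟨_, rfl⟩
  have hδ0 : 0 < δ := by rw [hδ]; positivity
  have g1 : (p : ℝ) ^ (-κ₁) ≤ δ := by
    rw [hδ]; exact Real.rpow_le_rpow_of_exponent_le hp1 (by linarith)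
  have g2 : (p : ℝ) ^ (-ε) ≤ δ := by
    rw [hδ]; exact Real.rpow_le_rpow_of_exponent_le hp1 (by linarith)
  have hL1 : |L| ≤ δ * (21 + 8 * Real.log p) := by
    have g3 : (p : ℝ) ^ (-κ₁) * (17 + 4 * Real.log p) ≤ δ * (17 + 4 * Real.log p) :=
      mul_le_mul_of_nonneg_right g1 (by linarith)
    have g4 : 4 * (1 + Real.log p) * ∑ c ∈ SP χ, 1 / (c : ℝ) ≤ 4 * (1 + Real.log p) * δ :=
      mul_le_mul_of_nonneg_left (hno.le.trans g2) (by linarith)
    have e : δ * (21 + 8 * Real.log p) =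
        δ * (17 + 4 * Real.log p) + 4 * (1 + Real.log p) * δ := by ring
    rw [e]; linarith
  obtain ⟨s, hs⟩ : ∃ s : ℝ, s = (p : ℝ) ^ (κ / 4) := ⟨_, rfl⟩
  have hs1 : 1 ≤ s := by rw [hs]; exact Real.one_le_rpow hp1 (by positivity)
  have hs0 : 0 < s := by linarith
  have hs2 : (p : ℝ) ^ (κ / 2) = s ^ 2 := by
    rw [hs, ← Real.rpow_natCast, ← Real.rpow_mul hp0.le]; congr 1; push_cast; ring
  have hs4 : δ * s ^ 4 = 1 := by
    rw [hδ, hs, ← Real.rpow_natCast, ← Real.rpow_mul hp0.le, ← Real.rpow_add hp0]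
    have e : -κ + κ / 4 * ((4 : ℕ) : ℝ) = 0 := by push_cast; ring
    rw [e, Real.rpow_zero]
  have hlg : Real.log p ≤ s / (κ / 4) := by
    rw [hs]; exact Real.log_le_rpow_div hp0.le (by positivity)
  rw [← hs] at h2
  rw [hs2, div_le_iff₀ (by positivity)] at hL
  rw [div_lt_iff₀ hc₀] at h2
  have f1 : 21 + 8 * Real.log p ≤ (21 + 32 / κ) * s := by
    have e : (21 + 32 / κ) * s = 21 * s + 8 * (s / (κ / 4)) := by field_simp; ring
    rw [e]; linarith
  have f2 : |L| ≤ δ * ((21 + 32 / κ) * s) :=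
    hL1.trans (mul_le_mul_of_nonneg_left f1 hδ0.le)
  have f3 : δ * ((21 + 32 / κ) * s) < δ * (s * c₀ * s) :=
    mul_lt_mul_of_pos_left (mul_lt_mul_of_pos_right h2 hs0) hδ0
  have f4 : |L| * s ^ 2 < δ * (s * c₀ * s) * s ^ 2 :=
    mul_lt_mul_of_pos_right (f2.trans_lt f3) (by positivity)
  have f5 : δ * (s * c₀ * s) * s ^ 2 = c₀ * (δ * s ^ 4) := by ring
  rw [f5, hs4, mul_one] at f4
  linarith

end Pool.Agent.G27
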