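import Pool.Agent.MP_b5e119_nt.G27.Defs
import Pool.Agent.MP_a4a062_nt.H4O.B

/-! The eighth moment of short sums of the Jacobi symbol to an odd squarefree modulus. -/

namespace Pool.Agent.G27

open Finset

lemma momj_range (p : ℕ) [Fact p.Prime] (F : ZMod p → ℝ) :
    ∑ x ∈ range p, F (x : ZMod p) = ∑ u : ZMod p, F u := by
  have : NeZero p := ⟨(Fact.out : p.Prime).ne_zero⟩
  refine sum_nbij (fun x : ℕ => (x : ZMod p)) (fun _ _ => mem_univ _) ?_ ?_ fun _ _ => rfl
  · intro a ha b hb h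
    have ha' : a < p := by simpa using ha
    have hb' : b < p := by simpa using hb
    have := (ZMod.natCast_eq_natCast_iff' a b p).1 h
    rwa [Nat.mod_eq_of_lt ha', Nat.mod_eq_of_lt hb'] at this
  · intro u _
    exact ⟨u.val, by simpa using ZMod.val_lt u, ZMod.natCast_zmod_val u⟩

lemma momj_count (S : Finset ℕ) :
    #{b ∈ Fintype.piFinset fun _ : Fin 8 => S | ¬∃ i₀, ∀ i, b i = b i₀ → i = i₀} ≤
      #S ^ 4 * 4 ^ 8 := by
  have hsub : {b ∈ Fintype.piFinset fun _ : Fin 8 => S | ¬∃ i₀, ∀ i, b i = b i₀ → i = i₀} ⊆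
      (Fintype.piFinset fun _ : Fin 4 => S).biUnion fun g =>
        Fintype.piFinset fun _ : Fin 8 => univ.image g := by
    intro b hb
    obtain ⟨hb1, hb2⟩ := mem_filter.1 hb
    rw [Fintype.mem_piFinset] at hb1
    have h2 : ∀ v ∈ univ.image b, 2 ≤ #{i ∈ (univ : Finset (Fin 8)) | b i = v} := by
      intro v hv
      obtain ⟨i₀, -, rfl⟩ := mem_image.1 hv
      have : ¬∀ i, b i = b i₀ → i = i₀ := fun h => hb2 ⟨i₀, h⟩
      push Not at this
      obtain ⟨i, hi, hne⟩ := this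
      exact one_lt_card.2 ⟨i, by simp [hi], i₀, by simp, hne⟩
    have h3 : #(univ.image b) * 2 ≤ 8 := by
      have e := card_eq_sum_card_image b (univ : Finset (Fin 8))
      have e2 := card_nsmul_le_sum _ _ _ h2
      rw [← e] at e2
      simpa using e2
    have hne : Nonempty (univ.image b : Finset ℕ) := ⟨⟨b 0, mem_image_of_mem _ (mem_univ _)⟩⟩
    obtain ⟨e⟩ : Nonempty ((univ.image b : Finset ℕ) ↪ Fin 4) :=
      Function.Embedding.nonempty_of_card_le (by simp only [Fintype.card_coe, Fintype.card_fin]; omega)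
    refine mem_biUnion.2 ⟨fun j => (Function.invFun e j).1, ?_, ?_⟩
    · rw [Fintype.mem_piFinset]
      intro j
      obtain ⟨i, -, hi⟩ := mem_image.1 (Function.invFun e j).2
      rw [← hi]
      exact hb1 i
    · rw [Fintype.mem_piFinset]
      intro i
      obtain ⟨j, hj⟩ := Function.invFun_surjective e.injective
        ⟨b i, mem_image_of_mem _ (mem_univ _)⟩
      exact mem_image.2 ⟨j, mem_univ _, by rw [hj]⟩
  refine (card_le_card hsub).trans ((card_biUnion_le_card_mul _ _ (4 ^ 8) fun g _ => ?_).trans ?_)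
  · rw [Fintype.card_piFinset, prod_const, card_univ, Fintype.card_fin]
    exact Nat.pow_le_pow_left (card_image_le.trans (by simp)) _
  · rw [Fintype.card_piFinset, prod_const, card_univ, Fintype.card_fin]

lemma momj_leg (p : ℕ) [Fact p.Prime] (n : ℕ) :
    (jacobiSym (n : ℤ) p : ℝ) = Pool.Agent.H48P.chi (n : ZMod p) := by
  have key : ∀ (i j : DecidableEq (ZMod p)) (a : ZMod p),
      @quadraticChar (ZMod p) _ _ i a = @quadraticChar (ZMod p) _ _ j a := by
    intro i j a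
    have : i = j := Subsingleton.elim _ _
    subst this
    rfl
  rw [← jacobiSym.legendreSym.to_jacobiSym]
  unfold legendreSym Pool.Agent.H48P.chi
  rw [Int.cast_natCast]
  exact congrArg (fun z : ℤ => (z : ℝ)) (key _ _ _)

lemma momj_triv (r : ℕ) (b : Fin 8 → ℕ) :
    |∑ x ∈ range r, ∏ i, (jacobiSym ((x + b i : ℕ) : ℤ) r : ℝ)| ≤ r := by
  refine (abs_sum_le_sum_abs _ _).trans ((sum_le_card_nsmul _ _ 1 fun x _ => ?_).trans (by simp))
  rw [abs_prod]
  refine prod_le_one (fun _ _ => abs_nonneg _) fun i _ => ?_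
  rcases jacobiSym.trichotomy ((x + b i : ℕ) : ℤ) r with h | h | h <;> rw [h] <;> simp

lemma momj_crt {m n : ℕ} (h : m.Coprime n) (hm : 0 < m) (hn : 0 < n) (f g : ℕ → ℝ)
    (hf : ∀ x, f (x % m) = f x) (hg : ∀ x, g (x % n) = g x) :
    ∑ x ∈ range (m * n), f x * g x = (∑ x ∈ range m, f x) * ∑ x ∈ range n, g x := by
  rw [sum_mul_sum, ← sum_product']
  refine sum_nbij' (fun x => (x % m, x % n)) (fun z => (Nat.chineseRemainder h z.1 z.2 : ℕ))
    (fun x _ => mem_product.2 ⟨mem_range.2 (Nat.mod_lt _ hm), mem_range.2 (Nat.mod_lt _ hn)⟩)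
    (fun z _ => mem_range.2 (Nat.chineseRemainder_lt_mul h _ _ hm.ne' hn.ne'))
    (fun x hx => ?_) (fun z hz => ?_) fun x _ => by rw [hf, hg]
  · exact Nat.ModEq.eq_of_lt_of_lt (Nat.chineseRemainder_modEq_unique h
      (Nat.mod_modEq x m).symm (Nat.mod_modEq x n).symm).symm
      (Nat.chineseRemainder_lt_mul h _ _ hm.ne' hn.ne') (mem_range.1 hx)
  · obtain ⟨h1, h2⟩ := mem_product.1 hz
    obtain ⟨h3, h4⟩ := (Nat.chineseRemainder h z.1 z.2).2
    exact Prod.ext (Eq.trans h3 (Nat.mod_eq_of_lt (mem_range.1 h1)))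
      (Eq.trans h4 (Nat.mod_eq_of_lt (mem_range.1 h2)))

lemma momj_per (r : ℕ) (b : Fin 8 → ℕ) (x : ℕ) :
    ∏ i, (jacobiSym ((x % r + b i : ℕ) : ℤ) r : ℝ) = ∏ i, (jacobiSym ((x + b i : ℕ) : ℤ) r : ℝ) := by
  refine prod_congr rfl fun i _ => congrArg (fun z : ℤ => (z : ℝ)) (jacobiSym.mod_left' ?_)
  exact_mod_cast Nat.mod_add_mod x r (b i)

lemma momj_one (s : Finset (Fin 8)) (f : Fin 8 → ℝ) (h : ∀ i ∈ s, 1 ≤ f i) : 1 ≤ ∏ i ∈ s, f i := by
  have := prod_le_prod (s := s) (f := fun _ => (1 : ℝ)) (fun _ _ => zero_le_one) h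
  simpa using this

lemma momj_full (b : Fin 8 → ℕ) (i₀ : Fin 8) (r : ℕ) : Squarefree r → Odd r →
    |∑ x ∈ range r, ∏ i, (jacobiSym ((x + b i : ℕ) : ℤ) r : ℝ)| ≤
      (#r.divisors : ℝ) ^ 6 * √r * ∏ j ∈ univ.erase i₀, (((b j).dist (b i₀)).gcd r : ℝ) := by
  induction r using Nat.recOnPosPrimePosCoprime with
  | zero => exact fun h => absurd h not_squarefree_zero
  | one => intro _ _; simp
  | prime_pow p k hp hk =>
    intro h1 h2
    obtain rfl : k = 1 := ((Nat.squarefree_pow_iff hp.ne_one hk.ne').1 h1).2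
    rw [pow_one] at h2 ⊢
    have : Fact p.Prime := ⟨hp⟩
    have hd : (#p.divisors : ℝ) = 2 := by rw [hp.divisors, card_pair hp.ne_one.symm]; simp
    have hg : ∀ j ∈ univ.erase i₀, (1 : ℝ) ≤ (((b j).dist (b i₀)).gcd p : ℝ) := fun j _ => by
      exact_mod_cast Nat.gcd_pos_of_pos_right _ hp.pos
    have hs : (1 : ℝ) ≤ √p := Real.one_le_sqrt.2 (by exact_mod_cast hp.one_le)
    rw [hd]
    by_cases h : ∀ i, (b i : ZMod p) = b i₀ → i = i₀
    · have h2' : (2 : ZMod p) ≠ 0 := by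
        intro h
        have h3 := (ZMod.natCast_eq_zero_iff 2 p).1 (by exact_mod_cast h)
        have h4 := (Nat.prime_dvd_prime_iff_eq hp Nat.prime_two).1 h3
        rw [h4] at h2
        exact absurd h2 (by decide)
      have := Pool.Agent.H4O.chi_sub h2' (⊤ : AddSubgroup (ZMod p)) (fun i => (b i : ZMod p)) i₀ h
      simp only [AddSubgroup.mem_top, filter_true, Fintype.card_fin, ZMod.card] at this
      simp only [momj_leg]
      simp only [Nat.cast_add]
      rw [momj_range p fun u => ∏ i, Pool.Agent.H48P.chi (u + (b i : ZMod p))]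
      have h5 := momj_one _ _ hg
      push_cast at this
      nlinarith
    · push Not at h
      obtain ⟨j, h3, h4⟩ := h
      have h5 : p ∣ (b j).dist (b i₀) := by
        have h6 := (ZMod.natCast_eq_natCast_iff _ _ _).1 h3
        rcases le_total (b j) (b i₀) with h | h
        · rw [Nat.dist_eq_sub_of_le h]
          exact (Nat.modEq_iff_dvd' h).1 h6
        · rw [Nat.dist_eq_sub_of_le_right h]
          exact (Nat.modEq_iff_dvd' h).1 h6.symm
      have h6 : (p : ℝ) ≤ ∏ j ∈ univ.erase i₀, (((b j).dist (b i₀)).gcd p : ℝ) := by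
        have hj : j ∈ univ.erase i₀ := mem_erase.2 ⟨h4, mem_univ _⟩
        rw [← mul_prod_erase _ _ hj, Nat.gcd_eq_right h5]
        exact le_mul_of_one_le_right (Nat.cast_nonneg _)
          (momj_one _ _ fun i hi => hg i (mem_of_mem_erase hi))
      refine (momj_triv p b).trans (h6.trans (le_mul_of_one_le_left ?_ (by nlinarith)))
      positivity
  | coprime m n hm hn h ihm ihn =>
    intro h1 h2
    have a1 := ihm h1.of_mul_left (Nat.odd_mul.1 h2).1
    have a2 := ihn h1.of_mul_right (Nat.odd_mul.1 h2).2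
    have e : ∀ x : ℕ, ∏ i, (jacobiSym ((x + b i : ℕ) : ℤ) (m * n) : ℝ) =
        (∏ i, (jacobiSym ((x + b i : ℕ) : ℤ) m : ℝ)) * ∏ i, (jacobiSym ((x + b i : ℕ) : ℤ) n : ℝ) := by
      intro x
      rw [← prod_mul_distrib]
      refine prod_congr rfl fun i _ => ?_
      rw [jacobiSym.mul_right' _ (by omega) (by omega), Int.cast_mul]
    simp only [e]
    rw [momj_crt h (by omega) (by omega) _ _ (momj_per m b) (momj_per n b), abs_mul]
    refine (mul_le_mul a1 a2 (abs_nonneg _) (by positivity)).trans (le_of_eq ?_)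
    simp only [h.card_divisors_mul, h.gcd_mul, Nat.cast_mul, prod_mul_distrib]
    rw [Real.sqrt_mul (Nat.cast_nonneg _)]
    ring

lemma momj_gcd (r B v : ℕ) (hr : 0 < r) (hv : v ∈ Icc 1 B) :
    ∑ u ∈ Icc 1 B, (if u = v then 0 else ((u.dist v).gcd r : ℝ)) ≤ 2 * B * #r.divisors := by
  have h1 : ∑ t ∈ Icc 1 B, t.gcd r ≤ B * #r.divisors := by
    calc ∑ t ∈ Icc 1 B, t.gcd r ≤ ∑ t ∈ Icc 1 B, ∑ d ∈ r.divisors, if d ∣ t then d else 0 := by
          refine sum_le_sum fun t _ => ?_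
          have := single_le_sum (f := fun d => if d ∣ t then d else 0) (fun _ _ => Nat.zero_le _)
            (Nat.mem_divisors.2 ⟨Nat.gcd_dvd_right t r, hr.ne'⟩)
          simpa only [if_pos (Nat.gcd_dvd_left t r)] using this
      _ ≤ _ := by
          rw [sum_comm, mul_comm]
          refine sum_le_card_nsmul _ _ _ fun d _ => ?_
          rw [← sum_filter, sum_const, smul_eq_mul, show Icc 1 B = Ioc 0 B from rfl,
            Nat.Ioc_filter_dvd_card_eq_div]
          exact Nat.div_mul_le_self _ _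
  have h2 : ∑ u ∈ Icc 1 B, (if u = v then 0 else (u.dist v).gcd r) ≤ 2 * ∑ t ∈ Icc 1 B, t.gcd r := by
    obtain ⟨v1, v2⟩ := mem_Icc.1 hv
    have key : ∀ s ⊆ Icc 1 B, Set.InjOn (fun u : ℕ => u.dist v) (s : Set ℕ) → (∀ u ∈ s, u ≠ v) →
        ∑ u ∈ s, (if u = v then 0 else (u.dist v).gcd r) ≤ ∑ t ∈ Icc 1 B, t.gcd r := by
      intro s hs hi hne
      rw [sum_congr rfl fun u hu => if_neg (hne u hu), ← sum_image (f := fun t => t.gcd r) hi]
      refine sum_le_sum_of_subset fun t ht => ?_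
      obtain ⟨u, hu, rfl⟩ := mem_image.1 ht
      have := mem_Icc.1 (hs hu)
      have := hne u hu
      simp only [mem_Icc, Nat.dist]
      omega
    have e : Icc 1 B = insert v (Ico 1 v ∪ Ioc v B) := by
      ext u
      simp only [mem_Icc, mem_insert, mem_union, mem_Ico, mem_Ioc]
      omega
    have k1 := key (Ico 1 v) (fun u hu => by simp only [mem_Icc, mem_Ico] at hu ⊢; omega)
      (fun u hu u' hu' h => by
        simp only [coe_Ico, Set.mem_Ico, Nat.dist] at hu hu' h; omega)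
      fun u hu => by simp only [mem_Ico] at hu; omega
    have k2 := key (Ioc v B) (fun u hu => by simp only [mem_Icc, mem_Ioc] at hu ⊢; omega)
      (fun u hu u' hu' h => by
        simp only [coe_Ioc, Set.mem_Ioc, Nat.dist] at hu hu' h; omega)
      fun u hu => by simp only [mem_Ioc] at hu; omega
    conv_lhs => rw [e]
    rw [sum_insert (by simp), if_pos rfl, sum_union (disjoint_left.2 fun u h1 h2 => by
      simp only [mem_Ico, mem_Ioc] at h1 h2; omega)]
    omega
  have h3 : ∑ u ∈ Icc 1 B, (if u = v then 0 else (u.dist v).gcd r) ≤ 2 * B * #r.divisors := by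
    rw [mul_assoc]; omega
  exact_mod_cast h3

theorem momj_main (r B : ℕ) (h1 : Squarefree r) (h2 : Odd r) :
    ∑ x ∈ range r, (∑ b ∈ Icc 1 B, (jacobiSym ((x + b : ℕ) : ℤ) r : ℝ)) ^ 8 ≤
      4 ^ 8 * (r * B ^ 4 + (#r.divisors : ℝ) ^ 13 * B ^ 8 * √r) := by
  have hr : 0 < r := h2.pos
  simp only [sum_pow']
  rw [sum_comm]
  set k : Fin 8 → ℕ → Fin 8 → ℕ → ℝ := fun i v j u =>
    if j = i then (if u = v then 1 else 0) else if u = v then 0 else ((u.dist v).gcd r : ℝ) with hk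
  have k0 : ∀ i v j u, 0 ≤ k i v j u := fun i v j u => by
    simp only [hk]; split_ifs <;> positivity
  have e2 : ∀ b ∈ Fintype.piFinset fun _ : Fin 8 => Icc 1 B,
      ∑ x ∈ range r, ∏ i, (jacobiSym ((x + b i : ℕ) : ℤ) r : ℝ) ≤
        (if ¬∃ i₀, ∀ i, b i = b i₀ → i = i₀ then (r : ℝ) else 0) +
          (#r.divisors : ℝ) ^ 6 * √r * ∑ i, ∑ v ∈ Icc 1 B, ∏ j, k i v j (b j) := by
    intro b hb
    rw [Fintype.mem_piFinset] at hb
    have p0 : ∀ i v, 0 ≤ ∏ j, k i v j (b j) := fun i v => prod_nonneg fun j _ => k0 _ _ _ _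
    refine (le_abs_self _).trans ?_
    split_ifs with h
    · obtain ⟨i₀, hi₀⟩ := h
      refine (momj_full b i₀ r h1 h2).trans ?_
      rw [zero_add]
      refine mul_le_mul_of_nonneg_left ?_ (by positivity)
      refine le_trans ?_ (single_le_sum (f := fun i => ∑ v ∈ Icc 1 B, ∏ j, k i v j (b j))
        (fun i _ => sum_nonneg fun v _ => p0 i v) (mem_univ i₀))
      refine le_trans (le_of_eq ?_) (single_le_sum (f := fun v => ∏ j, k i₀ v j (b j))
        (fun v _ => p0 i₀ v) (hb i₀))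
      rw [← mul_prod_erase _ _ (mem_univ i₀)]
      simp only [hk, if_true, one_mul]
      refine prod_congr rfl fun j hj => ?_
      rw [if_neg (ne_of_mem_erase hj), if_neg fun e => ne_of_mem_erase hj (hi₀ j e)]
    · exact (momj_triv r b).trans (le_add_of_nonneg_right (mul_nonneg (by positivity)
        (sum_nonneg fun i _ => sum_nonneg fun v _ => p0 i v)))
  refine (sum_le_sum e2).trans ?_
  rw [sum_add_distrib, ← sum_filter, sum_const, nsmul_eq_mul, ← mul_sum]
  have h3 := momj_count (Icc 1 B)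
  have hc : #(Icc 1 B) = B := by simp
  rw [hc] at h3
  have h4 : (#{b ∈ Fintype.piFinset fun _ : Fin 8 => Icc 1 B |
      ¬∃ i₀, ∀ i, b i = b i₀ → i = i₀} : ℝ) ≤ (B : ℝ) ^ 4 * 4 ^ 8 := by exact_mod_cast h3
  have h5 := mul_le_mul_of_nonneg_right h4 (Nat.cast_nonneg (α := ℝ) r)
  have h6 : ∑ b ∈ Fintype.piFinset fun _ : Fin 8 => Icc 1 B, ∑ i, ∑ v ∈ Icc 1 B,
      ∏ j, k i v j (b j) ≤ 8 * (B * (2 * B * #r.divisors) ^ 7) := by
    rw [sum_comm]
    refine (sum_le_card_nsmul _ _ (B * (2 * B * #r.divisors) ^ 7 : ℝ) fun i _ => ?_).trans (by simp)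
    rw [sum_comm]
    refine (sum_le_card_nsmul _ _ ((2 * B * #r.divisors) ^ 7 : ℝ) fun v hv => ?_).trans (by simp)
    rw [← prod_univ_sum, ← mul_prod_erase _ _ (mem_univ i)]
    have a1 : ∑ u ∈ Icc 1 B, k i v i u = 1 := by simp [hk, mem_Icc.1 hv]
    rw [a1, one_mul]
    refine (prod_le_prod (g := fun _ => (2 * B * #r.divisors : ℝ))
      (fun j _ => sum_nonneg fun u _ => k0 _ _ _ _) fun j hj => ?_).trans (by simp)
    simp only [hk, if_neg (ne_of_mem_erase hj)]
    exact momj_gcd r B v hr hv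
  have h7 := mul_le_mul_of_nonneg_left h6 (show 0 ≤ (#r.divisors : ℝ) ^ 6 * √r by positivity)
  have h8 : 0 ≤ (#r.divisors : ℝ) ^ 13 * B ^ 8 * √r := by positivity
  nlinarith

theorem momj_row (hT : TAU_s) : MOMJ_s := by
  intro δ hδ
  obtain ⟨C, hC, h⟩ := hT.2 (δ / 13) (by positivity)
  refine ⟨4 ^ 8 * (1 + C ^ 13), by positivity, fun r B h1 h2 => (momj_main r B h1 h2).trans ?_⟩
  have hr : (1 : ℝ) ≤ r := by exact_mod_cast h2.pos
  have a1 : (1 : ℝ) ≤ (r : ℝ) ^ δ := Real.one_le_rpow hr hδ.le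
  have a2 : (#r.divisors : ℝ) ^ 13 ≤ C ^ 13 * (r : ℝ) ^ δ := by
    have e : ((r : ℝ) ^ (δ / 13)) ^ 13 = (r : ℝ) ^ δ := by
      rw [← Real.rpow_natCast, ← Real.rpow_mul (by positivity)]
      congr 1
      push_cast
      ring
    rw [← e, ← mul_pow]
    exact pow_le_pow_left₀ (Nat.cast_nonneg _) (h r) 13
  have a3 : (0 : ℝ) ≤ C ^ 13 * (r : ℝ) ^ δ := by positivity
  have a4 : (0 : ℝ) ≤ r * (B : ℝ) ^ 4 := by positivity
  have a5 : (0 : ℝ) ≤ (B : ℝ) ^ 8 * √r := by positivity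
  have b1 := mul_le_mul_of_nonneg_right a2 a5
  have b2 := mul_le_mul_of_nonneg_right a1 a4
  have b3 := mul_nonneg a3 a4
  have b4 := mul_nonneg (zero_le_one.trans a1) a5
  nlinarith

end Pool.Agent.G27
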