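import Pool.Agent.MP_b5e119_nt.G27.Defs

/-! Row MUG: the spectral measure on units has mass one and sees the defect `bad`. -/

namespace Pool.Agent.G27

open Finset Filter Topology Pool.Agent.G60

theorem mug_cases (N : ℕ) (hN : 1 < N) (a : ZMod N) (ha : IsUnit a) :
    ff N a = 1 ∨ ff N a = -1 := by
  have : Fact (1 < N) := ⟨hN⟩
  unfold ff; rw [if_neg ha.ne_zero]; exact lam_cases _

theorem mug_zero (N : ℕ) [NeZero N] (d : Ch N → ℂ) (a : ZMod N) (ha : ¬IsUnit a) :
    ∑ χ : Ch N, d χ * χ a = 0 :=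
  Finset.sum_eq_zero fun χ _ => by rw [MulChar.map_nonunit χ ha, mul_zero]

theorem mug_diff (N : ℕ) (hN : 1 < N) (m : ℕ) (hm : IsUnit (m : ZMod N)) (a : ZMod N)
    (ha : IsUnit a) :
    ‖((ff N ((m : ZMod N) * a) : ℤ) : ℂ) - (lam m : ℂ) * ((ff N a : ℤ) : ℂ)‖ ^ 2 =
      if ff N ((m : ZMod N) * a) ≠ lam m * ff N a then (4 : ℝ) else 0 := by
  rcases mug_cases N hN a ha with h | h <;>
    rcases mug_cases N hN _ (hm.mul ha) with h' | h' <;>
    rcases lam_cases m with h'' | h'' <;> rw [h, h', h''] <;> norm_num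

theorem mug_row (hPAR : PARG_s) : MUG_s := by
  intro N _ hN
  obtain ⟨h1, h2⟩ := hPAR N
  have hf := h1 (fun a => ((ff N a : ℤ) : ℂ))
  have hpos : (0 : ℝ) < N.totient := by exact_mod_cast Nat.totient_pos.2 (by omega : 0 < N)
  refine ⟨?_, fun m hm => ?_⟩
  · have h := h2 (cu N (fun a => ((ff N a : ℤ) : ℂ)))
    have h3 : ∀ a : ZMod N, ‖∑ χ : Ch N, cu N (fun a => ((ff N a : ℤ) : ℂ)) χ * χ a‖ ^ 2 =
        ‖(1 : Ch N) a‖ ^ 2 := fun a => by
      by_cases ha : IsUnit a
      · rw [← hf a ha, MulChar.one_apply ha]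
        rcases mug_cases N hN a ha with e | e <;> simp [e]
      · rw [mug_zero N _ a ha, MulChar.map_nonunit _ ha]
    have h4 : ∑ a : ZMod N, ‖(1 : Ch N) a‖ ^ 2 = N.totient := by
      apply Complex.ofReal_injective
      have h5 : ∀ a : ZMod N, ((‖(1 : Ch N) a‖ ^ 2 : ℝ) : ℂ) = (1 : Ch N) a := fun a => by
        by_cases ha : IsUnit a
        · rw [MulChar.one_apply ha]; simp
        · rw [MulChar.map_nonunit _ ha]; simp
      rw [Complex.ofReal_sum]
      simp only [h5]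
      rw [MulChar.sum_one_eq_card_units, ZMod.card_units_eq_totient]
      simp
    simp only [h3] at h
    rw [h4] at h
    have h6 : (N.totient : ℝ) * ∑ χ : Ch N, nu N χ = (N.totient : ℝ) * 1 := by
      rw [mul_one]; exact h.symm
    exact mul_left_cancel₀ hpos.ne' h6
  · have hm' : IsUnit (m : ZMod N) := (ZMod.isUnit_iff_coprime m N).2 hm
    have h := h2 (fun χ => cu N (fun a => ((ff N a : ℤ) : ℂ)) χ * (χ (m : ZMod N) - (lam m : ℂ)))
    have h3 : ∀ a : ZMod N, ‖∑ χ : Ch N, cu N (fun a => ((ff N a : ℤ) : ℂ)) χ *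
        (χ (m : ZMod N) - (lam m : ℂ)) * χ a‖ ^ 2 ≤
        if ff N ((m : ZMod N) * a) ≠ lam m * ff N a then (4 : ℝ) else 0 := fun a => by
      by_cases ha : IsUnit a
      · refine le_of_eq ?_
        rw [← mug_diff N hN m hm' a ha]
        have e1 := hf _ (hm'.mul ha)
        have e2 := hf a ha
        have e3 : ∑ χ : Ch N, cu N (fun a => ((ff N a : ℤ) : ℂ)) χ *
            (χ (m : ZMod N) - (lam m : ℂ)) * χ a =
            ((ff N ((m : ZMod N) * a) : ℤ) : ℂ) - (lam m : ℂ) * ((ff N a : ℤ) : ℂ) := by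
          rw [e1, e2, Finset.mul_sum, ← Finset.sum_sub_distrib]
          refine Finset.sum_congr rfl fun χ _ => ?_
          rw [map_mul]; ring
        rw [e3]
      · rw [mug_zero N _ a ha]
        split_ifs <;> norm_num
    have h4 := Finset.sum_le_sum fun a (_ : a ∈ (Finset.univ : Finset (ZMod N))) => h3 a
    rw [h, ← Finset.sum_filter, Finset.sum_const, nsmul_eq_mul] at h4
    simp only [norm_mul, mul_pow] at h4
    unfold nu bad
    rw [mul_comm (4 : ℝ)]
    exact h4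

end Pool.Agent.G27
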