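import Pool.Agent.MP_b5e119_nt.G27.Defs

namespace Pool.Agent.G27

open Finset Filter Topology Pool.Agent.G60

theorem odsg_log (x : ℕ) (hx : 1 ≤ x) : (Nat.log 2 x : ℝ) ≤ 2 * Real.log x := by
  have a1 : ((2 : ℝ)) ^ Nat.log 2 x ≤ (x : ℝ) := by
    exact_mod_cast Nat.pow_log_le_self 2 (by omega : x ≠ 0)
  have a2 := Real.log_le_log (by positivity) a1
  rw [Real.log_pow] at a2
  have a3 := Real.log_two_gt_d9
  have a4 : (0 : ℝ) ≤ Nat.log 2 x := Nat.cast_nonneg _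
  nlinarith

theorem odsg_ev (B : ℕ) (ε : ℝ) (hε : 0 < ε) :
    ∃ p₁ : ℕ, ∀ p : ℕ, p₁ ≤ p → 12 * (2 * Real.log p) ^ B ≤ (p : ℝ) ^ ε := by
  have h1 := (isLittleO_log_rpow_rpow_atTop (B : ℝ) hε).bound
    (c := 1 / (12 * 2 ^ B)) (by positivity)
  obtain ⟨y, hy⟩ := eventually_atTop.1 h1
  refine ⟨⌈y⌉₊ + 1, fun p hp => ?_⟩
  have hp1 : (1 : ℝ) ≤ p := by exact_mod_cast (by omega : 1 ≤ p)
  have hyp : y ≤ p := (Nat.le_ceil y).trans (by exact_mod_cast (by omega : ⌈y⌉₊ ≤ p))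
  have h2 := hy p hyp
  have hl : 0 ≤ Real.log p := Real.log_nonneg hp1
  rw [Real.rpow_natCast, Real.norm_of_nonneg (by positivity), Real.norm_of_nonneg (by positivity),
    one_div, ← div_eq_inv_mul, le_div_iff₀ (by positivity)] at h2
  rw [mul_pow]
  linarith

theorem odsg_row [Sg] (hLIO : LIO_s) (hMON : MON_s) (hODG : ODG_s) : ODSG_s := by
  intro ε hε
  obtain ⟨r, hr2, hrε⟩ : ∃ r : ℕ, 2 ≤ r ∧ 2 / ε ≤ r :=
    ⟨⌈2 / ε⌉₊ + 2, by omega, (Nat.le_ceil _).trans (by push_cast; linarith)⟩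
  refine ⟨r, fun B => ?_⟩
  obtain ⟨C, hC, h⟩ := hLIO (B + 1)
  obtain ⟨p₁, hp₁⟩ := odsg_ev B (ε / 2) (by positivity)
  obtain ⟨p₂, hp₂⟩ := odsg_ev B (1 / 2) (by norm_num)
  refine ⟨⌈Real.exp (12 * C * 8 ^ B)⌉₊ + 64 + p₁ + p₂, fun N hN e he hc => ?_⟩
  have hr : (2 : ℝ) ≤ r := by exact_mod_cast hr2
  have hN64 : (64 : ℝ) ≤ N := by exact_mod_cast (by omega : 64 ≤ N)
  have hN0 : (0 : ℝ) < N := by linarith
  have hN1 : (1 : ℝ) ≤ N := by linarith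
  have ha1 : (r : ℝ)⁻¹ ≤ 1 / 2 := by
    rw [one_div]
    exact inv_anti₀ (by norm_num) hr
  have ha2 : (r : ℝ)⁻¹ ≤ ε / 2 := by
    have := inv_anti₀ (by positivity) hrε
    rwa [inv_div] at this
  have hq1 := hp₁ N (by omega)
  have hq2 := hp₂ N (by omega)
  have hl := odsg_log N (by omega)
  have hl1 : (1 : ℝ) ≤ Nat.log 2 N := by
    exact_mod_cast Nat.log_pos (by norm_num) (by omega : 2 ≤ N)
  have hLN : 12 * C * 8 ^ B ≤ Real.log N := by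
    rw [Real.le_log_iff_exp_le hN0]
    refine (Nat.le_ceil _).trans ?_
    exact_mod_cast (by omega : ⌈Real.exp (12 * C * 8 ^ B)⌉₊ ≤ N)
  refine ⟨⌈(N : ℝ) ^ (r : ℝ)⁻¹⌉₊, ?_, fun M g _ hM hg => ?_⟩
  · have h1 : (N : ℝ) ≤ (⌈(N : ℝ) ^ (r : ℝ)⁻¹⌉₊ : ℝ) ^ r := by
      calc (N : ℝ) = ((N : ℝ) ^ (r : ℝ)⁻¹) ^ r :=
            (Real.rpow_inv_natCast_pow hN0.le (by omega)).symm
        _ ≤ _ := by gcongr; exact Nat.le_ceil _
    exact_mod_cast h1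
  · have hg0 : 0 < g := Nat.pos_of_ne_zero fun e0 => by
      rw [e0, mul_zero] at hM
      omega
    have hMg : (M : ℝ) * g = N := by exact_mod_cast hM
    have hM0 : (0 : ℝ) ≤ M := Nat.cast_nonneg _
    have hx1 : (1 : ℝ) ≤ (N : ℝ) ^ (r : ℝ)⁻¹ := Real.one_le_rpow hN1 (by positivity)
    have hg1 : (g : ℝ) ≤ 2 * (N : ℝ) ^ (r : ℝ)⁻¹ := by
      have a1 : (g : ℝ) ≤ ⌈(N : ℝ) ^ (r : ℝ)⁻¹⌉₊ := by exact_mod_cast hg
      have a2 := Nat.ceil_lt_add_one (by positivity : 0 ≤ (N : ℝ) ^ (r : ℝ)⁻¹)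
      linarith
    have hkey : ∀ δ : ℝ, (r : ℝ)⁻¹ ≤ δ → (N : ℝ) ^ (1 - δ) ≤ 2 * M := by
      intro δ hδ
      have a1 : (N : ℝ) ^ (r : ℝ)⁻¹ ≤ (N : ℝ) ^ δ := Real.rpow_le_rpow_of_exponent_le hN1 hδ
      rw [Real.rpow_sub hN0, Real.rpow_one, div_le_iff₀ (by positivity)]
      calc (N : ℝ) = M * g := hMg.symm
        _ ≤ M * (2 * (N : ℝ) ^ δ) := by gcongr; linarith
        _ = _ := by ring
    have hk1 := hkey _ ha1
    have hk2 := hkey _ ha2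
    have e12 : (1 : ℝ) - 1 / 2 = 1 / 2 := by norm_num
    rw [e12] at hk1
    have hsq : (N : ℝ) ≤ 4 * (M : ℝ) ^ 2 := by
      have a1 : (N : ℝ) ^ (1 / 2 : ℝ) * (N : ℝ) ^ (1 / 2 : ℝ) = N := by
        rw [← Real.rpow_add hN0]
        norm_num
      have a2 : (0 : ℝ) ≤ (N : ℝ) ^ (1 / 2 : ℝ) := by positivity
      nlinarith
    have hM4 : (4 : ℝ) ≤ M := by nlinarith
    have hM4' : 4 ≤ M := by exact_mod_cast hM4
    obtain ⟨x, rfl⟩ : ∃ x, M = x + 1 := ⟨M - 1, by omega⟩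
    have hx3 : (3 : ℝ) ≤ x := by exact_mod_cast (by omega : 3 ≤ x)
    have hL0 : 0 < Real.log x := Real.log_pos (by linarith)
    have hLx : Real.log N ≤ 4 * Real.log x := by
      have a0 : 2 * ((x : ℝ) + 1) ≤ (x : ℝ) ^ 2 := by nlinarith
      have a1 : (N : ℝ) ≤ (x : ℝ) ^ 4 := by
        push_cast at hsq
        nlinarith
      have a2 := Real.log_le_log hN0 a1
      rw [Real.log_pow] at a2
      exact_mod_cast a2
    have he' : lam g * e = 1 ∨ lam g * e = -1 := by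
      rcases lam_cases g with a | a <;> rcases he with b | b <;> rw [a, b] <;> norm_num
    have h2 := hODG (x + 1) (lam g * e) he'
    rw [Nat.add_sub_cancel] at h2
    have h3 := hMON (x + 1) g (lam g * e) (-Sg.s * (lam g * e)) hg0
    have e1 : lam g * (lam g * e) = e := by
      rcases lam_cases g with a | a <;> rw [a] <;> ring
    have e2 : lam g * (-Sg.s * (lam g * e)) = -Sg.s * e := by
      rcases lam_cases g with a | a <;> rw [a] <;> ring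
    rw [hM, e1, e2] at h3
    have h4 : (od (x + 1) : ℝ) ≤ |∑ n ∈ Icc 1 x, (lam n : ℝ)| +
        2 * cnt (x + 1) (lam g * e) (-Sg.s * (lam g * e)) := by exact_mod_cast h2
    have h5 : (cnt (x + 1) (lam g * e) (-Sg.s * (lam g * e)) : ℝ) ≤ (N : ℝ) ^ (1 - ε) :=
      le_trans (by exact_mod_cast h3) hc
    have h1 := h x (by omega)
    have hlB : (Nat.log 2 N : ℝ) ^ B ≤ (2 * Real.log N) ^ B := by gcongr
    have t1 : |∑ n ∈ Icc 1 x, (lam n : ℝ)| * (Nat.log 2 N : ℝ) ^ B ≤ ((x + 1 : ℕ) : ℝ) / 3 := by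
      calc _ ≤ C * x / Real.log x ^ (B + 1) * (8 * Real.log x) ^ B := by
            gcongr
            linarith
        _ = 3 * C * 8 ^ B / Real.log x * (x / 3) := by rw [mul_pow]; field_simp; ring
        _ ≤ 1 * (x / 3) := by
            gcongr
            exact (div_le_one hL0).2 (by linarith)
        _ ≤ _ := by push_cast; linarith
    have t2 : 2 * (N : ℝ) ^ (1 - ε) * (Nat.log 2 N : ℝ) ^ B ≤ ((x + 1 : ℕ) : ℝ) / 3 := by
      have a1 : (N : ℝ) ^ (1 - ε) * (N : ℝ) ^ (ε / 2) = (N : ℝ) ^ (1 - ε / 2) := by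
        rw [← Real.rpow_add hN0]
        congr 1
        ring
      have a2 : (N : ℝ) ^ (1 - ε) * (12 * (Nat.log 2 N : ℝ) ^ B) ≤
          (N : ℝ) ^ (1 - ε) * (N : ℝ) ^ (ε / 2) := by
        gcongr
        linarith
      linarith
    have t3 : (Nat.log 2 N : ℝ) ^ B ≤ ((x + 1 : ℕ) : ℝ) / 3 := by linarith
    have hpos : (0 : ℝ) < (Nat.log 2 N : ℝ) ^ B := by positivity
    rw [div_mul_eq_mul_div, one_mul, le_div_iff₀ hpos]
    calc _ ≤ (|∑ n ∈ Icc 1 x, (lam n : ℝ)| + 2 * (N : ℝ) ^ (1 - ε) + 1) *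
          (Nat.log 2 N : ℝ) ^ B := by
          gcongr
          linarith
      _ ≤ _ := by
          rw [add_mul, add_mul, one_mul]
          linarith

end Pool.Agent.G27
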