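import Pool.Agent.MP_b5e119_nt.G27.Defs

/-! Row PARG: Fourier inversion on units and Parseval for characters modulo `N`. -/

namespace Pool.Agent.G27

open Finset Filter Topology Pool.Agent.G60

theorem parg_ne (N : ℕ) [NeZero N] : (N.totient : ℂ) ≠ 0 :=
  Nat.cast_ne_zero.mpr (Nat.totient_pos.2 (NeZero.pos N)).ne'

theorem parg_conj (N : ℕ) [NeZero N] (χ : Ch N) (a : ZMod N) :
    (starRingEnd ℂ) (χ a) = χ⁻¹ a := MulChar.star_apply' χ a

theorem parg_orth1 (N : ℕ) [NeZero N] (a b : ZMod N) (hb : IsUnit b) :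
    ∑ χ : Ch N, (starRingEnd ℂ) (χ b) * χ a = if b = a then (N.totient : ℂ) else 0 := by
  have h := DirichletCharacter.sum_char_inv_mul_char_eq ℂ (n := N) (a := b) hb a
  rw [← h]
  refine Finset.sum_congr rfl fun χ _ => ?_
  obtain ⟨u, rfl⟩ := hb
  rw [parg_conj, MulChar.inv_apply, Ring.inverse_unit, ZMod.inv_coe_unit]

open Classical in
theorem parg_orth2 (N : ℕ) [NeZero N] (χ ψ : Ch N) :
    ∑ a : ZMod N, χ a * (starRingEnd ℂ) (ψ a) = if χ = ψ then (N.totient : ℂ) else 0 := by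
  have h : ∀ a : ZMod N, χ a * (starRingEnd ℂ) (ψ a) = (χ * ψ⁻¹) a := fun a => by
    rw [parg_conj, MulChar.mul_apply]
  simp only [h]
  split_ifs with hc
  · subst hc
    rw [mul_inv_cancel, MulChar.sum_one_eq_card_units, ZMod.card_units_eq_totient]
  · exact MulChar.sum_eq_zero_of_ne_one fun h1 => hc (mul_inv_eq_one.mp h1)

theorem parg_inv (N : ℕ) [NeZero N] (g : ZMod N → ℂ) (a : ZMod N) (ha : IsUnit a) :
    g a = ∑ χ : Ch N, cu N g χ * χ a := by
  have h1 : ∑ χ : Ch N, cu N g χ * χ a =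
      (∑ b : ZMod N, g b * ∑ χ : Ch N, (starRingEnd ℂ) (χ b) * χ a) / (N.totient : ℂ) := by
    simp only [cu, Finset.mul_sum]
    rw [Finset.sum_comm, Finset.sum_div]
    refine Finset.sum_congr rfl fun χ _ => ?_
    rw [div_mul_eq_mul_div, Finset.sum_mul]
    simp only [mul_assoc]
  have h2 : ∀ b : ZMod N, g b * ∑ χ : Ch N, (starRingEnd ℂ) (χ b) * χ a =
      if b = a then g a * (N.totient : ℂ) else 0 := fun b => by
    by_cases hb : IsUnit b
    · rw [parg_orth1 N a b hb]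
      split_ifs with h
      · rw [h]
      · simp
    · rw [if_neg (fun h : b = a => hb (h ▸ ha))]
      have : ∑ χ : Ch N, (starRingEnd ℂ) (χ b) * χ a = 0 :=
        Finset.sum_eq_zero fun χ _ => by rw [MulChar.map_nonunit χ hb]; simp
      rw [this, mul_zero]
  rw [h1]
  simp only [h2]
  rw [Finset.sum_ite_eq' Finset.univ a, if_pos (Finset.mem_univ a),
    mul_div_cancel_right₀ _ (parg_ne N)]

theorem parg_sq (z : ℂ) : ((‖z‖ ^ 2 : ℝ) : ℂ) = z * (starRingEnd ℂ) z := by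
  rw [Complex.mul_conj, Complex.normSq_eq_norm_sq]

open Classical in
theorem parg_pars (N : ℕ) [NeZero N] (d : Ch N → ℂ) :
    ∑ a : ZMod N, ‖∑ χ : Ch N, d χ * χ a‖ ^ 2 = N.totient * ∑ χ : Ch N, ‖d χ‖ ^ 2 := by
  apply Complex.ofReal_injective
  rw [Complex.ofReal_mul, Complex.ofReal_sum, Complex.ofReal_sum]
  simp only [parg_sq]
  have h1 : ∀ a : ZMod N, (∑ χ : Ch N, d χ * χ a) * (starRingEnd ℂ) (∑ χ : Ch N, d χ * χ a) =
      ∑ χ : Ch N, ∑ ψ : Ch N, (d χ * (starRingEnd ℂ) (d ψ)) * (χ a * (starRingEnd ℂ) (ψ a)) :=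
    fun a => by
      rw [map_sum, Finset.sum_mul_sum]
      refine Finset.sum_congr rfl fun χ _ => Finset.sum_congr rfl fun ψ _ => ?_
      rw [map_mul]; ring
  simp only [h1]
  rw [Finset.sum_comm, Finset.mul_sum]
  refine Finset.sum_congr rfl fun χ _ => ?_
  rw [Finset.sum_comm]
  have h2 : ∀ ψ : Ch N, ∑ a : ZMod N,
      (d χ * (starRingEnd ℂ) (d ψ)) * (χ a * (starRingEnd ℂ) (ψ a)) =
      if χ = ψ then (d χ * (starRingEnd ℂ) (d χ)) * (N.totient : ℂ) else 0 := fun ψ => by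
    rw [← Finset.mul_sum, parg_orth2]
    split_ifs with h
    · rw [h]
    · simp
  simp only [h2]
  rw [Finset.sum_ite_eq Finset.univ χ, if_pos (Finset.mem_univ χ)]
  push_cast
  ring

theorem parg_row : PARG_s := fun N _ => ⟨fun g a ha => parg_inv N g a ha, fun d => parg_pars N d⟩

end Pool.Agent.G27
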