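import Pool.Agent.MP_b5e119_nt.G27.Defs

namespace Pool.Agent.G27

open Finset Pool.Agent.G60

theorem phi_blocks (hC : CHEB_s) {k : ℕ} (hk : 64 ≤ k) (t : ℕ) :
    ∑ q ∈ PP (k + t), 1 / (q : ℝ) ≤ ∑ q ∈ PP k, 1 / (q : ℝ) + t / 16 := by
  induction t with
  | zero => simp
  | succ t ih =>
    have a := hC.2.1 (k + t) (by omega)
    have b : PP (k + (t + 1)) ⊆
        PP (k + t) ∪ {q ∈ Ioc (2 ^ (k + t) : ℕ) (2 ^ (k + t + 1)) | q.Prime} := fun q hq => by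
      obtain ⟨h1, h2⟩ := mem_filter.1 hq
      rw [mem_range, ← add_assoc] at h1
      by_cases c : q ≤ 2 ^ (k + t)
      · exact mem_union_left _ (mem_filter.2 ⟨mem_range.2 (by omega), h2⟩)
      · exact mem_union_right _ (mem_filter.2 ⟨mem_Ioc.2 ⟨by omega, by omega⟩, h2⟩)
    have c := sum_le_sum_of_subset_of_nonneg (f := fun q : ℕ => 1 / (q : ℝ)) b
      fun q _ _ => by positivity
    have d := sum_union_inter (s₁ := PP (k + t))
      (s₂ := {q ∈ Ioc (2 ^ (k + t) : ℕ) (2 ^ (k + t + 1)) | q.Prime}) (f := fun q : ℕ => 1 / (q : ℝ))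
    have e : 0 ≤ ∑ q ∈ PP (k + t) ∩ {q ∈ Ioc (2 ^ (k + t) : ℕ) (2 ^ (k + t + 1)) | q.Prime},
        1 / (q : ℝ) := sum_nonneg fun q _ => by positivity
    have f : (4 : ℝ) / ((k + t : ℕ) : ℝ) ≤ 1 / 16 := by
      have : (64 : ℝ) ≤ ((k + t : ℕ) : ℝ) := by exact_mod_cast hk.trans (Nat.le_add_right _ _)
      rw [div_le_div_iff₀ (by linarith) (by norm_num)]
      linarith
    push_cast at f a ⊢
    linarith

theorem phi_sum (hC : CHEB_s) {N k : ℕ} (hN : 0 < N) (hk : Nat.log 2 N ≤ 2 ^ k) :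
    ∑ q ∈ N.primeFactors, 1 / (q : ℝ) ≤ ∑ q ∈ PP k, 1 / (q : ℝ) + 1 := by
  rw [← sum_filter_add_sum_filter_not N.primeFactors (fun q => q ≤ 2 ^ k)]
  refine add_le_add (sum_le_sum_of_subset_of_nonneg (fun q hq => ?_) fun q _ _ => by positivity) ?_
  · obtain ⟨h1, h2⟩ := mem_filter.1 hq
    exact mem_filter.2 ⟨mem_range.2 (by omega), Nat.prime_of_mem_primeFactors h1⟩
  · have a : #{q ∈ N.primeFactors | ¬q ≤ 2 ^ k} ≤ 2 ^ k := by
      refine (card_filter_le _ _).trans (le_trans ?_ hk)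
      rw [Nat.primeFactors_eq_to_filter_divisors_prime]
      exact hC.2.2 N hN
    have b : ∑ q ∈ N.primeFactors with ¬q ≤ 2 ^ k, 1 / (q : ℝ) ≤
        #{q ∈ N.primeFactors | ¬q ≤ 2 ^ k} • (1 / (2 : ℝ) ^ k) :=
      sum_le_card_nsmul _ _ _ fun q hq => by
        refine one_div_le_one_div_of_le (by positivity) ?_
        exact_mod_cast (not_le.1 (mem_filter.1 hq).2).le
    refine b.trans ?_
    rw [nsmul_eq_mul, mul_one_div, div_le_one (by positivity)]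
    exact_mod_cast a

theorem phi_exp (N : ℕ) :
    (N : ℝ) ≤ N.totient * Real.exp (2 * ∑ q ∈ N.primeFactors, 1 / (q : ℝ)) := by
  have a : (N.totient : ℝ) = N * ∏ q ∈ N.primeFactors, (1 - (q : ℝ)⁻¹) := by
    have := congrArg (Rat.cast : ℚ → ℝ) (Nat.totient_eq_mul_prod_factors N)
    push_cast at this
    exact this
  rw [a, mul_sum, Real.exp_sum, mul_assoc, ← prod_mul_distrib]
  refine le_mul_of_one_le_right N.cast_nonneg (one_le_prod fun q hq => ?_)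
  have q2 : (2 : ℝ) ≤ q := by exact_mod_cast (Nat.prime_of_mem_primeFactors hq).two_le
  have b := Real.add_one_le_exp (2 * (1 / (q : ℝ)))
  have c : (q : ℝ)⁻¹ ≤ 1 / 2 := by
    rw [← one_div]
    exact one_div_le_one_div_of_le (by norm_num) q2
  have d : 0 < (q : ℝ)⁻¹ := by positivity
  rw [one_div] at b ⊢
  nlinarith [mul_le_mul_of_nonneg_left b (show 0 ≤ 1 - (q : ℝ)⁻¹ by linarith)]

theorem phi_row (hC : CHEB_s) : PHI_s := by
  obtain ⟨k, hk⟩ : ∃ k : ℕ, 64 ≤ k := ⟨64, le_rfl⟩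
  refine ⟨Real.exp (2 * ∑ q ∈ PP k, 1 / (q : ℝ) + 3), Real.exp_pos _, fun N hN => ?_⟩
  obtain ⟨l, hl⟩ : ∃ l, l = Nat.log 2 N := ⟨_, rfl⟩
  have l1 : 1 ≤ l := hl ▸ Nat.le_log_of_pow_le (by norm_num) (by simpa using hN)
  obtain ⟨L, hL⟩ : ∃ L, L = Nat.log 2 l := ⟨_, rfl⟩
  have b1 : 2 ^ L ≤ l := hL ▸ Nat.pow_log_le_self 2 (by omega)
  have b2 : l < 2 ^ (L + 1) := hL ▸ Nat.lt_pow_succ_log_self (by norm_num) l
  have a := phi_sum hC (k := k + (L + 1)) (show 0 < N by omega)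
    (hl ▸ b2.le.trans (Nat.pow_le_pow_right (by norm_num) (by omega)))
  have b := phi_blocks hC hk (L + 1)
  have l0 : (0 : ℝ) < l := by exact_mod_cast l1
  have c : (L : ℝ) * Real.log 2 ≤ Real.log l := by
    rw [← Real.log_pow]
    exact Real.log_le_log (by positivity) (by exact_mod_cast b1)
  have d := Real.log_two_gt_d9
  have e : (L : ℝ) / 2 ≤ Real.log l := by nlinarith [(L.cast_nonneg : (0 : ℝ) ≤ L)]
  rw [← hl, Real.rpow_def_of_pos l0, mul_comm _ (N.totient : ℝ), mul_assoc, ← Real.exp_add]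
  refine (phi_exp N).trans (mul_le_mul_of_nonneg_left (Real.exp_le_exp.2 ?_) (Nat.cast_nonneg _))
  push_cast at b
  linarith

end Pool.Agent.G27
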