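import Pool.Agent.MP_b5e119_nt.G27.Defs

/-! Row PRIG of campaign h27n: the count for one sign class. -/

namespace Pool.Agent.G27

open Finset Filter Topology Pool.Agent.G60

theorem prig_fib (hC : CHEB_s) (p : ℕ) (S : Finset ℕ) (hS : ∀ c ∈ S, c.Prime) (e e' : ℤ) :
    ∑ c ∈ S, #{m ∈ Icc 1 ((p - 1) / c) | lam (c * m) = e ∧ lam (p - c * m) = e'} ≤
      cnt p e e' * Nat.log 2 p := by
  obtain ⟨A, hA⟩ : ∃ A, A = {a ∈ Icc 1 (p - 1) | lam a = e ∧ lam (p - a) = e'} := ⟨_, rfl⟩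
  have e0 : cnt p e e' = #A := by rw [hA]; rfl
  have h1 : ∀ c ∈ S, #{m ∈ Icc 1 ((p - 1) / c) | lam (c * m) = e ∧ lam (p - c * m) = e'} ≤
      #{a ∈ A | c ∣ a} := by
    intro c hc
    have hc0 := (hS c hc).pos
    refine card_le_card_of_injOn (fun m => c * m) (fun m hm => ?_) fun m _ m' _ h =>
      Nat.eq_of_mul_eq_mul_left hc0 h
    rw [mem_coe, mem_filter, mem_Icc] at hm
    rw [mem_coe, mem_filter, hA, mem_filter, mem_Icc]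
    refine ⟨⟨⟨Nat.mul_pos hc0 hm.1.1, ?_⟩, hm.2⟩, Dvd.intro _ rfl⟩
    have := (Nat.le_div_iff_mul_le hc0).1 hm.1.2
    rwa [mul_comm] at this
  refine (sum_le_sum h1).trans ?_
  have h2 : ∑ c ∈ S, #{a ∈ A | c ∣ a} = ∑ a ∈ A, #{c ∈ S | c ∣ a} := by
    simp only [card_filter]
    exact sum_comm
  rw [h2, e0, ← smul_eq_mul]
  refine sum_le_card_nsmul _ _ _ fun a ha => ?_
  rw [hA, mem_filter, mem_Icc] at ha
  refine le_trans (card_le_card fun c hc => ?_) ((hC.2.2 a ha.1.1).trans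
    (Nat.log_mono_right (by omega)))
  rw [mem_filter] at hc ⊢
  exact ⟨Nat.mem_divisors.2 ⟨hc.2, by omega⟩, hS c hc.1⟩

theorem prig_core [Sg] (hC : CHEB_s) (hCON : CONG_s) (hSTR : STRG_s) (hF : FING_s) :
    ∃ B K N₀ : ℕ, ∀ (N : ℕ) [NeZero N], N₀ ≤ N → Gd N B K → ∀ e : ℤ, (e = 1 ∨ e = -1) →
      ∃ χ : Ch N, χ ^ 2 = 1 ∧ χ ≠ 1 ∧ (N : ℝ) * ∑ c ∈ SP χ, 1 / (c : ℝ) ≤
        (Nat.log 2 N : ℝ) ^ 5 * cnt N e (-Sg.s * e) := by
  obtain ⟨B, K, N₁, hCON⟩ := hCON 6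
  obtain ⟨N₂, hSTR⟩ := hSTR
  obtain ⟨N₃, hF⟩ := hF
  refine ⟨B + 1, K, N₁ + N₂ + N₃ + 2, fun N _ hN hG e he => ?_⟩
  have hl : 1 ≤ Nat.log 2 N := Nat.le_log_of_pow_le one_lt_two (by omega : 2 ^ 1 ≤ N)
  have hB : Nat.log 2 N ^ B ≤ Nat.log 2 N ^ (B + 1) := Nat.pow_le_pow_right hl (by omega)
  have hB1 : Nat.log 2 N ≤ Nat.log 2 N ^ (B + 1) := Nat.le_self_pow (by omega) _
  have hG' : Gd N B K := ⟨(Nat.mul_le_mul_left _ hB).trans hG.1,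
    fun m h0 hm => (Nat.mul_le_mul_left _ hB).trans (hG.2 m h0 hm)⟩
  obtain ⟨χ, h2, h1, h3, h4⟩ := hCON N (by omega) hG'
  obtain ⟨σ, hσ, h5, h6⟩ := hSTR N (by omega) χ 6 (by omega) h2 h3
    ((Nat.mul_le_mul_left _ hB1).trans hG.1)
  refine ⟨χ, h2, h1, ?_⟩
  have hN1 : (1 : ℝ) ≤ N := by exact_mod_cast (by omega : 1 ≤ N)
  have hS : ∀ q ∈ SP χ, q.Prime ∧ re χ q = 1 ∧ (q : ℝ) ≤ (N : ℝ) ^ (0.33 : ℝ) := fun q hq => by
    classical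
    exact (mem_filter.1 hq).2
  obtain ⟨n, hn⟩ : ∃ n, n = Nat.log 2 N := ⟨_, rfl⟩
  have g1 : ∀ q ∈ SP χ, (N : ℝ) * (1 / (q : ℝ)) ≤ (n : ℝ) ^ 4 *
      (#{m ∈ Icc 1 ((N - 1) / q) | lam (q * m) = e ∧ lam (N - q * m) = -Sg.s * e} : ℕ) := by
    intro q hq
    obtain ⟨q1, q2, q3⟩ := hS q hq
    have hq0 : (0 : ℝ) < q := by exact_mod_cast q1.pos
    have hq3 : q ^ 3 ≤ N := by
      have a1 := pow_le_pow_left₀ hq0.le q3 3
      rw [← Real.rpow_natCast ((N : ℝ) ^ (0.33 : ℝ)), ← Real.rpow_mul (by linarith)] at a1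
      have a2 := Real.rpow_le_rpow_of_exponent_le hN1
        (by norm_num : (0.33 : ℝ) * ((3 : ℕ) : ℝ) ≤ 1)
      rw [Real.rpow_one] at a2
      exact_mod_cast a1.trans a2
    have g := hF N (by omega) χ σ e Sg.s q h2 h1 hσ he Sg.hs hq (h4 q q1 q2 hq3) h6 h5
    rw [← hn] at g
    rw [mul_one_div, div_le_iff₀ hq0]
    have g' : (N : ℝ) ≤ ((n ^ 4 * q *
      #{m ∈ Icc 1 ((N - 1) / q) | lam (q * m) = e ∧ lam (N - q * m) = -Sg.s * e} : ℕ) : ℝ) := by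
      exact_mod_cast g
    push_cast at g'
    linarith
  have g2 := sum_le_sum g1
  rw [← mul_sum, ← mul_sum, ← Nat.cast_sum] at g2
  have g3 := prig_fib hC N (SP χ) (fun q hq => (hS q hq).1) e (-Sg.s * e)
  rw [← hn] at g3 ⊢
  calc _ ≤ _ := g2
    _ ≤ (n : ℝ) ^ 4 * ((cnt N e (-Sg.s * e) : ℝ) * n) :=
      mul_le_mul_of_nonneg_left (by exact_mod_cast g3) (by positivity)
    _ = _ := by ring

theorem prig_ev (ε : ℝ) (hε : 0 < ε) (k : ℕ) :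
    ∃ N₀ : ℕ, ∀ N : ℕ, N₀ ≤ N → (Nat.log 2 N : ℝ) ^ k < (N : ℝ) ^ ε := by
  have ev := ((isLittleO_log_rpow_rpow_atTop (k : ℝ) hε).comp_tendsto
    tendsto_natCast_atTop_atTop).def (c := 1 / (2 ^ (k + 1))) (by positivity)
  obtain ⟨N₁, h⟩ := eventually_atTop.1 ev
  refine ⟨N₁ + 1, fun N hN => ?_⟩
  have h0 : (0 : ℝ) < N := by exact_mod_cast (by omega : 0 < N)
  have lg := Real.log_natCast_nonneg N
  have h1 := h N (by omega)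
  simp only [Function.comp_apply, Real.norm_eq_abs, Real.rpow_natCast] at h1
  rw [abs_of_nonneg (by positivity), abs_of_pos (by positivity)] at h1
  have l3 : (Nat.log 2 N : ℝ) ≤ 2 * Real.log N := by
    have a1 : ((2 : ℝ)) ^ Nat.log 2 N ≤ N := by exact_mod_cast Nat.pow_log_le_self 2 (by omega)
    have a2 := Real.log_le_log (by positivity) a1
    rw [Real.log_pow] at a2
    have a3 := Real.log_two_gt_d9
    have a4 : (0 : ℝ) ≤ Nat.log 2 N := Nat.cast_nonneg _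
    nlinarith
  have h2 : (0 : ℝ) < (N : ℝ) ^ ε := by positivity
  calc (Nat.log 2 N : ℝ) ^ k ≤ (2 * Real.log N) ^ k := by gcongr
    _ = 2 ^ k * Real.log N ^ k := mul_pow _ _ _
    _ ≤ 2 ^ k * (1 / 2 ^ (k + 1) * (N : ℝ) ^ ε) := by gcongr
    _ = (N : ℝ) ^ ε / 2 := by field_simp; ring
    _ < _ := by linarith

theorem prig_row [Sg] (hC : CHEB_s) (hO : ODSG_s) (hST : ST2G_s) (hCON : CONG_s) (hSTR : STRG_s)
    (hM : MANYG_s) (hF : FING_s) : PRIG_s := by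
  intro ε hε
  obtain ⟨r, hO⟩ := hO ε hε
  obtain ⟨B, K, N₁, H⟩ := prig_core hC hCON hSTR hF
  obtain ⟨B', N₂, hST⟩ := hST B K r
  obtain ⟨N₃, hO⟩ := hO B'
  obtain ⟨N₄, hM⟩ := hM (ε / 2) (half_pos hε)
  obtain ⟨N₅, hE⟩ := prig_ev (ε / 2) (half_pos hε) 5
  refine ⟨N₁ + N₂ + N₃ + N₄ + N₅ + 1, fun N hN e he => ?_⟩
  have : NeZero N := ⟨by omega⟩
  have h0 : (0 : ℝ) < N := by exact_mod_cast (by omega : 0 < N)
  by_contra hc
  have hc' := (not_le.1 hc).le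
  obtain ⟨G, hG, hOD⟩ := hO N (by omega) e he hc'
  obtain ⟨χ, h2, h1, h3⟩ := H N (by omega) (hST N (by omega) G hG hOD) e he
  have h4 := mul_le_mul_of_nonneg_left (hM N (by omega) χ h2 h1) h0.le
  have h5 : (Nat.log 2 N : ℝ) ^ 5 * cnt N e (-Sg.s * e) ≤
      (Nat.log 2 N : ℝ) ^ 5 * (N : ℝ) ^ (1 - ε) := by gcongr
  have h6 : (Nat.log 2 N : ℝ) ^ 5 * (N : ℝ) ^ (1 - ε) < (N : ℝ) ^ (ε / 2) * (N : ℝ) ^ (1 - ε) :=
    mul_lt_mul_of_pos_right (hE N (by omega)) (by positivity)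
  have h7 : (N : ℝ) ^ (ε / 2) * (N : ℝ) ^ (1 - ε) = N * (N : ℝ) ^ (-(ε / 2)) := by
    rw [← Real.rpow_add h0, show ε / 2 + (1 - ε) = 1 + -(ε / 2) by ring, Real.rpow_add h0,
      Real.rpow_one]
  linarith

end Pool.Agent.G27
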