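import Pool.Agent.MP_b5e119_nt.G27.Defs

namespace Pool.Agent.G27

open Finset Filter Topology Pool.Agent.G60

theorem prn_tail (hCHEB : CHEB_s) (J : ℕ) (hJ : 1 ≤ J) (t : ℕ) :
    ∑ q ∈ Ioc (2 ^ J : ℕ) (2 ^ (J + t)) with q.Prime, 1 / ((q : ℕ) : ℝ) ≤ 4 * t / J := by
  induction t with
  | zero => simp
  | succ t ih =>
    have h1 : (2 ^ J : ℕ) ≤ 2 ^ (J + t) := Nat.pow_le_pow_right (by norm_num) (by omega)
    have h2 : (2 ^ (J + t) : ℕ) ≤ 2 ^ (J + t + 1) := Nat.pow_le_pow_right (by norm_num) (by omega)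
    have h3 := hCHEB.2.1 (J + t) (by omega)
    have hJ' : (0 : ℝ) < J := by exact_mod_cast hJ
    have h4 : (4 : ℝ) / ((J + t : ℕ) : ℝ) ≤ 4 / J := by
      apply div_le_div_of_nonneg_left (by norm_num) hJ'
      exact_mod_cast Nat.le_add_right J t
    rw [sum_filter] at ih h3 ⊢
    rw [show J + (t + 1) = J + t + 1 from rfl, ← sum_Ioc_consecutive _ h1 h2]
    have h5 : (4 : ℝ) * ((t + 1 : ℕ) : ℝ) / J = 4 * t / J + 4 / J := by
      push_cast; ring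
    rw [h5]
    linarith

theorem prn_primes (hCHEB : CHEB_s) (N : ℕ) [NeZero N] (ψ : Ch N) (J t Y : ℕ) (hJ : 1 ≤ J)
    (hY : Y ≤ 2 ^ (J + t)) :
    ∑ q ∈ Icc 1 Y with (q.Prime ∧ ¬q ∣ N), ‖ψ (q : ZMod N) - 1‖ / q ≤
      ∑ q ∈ QQ N J, ‖ψ (q : ZMod N) - 1‖ / q + 2 * (4 * t / J) := by
  have hsub : {q ∈ Icc 1 Y | q.Prime ∧ ¬q ∣ N} ⊆
      QQ N J ∪ {q ∈ Ioc (2 ^ J : ℕ) (2 ^ (J + t)) | q.Prime} := by
    intro q hq
    simp only [mem_filter, mem_Icc, QQ, PP, mem_union, mem_range, mem_Ioc] at hq ⊢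
    by_cases h : q ≤ 2 ^ J
    · exact Or.inl ⟨⟨by omega, hq.2.1⟩, hq.2.2⟩
    · exact Or.inr ⟨⟨by omega, by omega⟩, hq.2.1⟩
  have hdis : Disjoint (QQ N J) {q ∈ Ioc (2 ^ J : ℕ) (2 ^ (J + t)) | q.Prime} := by
    rw [disjoint_left]
    intro q hq hq'
    simp only [mem_filter, QQ, PP, mem_range, mem_Ioc] at hq hq'
    omega
  have h1 := sum_le_sum_of_subset_of_nonneg
    (f := fun q : ℕ => ‖ψ (q : ZMod N) - 1‖ / (q : ℝ)) hsub
    (fun q _ _ => div_nonneg (norm_nonneg _) (Nat.cast_nonneg _))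
  rw [sum_union hdis] at h1
  have h3 : ∑ q ∈ Ioc (2 ^ J : ℕ) (2 ^ (J + t)) with q.Prime,
      ‖ψ (q : ZMod N) - 1‖ / (q : ℝ) ≤
      2 * ∑ q ∈ Ioc (2 ^ J : ℕ) (2 ^ (J + t)) with q.Prime, 1 / ((q : ℕ) : ℝ) := by
    rw [mul_sum]
    refine sum_le_sum fun q _ => ?_
    rw [← mul_div_assoc, mul_one]
    refine div_le_div_of_nonneg_right ?_ (Nat.cast_nonneg _)
    have h4 : ‖ψ (q : ZMod N)‖ ≤ 1 := DirichletCharacter.norm_le_one ψ _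
    have := norm_sub_le (ψ (q : ZMod N)) 1
    rw [norm_one] at this
    linarith
  have h4 := prn_tail hCHEB J hJ t
  linarith

theorem prn_units (N : ℕ) (ψ : Ch N) (Y : ℕ) :
    (UN N Y : ℝ) ≤ ‖∑ n ∈ Icc 1 Y, ψ (n : ZMod N)‖ +
      ∑ n ∈ Icc 1 Y with n.Coprime N, ‖ψ (n : ZMod N) - 1‖ := by
  have h0 : ∑ n ∈ Icc 1 Y, ψ (n : ZMod N) = ∑ n ∈ Icc 1 Y with n.Coprime N, ψ (n : ZMod N) := by
    rw [sum_filter]
    refine sum_congr rfl fun n _ => ?_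
    split_ifs with h
    · rfl
    · exact MulChar.map_nonunit _ (mt (ZMod.isUnit_iff_coprime n N).1 h)
  have h1 : (UN N Y : ℂ) = ∑ n ∈ Icc 1 Y with n.Coprime N, ψ (n : ZMod N) -
      ∑ n ∈ Icc 1 Y with n.Coprime N, (ψ (n : ZMod N) - 1) := by
    simp only [sum_sub_distrib, sum_const, nsmul_eq_mul, UN]
    ring
  have h2 : ‖(UN N Y : ℂ)‖ = (UN N Y : ℝ) := by simp
  rw [← h2, h1, h0]
  exact (norm_sub_le _ _).trans (by gcongr; exact norm_sum_le _ _)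

theorem prn_num (C : ℝ) (hC : 0 < C) : ∃ l₀ : ℕ, ∀ l : ℕ, l₀ ≤ l → 1 ≤ l ∧
    C * (l : ℝ) ^ (1 / 4 : ℝ) ≤ l ∧
    (C + 1) * (l : ℝ) ^ (1 / 4 : ℝ) * (12000 *
      (((Nat.sqrt l + 1) * (Nat.log 2 l + 1) : ℕ) : ℝ)) ≤ l := by
  refine ⟨⌈(312000 * (C + 1)) ^ 8⌉₊, fun l hl => ?_⟩
  have hl' : (312000 * (C + 1)) ^ 8 ≤ (l : ℝ) := Nat.ceil_le.1 hl
  have hK : (1 : ℝ) ≤ 312000 * (C + 1) := by linarith
  have hl1 : (1 : ℝ) ≤ l := (one_le_pow₀ hK).trans hl'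
  obtain ⟨u, hu⟩ : ∃ u : ℝ, u = (l : ℝ) ^ (1 / 8 : ℝ) := ⟨_, rfl⟩
  have hu0 : 0 ≤ u := hu ▸ Real.rpow_nonneg (by linarith) _
  have hu8 : u ^ 8 = l := by
    rw [hu, ← Real.rpow_natCast, ← Real.rpow_mul (by linarith)]
    norm_num
  have hu2 : (l : ℝ) ^ (1 / 4 : ℝ) = u ^ 2 := by
    rw [hu, ← Real.rpow_natCast, ← Real.rpow_mul (by linarith)]
    norm_num
  have huK : 312000 * (C + 1) ≤ u := by
    refine le_of_pow_le_pow_left₀ (n := 8) (by norm_num) hu0 ?_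
    rw [hu8]
    exact hl'
  have hu1 : 1 ≤ u := hK.trans huK
  have hs : (Nat.sqrt l : ℝ) ≤ u ^ 4 := by
    refine le_of_pow_le_pow_left₀ (n := 2) (by norm_num) (by positivity) ?_
    rw [← pow_mul, show 4 * 2 = 8 from rfl, hu8]
    exact_mod_cast Nat.sqrt_le' l
  have hL : (Nat.log 2 l : ℝ) ≤ 12 * u := by
    have h1 : (2 : ℝ) ^ Nat.log 2 l ≤ l := by
      exact_mod_cast Nat.pow_log_le_self 2 (by
        have : 1 ≤ l := by exact_mod_cast hl1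
        omega)
    have h2 := Real.log_le_log (by positivity) h1
    rw [Real.log_pow, ← hu8, Real.log_pow] at h2
    have h3 := Real.log_two_gt_d9
    have h4 := Real.log_le_sub_one_of_pos (show 0 < u by linarith)
    have h5 : (0 : ℝ) ≤ Nat.log 2 (l) := Nat.cast_nonneg _
    rw [hu8] at *
    push_cast at h2
    nlinarith
  have hu4 : 1 ≤ u ^ 4 := one_le_pow₀ hu1
  have hz : (((Nat.sqrt l + 1) * (Nat.log 2 l + 1) : ℕ) : ℝ) ≤ 26 * u ^ 5 := by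
    push_cast
    have : ((Nat.sqrt l : ℝ) + 1) * ((Nat.log 2 l : ℝ) + 1) ≤ (2 * u ^ 4) * (13 * u) := by
      apply mul_le_mul (by linarith) (by linarith) (by positivity) (by positivity)
    linarith [show (2 * u ^ 4) * (13 * u) = 26 * u ^ 5 by ring]
  refine ⟨by exact_mod_cast hl1, ?_, ?_⟩
  · rw [hu2, ← hu8]
    have h6 : u ≤ u ^ 6 := by
      calc u = u ^ 1 := (pow_one u).symm
        _ ≤ u ^ 6 := pow_le_pow_right₀ hu1 (by norm_num)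
    have : C ≤ u ^ 6 := by linarith
    calc C * u ^ 2 ≤ u ^ 6 * u ^ 2 := by gcongr
      _ = u ^ 8 := by ring
  · rw [hu2]
    calc (C + 1) * u ^ 2 * (12000 * (((Nat.sqrt l + 1) * (Nat.log 2 l + 1) : ℕ) : ℝ))
        ≤ (C + 1) * u ^ 2 * (12000 * (26 * u ^ 5)) := by gcongr
      _ = 312000 * (C + 1) * u ^ 7 := by ring
      _ ≤ u * u ^ 7 := by gcongr
      _ = l := by rw [← hu8]; ring

theorem prn_W (N l : ℕ) (hN : 0 < N) (hup : N < 2 ^ (l + 1)) :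
    WW N ≤ 4 * 2 ^ (l / 2 + 1) * (l + 2) ∧ 4 * √N ≤ WW N := by
  have hN1 : (1 : ℝ) ≤ N := by exact_mod_cast hN
  have h1 : √(N : ℝ) ≤ 2 ^ (l / 2 + 1) := by
    apply Real.sqrt_le_iff.2 ⟨by positivity, ?_⟩
    have : N ≤ (2 ^ (l / 2 + 1)) ^ 2 := by
      rw [← pow_mul]
      exact hup.le.trans (Nat.pow_le_pow_right (by norm_num) (by omega))
    exact_mod_cast this
  have h2 : Real.log N ≤ l + 1 := by
    have h3 : (N : ℝ) ≤ 2 ^ (l + 1) := by exact_mod_cast hup.le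
    have h4 := Real.log_le_log (by linarith) h3
    rw [Real.log_pow] at h4
    have h5 := Real.log_two_lt_d9
    push_cast at h4
    have h6 : (0 : ℝ) ≤ l := Nat.cast_nonneg _
    nlinarith
  have h3 : 0 ≤ Real.log N := Real.log_nonneg hN1
  unfold WW
  refine ⟨?_, ?_⟩
  · apply mul_le_mul (by linarith) (by linarith) (by linarith) (by positivity)
  · have := Real.sqrt_nonneg (N : ℝ)
    nlinarith

theorem prn_row (hCHEB : CHEB_s) (hTAU : TAU_s) (hPHI : PHI_s) (hUNI : UNI_s) (hPV : PV_s)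
    (hVIN2 : VIN2G_s) : PRN_s := by
  obtain ⟨C, hC, hphi⟩ := hPHI
  obtain ⟨l₀, hl₀⟩ := prn_num C hC
  refine ⟨2 ^ (l₀ + 1), fun N _ hN ψ j₀ J hR hS => ?_⟩
  by_contra hψ
  obtain ⟨hj1, hj2, -, -, hJ⟩ := hR
  have hN2 : 2 ≤ N := le_trans (by
    calc 2 = 2 ^ 1 := rfl
      _ ≤ 2 ^ (l₀ + 1) := Nat.pow_le_pow_right (by norm_num) (by omega)) hN
  have hl : l₀ + 1 ≤ Nat.log 2 N := Nat.le_log_of_pow_le (by norm_num) hN
  have hup : N < 2 ^ (Nat.log 2 N + 1) := Nat.lt_pow_succ_log_self (by norm_num) N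
  have hph := hphi N hN2
  obtain ⟨l, hldef⟩ : ∃ l, l = Nat.log 2 N := ⟨_, rfl⟩
  rw [← hldef] at hl hup hJ hS hph
  obtain ⟨hl1, hn1, hn2⟩ := hl₀ l (by omega)
  obtain ⟨hW1, hW2⟩ := prn_W N l (by omega) hup
  have hLl : l < 2 ^ (Nat.log 2 l + 1) := Nat.lt_pow_succ_log_self (by norm_num) l
  obtain ⟨L, hL⟩ : ∃ L, L = Nat.log 2 l := ⟨_, rfl⟩
  rw [← hL] at hLl hJ hn2
  have hzL : L + 1 ≤ (Nat.sqrt l + 1) * (L + 1) := Nat.le_mul_of_pos_left _ (by omega)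
  obtain ⟨z, hz⟩ : ∃ z, z = (Nat.sqrt l + 1) * (L + 1) := ⟨_, rfl⟩
  rw [← hz] at hzL hJ hn2
  obtain ⟨v, hv⟩ : ∃ v : ℝ, v = (l : ℝ) ^ (1 / 4 : ℝ) := ⟨_, rfl⟩
  have hlR : (1 : ℝ) ≤ l := by exact_mod_cast hl1
  have hv1 : 1 ≤ v := hv ▸ Real.one_le_rpow hlR (by norm_num)
  rw [← hv] at hph hn1 hn2
  have hzR : (1 : ℝ) ≤ z := by exact_mod_cast (show 1 ≤ z by omega)
  have hNR : (0 : ℝ) < N := by exact_mod_cast (show 0 < N by omega)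
  have hφ : (0 : ℝ) < N.totient := by exact_mod_cast Nat.totient_pos.2 (show 0 < N by omega)
  have hsq : 0 < √(N : ℝ) := Real.sqrt_pos.2 hNR
  obtain ⟨ρ, hρ⟩ : ∃ ρ : ℝ, ρ = N.totient / N := ⟨_, rfl⟩
  have hρ0 : 0 < ρ := hρ ▸ div_pos hφ hNR
  have hρ1 : 1 ≤ C * v * ρ := by
    rw [hρ, ← mul_div_assoc, le_div_iff₀ hNR]
    linarith
  have hz2 : (12000 : ℝ) * z ≤ l := by
    have h1 : (1 : ℝ) ≤ (C + 1) * v := by nlinarith
    nlinarith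
  have hz3 : 12000 * z ≤ l := by exact_mod_cast hz2
  have hρ2 : 12000 * z ≤ ρ * l := by
    have h1 : C * v * (12000 * z) ≤ l := by nlinarith
    calc (12000 : ℝ) * z = 1 * (12000 * z) := by ring
      _ ≤ C * v * ρ * (12000 * z) := by gcongr
      _ = ρ * (C * v * (12000 * z)) := by ring
      _ ≤ ρ * l := by gcongr
  have hρ3 : 1 ≤ ρ * l := by nlinarith
  obtain ⟨Y, hY⟩ : ∃ Y : ℕ, Y = 2 ^ (l / 2 + 2 * L + 9) := ⟨_, rfl⟩
  have hYW : 8 * WW N ≤ Y * ρ := by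
    have h1 : (l : ℝ) ≤ 2 ^ (L + 1) := by exact_mod_cast hLl.le
    have h2 : (l : ℝ) + 2 ≤ 2 ^ (L + 2) := by
      have : l + 2 ≤ 2 ^ (L + 2) := by
        have : 2 ^ (L + 2) = 2 * 2 ^ (L + 1) := by ring
        omega
      exact_mod_cast this
    have h3 : (Y : ℝ) = 8 * (4 * 2 ^ (l / 2 + 1) * 2 ^ (L + 2)) * 2 ^ (L + 1) := by
      rw [hY]
      push_cast
      ring
    calc 8 * WW N ≤ 8 * (4 * 2 ^ (l / 2 + 1) * 2 ^ (L + 2)) * 1 := by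
          have : (4 : ℝ) * 2 ^ (l / 2 + 1) * (l + 2) ≤ 4 * 2 ^ (l / 2 + 1) * 2 ^ (L + 2) := by gcongr
          linarith
      _ ≤ 8 * (4 * 2 ^ (l / 2 + 1) * 2 ^ (L + 2)) * (ρ * 2 ^ (L + 1)) := by
          gcongr
          exact hρ3.trans (by gcongr)
      _ = Y * ρ := by rw [h3]; ring
  have hYle : Y ≤ 2 ^ (J + 43 * z) := by
    rw [hY]
    exact Nat.pow_le_pow_right (by norm_num) (by omega)
  have h1 := prn_primes hCHEB N ψ J (43 * z) Y (by omega) hYle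
  have h2 := hVIN2 N ψ Y
  have h3 := prn_units N ψ Y
  have h4 := hPV N ψ Y hψ
  have h5 := (hUNI N (by omega)).2 Y
  have h6 := hTAU.1 N
  have hJR : (l : ℝ) ≤ 4 * J := by exact_mod_cast (show l ≤ 4 * J by omega)
  have hJ0 : (0 : ℝ) < J := by linarith
  have e1 : (16 : ℝ) / l ≤ ρ / 500 := by
    rw [div_le_div_iff₀ (by linarith) (by norm_num)]
    linarith
  have e2 : (4 : ℝ) * ((43 * z : ℕ) : ℝ) / J ≤ ρ / 17 := by
    rw [div_le_div_iff₀ hJ0 (by norm_num)]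
    push_cast
    have : ρ * l ≤ ρ * (4 * J) := by gcongr
    linarith
  obtain ⟨S, hSd⟩ : ∃ S : ℝ,
      S = ∑ q ∈ Icc 1 Y with (q.Prime ∧ ¬q ∣ N), ‖ψ (q : ZMod N) - 1‖ / (q : ℝ) := ⟨_, rfl⟩
  rw [← hSd] at h1 h2
  have e3 : S ≤ ρ / 8 := by linarith
  have e4 : 2 * (Y : ℝ) * S ≤ Y * ρ / 4 := by
    have : (0 : ℝ) ≤ Y := Nat.cast_nonneg _
    nlinarith
  rw [mul_div_assoc, ← hρ] at h5
  linarith

end Pool.Agent.G27
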