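import Pool.Agent.MP_b5e119_nt.G27.Defs

namespace Pool.Agent.G27

open Finset Filter Topology Pool.Agent.G60

/-- The multiple `g b` of a residue `b` of the lower level. -/
def pull_up (M M' g : ℕ) (b : ZMod M') : ZMod M := ((g * b.val : ℕ) : ZMod M)

theorem pull_cast {M M' g : ℕ} [NeZero M'] (h : M' * g = M) (x : ℕ) :
    pull_up M M' g (x : ZMod M') = ((g * x : ℕ) : ZMod M) := by
  unfold pull_up
  rw [ZMod.val_natCast, ZMod.natCast_eq_natCast_iff, ← h, mul_comm M' g]
  exact Nat.ModEq.mul_left' g (Nat.mod_modEq x M')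

theorem pull_mul {M M' g : ℕ} [NeZero M'] (h : M' * g = M) (m : ℕ) (b : ZMod M') :
    pull_up M M' g ((m : ZMod M') * b) = (m : ZMod M) * pull_up M M' g b := by
  have e : (m : ZMod M') * b = ((m * b.val : ℕ) : ZMod M') := by
    rw [Nat.cast_mul, ZMod.natCast_zmod_val]
  rw [e, pull_cast h]
  unfold pull_up
  push_cast
  ring

theorem pull_neg {M M' g : ℕ} [NeZero M'] (h : M' * g = M) (b : ZMod M') :
    pull_up M M' g (-b) = -pull_up M M' g b := by
  rw [eq_neg_iff_add_eq_zero]
  by_cases hb : b = 0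
  · simp [pull_up, hb]
  unfold pull_up
  rw [← Nat.cast_add, ← mul_add, ZMod.neg_val, if_neg hb, Nat.sub_add_cancel (ZMod.val_lt b).le,
    mul_comm, h, ZMod.natCast_self]

theorem pull_ff {M M' g : ℕ} [NeZero M] [NeZero M'] (h : M' * g = M) (b : ZMod M') :
    ff M (pull_up M M' g b) = lam g * ff M' b := by
  have hg : g ≠ 0 := fun e => NeZero.ne M (by rw [← h, e, mul_zero])
  by_cases hb : b = 0
  · simp [pull_up, ff, hb]
  have hv : b.val ≠ 0 := fun e => hb ((ZMod.val_eq_zero b).1 e)
  have hlt : g * b.val < M := by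
    rw [← h, mul_comm M' g]
    exact Nat.mul_lt_mul_of_pos_left (ZMod.val_lt b) (Nat.pos_of_ne_zero hg)
  have e : (pull_up M M' g b).val = g * b.val := by
    unfold pull_up
    rw [ZMod.val_natCast, Nat.mod_eq_of_lt hlt]
  have hne : pull_up M M' g b ≠ 0 := fun e' => by
    rw [e', ZMod.val_zero] at e
    exact mul_ne_zero hg hv e.symm
  unfold ff
  rw [if_neg hne, if_neg hb, e, lam_mul hg hv]

theorem pull_card {M M' g : ℕ} [NeZero M] [NeZero M'] (h : M' * g = M) {t : ℕ}
    (ht : t.Coprime M') (P : ZMod M' → Prop) [DecidablePred P] :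
    #{a : ZMod M | P ((t * a.val : ℕ) : ZMod M')} ≤ g * #{b : ZMod M' | P b} := by
  have hM : 0 < M' := Nat.pos_of_ne_zero (NeZero.ne M')
  rw [← card_range g, ← card_product]
  refine card_le_card_of_injOn (fun a => (a.val / M', ((t * a.val : ℕ) : ZMod M'))) (fun a ha => ?_)
    fun a _ b _ e => ?_
  · simp only [coe_filter, mem_univ, true_and, Set.mem_ofPred_eq] at ha
    simp only [coe_product, Set.mem_prod, mem_coe, mem_range, mem_filter, mem_univ, true_and]
    refine ⟨?_, ha⟩
    rw [Nat.div_lt_iff_lt_mul hM, mul_comm, h]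
    exact ZMod.val_lt a
  · simp only [Prod.mk.injEq] at e
    obtain ⟨h1, h2⟩ := e
    rw [ZMod.natCast_eq_natCast_iff] at h2
    have h3 : a.val % M' = b.val % M' := Nat.ModEq.cancel_left_of_coprime ht.symm h2
    apply ZMod.val_injective M
    rw [← Nat.div_add_mod a.val M', ← Nat.div_add_mod b.val M', h1, h3]

theorem pull_row [Sg] : PULL_s := by
  intro M M' g t _ _ h hg
  have hg0 : g ≠ 0 := fun e => NeZero.ne M (by rw [← h, e, mul_zero])
  obtain ⟨t', ht'⟩ : g ∣ t := hg ▸ Nat.gcd_dvd_left t M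
  have hco : t'.Coprime M' := by
    have e : g * Nat.gcd t' M' = g * 1 := by
      rw [← Nat.gcd_mul_left, ← ht', mul_comm g M', h, ← hg, mul_one]
    exact Nat.eq_of_mul_eq_mul_left (Nat.pos_of_ne_zero hg0) e
  have key : ∀ a : ZMod M, (t : ZMod M) * a = pull_up M M' g ((t' * a.val : ℕ) : ZMod M') := by
    intro a
    rw [pull_cast h, ← mul_assoc, ← ht', Nat.cast_mul, ZMod.natCast_zmod_val]
  constructor
  · refine le_trans (card_le_card fun a ha => ?_)
      (pull_card h hco fun b => ff M' (-b) ≠ Sg.s * ff M' b)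
    simp only [mem_filter, mem_univ, true_and] at ha ⊢
    intro e
    apply ha
    rw [key, ← pull_neg h, pull_ff h, pull_ff h, e, mul_left_comm]
  · intro m
    refine le_trans (card_le_card fun a ha => ?_)
      (pull_card h hco fun b => ff M' ((m : ZMod M') * b) ≠ lam m * ff M' b)
    simp only [mem_filter, mem_univ, true_and] at ha ⊢
    intro e
    apply ha
    rw [key, ← pull_mul h, pull_ff h, pull_ff h, e, mul_left_comm]

end Pool.Agent.G27
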