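import Pool.Agent.MP_b5e119_nt.G27.Defs

namespace Pool.Agent.G27

open Finset Filter Topology Pool.Agent.G60

theorem pv_moeb {N : ℕ} (hN : N ≠ 0) (n : ℕ) :
    ∑ d ∈ N.divisors, (if d ∣ n then ((ArithmeticFunction.moebius d : ℤ) : ℂ) else 0) =
      if n.Coprime N then 1 else 0 := by
  have g0 : n.gcd N ≠ 0 := Nat.gcd_ne_zero_right hN
  have e : (N.divisors.filter fun d => d ∣ n) = (n.gcd N).divisors := by
    ext d
    simp only [mem_filter, Nat.mem_divisors, Nat.dvd_gcd_iff]
    tauto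
  rw [← sum_filter, e]
  have := congrArg (fun f : ArithmeticFunction ℤ => ((f (n.gcd N) : ℤ) : ℂ))
    ArithmeticFunction.moebius_mul_coe_zeta
  simp only [ArithmeticFunction.coe_mul_zeta_apply, ArithmeticFunction.one_apply] at this
  push_cast at this
  exact this

theorem pv_mult (f : ℕ → ℂ) {d : ℕ} (hd : 0 < d) (Y : ℕ) :
    ∑ n ∈ Icc 1 Y, (if d ∣ n then f n else 0) = ∑ m ∈ Icc 1 (Y / d), f (d * m) := by
  rw [← sum_filter]
  symm
  refine sum_nbij' (fun m => d * m) (fun n => n / d) (fun m hm => ?_) (fun n hn => ?_)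
    (fun m _ => Nat.mul_div_cancel_left m hd) (fun n hn => Nat.mul_div_cancel' (mem_filter.1 hn).2)
    fun _ _ => rfl
  · rw [mem_Icc, Nat.le_div_iff_mul_le hd] at hm
    exact mem_filter.2 ⟨mem_Icc.2 ⟨Nat.mul_pos hd hm.1, by rw [mul_comm]; exact hm.2⟩,
      dvd_mul_right _ _⟩
  · obtain ⟨h1, h2⟩ := mem_filter.1 hn
    rw [mem_Icc] at h1
    exact mem_Icc.2 ⟨Nat.div_pos (Nat.le_of_dvd h1.1 h2) hd, Nat.div_le_div_right h1.2⟩

theorem pv_row (hT : TAU_s) (hP : PVP_s) : PV_s := by
  intro N _ ψ Y h1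
  have N0 : N ≠ 0 := NeZero.ne N
  have hr : ψ.conductor ∣ N := ψ.conductor_dvd_level
  have r0 : ψ.conductor ≠ 0 := ne_zero_of_dvd_ne_zero N0 hr
  have : NeZero ψ.conductor := ⟨r0⟩
  have hc := ψ.changeLevel_primitiveCharacter
  have hp := ψ.primitiveCharacter_isPrimitive
  set φ := ψ.primitiveCharacter with hφ
  have φ1 : φ ≠ 1 := fun h => h1 (by rw [← hc, h, map_one])
  have e1 : ∀ n : ℕ, ψ (n : ZMod N) = ∑ d ∈ N.divisors, if d ∣ n then
      ((ArithmeticFunction.moebius d : ℤ) : ℂ) * φ (n : ZMod ψ.conductor) else 0 := fun n => by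
    have := congrArg (· * φ (n : ZMod ψ.conductor)) (pv_moeb N0 n)
    simp only [sum_mul, ite_mul, zero_mul, one_mul] at this
    rw [this]
    split_ifs with h
    · have := ψ.primitiveCharacter_apply_of_isCoprime (a := (n : ℤ)) (Nat.isCoprime_iff_coprime.2 h)
      simpa using this.symm
    · exact MulChar.map_nonunit _ (mt (ZMod.isUnit_iff_coprime n N).1 h)
  obtain ⟨k, hk⟩ := hr
  clear hc hφ
  clear_value φ
  generalize ψ.conductor = r at *
  have k0 : k ≠ 0 := by rintro rfl; exact N0 (by simpa using hk)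
  set B : ℝ := 2 * √r * (1 + Real.log r) with hB
  have B0 : 0 ≤ B := mul_nonneg (by positivity) (add_nonneg zero_le_one (Real.log_natCast_nonneg r))
  simp only [e1]
  rw [sum_comm]
  refine (norm_sum_le _ _).trans ?_
  calc _ ≤ ∑ d ∈ N.divisors, if d ∣ k then B else 0 := by
        refine sum_le_sum fun d hd => ?_
        have d0 := Nat.pos_of_mem_divisors hd
        rw [pv_mult (fun n => ((ArithmeticFunction.moebius d : ℤ) : ℂ) * φ (n : ZMod r)) d0]
        simp only [Nat.cast_mul, map_mul, ← mul_sum]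
        split_ifs with h
        · rw [norm_mul, norm_mul]
          have m1 : ‖((ArithmeticFunction.moebius d : ℤ) : ℂ)‖ ≤ 1 := by
            rw [Complex.norm_intCast]
            exact_mod_cast ArithmeticFunction.abs_moebius_le_one
          exact (mul_le_of_le_one_left (by positivity) m1).trans
            ((mul_le_of_le_one_left (norm_nonneg _) (φ.norm_le_one _)).trans (hP r φ _ hp φ1))
        · have : ¬d.Coprime r := fun hc =>
            h (hc.dvd_of_dvd_mul_left (hk ▸ Nat.dvd_of_mem_divisors hd))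
          rw [MulChar.map_nonunit φ (mt (ZMod.isUnit_iff_coprime d r).1 this)]
          simp
    _ ≤ #k.divisors * B := by
        rw [← sum_filter, sum_const, nsmul_eq_mul]
        refine mul_le_mul_of_nonneg_right (Nat.cast_le.2 (card_le_card fun d hd => ?_)) B0
        exact Nat.mem_divisors.2 ⟨(mem_filter.1 hd).2, k0⟩
    _ ≤ 2 * √k * B := mul_le_mul_of_nonneg_right (hT.1 k) B0
    _ = 4 * √N * (1 + Real.log r) := by
        rw [hB, hk, Nat.cast_mul, Real.sqrt_mul (Nat.cast_nonneg r)]; ring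
    _ ≤ WW N := by
        refine mul_le_mul_of_nonneg_left (add_le_add_right (Real.log_le_log ?_ ?_) _) (by positivity)
        · exact_mod_cast Nat.pos_of_ne_zero r0
        · exact_mod_cast Nat.le_of_dvd (Nat.pos_of_ne_zero N0) ⟨k, hk⟩

end Pool.Agent.G27
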