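import Pool.Agent.MP_b5e119_nt.G27.Defs

namespace Pool.Agent.G27

open Finset Filter Topology Pool.Agent.G60

theorem pvp_shift {r : ℕ} [NeZero r] {ψ : Ch r} (h : ψ.IsPrimitive) (j : ZMod r) :
    ∑ a, ψ a * ZMod.stdAddChar (j * a) = ψ⁻¹ j * gaussSum ψ ZMod.stdAddChar := by
  rw [← gaussSum_mulShift_of_isPrimitive _ h]
  simp only [gaussSum, AddChar.mulShift_apply]

theorem pvp_conj {r : ℕ} [NeZero r] (ψ : Ch r) (j : ZMod r) :
    (starRingEnd ℂ) (ψ j) = ψ⁻¹ j := MulChar.star_apply' ψ j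

theorem pvp_gauss {r : ℕ} [NeZero r] {ψ : Ch r} (h : ψ.IsPrimitive) :
    ‖gaussSum ψ ZMod.stdAddChar‖ = √r := by
  have e : gaussSum ψ ZMod.stdAddChar * (starRingEnd ℂ) (gaussSum ψ ZMod.stdAddChar) = r := by
    calc _ = ∑ j, ψ⁻¹ j * gaussSum ψ ZMod.stdAddChar * ZMod.stdAddChar (-j) := by
          conv_lhs => arg 2; rw [gaussSum, map_sum]
          rw [mul_sum]
          refine sum_congr rfl fun j _ => ?_
          rw [map_mul, pvp_conj, AddChar.map_neg_eq_conj]; ring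
      _ = ∑ a, ψ a * ∑ j, ZMod.stdAddChar (j * (a - 1)) := by
          simp only [← pvp_shift h, sum_mul, mul_sum]
          rw [sum_comm]
          refine sum_congr rfl fun a _ => sum_congr rfl fun j _ => ?_
          rw [mul_assoc, ← AddChar.map_add_eq_mul]; congr 2; ring
      _ = r := by
          simp only [AddChar.sum_mulShift _ (ZMod.isPrimitive_stdAddChar r), sub_eq_zero]
          rw [sum_eq_single 1 (fun a _ ha => by simp [ha]) (by simp)]
          simp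
  have e2 : ‖gaussSum ψ ZMod.stdAddChar‖ ^ 2 = r := by
    have := congrArg norm e
    rw [norm_mul, RCLike.norm_conj, Complex.norm_natCast] at this
    rw [sq, this]
  rw [← e2, Real.sqrt_sq (norm_nonneg _)]

theorem pvp_geom (z : ℂ) (Y : ℕ) : (z - 1) * ∑ n ∈ Icc 1 Y, z ^ n = z ^ (Y + 1) - z := by
  induction Y with
  | zero => simp
  | succ Y ih => rw [sum_Icc_succ_top (by omega), mul_add, ih]; ring

theorem pvp_sin {x : ℝ} (h0 : 0 ≤ x) (h1 : x ≤ 1) : 2 * (x * (1 - x)) ≤ Real.sin (Real.pi * x) := by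
  have key : ∀ y : ℝ, 0 ≤ y → y ≤ 1 / 2 → 2 * y ≤ Real.sin (Real.pi * y) := fun y y0 y1 => by
    have := Real.mul_le_sin (x := Real.pi * y) (by positivity)
      (by nlinarith [Real.pi_pos])
    have e : 2 / Real.pi * (Real.pi * y) = 2 * y := by field_simp
    rwa [e] at this
  rcases le_total x (1 / 2) with h | h
  · have := key x h0 h
    nlinarith [mul_nonneg h0 h0]
  · have := key (1 - x) (by linarith) (by linarith)
    rw [mul_sub Real.pi, mul_one, Real.sin_pi_sub] at this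
    nlinarith [mul_nonneg (sub_nonneg.2 h1) (sub_nonneg.2 h1)]

theorem pvp_lin {r : ℕ} [NeZero r] {a : ℕ} (a0 : 0 < a) (a1 : a < r) (Y : ℕ) :
    ‖∑ n ∈ Icc 1 Y, ZMod.stdAddChar (((n : ℕ) : ZMod r) * (a : ZMod r))‖ ≤
      r / 2 * (1 / (a : ℝ) + 1 / ((r - a : ℕ) : ℝ)) := by
  have r0 : (0 : ℝ) < r := by exact_mod_cast a0.trans a1
  have A0 : (0 : ℝ) < a := by exact_mod_cast a0
  have A1 : (a : ℝ) < r := by exact_mod_cast a1
  set z : ℂ := ZMod.stdAddChar (a : ZMod r) with hz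
  have e : ∀ n : ℕ, ZMod.stdAddChar (((n : ℕ) : ZMod r) * (a : ZMod r)) = z ^ n := fun n => by
    rw [hz, ← AddChar.map_nsmul_eq_pow, nsmul_eq_mul]
  simp only [e]
  have z1 : ‖z‖ = 1 := by rw [hz]; exact AddChar.norm_apply _ _
  have up : ‖z - 1‖ * ‖∑ n ∈ Icc 1 Y, z ^ n‖ ≤ 2 := by
    rw [← norm_mul, pvp_geom]
    refine (norm_sub_le _ _).trans ?_
    rw [norm_pow, z1]; norm_num
  have lo : 4 * (a / r * (1 - a / r)) ≤ ‖z - 1‖ := by
    have e1 : z = Complex.exp (Complex.I * ((2 * (Real.pi * (a / r)) : ℝ) : ℂ)) := by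
      rw [hz, ← Int.cast_natCast, ZMod.stdAddChar_coe]
      congr 1; push_cast; ring
    rw [e1, Complex.norm_exp_I_mul_ofReal_sub_one, Real.norm_eq_abs,
      mul_div_cancel_left₀ _ two_ne_zero]
    have := pvp_sin (x := a / r) (by positivity) ((div_le_one r0).2 A1.le)
    exact le_trans (by linarith) (le_abs_self _)
  have p0 : 0 < 4 * ((a : ℝ) / r * (1 - a / r)) :=
    mul_pos (by norm_num) (mul_pos (by positivity) (sub_pos.2 ((div_lt_one r0).2 A1)))
  have h2 : ‖∑ n ∈ Icc 1 Y, z ^ n‖ ≤ 2 / (4 * ((a : ℝ) / r * (1 - a / r))) := by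
    rw [le_div_iff₀ p0, mul_comm]
    exact (mul_le_mul_of_nonneg_right lo (norm_nonneg _)).trans up
  refine h2.trans (le_of_eq ?_)
  have : (r : ℝ) - a ≠ 0 := (sub_pos.2 A1).ne'
  rw [Nat.cast_sub a1.le]
  field_simp
  ring

theorem pvp_range {r : ℕ} [NeZero r] (f : ZMod r → ℝ) :
    ∑ a, f a = ∑ a ∈ range r, f (a : ZMod r) := by
  refine sum_nbij' (fun a => a.val) (fun n => (n : ZMod r)) (fun a _ => mem_range.2 a.val_lt)
    (fun _ _ => mem_univ _) (fun a _ => by simp) (fun n hn => ZMod.val_cast_of_lt (mem_range.1 hn))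
    (fun a _ => by simp)

theorem pvp_harm (r : ℕ) : ∑ a ∈ Ico 1 r, 1 / (a : ℝ) ≤ 1 + Real.log r := by
  refine le_trans ?_ (harmonic_le_one_add_log r)
  rw [harmonic_eq_sum_Icc]
  push_cast
  simp only [one_div]
  exact sum_le_sum_of_subset_of_nonneg Ico_subset_Icc_self fun _ _ _ => by positivity

theorem pvp_row : PVP_s := by
  intro r _ ψ Y hp h1
  have r0 : 0 < r := NeZero.pos r
  have R0 : (0 : ℝ) < r := by exact_mod_cast r0
  have r1 : r ≠ 1 := by
    rintro rfl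
    exact h1 (DirichletCharacter.level_one ψ)
  have ψ0 : ψ ((0 : ℕ) : ZMod r) = 0 := by
    rw [Nat.cast_zero]; exact DirichletCharacter.map_zero' ψ r1
  have e1 : ‖∑ n ∈ Icc 1 Y, ψ (n : ZMod r)‖ = ‖∑ n ∈ Icc 1 Y, ψ⁻¹ (n : ZMod r)‖ := by
    simp only [← pvp_conj]
    rw [← map_sum (starRingEnd ℂ), RCLike.norm_conj]
  have e2 : (∑ n ∈ Icc 1 Y, ψ⁻¹ (n : ZMod r)) * gaussSum ψ ZMod.stdAddChar =
      ∑ a, ψ a * ∑ n ∈ Icc 1 Y, ZMod.stdAddChar (((n : ℕ) : ZMod r) * a) := by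
    simp only [sum_mul, ← pvp_shift hp, mul_sum]
    exact sum_comm
  have e3 : ‖∑ n ∈ Icc 1 Y, ψ (n : ZMod r)‖ * √r ≤ r * (1 + Real.log r) := by
    rw [e1, ← pvp_gauss hp, ← norm_mul, e2]
    refine (norm_sum_le _ _).trans ?_
    rw [pvp_range, range_eq_Ico, sum_eq_sum_Ico_succ_bot r0, ψ0, zero_mul, norm_zero, zero_add]
    calc _ ≤ ∑ a ∈ Ico 1 r, (r : ℝ) / 2 * (1 / (a : ℝ) + 1 / ((r - a : ℕ) : ℝ)) := by
          refine sum_le_sum fun a ha => ?_
          rw [mem_Ico] at ha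
          rw [norm_mul]
          exact (mul_le_of_le_one_left (norm_nonneg _) (ψ.norm_le_one _)).trans
            (pvp_lin ha.1 ha.2 Y)
      _ = r * ∑ a ∈ Ico 1 r, 1 / (a : ℝ) := by
          rw [← mul_sum, sum_add_distrib]
          have : ∑ a ∈ Ico 1 r, 1 / ((r - a : ℕ) : ℝ) = ∑ a ∈ Ico 1 r, 1 / (a : ℝ) := by
            refine sum_nbij' (fun a => r - a) (fun a => r - a) ?_ ?_ ?_ ?_ fun _ _ => rfl
            all_goals intro a ha; simp only [mem_Ico] at ha ⊢; omega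
          rw [this]; ring
      _ ≤ _ := mul_le_mul_of_nonneg_left (pvp_harm r) R0.le
  have s0 : 0 < √(r : ℝ) := Real.sqrt_pos.2 R0
  have l0 : 0 ≤ 1 + Real.log r := add_nonneg zero_le_one (Real.log_natCast_nonneg r)
  refine le_of_mul_le_mul_right (e3.trans ?_) s0
  have : √(r : ℝ) * √(r : ℝ) = r := Real.mul_self_sqrt R0.le
  nlinarith [mul_nonneg R0.le l0]

end Pool.Agent.G27
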