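import Pool.Agent.MP_b5e119_nt.G27.Defs
import Pool.Agent.MP_b5e119_nt.G60.SIEG

/-! Row SIEGG of campaign h27n: Siegel's bound for all real characters. -/

namespace Pool.Agent.G27

open Finset Filter Topology Pool.Agent.G60 Pool.Agent.MP_48b1c3_nt.H54 DirichletCharacter

theorem siegg_two {N : ℕ} [NeZero N] {χ : Ch N} (h1 : χ ≠ 1) : 2 ≤ N := by
  rcases Nat.lt_or_ge N 2 with h | h
  · obtain rfl : N = 1 := by have := NeZero.pos N; omega
    exact absurd (Subsingleton.elim _ _) h1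
  · exact h

theorem siegg_L {N : ℕ} [NeZero N] {χ : Ch N} (h2 : χ ^ 2 = 1) (h1 : χ ≠ 1) :
    ∃ L : ℝ, ‖LFunction χ 1‖ = |L| ∧
      Tendsto (fun M : ℕ => ∑ n ∈ Icc 1 M, (re χ n : ℝ) / n) atTop (𝓝 L) := by
  rw [lbound_LFunction_eq χ h1 (by simp)]
  have t := sieg_tend (a := fun n => χ n) (lbound_char_shift χ h1)
  obtain ⟨G, hG⟩ : ∃ G, G = lbound_G (fun n : ℕ => χ n) 1 := ⟨_, rfl⟩
  rw [← hG] at t ⊢
  have t' : Tendsto (fun M : ℕ => ((∑ n ∈ Icc 1 M, (re χ n : ℝ) / n : ℝ) : ℂ)) atTop (𝓝 G) := by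
    refine t.congr fun M => ?_
    push_cast
    exact sum_congr rfl fun n _ => by rw [re_coe h2]
  have tr : Tendsto (fun M : ℕ => ∑ n ∈ Icc 1 M, (re χ n : ℝ) / n) atTop (𝓝 G.re) := by
    simpa only [Function.comp_def, Complex.ofReal_re] using
      (Complex.continuous_re.tendsto G).comp t'
  have tc : Tendsto (fun M : ℕ => ((∑ n ∈ Icc 1 M, (re χ n : ℝ) / n : ℝ) : ℂ)) atTop
      (𝓝 (G.re : ℂ)) := (Complex.continuous_ofReal.tendsto _).comp tr
  have e : G = (G.re : ℂ) := tendsto_nhds_unique t' tc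
  refine ⟨G.re, ?_, tr⟩
  conv_lhs => rw [e]
  rw [Complex.norm_real, Real.norm_eq_abs]

theorem siegg_euler {N r : ℕ} [NeZero N] (ψ : Ch r) :
    (N.totient : ℝ) / N ≤ ‖∏ p ∈ N.primeFactors, (1 - ψ p * (p : ℂ) ^ (-(1 : ℂ)))‖ := by
  have hN : (0 : ℝ) < N := by exact_mod_cast NeZero.pos N
  have e : (N.totient : ℝ) = N * ∏ p ∈ N.primeFactors, (1 - (p : ℝ)⁻¹) := by
    have h := congrArg (fun x : ℚ => (x : ℝ)) (Nat.totient_eq_mul_prod_factors N)
    simpa using h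
  rw [e, mul_div_cancel_left₀ _ hN.ne', norm_prod]
  refine prod_le_prod (fun p hp => ?_) fun p hp => ?_
  · have : (1 : ℝ) ≤ p := by exact_mod_cast (Nat.prime_of_mem_primeFactors hp).one_le
    exact sub_nonneg.2 (inv_le_one_of_one_le₀ this)
  · refine le_trans ?_ (norm_sub_norm_le _ _)
    rw [norm_one, norm_mul, Complex.cpow_neg_one, norm_inv, Complex.norm_natCast]
    have := mul_le_mul_of_nonneg_right (ψ.norm_le_one p) (by positivity : (0 : ℝ) ≤ (p : ℝ)⁻¹)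
    linarith

theorem siegg_norm (hPHI : PHI_s) (ε : ℝ) (hε : 0 < ε) : ∃ c : ℝ, 0 < c ∧
    ∀ (N : ℕ) [NeZero N] (χ : Ch N), χ ^ 2 = 1 → χ ≠ 1 → c / (N : ℝ) ^ ε ≤ ‖LFunction χ 1‖ := by
  obtain ⟨c, hc, H⟩ := siegel (half_pos hε)
  obtain ⟨C, hC, hP⟩ := hPHI
  refine ⟨c * ε / (4 * C), by positivity, fun N _ χ h2 h1 => ?_⟩
  have hN2 := siegg_two h1
  have hN : (0 : ℝ) < N := by exact_mod_cast NeZero.pos N
  have : NeZero χ.conductor := ⟨χ.conductor_ne_zero⟩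
  obtain ⟨ψ, hψ⟩ : ∃ ψ, ψ = χ.primitiveCharacter := ⟨_, rfl⟩
  have e1 : changeLevel χ.conductor_dvd_level ψ = χ := hψ ▸ χ.changeLevel_primitiveCharacter
  have g1 : ψ ≠ 1 := fun h => h1 (by rw [← e1, h, map_one])
  have g2 : ψ ^ 2 = 1 := (changeLevel_eq_one_iff χ.conductor_dvd_level).1 (by rw [map_pow, e1, h2])
  have hb := H χ.conductor ψ (hψ ▸ χ.primitiveCharacter_isPrimitive) g1 g2
  have e2 := LFunction_changeLevel χ.conductor_dvd_level ψ (s := 1) (Or.inl g1)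
  rw [e1] at e2
  rw [e2, norm_mul]
  have hr0 : (0 : ℝ) < χ.conductor := by exact_mod_cast NeZero.pos _
  have hrN : (χ.conductor : ℝ) ≤ N := by
    exact_mod_cast Nat.le_of_dvd (NeZero.pos N) χ.conductor_dvd_level
  obtain ⟨s, hs⟩ : ∃ s : ℝ, s = (N : ℝ) ^ (ε / 2) := ⟨_, rfl⟩
  have s0 : 0 < s := by rw [hs]; positivity
  have s2 : (N : ℝ) ^ ε = s * s := by rw [hs, ← Real.rpow_add hN, add_halves]
  have b1 : c / s ≤ ‖LFunction ψ 1‖ := by
    refine le_trans (div_le_div_of_nonneg_left hc.le (by positivity) ?_) hb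
    rw [hs]
    exact Real.rpow_le_rpow hr0.le hrN (by positivity)
  have l1 : (1 : ℝ) ≤ Nat.log 2 N := by
    exact_mod_cast Nat.le_log_of_pow_le one_lt_two (by omega : 2 ^ 1 ≤ N)
  have l2 : (Nat.log 2 N : ℝ) ^ (1 / 4 : ℝ) ≤ Nat.log 2 N := by
    have := Real.rpow_le_rpow_of_exponent_le l1 (by norm_num : (1 / 4 : ℝ) ≤ 1)
    rwa [Real.rpow_one] at this
  have l3 : (Nat.log 2 N : ℝ) ≤ 2 * Real.log N := by
    have a1 : ((2 : ℝ)) ^ Nat.log 2 N ≤ N := by exact_mod_cast Nat.pow_log_le_self 2 (by omega)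
    have a2 := Real.log_le_log (by positivity) a1
    rw [Real.log_pow] at a2
    have a3 := Real.log_two_gt_d9
    nlinarith
  have l4 : Real.log N ≤ s / (ε / 2) := by
    rw [hs]; exact Real.log_le_rpow_div hN.le (half_pos hε)
  have l5 : (Nat.log 2 N : ℝ) ^ (1 / 4 : ℝ) ≤ 4 * s / ε := by
    have : 4 * s / ε = 2 * (s / (ε / 2)) := by field_simp; ring
    linarith
  have b2 : ε / (4 * C * s) ≤ (N.totient : ℝ) / N := by
    rw [div_le_div_iff₀ (by positivity) hN]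
    have b3 : (N : ℝ) ≤ C * N.totient * (4 * s / ε) :=
      (hP N hN2).trans (mul_le_mul_of_nonneg_left l5 (by positivity))
    calc ε * N ≤ ε * (C * N.totient * (4 * s / ε)) := by gcongr
      _ = _ := by field_simp
  calc c * ε / (4 * C) / (N : ℝ) ^ ε = c / s * (ε / (4 * C * s)) := by rw [s2]; field_simp
    _ ≤ _ := mul_le_mul b1 (b2.trans (siegg_euler ψ)) (by positivity) (norm_nonneg _)

theorem siegg_row (hPHI : PHI_s) : SIEGG_s := by
  intro ε hε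
  obtain ⟨c, hc, H⟩ := siegg_norm hPHI ε hε
  refine ⟨c, hc, fun N _ χ h2 h1 => ?_⟩
  obtain ⟨L, e, hL⟩ := siegg_L h2 h1
  exact ⟨L, e ▸ H N χ h2 h1, hL⟩

end Pool.Agent.G27
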