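import Pool.Agent.MP_b5e119_nt.G27.Defs

namespace Pool.Agent.G27

open Finset Filter Topology Pool.Agent.G60

theorem st2g_E (l C : ℕ) (h : C ^ 4 ≤ l) : ∃ E : ℕ, C ≤ E ∧ E ^ 4 ≤ l ∧ l ≤ (E + 1) ^ 4 := by
  refine ⟨Nat.sqrt (Nat.sqrt l), ?_, ?_, ?_⟩
  · rw [Nat.le_sqrt', Nat.le_sqrt']
    calc (C ^ 2) ^ 2 = C ^ 4 := by ring
      _ ≤ l := h
  · have h1 := Nat.sqrt_le' (Nat.sqrt l)
    have h2 := Nat.sqrt_le' l
    calc Nat.sqrt (Nat.sqrt l) ^ 4 = (Nat.sqrt (Nat.sqrt l) ^ 2) ^ 2 := by ring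
      _ ≤ Nat.sqrt l ^ 2 := Nat.pow_le_pow_left h1 2
      _ ≤ l := h2
  · have h1 : Nat.sqrt l + 1 ≤ (Nat.sqrt (Nat.sqrt l) + 1) ^ 2 := Nat.lt_succ_sqrt' (Nat.sqrt l)
    have h2 : l < (Nat.sqrt l + 1) ^ 2 := Nat.lt_succ_sqrt' l
    calc l ≤ (Nat.sqrt l + 1) ^ 2 := h2.le
      _ ≤ ((Nat.sqrt (Nat.sqrt l) + 1) ^ 2) ^ 2 := Nat.pow_le_pow_left h1 2
      _ = _ := by ring

theorem st2g_nat {x N c l B : ℕ} (hl : 0 < l)
    (h : (x : ℝ) ≤ c * (1 / (l : ℝ) ^ B) * N) : x * l ^ B ≤ c * N := by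
  have h0 : (0 : ℝ) < (l : ℝ) ^ B := by positivity
  have h1 : (x : ℝ) * (l : ℝ) ^ B ≤ c * N := by
    calc (x : ℝ) * (l : ℝ) ^ B ≤ c * (1 / (l : ℝ) ^ B) * N * (l : ℝ) ^ B :=
          mul_le_mul_of_nonneg_right h h0.le
      _ = c * N := by field_simp
  exact_mod_cast h1

theorem st2g_odP [Sg] (hP : PULL_s) {N G t : ℕ} [NeZero N] {δ : ℝ} (h : OD N G δ) (h0 : 0 < t)
    (ht : t ≤ G) : (odP N t : ℝ) ≤ δ * N := by
  obtain ⟨M, hM⟩ := Nat.gcd_dvd_right t N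
  have hM' : M * Nat.gcd t N = N := by rw [mul_comm]; exact hM.symm
  have : NeZero M := ⟨fun e => NeZero.ne N (by rw [← hM', e, zero_mul])⟩
  have h1 : (odP N t : ℝ) ≤ (Nat.gcd t N : ℝ) * od M := by
    exact_mod_cast (hP N M _ t hM' rfl).1
  have h2 := h M _ hM' ((Nat.gcd_le_left N h0).trans ht)
  have h3 : (N : ℝ) = M * (Nat.gcd t N : ℝ) := by exact_mod_cast hM'.symm
  have h4 : (0 : ℝ) ≤ (Nat.gcd t N : ℝ) := Nat.cast_nonneg _
  generalize (Nat.gcd t N : ℝ) = g at h1 h3 h4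
  calc (odP N t : ℝ) ≤ g * od M := h1
    _ ≤ g * (δ * M) := mul_le_mul_of_nonneg_left (by linarith) h4
    _ = δ * N := by rw [h3]; ring

theorem st2g_badP [Sg] (hP : PULL_s) {N G s t : ℕ} [NeZero N] {β : ℝ} (h : BD N G s β)
    (h0 : 0 < t) (ht : t ≤ G) : (badP N s t : ℝ) ≤ β * N := by
  obtain ⟨M, hM⟩ := Nat.gcd_dvd_right t N
  have hM' : M * Nat.gcd t N = N := by rw [mul_comm]; exact hM.symm
  have : NeZero M := ⟨fun e => NeZero.ne N (by rw [← hM', e, zero_mul])⟩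
  have h1 : (badP N s t : ℝ) ≤ (Nat.gcd t N : ℝ) * bad M s := by
    exact_mod_cast (hP N M _ t hM' rfl).2 s
  have h2 := h M _ hM' ((Nat.gcd_le_left N h0).trans ht)
  have h3 : (N : ℝ) = M * (Nat.gcd t N : ℝ) := by exact_mod_cast hM'.symm
  have h4 : (0 : ℝ) ≤ (Nat.gcd t N : ℝ) := Nat.cast_nonneg _
  generalize (Nat.gcd t N : ℝ) = g at h1 h3 h4
  calc (badP N s t : ℝ) ≤ g * bad M s := h1
    _ ≤ g * (β * M) := mul_le_mul_of_nonneg_left h2 h4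
    _ = β * N := by rw [h3]; ring

theorem st2g_list (L : List ℕ) (w : ℕ) : ∃ R : List ℕ, R.prod = L.prod ^ w ∧
    R.length = w * L.length ∧ ∀ x ∈ R, x ∈ L := by
  induction w with
  | zero => exact ⟨[], by simp, by simp, by simp⟩
  | succ w ih =>
    obtain ⟨R, h1, h2, h3⟩ := ih
    refine ⟨R ++ L, by rw [List.prod_append, h1, pow_succ],
      by rw [List.length_append, h2]; ring, fun x hx => ?_⟩
    exact (List.mem_append.1 hx).elim (h3 x) id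

theorem st2g_row [Sg] (hSMO : SMO_s) (hPULL : PULL_s) (hTRG : TRG_s) (hDIRG : DIRG_s)
    (hSUBG : SUBG_s) (hFEJG : FEJG_s) : ST2G_s := by
  intro A K r
  obtain ⟨k, hk⟩ : ∃ k, k = 8 * (A + 2 * K) + 3 := ⟨_, rfl⟩
  obtain ⟨y, hy⟩ := hSMO k
  obtain ⟨C, hC, hD⟩ := hDIRG y
  obtain ⟨c0, hc0⟩ : ∃ c, c = 1 + 8 * K + 8 * (y * k * K) + C := ⟨_, rfl⟩
  obtain ⟨c2, hc2⟩ : ∃ c, c = 16 * (K * k * C) + 2 := ⟨_, rfl⟩
  refine ⟨k + 3 + A, 2 ^ ((r * c0 + 2 * c2 + 2) ^ 4), fun N _ h0 G hG hod => ?_⟩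
  have hN : 0 < N := Nat.pos_of_ne_zero (NeZero.ne N)
  have hl0 : (r * c0 + 2 * c2 + 2) ^ 4 ≤ Nat.log 2 N := Nat.le_log_of_pow_le (by norm_num) h0
  have hlp : 2 ^ Nat.log 2 N ≤ N := Nat.pow_log_le_self 2 hN.ne'
  unfold Gd
  generalize Nat.log 2 N = l at *
  obtain ⟨E, hE, hE4, hlE⟩ := st2g_E l _ hl0
  obtain ⟨T, hT, hTl⟩ := hy E
  have hE2 : 2 ≤ E := by omega
  have hEE : E ≤ E ^ 2 := by nlinarith
  have hEl : E ≤ l := le_trans (Nat.le_self_pow (by norm_num) E) hE4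
  have hlpos : 0 < l := by omega
  have hlN : l < N := Nat.lt_two_pow_self.trans_le hlp
  have hr : r ≠ 0 := by
    rintro rfl
    rw [pow_zero] at hG
    omega
  have hG1 : 1 ≤ G := by
    rcases Nat.eq_zero_or_pos G with rfl | h
    · rw [zero_pow hr] at hG; omega
    · exact h
  obtain ⟨δ, hδ⟩ : ∃ δ : ℝ, δ = 1 / (l : ℝ) ^ (k + 3 + A) := ⟨_, rfl⟩
  have hδ0 : 0 ≤ δ := by rw [hδ]; positivity
  rw [← hδ] at hod
  refine ⟨?_, fun m hm hmK => ?_⟩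
  · have h1 := hod N 1 (mul_one N) hG1
    have h2 : od N * l ^ (k + 3 + A) ≤ 1 * N :=
      st2g_nat hlpos (by rw [← hδ]; push_cast; linarith)
    have h3 : od N * l ^ A ≤ od N * l ^ (k + 3 + A) :=
      Nat.mul_le_mul_left _ (Nat.pow_le_pow_right hlpos (by omega))
    omega
  rcases Nat.lt_or_ge m 2 with hm2 | hm2
  · obtain rfl : m = 1 := by omega
    have : bad N 1 = 0 := by simp [bad, lam]
    rw [this]; simp
  obtain ⟨w, hw⟩ : ∃ w, w = 8 * K * E := ⟨_, rfl⟩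
  have hl2 : l ≤ 2 ^ (4 * E) := by
    have h1 : E + 1 ≤ 2 ^ E := Nat.lt_two_pow_self
    calc l ≤ (E + 1) ^ 4 := hlE
      _ ≤ (2 ^ E) ^ 4 := Nat.pow_le_pow_left h1 4
      _ = _ := by ring
  have hmm : m ^ 2 ≤ l ^ (2 * K) := by
    calc m ^ 2 ≤ (l ^ K) ^ 2 := Nat.pow_le_pow_left hmK 2
      _ = _ := by ring
  have hmw : m ^ 2 ≤ 2 ^ w := by
    calc m ^ 2 ≤ l ^ (2 * K) := hmm
      _ ≤ (2 ^ (4 * E)) ^ (2 * K) := Nat.pow_le_pow_left hl2 _
      _ = _ := by rw [hw, ← pow_mul]; congr 1; ring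
  have hexp : (1 + w + y * (k * E) * w + C) * r ≤ l := by
    have h1 : 1 + w + y * (k * E) * w + C ≤ c0 * E ^ 2 := by
      have h2 : 1 ≤ E ^ 2 := by omega
      have h3 : K * E ≤ K * E ^ 2 := Nat.mul_le_mul_left K hEE
      have h4 : y * (k * E) * w = 8 * (y * k * K) * E ^ 2 := by rw [hw]; ring
      have h5 : c0 * E ^ 2 =
          E ^ 2 + 8 * (K * E ^ 2) + 8 * (y * k * K) * E ^ 2 + C * E ^ 2 := by rw [hc0]; ring
      have h6 : w = 8 * (K * E) := by rw [hw]; ring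
      have h7 : C ≤ C * E ^ 2 := Nat.le_mul_of_pos_right _ h2
      omega
    calc _ ≤ c0 * E ^ 2 * r := Nat.mul_le_mul_right _ h1
      _ = r * c0 * E ^ 2 := by ring
      _ ≤ E ^ 2 * E ^ 2 := Nat.mul_le_mul_right _ (by omega)
      _ = E ^ 4 := by ring
      _ ≤ l := hE4
  have hexp1 : 1 + w + y * (k * E) * w < l := by
    have := Nat.le_mul_of_pos_right (1 + w + y * (k * E) * w + C) (Nat.pos_of_ne_zero hr)
    omega
  have ht : ∀ t ∈ T, (0 < t ∧ 2 * m ^ 2 * t ^ w < N) ∧ m * t ^ w * C ≤ G ∧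
      BD N m (t ^ w) ((w * (k * E) * C : ℕ) * δ) := by
    intro t htT
    obtain ⟨L, rfl, hlen, hL⟩ := hTl t htT
    have hpos : 0 < L.prod := List.prod_pos fun x hx => (hL x hx).1
    have hle : L.prod ≤ 2 ^ (y * (k * E)) := by
      calc L.prod ≤ (2 ^ y) ^ L.length := List.prod_le_pow_card L _ fun x hxL =>
            (hL x hxL).2.trans Nat.lt_two_pow_self.le
        _ ≤ (2 ^ y) ^ (k * E) := Nat.pow_le_pow_right (by positivity) hlen
        _ = _ := by rw [← pow_mul]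
    have h2m : 2 * m ^ 2 * L.prod ^ w ≤ 2 ^ (1 + w + y * (k * E) * w) := by
      calc 2 * m ^ 2 * L.prod ^ w ≤ 2 * 2 ^ w * (2 ^ (y * (k * E))) ^ w :=
            Nat.mul_le_mul (Nat.mul_le_mul_left 2 hmw) (Nat.pow_le_pow_left hle w)
        _ = 2 ^ (1 + w + y * (k * E) * w) := by rw [← pow_mul]; ring
    have hGG : m * L.prod ^ w * C ≤ G := by
      have h1 : m ≤ 2 * m ^ 2 := by nlinarith
      have h2 : m * L.prod ^ w * C ≤ 2 ^ (1 + w + y * (k * E) * w + C) := by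
        rw [pow_add 2 _ C]
        exact Nat.mul_le_mul ((Nat.mul_le_mul_right _ h1).trans h2m) Nat.lt_two_pow_self.le
      rw [← Nat.pow_le_pow_iff_left hr]
      calc _ ≤ (2 ^ (1 + w + y * (k * E) * w + C)) ^ r := Nat.pow_le_pow_left h2 r
        _ = 2 ^ ((1 + w + y * (k * E) * w + C) * r) := by rw [← pow_mul]
        _ ≤ 2 ^ l := Nat.pow_le_pow_right (by norm_num) hexp
        _ ≤ G ^ r := hlp.trans hG
    refine ⟨⟨hpos, h2m.trans_lt ((Nat.pow_lt_pow_right (by norm_num) hexp1).trans_le hlp)⟩,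
      hGG, ?_⟩
    obtain ⟨R, r1, r2, r3⟩ := st2g_list L w
    have h3 := hSUBG N m (C * δ) R hN (by positivity) fun x hx => ⟨(hL x (r3 x hx)).1, by
      rw [r1]
      exact hD N _ δ hN (fun M g _ e hg => hod M g e (hg.trans hGG)) x (hL x (r3 x hx)).1
        (hL x (r3 x hx)).2⟩
    rw [r1, r2] at h3
    intro M g _ e hg
    refine (h3 M g e hg).trans (mul_le_mul_of_nonneg_right ?_ (Nat.cast_nonneg _))
    have h4 : ((w * L.length : ℕ) : ℝ) ≤ ((w * (k * E) : ℕ) : ℝ) := by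
      exact_mod_cast Nat.mul_le_mul_left w hlen
    calc ((w * L.length : ℕ) : ℝ) * (C * δ) ≤ ((w * (k * E) : ℕ) : ℝ) * (C * δ) :=
          mul_le_mul_of_nonneg_right h4 (by positivity)
      _ = _ := by push_cast; ring
  have hF := hFEJG N m w T hm2 hmw fun t htT => (ht t htT).1
  have hR := hTRG N m (T.image (· ^ w)) hm
  have hS : (∑ s ∈ T.image (· ^ w), (odP N s + odP N (m * s) + badP N s m + bad N s)) *
      l ^ (k + 3 + A) ≤ E ^ k * (c2 * E ^ 2 * N) := by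
    have h1 : ∀ s ∈ T.image (· ^ w), (odP N s + odP N (m * s) + badP N s m + bad N s) *
        l ^ (k + 3 + A) ≤ c2 * E ^ 2 * N := by
      intro s hs
      obtain ⟨t, htT, rfl⟩ := mem_image.1 hs
      obtain ⟨⟨t0, -⟩, t1, t2⟩ := ht t htT
      have s0 : 0 < t ^ w := pow_pos t0 w
      have t3 : m * t ^ w ≤ G := (Nat.le_mul_of_pos_right _ hC).trans t1
      have a1 := st2g_odP hPULL hod s0 ((Nat.le_mul_of_pos_left _ hm).trans t3)
      have a2 := st2g_odP hPULL hod (Nat.mul_pos hm s0) t3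
      have a3 := st2g_badP hPULL t2 hm le_rfl
      have a4 := t2 N 1 (mul_one N) hm
      have a5 : (odP N (t ^ w) + odP N (m * t ^ w) + badP N (t ^ w) m + bad N (t ^ w)) *
          l ^ (k + 3 + A) ≤ (2 + 2 * (w * (k * E) * C)) * N := by
        refine st2g_nat hlpos ?_
        rw [← hδ]
        push_cast at a3 a4 ⊢
        linarith
      refine a5.trans (Nat.mul_le_mul_right _ ?_)
      have h3 : c2 * E ^ 2 = 2 * (w * (k * E) * C) + 2 * E ^ 2 := by rw [hc2, hw]; ring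
      omega
    rw [sum_mul]
    calc _ ≤ #(T.image (· ^ w)) • (c2 * E ^ 2 * N) := sum_le_card_nsmul _ _ _ h1
      _ ≤ E ^ k * (c2 * E ^ 2 * N) := by
        rw [smul_eq_mul]; exact Nat.mul_le_mul_right _ (card_image_le.trans hT.le)
  rw [hT] at hF
  generalize far N m (T.image (· ^ w)) = Z at hF hR
  generalize ∑ s ∈ T.image (· ^ w), (odP N s + odP N (m * s) + badP N s m + bad N s) = Y at hR hS
  have hl8 : l ≤ E ^ 8 := by
    have h1 : E + 1 ≤ E ^ 2 := by nlinarith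
    calc l ≤ (E + 1) ^ 4 := hlE
      _ ≤ (E ^ 2) ^ 4 := Nat.pow_le_pow_left h1 4
      _ = _ := by ring
  have hZ : Z * (2 * l ^ A) ≤ N := by
    have h1 : 2 * l ^ A * (4 * l ^ (2 * K)) ≤ E ^ k := by
      calc 2 * l ^ A * (4 * l ^ (2 * K)) = 2 ^ 3 * l ^ (A + 2 * K) := by ring
        _ ≤ E ^ 3 * (E ^ 8) ^ (A + 2 * K) :=
          Nat.mul_le_mul (Nat.pow_le_pow_left hE2 3) (Nat.pow_le_pow_left hl8 _)
        _ = E ^ k := by rw [hk, ← pow_mul, ← pow_add, add_comm]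
    apply Nat.le_of_mul_le_mul_right _ (show 0 < 4 * l ^ (2 * K) by positivity)
    calc Z * (2 * l ^ A) * (4 * l ^ (2 * K)) = Z * (2 * l ^ A * (4 * l ^ (2 * K))) := by ring
      _ ≤ Z * E ^ k := Nat.mul_le_mul_left _ h1
      _ ≤ 4 * m ^ 2 * N := hF
      _ ≤ 4 * l ^ (2 * K) * N := Nat.mul_le_mul_right _ (Nat.mul_le_mul_left _ hmm)
      _ = _ := by ring
  have hY : Y * (2 * l ^ A) ≤ N := by
    have hc : 0 < c2 := by omega
    apply Nat.le_of_mul_le_mul_right _ (show 0 < E ^ (k + 2) * c2 by positivity)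
    calc Y * (2 * l ^ A) * (E ^ (k + 2) * c2) = Y * (E ^ (k + 2) * (2 * c2) * l ^ A) := by ring
      _ ≤ Y * (l ^ (k + 2) * l * l ^ A) := Nat.mul_le_mul_left _ (Nat.mul_le_mul_right _
          (Nat.mul_le_mul (Nat.pow_le_pow_left hEl _) (by omega)))
      _ = Y * l ^ (k + 3 + A) := by ring
      _ ≤ E ^ k * (c2 * E ^ 2 * N) := hS
      _ = _ := by ring
  have h1 : bad N m * (2 * l ^ A) ≤ (Z + Y) * (2 * l ^ A) := Nat.mul_le_mul_right _ hR
  have h2 : bad N m * (2 * l ^ A) = 2 * (bad N m * l ^ A) := by ring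
  rw [add_mul] at h1
  omega

end Pool.Agent.G27
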