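import Pool.Agent.MP_b5e119_nt.G27.Defs

namespace Pool.Agent.G27

open Finset Filter Topology Pool.Agent.G60

theorem strg_phi (hPHI : PHI_s) (D : ℝ) (hD : 0 < D) : ∃ N₀ : ℕ, ∀ N : ℕ, N₀ ≤ N →
    D * N ≤ N.totient * (Nat.log 2 N : ℝ) := by
  obtain ⟨C, hC, h⟩ := hPHI
  obtain ⟨n, hn⟩ := exists_nat_ge ((D * C) ^ 4)
  refine ⟨2 ^ (n + 1), fun N hN => ?_⟩
  have hl : n + 1 ≤ Nat.log 2 N := Nat.le_log_of_pow_le (by norm_num) hN
  have h2 : 2 ≤ N := le_trans (by
    have : 2 ^ 1 ≤ 2 ^ (n + 1) := Nat.pow_le_pow_right (by norm_num) (by omega)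
    omega) hN
  have hl' : (n : ℝ) + 1 ≤ (Nat.log 2 N : ℝ) := by exact_mod_cast hl
  have hn0 : (0 : ℝ) ≤ n := Nat.cast_nonneg n
  have h1 := h N h2
  set l : ℝ := (Nat.log 2 N : ℝ) with hldef
  set u : ℝ := l ^ (1 / 4 : ℝ) with hu
  have hu1 : 1 ≤ u := Real.one_le_rpow (by linarith) (by norm_num)
  have hu4 : u ^ 4 = l := by
    rw [hu, ← Real.rpow_natCast, ← Real.rpow_mul (by linarith)]
    norm_num
  have hDC : D * C ≤ u := by
    by_contra hc
    have : u ^ 4 < (D * C) ^ 4 := pow_lt_pow_left₀ (not_le.1 hc) (by linarith) (by norm_num)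
    linarith
  have hφ : (0 : ℝ) ≤ N.totient := Nat.cast_nonneg _
  have hu2 : u ^ 2 ≤ u ^ 4 := pow_le_pow_right₀ hu1 (by norm_num)
  calc D * N ≤ D * (C * N.totient * u) := mul_le_mul_of_nonneg_left h1 hD.le
    _ = (D * C) * (N.totient * u) := by ring
    _ ≤ u * (N.totient * u) := mul_le_mul_of_nonneg_right hDC (by positivity)
    _ = N.totient * u ^ 2 := by ring
    _ ≤ N.totient * l := by rw [← hu4]; exact mul_le_mul_of_nonneg_left hu2 hφ

theorem strg_card (N : ℕ) [NeZero N] (P : ℕ → Prop) [DecidablePred P] :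
    #{a : ZMod N | P a.val} = #{n ∈ range N | P n} := by
  refine card_nbij' (fun a => a.val) (fun n => (n : ZMod N)) ?_ ?_ ?_ ?_
  · intro a ha
    simp only [coe_filter, mem_range, Set.mem_ofPred_eq, mem_univ, true_and] at ha ⊢
    exact ⟨ZMod.val_lt a, ha⟩
  · intro n hn
    simp only [coe_filter, mem_range, Set.mem_ofPred_eq, mem_univ, true_and] at hn ⊢
    rw [ZMod.val_cast_of_lt hn.1]
    exact hn.2
  · intro a _
    exact ZMod.natCast_zmod_val a
  · intro n hn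
    simp only [coe_filter, mem_range, Set.mem_ofPred_eq] at hn
    exact ZMod.val_cast_of_lt hn.1

theorem strg_ff (N : ℕ) (a : ZMod N) (h : a ≠ 0) : ff N a = 1 ∨ ff N a = -1 := by
  rw [ff, if_neg h]; exact lam_cases _

theorem strg_sum (N : ℕ) [NeZero N] (hN : 1 < N) (χ : Ch N) (h2 : χ ^ 2 = 1) (σ : ℤ)
    (hσ : σ = 1 ∨ σ = -1) :
    σ * ∑ a : ZMod N, ff N a * re χ a.val = (N.totient : ℤ) - 2 * EX χ σ := by
  have h : ∀ a : ZMod N, σ * (ff N a * re χ a.val) =
      (if N.Coprime a.val then 1 else 0) -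
        2 * (if a.val.Coprime N ∧ lam a.val ≠ σ * re χ a.val then 1 else 0) := by
    intro a
    by_cases hc : a.val.Coprime N
    · have h0 : a ≠ 0 := by
        rintro rfl
        rw [ZMod.val_zero, Nat.coprime_zero_left] at hc
        omega
      have hi : (a.val.Coprime N ∧ lam a.val ≠ σ * re χ a.val) ↔ lam a.val ≠ σ * re χ a.val :=
        ⟨fun h => h.2, fun h => ⟨hc, h⟩⟩
      rw [ff, if_neg h0, if_pos hc.symm, if_congr hi rfl rfl]
      rcases lam_cases a.val with h1 | h1 <;> rcases re_unit h2 hc with h3 | h3 <;>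
        rcases hσ with h4 | h4 <;> simp [h1, h3, h4]
    · rw [re_nonunit χ hc, if_neg fun h => hc h.symm, if_neg fun h => hc h.1]
      simp
  have e1 : #{a : ZMod N | N.Coprime a.val} = N.totient := by
    rw [strg_card N fun n => N.Coprime n, Nat.totient_eq_card_coprime]
  have e2 : #{a : ZMod N | a.val.Coprime N ∧ lam a.val ≠ σ * re χ a.val} = EX χ σ := by
    rw [strg_card N fun n => n.Coprime N ∧ lam n ≠ σ * re χ n]
    unfold EX
    refine congrArg card (Finset.ext fun n => ?_)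
    simp only [mem_filter, mem_range, mem_Ico]
    constructor
    · rintro ⟨a1, a2, a3⟩
      refine ⟨⟨Nat.pos_of_ne_zero ?_, a1⟩, a2, a3⟩
      rintro rfl
      rw [Nat.coprime_zero_left] at a2
      omega
    · rintro ⟨⟨-, a1⟩, a2⟩
      exact ⟨a1, a2⟩
  rw [mul_sum, sum_congr rfl fun a _ => h a, sum_sub_distrib, ← mul_sum, sum_boole, sum_boole,
    e1, e2]

theorem strg_even [Sg] (N : ℕ) [NeZero N] (hN : 1 < N) (χ : Ch N) (h2 : χ ^ 2 = 1) (σ : ℤ)
    (hσ : σ = 1 ∨ σ = -1) (h1 : re χ (N - 1) = -Sg.s) :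
    σ * ∑ a : ZMod N, ff N a * re χ a.val ≤ od N := by
  have hm : ((N - 1 : ℕ) : ZMod N) = -1 := by
    rw [Nat.cast_sub (by omega)]; simp
  have hneg : ∀ a : ZMod N, re χ (-a).val = -Sg.s * re χ a.val := by
    intro a
    rw [← h1, ← re_mul h2]
    refine re_congr χ ?_
    rw [Nat.cast_mul, hm, ZMod.natCast_zmod_val, ZMod.natCast_zmod_val]
    ring
  have e : ∑ a : ZMod N, ff N a * re χ a.val =
      ∑ a : ZMod N, ff N (-a) * (-Sg.s * re χ a.val) := by
    rw [← Equiv.sum_comp (Equiv.neg (ZMod N))]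
    exact sum_congr rfl fun a _ => by rw [Equiv.neg_apply, hneg]
  have h : ∀ a : ZMod N, σ * (ff N a * re χ a.val) + σ * (ff N (-a) * (-Sg.s * re χ a.val)) ≤
      2 * (if ff N (-a) ≠ Sg.s * ff N a then 1 else 0) := by
    intro a
    by_cases h0 : a = 0
    · subst h0; simp [ff]
    · have hx : re χ a.val = 1 ∨ re χ a.val = -1 ∨ re χ a.val = 0 := by
        have := abs_le.1 (abs_re_le χ a.val)
        omega
      rcases strg_ff N a h0 with h1 | h1 <;> rcases hx with h2 | h2 | h2 <;>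
        rcases hσ with h3 | h3 <;> rcases strg_ff N (-a) (neg_ne_zero.2 h0) with h4 | h4 <;>
        rcases Sg.hs with h5 | h5 <;> simp [h1, h2, h3, h4, h5]
  have hs := sum_le_sum fun a (_ : a ∈ (univ : Finset (ZMod N))) => h a
  rw [sum_add_distrib, ← mul_sum, ← mul_sum, ← mul_sum, ← e, sum_boole] at hs
  unfold od
  linarith

theorem strg_nu (N : ℕ) [NeZero N] (χ : Ch N) (h2 : χ ^ 2 = 1) :
    nu N χ = (((∑ a : ZMod N, ff N a * re χ a.val : ℤ) : ℝ) / (N.totient : ℝ)) ^ 2 := by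
  have h' : ∀ a : ZMod N, χ a = ((re χ a.val : ℤ) : ℂ) := by
    intro a
    rw [re_coe h2, ZMod.natCast_zmod_val]
  have e : cu N (fun a => (ff N a : ℂ)) χ =
      ((((∑ a : ZMod N, ff N a * re χ a.val : ℤ) : ℝ) / (N.totient : ℝ) : ℝ) : ℂ) := by
    unfold cu
    rw [sum_congr rfl fun a _ => by rw [h' a, map_intCast]]
    push_cast
    rfl
  rw [nu, e, Complex.norm_real, Real.norm_eq_abs, sq_abs]

theorem strg_row [Sg] (hPHI : PHI_s) : STRG_s := by
  obtain ⟨N₁, h1⟩ := strg_phi hPHI 2 (by norm_num)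
  refine ⟨N₁ + 2 ^ 4, fun N _ hN χ A hA h2 hc hod => ?_⟩
  have hl : 4 ≤ Nat.log 2 N := Nat.le_log_of_pow_le (by norm_num) (by omega)
  have hN1 : 1 < N := by omega
  have hφ : 2 * N ≤ N.totient * Nat.log 2 N := by exact_mod_cast h1 N (by omega)
  have hφ0 : 0 < N.totient := Nat.totient_pos.2 (by omega)
  have hφN : N.totient ≤ N := Nat.totient_le N
  have hlA : 4 ≤ Nat.log 2 N ^ A := le_trans hl (Nat.le_self_pow (by omega) _)
  have hod2 : 2 * od N ≤ N.totient := by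
    have : (2 * od N) * Nat.log 2 N ≤ N.totient * Nat.log 2 N := by
      rw [mul_assoc]; omega
    exact Nat.le_of_mul_le_mul_right this (by omega)
  rw [strg_nu N χ h2] at hc
  set S : ℤ := ∑ a : ZMod N, ff N a * re χ a.val with hS
  obtain ⟨σ, hσ, hσS⟩ : ∃ σ : ℤ, (σ = 1 ∨ σ = -1) ∧ 0 ≤ σ * S := by
    rcases le_total 0 S with h | h
    · exact ⟨1, Or.inl rfl, by linarith⟩
    · exact ⟨-1, Or.inr rfl, by linarith⟩
  have hsum := strg_sum N hN1 χ h2 σ hσ
  rw [← hS] at hsum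
  have hp1 : (0 : ℝ) < (N.totient : ℝ) := by exact_mod_cast hφ0
  have hEx : 2 * EX χ σ * Nat.log 2 N ^ A ≤ N.totient := by
    set t : ℝ := ((σ * S : ℤ) : ℝ) / (N.totient : ℝ) with ht
    have ht2 : ((S : ℝ) / (N.totient : ℝ)) ^ 2 = t ^ 2 := by
      rw [ht]
      rcases hσ with h | h <;> rw [h] <;> push_cast <;> ring
    have ht0 : 0 ≤ t := div_nonneg (by exact_mod_cast hσS) hp1.le
    have hte : (2 * EX χ σ : ℝ) = (N.totient : ℝ) * (1 - t) := by
      rw [ht, hsum]; push_cast; field_simp; ring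
    have ht1 : 0 ≤ 1 - t := by
      have : 0 ≤ (N.totient : ℝ) * (1 - t) := by rw [← hte]; positivity
      exact nonneg_of_mul_nonneg_right this hp1
    rw [ht2] at hc
    have hL : (0 : ℝ) ≤ (Nat.log 2 N : ℝ) ^ A := by positivity
    have a1 : (1 - t) * (Nat.log 2 N : ℝ) ^ A ≤ 1 :=
      le_trans (mul_le_mul_of_nonneg_right (by nlinarith) hL) hc
    have a2 : (2 * EX χ σ : ℝ) * (Nat.log 2 N : ℝ) ^ A ≤ N.totient := by
      rw [hte, mul_assoc]
      nlinarith
    exact_mod_cast a2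
  have hEx1 : EX χ σ * Nat.log 2 N ^ A ≤ N := by
    rw [mul_assoc] at hEx
    omega
  have hEx4 : 2 * EX χ σ * 4 ≤ N.totient := le_trans (Nat.mul_le_mul_left _ hlA) hEx
  refine ⟨σ, hσ, hEx1, ?_⟩
  by_contra hne
  have hcop : (N - 1).Coprime N := by
    obtain ⟨k, rfl⟩ : ∃ k, N = k + 1 := ⟨N - 1, by omega⟩
    simp
  have h : re χ (N - 1) = -Sg.s := by
    rcases re_unit h2 hcop with h | h <;>
      rcases Sg.hs with h5 | h5 <;> rw [h, h5] at hne <;> rw [h, h5] <;> simp at hne ⊢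
  have := strg_even N hN1 χ h2 σ hσ h
  rw [← hS, hsum] at this
  omega

end Pool.Agent.G27
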