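import Pool.Agent.MP_b5e119_nt.G27.Defs

namespace Pool.Agent.G27

namespace STRUx

open Finset

noncomputable section

/-- `f` is a quadratic character on the integers prime to `M`. -/
def Quad (M : ℕ) (f : ℕ → ℂ) : Prop :=
  (∀ a b, a.Coprime M → b.Coprime M → f (a * b) = f a * f b) ∧
  (∀ a b, a.Coprime M → a ≡ b [MOD M] → f a = f b) ∧ ∀ a, a.Coprime M → f a * f a = 1

/-- The shape of the `2`-part. -/
def Two (M : ℕ) (w : ℕ → ℤ) : Prop :=
  (∀ a b, w (a * b) = w a * w b) ∧ (∀ n k, w (n + 8 * k) = w n) ∧ (∀ n, |w n| ≤ 1) ∧ w 1 = 1 ∧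
  (Odd M → ∀ n, w n = 1) ∧ (Even M → ∀ n, Even n → w n = 0)

def Shape (M : ℕ) (f : ℕ → ℂ) : Prop :=
  ∃ r : ℕ, Odd r ∧ Squarefree r ∧ r ∣ M ∧ ∃ w : ℕ → ℤ, Two M w ∧
    ∀ n : ℕ, n.Coprime M → f n = ((jacobiSym n r * w n : ℤ) : ℂ)

theorem Quad.one {M : ℕ} {f : ℕ → ℂ} (h : Quad M f) : f 1 = 1 := by
  have h1 := h.1 1 1 (Nat.coprime_one_left M) (Nat.coprime_one_left M)
  have h2 := h.2.2 1 (Nat.coprime_one_left M)
  rw [mul_one, h2] at h1
  exact h1

theorem Quad.pm {M : ℕ} {f : ℕ → ℂ} (h : Quad M f) {a : ℕ} (ha : a.Coprime M) :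
    f a = 1 ∨ f a = -1 := mul_self_eq_one_iff.1 (h.2.2 a ha)

theorem Quad.pow {M : ℕ} {f : ℕ → ℂ} (h : Quad M f) {a : ℕ} (ha : a.Coprime M) (k : ℕ) :
    f (a ^ k) = f a ^ k := by
  induction k with
  | zero => simpa using h.one
  | succ k ih => rw [pow_succ, h.1 _ _ (Nat.Coprime.pow_left k ha) ha, ih, pow_succ]

theorem two_odd {M : ℕ} (hM : Odd M) : Two M fun _ => 1 :=
  ⟨fun _ _ => by simp, fun _ _ => rfl, fun _ => by simp, rfl, fun _ _ => rfl,
    fun h => absurd h (Nat.not_even_iff_odd.2 hM)⟩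

theorem shape_odd {p e : ℕ} (hp : p.Prime) (h2 : p ≠ 2) {f : ℕ → ℂ} (h : Quad (p ^ (e + 1)) f) :
    Shape (p ^ (e + 1)) f := by
  have : Fact p.Prime := ⟨hp⟩
  have hpo : Odd p := hp.odd_of_ne_two h2
  have hco : ∀ a : ℕ, a.Coprime (p ^ (e + 1)) ↔ a.Coprime p := fun a =>
    Nat.coprime_pow_right_iff (Nat.succ_pos e) a p
  have hdesc : ∀ a b : ℕ, a.Coprime p → a ≡ b [MOD p] → f a = f b := by
    intro a b ha hab
    have hb : b.Coprime p := by
      unfold Nat.Coprime at ha ⊢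
      rw [← hab.gcd_eq]
      exact ha
    have h1 : a ^ p ^ e ≡ b ^ p ^ e [MOD p ^ (e + 1)] := by
      rw [Nat.modEq_iff_dvd] at hab ⊢
      push_cast
      exact dvd_sub_pow_of_dvd_sub hab e
    have h3 := h.2.1 _ _ ((hco _).2 (Nat.Coprime.pow_left _ ha)) h1
    rw [h.pow ((hco _).2 ha), h.pow ((hco _).2 hb)] at h3
    have ho : Odd (p ^ e) := hpo.pow
    rcases h.pm ((hco _).2 ha) with e1 | e1 <;> rcases h.pm ((hco _).2 hb) with e2 | e2 <;>
      rw [e1, e2] at h3 ⊢ <;> simp [ho.neg_one_pow] at h3 <;> exact h3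
  have hne : ∀ a : ℕ, a.Coprime p → (((a : ℤ) : ZMod p)) ≠ 0 := by
    intro a ha h0
    rw [Int.cast_natCast, ZMod.natCast_eq_zero_iff] at h0
    exact hp.one_lt.ne' (Nat.Coprime.eq_one_of_dvd ha.symm h0)
  have hsq : ∀ a : ℕ, a.Coprime p → legendreSym p a = 1 → f a = 1 := by
    intro a ha hl
    obtain ⟨x, hx⟩ := (legendreSym.eq_one_iff p (hne a ha)).1 hl
    have h1 : a ≡ x.val * x.val [MOD p] := by
      rw [← ZMod.natCast_eq_natCast_iff]
      push_cast
      rw [ZMod.natCast_zmod_val, ← hx, Int.cast_natCast]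
    have h3 : (x.val * x.val).Coprime p := by
      unfold Nat.Coprime at ha ⊢
      rw [← h1.gcd_eq]
      exact ha
    have h4 : x.val.Coprime (p ^ (e + 1)) := (hco _).2 (Nat.Coprime.coprime_mul_left h3)
    rw [hdesc a _ ha h1, h.1 _ _ h4 h4, h.2.2 _ h4]
  by_cases hall : ∀ a : ℕ, a.Coprime p → f a = 1
  · refine ⟨1, odd_one, squarefree_one, one_dvd _, fun _ => 1, two_odd hpo.pow, fun n hn => ?_⟩
    rw [hall n ((hco n).1 hn)]
    simp
  · push Not at hall
    obtain ⟨a₀, ha₀, hf₀⟩ := hall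
    have hf : f a₀ = -1 := (h.pm ((hco _).2 ha₀)).resolve_left hf₀
    have hl₀ : legendreSym p a₀ = -1 :=
      (legendreSym.eq_one_or_neg_one p (hne a₀ ha₀)).resolve_left fun e => hf₀ (hsq a₀ ha₀ e)
    refine ⟨p, hpo, hp.squarefree, dvd_pow_self p (Nat.succ_ne_zero e), fun _ => 1,
      two_odd hpo.pow, fun n hn => ?_⟩
    have hn' := (hco n).1 hn
    rw [← jacobiSym.legendreSym.to_jacobiSym]
    rcases legendreSym.eq_one_or_neg_one p (hne n hn') with e1 | e1
    · rw [hsq n hn' e1, e1]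
      simp
    · have h5 : legendreSym p ((n * a₀ : ℕ) : ℤ) = 1 := by
        push_cast
        rw [legendreSym.mul, e1, hl₀]
        norm_num
      have h6 := hsq _ (Nat.Coprime.mul_left hn' ha₀) h5
      rw [h.1 _ _ hn ((hco _).2 ha₀), hf] at h6
      rw [e1]
      push_cast
      linear_combination -h6

theorem sq_two (a : ℤ) (ha : (8 : ℤ) ∣ a - 1) (k : ℕ) :
    ∃ c : ℕ, Odd c ∧ (2 : ℤ) ^ (k + 3) ∣ a - (c : ℤ) ^ 2 := by
  induction k with
  | zero => exact ⟨1, odd_one, by simpa using ha⟩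
  | succ k ih =>
    obtain ⟨c, hc, t, ht⟩ := ih
    rcases Int.even_or_odd t with ⟨s, rfl⟩ | ⟨s, rfl⟩
    · exact ⟨c, hc, s, by rw [ht]; ring⟩
    · obtain ⟨d, rfl⟩ := hc
      refine ⟨2 * d + 1 + 2 ^ (k + 2), ⟨d + 2 ^ (k + 1), by ring⟩, s - d - 2 ^ k, ?_⟩
      push_cast at ht ⊢
      linear_combination ht

theorem shape_two {e : ℕ} {f : ℕ → ℂ} (h : Quad (2 ^ (e + 1)) f) : Shape (2 ^ (e + 1)) f := by
  classical
  have hco : ∀ a : ℕ, a.Coprime (2 ^ (e + 1)) ↔ Odd a := fun a => by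
    rw [Nat.coprime_pow_right_iff (Nat.succ_pos e), Nat.coprime_two_right]
  have h1 : ∀ a : ℕ, a % 8 = 1 → f a = 1 := by
    intro a ha
    obtain ⟨c, hc, hd⟩ := sq_two a (by omega) e
    have h3 : c * c ≡ a [MOD 2 ^ (e + 1)] := by
      rw [Nat.modEq_iff_dvd]
      push_cast
      rw [← sq]
      exact (pow_dvd_pow 2 (by omega)).trans hd
    have h4 := (hco c).2 hc
    rw [← h.2.1 _ _ (Nat.Coprime.mul_left h4 h4) h3, h.1 _ _ h4 h4, h.2.2 _ h4]
  have h8 : ∀ n k : ℕ, Odd n → f (n + 8 * k) = f n := by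
    intro n k hn
    have hn2 : Odd (n + 8 * k) := hn.add_even ⟨4 * k, by ring⟩
    have h3 : (n + 8 * k) * n % 8 = 1 := by
      have : n % 8 = 1 ∨ n % 8 = 3 ∨ n % 8 = 5 ∨ n % 8 = 7 := by
        obtain ⟨d, rfl⟩ := hn
        omega
      rw [Nat.mul_mod, Nat.add_mul_mod_self_left]
      rcases this with e | e | e | e <;> rw [e]
    have h4 := h1 _ h3
    rw [h.1 _ _ ((hco _).2 hn2) ((hco _).2 hn)] at h4
    have h5 := h.2.2 n ((hco _).2 hn)
    linear_combination f n * h4 - f (n + 8 * k) * h5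
  set w : ℕ → ℤ := fun n => if Odd n then (if f n = 1 then 1 else -1) else 0 with hw
  have hwf : ∀ n, Odd n → (w n : ℂ) = f n := by
    intro n hn
    simp only [hw, if_pos hn]
    split_ifs with h1
    · simp [h1]
    · rw [(h.pm ((hco _).2 hn)).resolve_left h1]
      simp
  have hw0 : ∀ n, ¬Odd n → w n = 0 := fun n hn => by simp only [hw, if_neg hn]
  refine ⟨1, odd_one, squarefree_one, one_dvd _, w, ⟨fun a b => ?_, fun n k => ?_, fun n => ?_, ?_,
    fun hM => ?_, fun _ n hn => hw0 n (Nat.not_odd_iff_even.2 hn)⟩, fun n hn => ?_⟩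
  · by_cases ha : Odd a
    · by_cases hb : Odd b
      · apply Int.cast_injective (α := ℂ)
        push_cast
        rw [hwf _ (ha.mul hb), hwf _ ha, hwf _ hb, h.1 _ _ ((hco _).2 ha) ((hco _).2 hb)]
      · rw [hw0 b hb, hw0 _ fun e => hb (Nat.odd_mul.1 e).2, mul_zero]
    · rw [hw0 a ha, hw0 _ fun e => ha (Nat.odd_mul.1 e).1, zero_mul]
  · by_cases hn : Odd n
    · apply Int.cast_injective (α := ℂ)
      rw [hwf _ (hn.add_even ⟨4 * k, by ring⟩), hwf _ hn, h8 n k hn]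
    · rw [hw0 n hn, hw0]
      intro e
      obtain ⟨d, hd⟩ := e
      exact hn ⟨d - 4 * k, by omega⟩
  · simp only [hw]
    split_ifs <;> simp
  · simp [hw, h.one]
  · exact absurd ((Nat.odd_pow_iff (Nat.succ_ne_zero e)).1 hM) (by decide)
  · rw [jacobiSym.one_right, one_mul, hwf n ((hco n).1 hn)]

theorem quad_left {A B : ℕ} (hAB : A.Coprime B) {f : ℕ → ℂ} (h : Quad (A * B) f) :
    Quad A fun a => f (Nat.chineseRemainder hAB a 1) := by
  have hc : ∀ a : ℕ, a.Coprime A → (Nat.chineseRemainder hAB a 1 : ℕ).Coprime (A * B) := by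
    intro a ha
    have h1 := (Nat.chineseRemainder hAB a 1).2
    refine Nat.Coprime.mul_right ?_ ?_
    · unfold Nat.Coprime at ha ⊢
      rw [h1.1.gcd_eq]
      exact ha
    · unfold Nat.Coprime
      rw [h1.2.gcd_eq]
      simp
  refine ⟨fun a b ha hb => ?_, fun a b ha hab => ?_, fun a ha => h.2.2 _ (hc a ha)⟩
  · beta_reduce
    rw [← h.1 _ _ (hc a ha) (hc b hb)]
    refine h.2.1 _ _ (hc _ (Nat.Coprime.mul_left ha hb)) ?_
    have h1 := (Nat.chineseRemainder hAB a 1).2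
    have h2 := (Nat.chineseRemainder hAB b 1).2
    have h3 := (Nat.chineseRemainder hAB (a * b) 1).2
    rw [← Nat.modEq_and_modEq_iff_modEq_mul hAB]
    exact ⟨h3.1.trans (h1.1.mul h2.1).symm, h3.2.trans (by simpa using (h1.2.mul h2.2).symm)⟩
  · refine h.2.1 _ _ (hc a ha) ?_
    have h1 := (Nat.chineseRemainder hAB a 1).2
    have h2 := (Nat.chineseRemainder hAB b 1).2
    rw [← Nat.modEq_and_modEq_iff_modEq_mul hAB]
    exact ⟨h1.1.trans (hab.trans h2.1.symm), h1.2.trans h2.2.symm⟩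

theorem quad_split {A B : ℕ} (hAB : A.Coprime B) {f : ℕ → ℂ} (h : Quad (A * B) f) (n : ℕ)
    (hn : n.Coprime (A * B)) :
    f n = f (Nat.chineseRemainder hAB n 1) * f (Nat.chineseRemainder hAB.symm n 1) := by
  have h1 := (Nat.chineseRemainder hAB n 1).2
  have h2 := (Nat.chineseRemainder hAB.symm n 1).2
  have h3 : n ≡ Nat.chineseRemainder hAB n 1 * Nat.chineseRemainder hAB.symm n 1 [MOD A * B] := by
    rw [← Nat.modEq_and_modEq_iff_modEq_mul hAB]
    exact ⟨by simpa using (h1.1.mul h2.2).symm, by simpa using (h1.2.mul h2.1).symm⟩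
  have h4 : (Nat.chineseRemainder hAB n 1 * Nat.chineseRemainder hAB.symm n 1 : ℕ).Coprime
      (A * B) := by
    unfold Nat.Coprime at hn ⊢
    rw [← h3.gcd_eq]
    exact hn
  rw [h.2.1 _ _ hn h3, h.1 _ _ (Nat.Coprime.coprime_mul_right h4) (Nat.Coprime.coprime_mul_left h4)]

theorem shape_all (M : ℕ) : M ≠ 0 → ∀ f : ℕ → ℂ, Quad M f → Shape M f := by
  induction M using Nat.recOnPosPrimePosCoprime with
  | prime_pow p e hp he =>
    intro _ f h
    obtain ⟨e, rfl⟩ : ∃ e', e = e' + 1 := ⟨e - 1, by omega⟩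
    by_cases h2 : p = 2
    · subst h2
      exact shape_two h
    · exact shape_odd hp h2 h
  | zero => exact fun h => absurd rfl h
  | one =>
    intro _ f h
    refine ⟨1, odd_one, squarefree_one, one_dvd _, fun _ => 1, two_odd odd_one, fun n hn => ?_⟩
    rw [h.2.1 n 1 hn (Nat.modEq_one), h.one]
    simp
  | coprime A B hA hB hAB ihA ihB =>
    intro _ f h
    obtain ⟨r, hr, hs, hd, w, hw, hf⟩ := ihA (by omega) _ (quad_left hAB h)
    obtain ⟨r', hr', hs', hd', w', hw', hf'⟩ := ihB (by omega) _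
      (quad_left hAB.symm (by rwa [mul_comm]))
    have hrr : r.Coprime r' := Nat.Coprime.coprime_dvd_left hd (Nat.Coprime.coprime_dvd_right hd' hAB)
    refine ⟨r * r', hr.mul hr', (Nat.squarefree_mul hrr).2 ⟨hs, hs'⟩, mul_dvd_mul hd hd',
      fun n => w n * w' n, ⟨fun a b => ?_, fun n k => ?_, fun n => ?_, ?_, fun hM n => ?_,
        fun hM n hn => ?_⟩, fun n hn => ?_⟩
    · beta_reduce
      rw [hw.1, hw'.1]
      ring
    · beta_reduce
      rw [hw.2.1, hw'.2.1]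
    · beta_reduce
      rw [abs_mul]
      exact mul_le_one₀ (hw.2.2.1 n) (abs_nonneg _) (hw'.2.2.1 n)
    · beta_reduce
      rw [hw.2.2.2.1, hw'.2.2.2.1, mul_one]
    · beta_reduce
      rw [hw.2.2.2.2.1 (Nat.odd_mul.1 hM).1, hw'.2.2.2.2.1 (Nat.odd_mul.1 hM).2, mul_one]
    · beta_reduce
      rcases Nat.even_mul.1 hM with e | e
      · rw [hw.2.2.2.2.2 e n hn, zero_mul]
      · rw [hw'.2.2.2.2.2 e n hn, mul_zero]
    · have e1 := hf n (Nat.Coprime.coprime_mul_right_right hn)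
      have e2 := hf' n (Nat.Coprime.coprime_mul_left_right hn)
      beta_reduce at e1 e2
      rw [quad_split hAB h n hn, e1, e2,
        jacobiSym.mul_right' n hs.ne_zero hs'.ne_zero]
      push_cast
      ring

/-- A quadratic Dirichlet character is a Jacobi symbol times a character modulo `8`. -/
theorem real_shape {M : ℕ} [NeZero M] (χ : DirichletCharacter ℂ M) (h : χ ^ 2 = 1) :
    Shape M fun n => χ (n : ZMod M) := by
  refine shape_all M (NeZero.ne M) _ ⟨fun a b _ _ => by simp, fun a b _ hab => ?_, fun a ha => ?_⟩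
  · beta_reduce
    rw [(ZMod.natCast_eq_natCast_iff a b M).2 hab]
  · have hu : IsUnit (a : ZMod M) := (ZMod.isUnit_iff_coprime a M).2 ha
    have := congrArg (fun ψ : DirichletCharacter ℂ M => ψ (a : ZMod M)) h
    simp only [MulChar.pow_apply' _ two_ne_zero, MulChar.one_apply hu] at this
    beta_reduce
    rw [← sq, this]

end

end STRUx

open Pool.Agent.G60 in
theorem stru_row : STRU_s := by
  intro N _ χ h
  obtain ⟨r, hr, hs, hd, w, hw, hf⟩ := STRUx.real_shape χ h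
  refine ⟨r, w, hr, hs, hd, ⟨hw.2.2.1, fun n => by simpa using hw.2.1 n 1⟩, hw.1, fun n hn => ?_⟩
  apply Int.cast_injective (α := ℂ)
  rw [re_coe h, mul_comm]
  exact hf n hn

end Pool.Agent.G27
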