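import Pool.Agent.MP_b5e119_nt.G27.Defs

namespace Pool.Agent.G27

open Finset Filter Topology Pool.Agent.G60

theorem subg_one (M : ℕ) [NeZero M] : bad M 1 = 0 := by
  unfold bad
  rw [card_eq_zero, filter_eq_empty_iff]
  intro a _
  simp [lam]

theorem subg_two (M : ℕ) [NeZero M] {x t : ℕ} (hx : x ≠ 0) (ht : t ≠ 0) :
    bad M (x * t) ≤ badP M x t + bad M t := by
  unfold bad badP
  refine le_trans (card_le_card fun a ha => ?_) (card_union_le _ _)
  simp only [mem_filter, mem_univ, true_and, mem_union] at ha ⊢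
  by_contra hn
  rw [not_or, not_not, not_not] at hn
  apply ha
  rw [Nat.cast_mul, mul_assoc, hn.1, hn.2, lam_mul hx ht, mul_assoc]

theorem subg_mono {N G H m : ℕ} {β : ℝ} (h : BD N H m β) (hG : G ≤ H) : BD N G m β :=
  fun M g _ e hg => h M g e (hg.trans hG)

theorem subg_pull [Sg] (hP : PULL_s) {N H m M g t : ℕ} {β : ℝ} [NeZero M] (h : BD N H m β)
    (e : M * g = N) (ht : 0 < t) (hH : g * t ≤ H) : (badP M m t : ℝ) ≤ β * M := by
  obtain ⟨M', hM'⟩ := Nat.gcd_dvd_right t M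
  have hM0 : M' ≠ 0 := fun h0 => NeZero.ne M (by rw [hM', h0, mul_zero])
  have : NeZero M' := ⟨hM0⟩
  have e1 : M' * Nat.gcd t M = M := by rw [mul_comm]; exact hM'.symm
  have i1 := (hP M M' _ t e1 rfl).2 m
  have i2 := h M' (Nat.gcd t M * g) (by rw [← mul_assoc, e1, e])
    (le_trans (by rw [mul_comm]; exact Nat.mul_le_mul_left g (Nat.gcd_le_left M ht)) hH)
  have e2 : (M : ℝ) = M' * (Nat.gcd t M : ℕ) := by exact_mod_cast e1.symm
  calc (badP M m t : ℝ) ≤ (Nat.gcd t M : ℕ) * (bad M' m : ℝ) := by exact_mod_cast i1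
    _ ≤ (Nat.gcd t M : ℕ) * (β * M') := mul_le_mul_of_nonneg_left i2 (Nat.cast_nonneg _)
    _ = β * M := by rw [e2]; ring

theorem subg_row [Sg] (hP : PULL_s) : SUBG_s := by
  intro N G β l _ hβ
  suffices h : (∀ x ∈ l, 0 < x ∧ BD N (G * l.prod) x β) →
      0 < l.prod ∧ BD N G l.prod (l.length * β) from fun hl => (h hl).2
  induction l with
  | nil =>
    intro _
    refine ⟨by simp, fun M g _ _ _ => ?_⟩
    simp [subg_one]
  | cons x l ih =>
    intro hl
    obtain ⟨j1, j2⟩ := hl x List.mem_cons_self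
    rw [List.prod_cons] at j2 ⊢
    have hle : G * l.prod ≤ G * (x * l.prod) :=
      Nat.mul_le_mul_left G (Nat.le_mul_of_pos_left _ j1)
    obtain ⟨i1, i2⟩ := ih fun y hy => ⟨(hl y (List.mem_cons_of_mem _ hy)).1,
      subg_mono (hl y (List.mem_cons_of_mem _ hy)).2 (by rw [List.prod_cons]; exact hle)⟩
    refine ⟨Nat.mul_pos j1 i1, fun M g _ e hg => ?_⟩
    have k1 : (bad M (x * l.prod) : ℝ) ≤ badP M x l.prod + bad M l.prod := by
      exact_mod_cast subg_two M j1.ne' i1.ne'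
    have k2 := subg_pull hP j2 e i1 ((Nat.mul_le_mul_right _ hg).trans hle)
    have k3 := i2 M g e hg
    rw [List.length_cons]
    push_cast
    linarith

end Pool.Agent.G27
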