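import Pool.Agent.MP_b5e119_nt.G27.Defs

namespace Pool.Agent.G27

open Finset Filter Topology Pool.Agent.G60

theorem topn_row (hP : ∀ i : Sg, @PRIG_s i) : TOPN_s := by
  intro ε hε
  obtain ⟨N₁, h₁⟩ := hP ⟨1, Or.inl rfl⟩ ε hε
  obtain ⟨N₂, h₂⟩ := hP ⟨-1, Or.inr rfl⟩ ε hε
  refine ⟨max N₁ N₂, fun N hN e e' he he' => ?_⟩
  have a := h₁ N (le_of_max_le_left hN) e he
  have b := h₂ N (le_of_max_le_right hN) e he
  change _ ≤ (cnt N e (-(1 : ℤ) * e) : ℝ) at a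
  change _ ≤ (cnt N e (-(-1 : ℤ) * e) : ℝ) at b
  rcases he with rfl | rfl <;> rcases he' with rfl | rfl
  · simpa using b
  · simpa using a
  · simpa using a
  · simpa using b

end Pool.Agent.G27
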