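import Pool.Agent.MP_b5e119_nt.G27.Defs

namespace Pool.Agent.G27

open Finset Filter Topology Pool.Agent.G60

theorem trg_small (N : ℕ) [NeZero N] {m : ℕ} (hm : m ≠ 0) (c : ZMod N) (h : m * c.val < N) :
    ff N ((m : ZMod N) * c) = lam m * ff N c := by
  by_cases hc : c = 0
  · simp [ff, hc]
  have hv : c.val ≠ 0 := fun e => hc ((ZMod.val_eq_zero c).1 e)
  have e : ((m : ZMod N) * c).val = m * c.val := by
    have : (m : ZMod N) * c = ((m * c.val : ℕ) : ZMod N) := by
      rw [Nat.cast_mul, ZMod.natCast_zmod_val]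
    rw [this, ZMod.val_natCast, Nat.mod_eq_of_lt h]
  have hne : (m : ZMod N) * c ≠ 0 := fun e' => by
    rw [e', ZMod.val_zero] at e
    exact mul_ne_zero hm hv e.symm
  unfold ff
  rw [if_neg hne, if_neg hc, e, lam_mul hm hv]

theorem trg_window (N : ℕ) [NeZero N] {m : ℕ} (hm : m ≠ 0) (b : ZMod N) {s : ℤ} (hs : s ≠ 0)
    (h : m * b.valMinAbs.natAbs < N) (h1 : ff N (-b) = s * ff N b)
    (h2 : ff N (-((m : ZMod N) * b)) = s * ff N ((m : ZMod N) * b)) :
    ff N ((m : ZMod N) * b) = lam m * ff N b := by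
  by_cases hb : b = 0
  · simp [ff, hb]
  rw [ZMod.valMinAbs_natAbs_eq_min] at h
  rcases le_total b.val (N - b.val) with hle | hle
  · rw [min_eq_left hle] at h
    exact trg_small N hm b h
  · rw [min_eq_right hle] at h
    have hv : (-b).val = N - b.val := by rw [ZMod.neg_val, if_neg hb]
    have := trg_small N hm (-b) (by rwa [hv])
    rw [mul_neg, h2, h1, mul_left_comm] at this
    exact mul_left_cancel₀ hs this

theorem trg_row [Sg] : TRG_s := by
  classical
  intro N _ m S hm
  have h0 : m ≠ 0 := hm.ne'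
  have hsg : Sg.s ≠ 0 := by rcases Sg.hs with h | h <;> rw [h] <;> norm_num
  let A : ℕ → Finset (ZMod N) := fun s =>
    (((univ.filter fun a : ZMod N => ff N (-((s : ZMod N) * a)) ≠ Sg.s * ff N ((s : ZMod N) * a)) ∪
      (univ.filter fun a : ZMod N =>
        ff N (-(((m * s : ℕ) : ZMod N) * a)) ≠ Sg.s * ff N (((m * s : ℕ) : ZMod N) * a))) ∪
      (univ.filter fun a : ZMod N =>
        ff N ((s : ZMod N) * ((m : ZMod N) * a)) ≠ lam s * ff N ((m : ZMod N) * a))) ∪
      (univ.filter fun a : ZMod N => ff N ((s : ZMod N) * a) ≠ lam s * ff N a)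
  have hA : ∀ s ∈ S, #(A s) ≤ odP N s + odP N (m * s) + badP N s m + bad N s := by
    intro s _
    exact (card_union_le _ _).trans (add_le_add ((card_union_le _ _).trans
      (add_le_add (card_union_le _ _) le_rfl)) le_rfl)
  refine le_trans ?_ (add_le_add le_rfl ((card_biUnion_le (s := S) (t := A)).trans (sum_le_sum hA)))
  unfold bad far
  refine le_trans (card_le_card fun a ha => ?_) (card_union_le _ _)
  rw [mem_union, mem_biUnion]
  by_contra hn
  rw [not_or] at hn
  obtain ⟨n1, n2⟩ := hn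
  simp only [mem_filter, mem_univ, true_and, not_forall, not_le] at ha n1
  obtain ⟨s, hs, hw⟩ := n1
  have n3 : a ∉ A s := fun h => n2 ⟨s, hs, h⟩
  simp only [A, mem_union, mem_filter, mem_univ, true_and, not_or, not_not] at n3
  obtain ⟨⟨⟨e3, e4⟩, e2⟩, e1⟩ := n3
  rw [Nat.cast_mul, mul_assoc] at e4
  have e5 := trg_window N h0 _ hsg hw e3 e4
  apply ha
  have hl : lam s ≠ 0 := by
    unfold lam
    exact pow_ne_zero _ (by norm_num)
  apply mul_left_cancel₀ hl
  rw [← e2, mul_left_comm (s : ZMod N), e5, e1, mul_left_comm]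

end Pool.Agent.G27
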