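import Pool.Agent.MP_b5e119_nt.G27.Defs

namespace Pool.Agent.G27

open Finset Filter Topology Pool.Agent.G60

theorem uni_ind (N m : ℕ) (hN : 0 < N) : (if m.Coprime N then (1 : ℝ) else 0) =
    ∑ d ∈ N.divisors, if d ∣ m then (ArithmeticFunction.moebius d : ℝ) else 0 := by
  have h1 : ∑ d ∈ (Nat.gcd m N).divisors, ArithmeticFunction.moebius d =
      if Nat.gcd m N = 1 then 1 else 0 := by
    rw [← ArithmeticFunction.coe_mul_zeta_apply, ArithmeticFunction.moebius_mul_coe_zeta,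
      ArithmeticFunction.one_apply]
  have h2 : (Nat.gcd m N).divisors = {d ∈ N.divisors | d ∣ m} := by
    ext d
    simp only [Nat.mem_divisors, mem_filter, Nat.dvd_gcd_iff]
    constructor
    · rintro ⟨⟨a, b⟩, -⟩
      exact ⟨⟨b, hN.ne'⟩, a⟩
    · rintro ⟨⟨b, -⟩, a⟩
      exact ⟨⟨a, b⟩, (Nat.gcd_pos_of_pos_right m hN).ne'⟩
  rw [h2] at h1
  rw [← sum_filter]
  have h3 := congrArg (Int.cast : ℤ → ℝ) h1
  push_cast at h3
  rw [h3]

theorem uni_cnt (d v T : ℕ) :
    ∑ t ∈ range T, (if d ∣ v + t + 1 then (1 : ℝ) else 0) = (((v + T) / d : ℕ) : ℝ) - ((v / d : ℕ) : ℝ) := by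
  induction T with
  | zero => simp
  | succ T ih =>
    rw [sum_range_succ, ih, ← add_assoc, Nat.succ_div]
    split_ifs <;> push_cast <;> ring

theorem uni_sum (N u T : ℕ) (hN : 0 < N) : (#{t ∈ range T | (u + t).Coprime N} : ℝ) =
    ∑ d ∈ N.divisors, (ArithmeticFunction.moebius d : ℝ) *
      ((((u + (N - 1) + T) / d : ℕ) : ℝ) - (((u + (N - 1)) / d : ℕ) : ℝ)) := by
  rw [card_filter]
  push_cast
  rw [sum_congr rfl fun t _ => uni_ind N (u + t) hN, sum_comm]
  refine sum_congr rfl fun d hd => ?_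
  rw [← uni_cnt, mul_sum]
  refine sum_congr rfl fun t _ => ?_
  have h1 : u + (N - 1) + t + 1 = u + t + N := by omega
  have h2 : d ∣ u + t + N ↔ d ∣ u + t := (Nat.dvd_add_iff_left (Nat.dvd_of_mem_divisors hd)).symm
  rw [h1]
  by_cases h : d ∣ u + t
  · rw [if_pos h, if_pos (h2.2 h), mul_one]
  · rw [if_neg h, if_neg (mt h2.1 h), mul_zero]

theorem uni_phi (N : ℕ) (hN : 0 < N) :
    (N.totient : ℝ) = ∑ d ∈ N.divisors, (ArithmeticFunction.moebius d : ℝ) * ((N : ℝ) / d) := by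
  have h := uni_sum N 0 N hN
  have h1 : #{t ∈ range N | (0 + t).Coprime N} = N.totient := by
    rw [Nat.totient_eq_card_coprime]
    exact congrArg card (filter_congr fun t _ => by rw [zero_add, Nat.coprime_comm])
  rw [h1] at h
  rw [h]
  refine sum_congr rfl fun d hd => ?_
  have hd0 : 0 < d := Nat.pos_of_mem_divisors hd
  obtain ⟨e, he⟩ := Nat.dvd_of_mem_divisors hd
  have h2 : (0 + (N - 1) + N) / d = (0 + (N - 1)) / d + e := by
    rw [← Nat.add_mul_div_left _ _ hd0, ← he]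
  have h3 : (N : ℝ) / d = e := by
    rw [he]
    push_cast
    field_simp
  rw [h2, h3]
  push_cast
  ring

theorem uni_div (d v T : ℕ) (hd : 0 < d) :
    |(((v + T) / d : ℕ) : ℝ) - ((v / d : ℕ) : ℝ) - (T : ℝ) / d| ≤ 1 := by
  have key : ∀ n : ℕ, ((n / d : ℕ) : ℝ) ≤ (n : ℝ) / d ∧ (n : ℝ) / d < ((n / d : ℕ) : ℝ) + 1 := fun n =>
    ⟨Nat.cast_div_le, by
      rw [← Nat.floor_div_eq_div (K := ℝ)]
      exact Nat.lt_floor_add_one _⟩
  have h1 := key (v + T)
  have h2 := key v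
  rw [Nat.cast_add, add_div] at h1
  rw [abs_le]
  constructor <;> linarith [h1.1, h1.2, h2.1, h2.2]

theorem uni_main (N u T : ℕ) (hN : 0 < N) :
    (T : ℝ) * N.totient / N - #N.divisors ≤ #{t ∈ range T | (u + t).Coprime N} := by
  have hN' : (N : ℝ) ≠ 0 := by exact_mod_cast hN.ne'
  have h1 : (T : ℝ) * N.totient / N =
      ∑ d ∈ N.divisors, (ArithmeticFunction.moebius d : ℝ) * ((T : ℝ) / d) := by
    rw [uni_phi N hN, mul_sum, sum_div]
    refine sum_congr rfl fun d _ => ?_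
    field_simp
  rw [h1, uni_sum N u T hN, card_eq_sum_ones]
  push_cast
  rw [← sum_sub_distrib]
  refine sum_le_sum fun d hd => ?_
  have h2 := uni_div d (u + (N - 1)) T (Nat.pos_of_mem_divisors hd)
  have h3 : |(ArithmeticFunction.moebius d : ℝ)| ≤ 1 := by
    exact_mod_cast ArithmeticFunction.abs_moebius_le_one
  have h4 := mul_le_mul h3 h2 (abs_nonneg _) zero_le_one
  rw [← abs_mul] at h4
  have h5 := (abs_le.1 h4).1
  linarith

theorem uni_row : UNI_s := by
  intro N hN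
  refine ⟨fun u T => uni_main N u T hN, fun Y => (uni_main N 1 Y hN).trans (le_of_eq ?_)⟩
  unfold UN
  refine congrArg Nat.cast (card_bij (fun t _ => 1 + t) ?_ ?_ ?_)
  · intro t ht
    rw [mem_filter, mem_range] at ht
    exact mem_filter.2 ⟨mem_Icc.2 ⟨by omega, by omega⟩, ht.2⟩
  · intro a _ b _ h
    omega
  · intro n hn
    rw [mem_filter, mem_Icc] at hn
    have h1 : 1 + (n - 1) = n := by omega
    exact ⟨n - 1, mem_filter.2 ⟨mem_range.2 (by omega), by rw [h1]; exact hn.2⟩, h1⟩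

end Pool.Agent.G27
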