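import Pool.Agent.MP_b5e119_nt.G27.Defs

namespace Pool.Agent.G27

open Finset Filter Topology Pool.Agent.G60

theorem vin1g_mem {N j q : ℕ} : q ∈ QQ N j ↔ q ≤ 2 ^ j ∧ q.Prime ∧ ¬q ∣ N := by
  simp only [QQ, PP, mem_filter, mem_range, Nat.lt_succ_iff, and_assoc]

theorem vin1g_sub (N : ℕ) {i j : ℕ} (h : i ≤ j) : QQ N i ⊆ QQ N j := fun _ hq =>
  vin1g_mem.2 ⟨(vin1g_mem.1 hq).1.trans (Nat.pow_le_pow_right (by norm_num) h),
    (vin1g_mem.1 hq).2⟩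

theorem vin1g_ioc (N j : ℕ) : QQ N j ⊆ Ioc 1 (2 ^ j) := fun _ hq =>
  mem_Ioc.2 ⟨(vin1g_mem.1 hq).2.1.one_lt, (vin1g_mem.1 hq).1⟩

theorem vin1g_card (N j : ℕ) : (#(QQ N j) : ℝ) ≤ 2 ^ j := by
  have h2 := card_le_card (vin1g_ioc N j)
  rw [Nat.card_Ioc] at h2
  exact_mod_cast h2.trans (Nat.sub_le _ _)

theorem vin1g_sq (N j : ℕ) : ∑ q ∈ QQ N j, ((q : ℝ) ^ 2)⁻¹ ≤ 1 := by
  have h1 := sum_Ioc_inv_sq_le_sub (α := ℝ) (k := 1) (n := 2 ^ j) one_ne_zero Nat.one_le_two_pow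
  have h2 : (0 : ℝ) ≤ (((2 ^ j : ℕ) : ℝ))⁻¹ := by positivity
  have h3 := sum_le_sum_of_subset_of_nonneg (f := fun q : ℕ => ((q : ℝ) ^ 2)⁻¹) (vin1g_ioc N j)
    fun q _ _ => by positivity
  rw [Nat.cast_one, inv_one] at h1
  linarith

theorem vin1g_am {x y t : ℝ} (ht : 0 < t) : x * y ≤ t / 2 * x ^ 2 + 1 / t / 2 * y ^ 2 := by
  have h : 0 ≤ (t * x - y) ^ 2 / t := by positivity
  have e : (t * x - y) ^ 2 / t = t * x ^ 2 + 1 / t * y ^ 2 - 2 * (x * y) := by field_simp; ring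
  linarith

theorem vin1g_dyad (N : ℕ) (w : ℕ → ℝ) (hw : ∀ q, 0 ≤ w q) {j₀ J : ℕ} (h : j₀ ≤ J) :
    ∑ q ∈ QQ N J, w q / q ≤
      ∑ q ∈ QQ N j₀, w q / q + ∑ j ∈ Ico j₀ J, (∑ q ∈ QQ N (j + 1), w q) / 2 ^ j := by
  induction J, h using Nat.le_induction with
  | base => simp
  | succ J hJ ih =>
    rw [sum_Ico_succ_top hJ, ← sum_sdiff (vin1g_sub N (Nat.le_succ J)), ← add_assoc, add_comm]
    refine add_le_add ih ?_
    rw [sum_div]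
    refine (sum_le_sum fun q hq => ?_).trans
      (sum_le_sum_of_subset_of_nonneg sdiff_subset fun q _ _ => div_nonneg (hw q) (by positivity))
    have h1 := Finset.mem_sdiff.1 hq
    have h2 : 2 ^ J ≤ q := by
      by_contra h3
      exact h1.2 (vin1g_mem.2 ⟨by omega, (vin1g_mem.1 h1.1).2⟩)
    have h3 : (2 : ℝ) ^ J ≤ q := by exact_mod_cast h2
    exact div_le_div_of_nonneg_left (hw q) (by positivity) h3

theorem vin1g_mono (N : ℕ) (χ : Ch N) (j₀ : ℕ) {j J : ℕ} (h : j ≤ J) :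
    DD N χ j₀ j ≤ DD N χ j₀ J := by
  unfold DD
  refine sum_le_sum_of_subset_of_nonneg (Ico_subset_Ico_right h) ?_
  intro i _ _
  positivity

theorem vin1g_dd (N : ℕ) (χ : Ch N) (j₀ J : ℕ) : 0 ≤ DD N χ j₀ J := by
  unfold DD
  refine sum_nonneg ?_
  intro i _
  positivity

theorem vin1g_row (hc : CHA_s) : VIN1G_s := by
  intro N χ j₀ J hl hj hJ hne hV
  have hc' := fun j (a : j₀ ≤ j) (b : j ≤ J) => hc.1 N χ j₀ j (Nat.log 2 N) hl a (by omega) hne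
  obtain ⟨L, hL⟩ : ∃ L : ℝ, L = (Nat.log 2 N : ℝ) := ⟨_, rfl⟩
  rw [← hL] at hV hc' ⊢
  have h1 : (1 : ℝ) ≤ L := by rw [hL]; exact_mod_cast hl
  have h0 : (0 : ℝ) < L := by linarith
  have hJ' : (J : ℝ) ≤ L := by rw [hL]; exact_mod_cast hJ
  obtain ⟨S, hS⟩ : ∃ S : ℝ, S = ∑ q ∈ QQ N j₀, ‖χ (q : ZMod N) + 1‖ ^ 2 := ⟨_, rfl⟩
  have hS0 : 0 ≤ S := by rw [hS]; positivity
  have hD0 : 0 ≤ DD N χ j₀ J := vin1g_dd N χ j₀ J
  have hV' : S + DD N χ j₀ J ≤ 1 / L ^ 5 := by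
    rw [le_div_iff₀ (by positivity), hS]
    exact hV
  have ha : ∀ j, j₀ ≤ j → j ≤ J → aa N χ j ≤ 9 / L ^ 4 := by
    intro j a b
    have h2 : aa N χ j₀ ≤ S := by
      rw [aa, ← hS]
      exact div_le_self hS0 (by exact_mod_cast card_pos.2 hne)
    have h3 : DD N χ j₀ j ≤ DD N χ j₀ J := vin1g_mono N χ j₀ b
    have h4 := mul_le_mul_of_nonneg_left h3 (show 0 ≤ 1 + L by positivity)
    have h5 := mul_le_mul_of_nonneg_left hV' (show 0 ≤ 3 * L by positivity)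
    have h6 : 3 * L * (1 / L ^ 5) = 3 / L ^ 4 := by field_simp
    have h7 : 9 / L ^ 4 = 3 * (3 / L ^ 4) := by ring
    have h8 := mul_le_mul_of_nonneg_right h1 hS0
    have h9 := mul_le_mul_of_nonneg_right h1 hD0
    have h10 := hc' j a b
    have h11 := mul_nonneg h0.le hS0
    have h12 := mul_nonneg h0.le hD0
    linarith
  refine ⟨?_, ha⟩
  have key : ∀ j ∈ Ico j₀ J,
      (∑ q ∈ QQ N (j + 1), ‖χ (q : ZMod N) + 1‖) / 2 ^ j ≤ 6 / L ^ 2 := by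
    intro j hj'
    have hj1 := mem_Ico.1 hj'
    have h2 := ha (j + 1) (by omega) (by omega)
    have hp : (0 : ℝ) < #(QQ N (j + 1)) := by
      exact_mod_cast card_pos.2 (hne.mono (vin1g_sub N (by omega)))
    rw [aa, div_le_iff₀ hp] at h2
    have h3 : ∑ q ∈ QQ N (j + 1), ‖χ (q : ZMod N) + 1‖ ≤ ∑ q ∈ QQ N (j + 1),
        (L ^ 2 / 3 / 2 * ‖χ (q : ZMod N) + 1‖ ^ 2 + 1 / (L ^ 2 / 3) / 2 * 1 ^ 2) :=
      sum_le_sum fun q _ => (mul_one _).ge.trans (vin1g_am (by positivity))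
    rw [sum_add_distrib, ← mul_sum, sum_const, nsmul_eq_mul] at h3
    have h4 := mul_le_mul_of_nonneg_left h2 (show 0 ≤ L ^ 2 / 3 / 2 by positivity)
    have h5 := mul_le_mul_of_nonneg_left (vin1g_card N (j + 1))
      (show (0 : ℝ) ≤ 3 / L ^ 2 by positivity)
    rw [div_le_iff₀ (by positivity)]
    calc _ ≤ L ^ 2 / 3 / 2 * (9 / L ^ 4 * #(QQ N (j + 1))) +
          #(QQ N (j + 1)) * (1 / (L ^ 2 / 3) / 2 * 1 ^ 2) := h3.trans (add_le_add h4 le_rfl)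
      _ = 3 / L ^ 2 * #(QQ N (j + 1)) := by field_simp; ring
      _ ≤ 3 / L ^ 2 * 2 ^ (j + 1) := h5
      _ = _ := by ring
  have k0 : ∑ q ∈ QQ N j₀, ‖χ (q : ZMod N) + 1‖ / q ≤ 1 / L := by
    have h3 : ∑ q ∈ QQ N j₀, ‖χ (q : ZMod N) + 1‖ / q ≤ ∑ q ∈ QQ N j₀,
        (L / 2 * ‖χ (q : ZMod N) + 1‖ ^ 2 + 1 / L / 2 * ((q : ℝ) ^ 2)⁻¹) :=
      sum_le_sum fun q _ => by
        rw [div_eq_mul_inv, ← inv_pow]
        exact vin1g_am h0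
    rw [sum_add_distrib, ← mul_sum, ← mul_sum, ← hS] at h3
    have h4 := mul_le_mul_of_nonneg_left (vin1g_sq N j₀) (show 0 ≤ 1 / L / 2 by positivity)
    have h5 : (1 : ℝ) / L ^ 5 ≤ 1 / L ^ 2 :=
      one_div_le_one_div_of_le (by positivity) (pow_le_pow_right₀ h1 (by norm_num))
    have h6 := mul_le_mul_of_nonneg_left (show S ≤ 1 / L ^ 2 by linarith)
      (show 0 ≤ L / 2 by positivity)
    have h7 : L / 2 * (1 / L ^ 2) = 1 / L / 2 := by field_simp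
    linarith
  refine (vin1g_dyad N (fun q => ‖χ (q : ZMod N) + 1‖) (fun _ => norm_nonneg _) hj).trans
    ((add_le_add k0 (sum_le_sum key)).trans ?_)
  rw [sum_const, Nat.card_Ico, nsmul_eq_mul]
  have h2 : ((J - j₀ : ℕ) : ℝ) ≤ L := le_trans (by exact_mod_cast Nat.sub_le J j₀) hJ'
  have h3 := mul_le_mul_of_nonneg_right h2 (show 0 ≤ 6 / L ^ 2 by positivity)
  have h4 : L * (6 / L ^ 2) = 6 * (1 / L) := by field_simp
  have h5 : 8 / L = 8 * (1 / L) := by ring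
  have h6 : 0 ≤ 1 / L := by positivity
  linarith

end Pool.Agent.G27
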