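import Pool.Agent.MP_b5e119_nt.G27.Defs

namespace Pool.Agent.G27

open Finset Filter Topology Pool.Agent.G60

theorem zer_core (q u₀ : ℕ) (g : ℕ → ℤ) (hq : 0 < q) (hper : ∀ n k, g (n + q * k) = g n)
    (hmul : ∀ n, g (u₀ * n) = -g n) (hco : u₀.Coprime q) (hb : ∀ n, |g n| ≤ 1) (L u : ℕ) :
    |∑ t ∈ range L, g (u + t)| ≤ q := by
  have : NeZero q := ⟨hq.ne'⟩
  have hmod : ∀ n, g (n % q) = g n := fun n => by
    have := hper (n % q) (n / q)
    rw [Nat.mod_add_div] at this
    exact this.symm
  have h0 : ∑ t ∈ range q, g t = 0 := by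
    have e1 : ∑ t ∈ range q, g t = ∑ x : ZMod q, g x.val := by
      refine sum_nbij' (fun n => (n : ZMod q)) (fun x => x.val) (fun _ _ => mem_univ _)
        (fun x _ => mem_range.2 (ZMod.val_lt x)) (fun n hn => ZMod.val_natCast_of_lt (mem_range.1 hn))
        (fun x _ => ZMod.natCast_zmod_val x) (fun n hn => ?_)
      rw [ZMod.val_natCast_of_lt (mem_range.1 hn)]
    have e2 : ∑ x : ZMod q, g x.val = -∑ x : ZMod q, g x.val := by
      conv_lhs => rw [← Equiv.sum_comp (Units.mulLeft (ZMod.unitOfCoprime u₀ hco))]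
      rw [← sum_neg_distrib]
      refine sum_congr rfl fun x _ => ?_
      simp only [Units.mulLeft_apply, ZMod.coe_unitOfCoprime]
      rw [← hmul, ZMod.val_mul, hmod, ZMod.val_natCast, ← hmod (u₀ % q * x.val), Nat.mod_mul_mod,
        hmod]
    rw [e1]
    linarith
  have hF : ∀ v, ∑ t ∈ range q, g (v + t) = 0 := by
    intro v
    induction v with
    | zero => simpa using h0
    | succ v ih =>
      have e1 := sum_range_succ (fun t => g (v + t)) q
      have e2 := sum_range_succ' (fun t => g (v + t)) q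
      have e3 : g (v + q) = g v := by simpa using hper v 1
      have e4 : ∑ t ∈ range q, g (v + 1 + t) = ∑ t ∈ range q, g (v + (t + 1)) :=
        sum_congr rfl fun t _ => by rw [add_assoc, add_comm 1 t]
      simp only [add_zero] at e2
      rw [e4]
      linarith
  induction L using Nat.strong_induction_on generalizing u with
  | _ L ih =>
    by_cases hL : L ≤ q
    · calc |∑ t ∈ range L, g (u + t)| ≤ ∑ t ∈ range L, |g (u + t)| := abs_sum_le_sum_abs _ _
        _ ≤ ∑ _t ∈ range L, (1 : ℤ) := sum_le_sum fun t _ => hb _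
        _ = L := by simp
        _ ≤ q := by exact_mod_cast hL
    · obtain ⟨L', rfl⟩ : ∃ L', L = q + L' := ⟨L - q, by omega⟩
      rw [sum_range_add, hF, zero_add]
      have := ih L' (by omega) (u + q)
      simpa only [add_assoc] using this

theorem zer_row : ZER_s := by
  intro r u₀ u L w hr hw hm hco h1
  have hw8 : ∀ n k, w (n + 8 * k) = w n := by
    intro n k
    induction k with
    | zero => rfl
    | succ k ih => rw [mul_add, mul_one, ← add_assoc, hw.2, ih]
  have h := zer_core (8 * r) u₀ (fun n => w n * jacobiSym (n : ℤ) r) (by omega) (fun n k => ?_)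
    (fun n => ?_) hco (fun n => ?_) L u
  · exact_mod_cast h
  · rw [mul_assoc, hw8]
    congr 1
    apply jacobiSym.mod_left'
    push_cast
    rw [show (n : ℤ) + 8 * (r * k) = n + r * (8 * k) by ring, Int.add_mul_emod_self_left]
  · rw [hm, Nat.cast_mul, jacobiSym.mul_left]
    linear_combination (w n * jacobiSym (n : ℤ) r) * h1
  · rw [abs_mul]
    refine mul_le_one₀ (hw.1 n) (abs_nonneg _) ?_
    rcases jacobiSym.trichotomy (n : ℤ) r with e | e | e <;> simp [e]

end Pool.Agent.G27
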