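import Pool.Agent.MP_b5e119_nt.G60.SQ
import Pool.Agent.MP_b5e119_nt.G60.HYP
import Pool.Agent.MP_b5e119_nt.G60.LIO1
import Pool.Agent.MP_b5e119_nt.G60.LIO
import Pool.Agent.MP_b5e119_nt.G60.CHEB
import Pool.Agent.MP_b5e119_nt.G60.SMO
import Pool.Agent.MP_b5e119_nt.G60.TAIL
import Pool.Agent.MP_b5e119_nt.G60.MON
import Pool.Agent.MP_b5e119_nt.G27.PULL
import Pool.Agent.MP_b5e119_nt.G27.TRG
import Pool.Agent.MP_b5e119_nt.G27.FAR
import Pool.Agent.MP_b5e119_nt.G27.ODG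
import Pool.Agent.MP_b5e119_nt.G27.SUBG
import Pool.Agent.MP_b5e119_nt.G27.DIRG
import Pool.Agent.MP_b5e119_nt.G27.ODSG
import Pool.Agent.MP_b5e119_nt.G27.UNI
import Pool.Agent.MP_b5e119_nt.G27.FEJG
import Pool.Agent.MP_b5e119_nt.G27.ST2G
import Pool.Agent.MP_b5e119_nt.G27.TAU
import Pool.Agent.MP_b5e119_nt.G27.CHQ
import Pool.Agent.MP_b5e119_nt.G27.PHI
import Pool.Agent.MP_b5e119_nt.G27.PARG
import Pool.Agent.MP_b5e119_nt.G27.MUG
import Pool.Agent.MP_b5e119_nt.G27.SPECG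
import Pool.Agent.MP_b5e119_nt.G27.PVP
import Pool.Agent.MP_b5e119_nt.G27.PV
import Pool.Agent.MP_b5e119_nt.G27.LOCG
import Pool.Agent.MP_b5e119_nt.G27.FIN1G
import Pool.Agent.MP_b5e119_nt.G27.CHNG
import Pool.Agent.MP_b5e119_nt.G27.FEWG
import Pool.Agent.MP_b5e119_nt.G27.CHA
import Pool.Agent.MP_b5e119_nt.G27.VIN1G
import Pool.Agent.MP_b5e119_nt.G27.VIN2G
import Pool.Agent.MP_b5e119_nt.G27.PRNC
import Pool.Agent.MP_b5e119_nt.G27.CONB
import Pool.Agent.MP_b5e119_nt.G27.CONA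
import Pool.Agent.MP_b5e119_nt.G27.CONG
import Pool.Agent.MP_b5e119_nt.G27.STRG
import Pool.Agent.MP_b5e119_nt.G27.STRU
import Pool.Agent.MP_b5e119_nt.G27.ZER
import Pool.Agent.MP_b5e119_nt.G27.MOMJ
import Pool.Agent.MP_b5e119_nt.G27.BURGG
import Pool.Agent.MP_b5e119_nt.G27.ENEJ
import Pool.Agent.MP_b5e119_nt.G27.BUR1J
import Pool.Agent.MP_b5e119_nt.G27.BURJ
import Pool.Agent.MP_b5e119_nt.G27.SIEGG
import Pool.Agent.MP_b5e119_nt.G27.PRIG
import Pool.Agent.MP_b5e119_nt.G27.MANYG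
import Pool.Agent.MP_b5e119_nt.G27.FING
import Pool.Agent.MP_b5e119_nt.G27.TOPN

/-! Assembly of the rows. -/

namespace Pool.Agent.G27

open Pool.Agent.G60

theorem phi : PHI_s := phi_row cheb_row

theorem chq : CHQ_s := chq_row cheb_row

theorem pv : PV_s := pv_row tau_row pvp_row

theorem mug : MUG_s := mug_row parg_row

theorem burgg : BURGG_s :=
  burgg_row tau_row stru_row (burj_row cheb_row (momj_row tau_row) (bur1j_row enej_row)) zer_row

theorem con2 : CON2_s :=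
  con2_row chq (vin1g_row cha_row) (prn_row cheb_row tau_row phi uni_row pv vin2g_row)

theorem cong [Sg] : CONG_s :=
  cong_row mug (con1_row phi chq mug
    (chng_row cheb_row tau_row uni_row chq parg_row (locg_row pv)) cha_row
    (fewg_row phi chq specg_row)) con2

theorem st2g [Sg] : ST2G_s :=
  st2g_row smo_row pull_row trg_row (dirg_row pull_row trg_row far_row) (subg_row pull_row) fejg_row

theorem prig [Sg] : PRIG_s :=
  prig_row cheb_row (odsg_row (lio_row sq_row hyp_row lio1_row) mon_row odg_row) st2g cong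
    (strg_row phi) (manyg_row sq_row hyp_row tail_row tau_row burgg (siegg_row phi))
    (fing_row cheb_row phi (fin1g_row tau_row phi uni_row burgg))

theorem topn : TOPN_s := topn_row fun i => @prig i

end Pool.Agent.G27
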