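import Pool.Agent.MP_b5e119_nt.G27.Defs

namespace Pool.Agent.G27

open Finset Filter Topology Pool.Agent.G60

theorem specg_lt {p j r : ℕ} (h : 2 ^ (j * r) < p) {f : Fin r → ℕ}
    (hf : f ∈ Fintype.piFinset fun _ : Fin r => QQ p j) : 0 < ∏ i, f i ∧ ∏ i, f i < p := by
  have h1 : ∀ i, f i ≤ 2 ^ j ∧ (f i).Prime := fun i => by
    have := mem_filter.1 (mem_filter.1 (Fintype.mem_piFinset.1 hf i)).1
    exact ⟨Nat.lt_succ_iff.1 (mem_range.1 this.1), this.2⟩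
  refine ⟨prod_pos fun i _ => (h1 i).2.pos, lt_of_le_of_lt ?_ h⟩
  have := prod_le_pow_card univ f (2 ^ j) fun i _ => (h1 i).1
  rwa [card_univ, Fintype.card_fin, ← pow_mul] at this

theorem specg_cnt {p j r : ℕ} (h : 2 ^ (j * r) < p) {f : Fin r → ℕ}
    (hf : f ∈ Fintype.piFinset fun _ : Fin r => QQ p j) :
    #{g ∈ Fintype.piFinset fun _ : Fin r => QQ p j |
      ((∏ i, f i : ℕ) : ZMod p) = ((∏ i, g i : ℕ) : ZMod p)} ≤ r ^ r := by
  have sub : {g ∈ Fintype.piFinset fun _ : Fin r => QQ p j |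
      ((∏ i, f i : ℕ) : ZMod p) = ((∏ i, g i : ℕ) : ZMod p)} ⊆
      Fintype.piFinset fun _ : Fin r => univ.image f := by
    intro g hg
    obtain ⟨g1, g2⟩ := mem_filter.1 hg
    have e : ∏ i, f i = ∏ i, g i := Nat.ModEq.eq_of_lt_of_lt
      ((ZMod.natCast_eq_natCast_iff _ _ _).1 g2) (specg_lt h hf).2 (specg_lt h g1).2
    refine Fintype.mem_piFinset.2 fun i => ?_
    have pg : (g i).Prime := (mem_filter.1 (mem_filter.1 (Fintype.mem_piFinset.1 g1 i)).1).2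
    obtain ⟨k, -, hk⟩ := (pg.prime.dvd_finsetProd_iff f).1 (e ▸ dvd_prod_of_mem g (mem_univ i))
    have pf : (f k).Prime := (mem_filter.1 (mem_filter.1 (Fintype.mem_piFinset.1 hf k)).1).2
    exact mem_image.2 ⟨k, mem_univ k, ((Nat.prime_dvd_prime_iff_eq pg pf).1 hk).symm⟩
  refine (card_le_card sub).trans ?_
  rw [Fintype.card_piFinset_const]
  exact Nat.pow_le_pow_left (card_image_le.trans (by simp)) r

theorem specg_unit {p j r : ℕ} {f : Fin r → ℕ}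
    (hf : f ∈ Fintype.piFinset fun _ : Fin r => QQ p j) : IsUnit ((∏ i, f i : ℕ) : ZMod p) := by
  rw [ZMod.isUnit_iff_coprime]
  refine Nat.Coprime.prod_left fun i _ => ?_
  have := mem_filter.1 (Fintype.mem_piFinset.1 hf i)
  exact (Nat.Prime.coprime_iff_not_dvd (mem_filter.1 this.1).2).2 this.2

theorem specg_mom (p : ℕ) [NeZero p] {j r : ℕ} (h : 2 ^ (j * r) < p) :
    ∑ χ : Ch p, ‖∑ q ∈ QQ p j, χ (q : ZMod p)‖ ^ (2 * r) ≤ (p : ℝ) * (#(QQ p j) ^ r * r ^ r) := by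
  have e1 : ∀ χ : Ch p, (∑ q ∈ QQ p j, χ (q : ZMod p)) ^ r =
      ∑ f ∈ Fintype.piFinset fun _ : Fin r => QQ p j, χ ((∏ i, f i : ℕ) : ZMod p) := by
    intro χ
    rw [sum_pow']
    exact sum_congr rfl fun f _ => by rw [Nat.cast_prod, map_prod]
  have e2 : ∀ χ : Ch p, ((‖∑ q ∈ QQ p j, χ (q : ZMod p)‖ ^ (2 * r) : ℝ) : ℂ) =
      ∑ f ∈ Fintype.piFinset fun _ : Fin r => QQ p j, ∑ g ∈ Fintype.piFinset fun _ : Fin r => QQ p j,
        χ ((∏ i, f i : ℕ) : ZMod p)⁻¹ * χ ((∏ i, g i : ℕ) : ZMod p) := by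
    intro χ
    rw [mul_comm 2 r, pow_mul, ← norm_pow, Complex.ofReal_pow, ← Complex.conj_mul', e1, map_sum,
      sum_mul_sum]
    refine sum_congr rfl fun f hf => sum_congr rfl fun g _ => ?_
    obtain ⟨u, hu⟩ := specg_unit hf
    rw [← hu, ZMod.inv_coe_unit, ← Ring.inverse_unit, ← MulChar.inv_apply, ← MulChar.star_apply']
    rfl
  have e3 : ((∑ χ : Ch p, ‖∑ q ∈ QQ p j, χ (q : ZMod p)‖ ^ (2 * r) : ℝ) : ℂ) =
      ((∑ f ∈ Fintype.piFinset fun _ : Fin r => QQ p j,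
        #{g ∈ Fintype.piFinset fun _ : Fin r => QQ p j |
          ((∏ i, f i : ℕ) : ZMod p) = ((∏ i, g i : ℕ) : ZMod p)} * p.totient : ℕ) : ℂ) := by
    rw [Complex.ofReal_sum, sum_congr rfl fun χ _ => e2 χ, sum_comm, Nat.cast_sum]
    refine sum_congr rfl fun f hf => ?_
    have u := specg_unit hf
    rw [sum_comm, sum_congr rfl fun g _ => DirichletCharacter.sum_char_inv_mul_char_eq ℂ u _,
      ← sum_filter, sum_const, nsmul_eq_mul, Nat.cast_mul]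
  rw [← Complex.ofReal_natCast, Complex.ofReal_inj] at e3
  rw [e3]
  have b := sum_le_card_nsmul (Fintype.piFinset fun _ : Fin r => QQ p j) _ (r ^ r * p) fun f hf =>
    Nat.mul_le_mul (specg_cnt h hf) p.totient_le
  rw [Fintype.card_piFinset_const, smul_eq_mul] at b
  refine (Nat.cast_le.2 b).trans (le_of_eq ?_)
  push_cast
  ring

theorem specg_row : SPECG_s := by
  intro p hp j r h
  have P0 : (0 : ℝ) < (#(QQ p j) : ℝ) ^ r ∨ #(QQ p j) ^ r = 0 := by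
    rcases Nat.eq_zero_or_pos (#(QQ p j) ^ r) with z | z
    · exact Or.inr z
    · exact Or.inl (by exact_mod_cast z)
  rcases P0 with P0 | z
  swap
  · rw [z, mul_zero]
    exact Nat.zero_le _
  have lo : (#(LQ p j) : ℝ) * ((#(QQ p j) : ℝ) / 2) ^ (2 * r) ≤
      ∑ χ : Ch p, ‖∑ q ∈ QQ p j, χ (q : ZMod p)‖ ^ (2 * r) := by
    refine le_trans ?_ (sum_le_sum_of_subset_of_nonneg (subset_univ (LQ p j))
      fun _ _ _ => by positivity)
    rw [← nsmul_eq_mul]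
    refine card_nsmul_le_sum _ _ _ fun χ hχ => pow_le_pow_left₀ (by positivity) ?_ _
    have := (mem_filter.1 hχ).2
    rw [sum_neg_distrib] at this
    exact this.trans ((Complex.re_le_norm _).trans (norm_neg _).le)
  have k := lo.trans (specg_mom p h)
  have e : (#(LQ p j) : ℝ) * ((#(QQ p j) : ℝ) / 2) ^ (2 * r) =
      (#(LQ p j) : ℝ) * (#(QQ p j) : ℝ) ^ r / 4 ^ r * (#(QQ p j) : ℝ) ^ r := by
    rw [pow_mul, show ((#(QQ p j) : ℝ) / 2) ^ 2 = #(QQ p j) / 4 * #(QQ p j) by ring, mul_pow, div_pow]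
    ring
  rw [e, show (p : ℝ) * (#(QQ p j) ^ r * r ^ r) = p * r ^ r * #(QQ p j) ^ r by ring,
    mul_le_mul_iff_left₀ P0, div_le_iff₀ (by positivity)] at k
  have : ((#(LQ p j) * #(QQ p j) ^ r : ℕ) : ℝ) ≤ ((p * (4 * r) ^ r : ℕ) : ℝ) := by
    push_cast
    rw [mul_pow]
    linarith
  exact_mod_cast this

end Pool.Agent.G27

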