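import Pool.Agent.MP_b5e119_nt.G27.ZDefs
import Pool.Agent.MP_b5e119_nt.G27.ODSG
import Pool.Agent.MP_b5e119_nt.G27.MANYG
import Pool.Agent.MP_b5e119_nt.G27.SIEGG
import Pool.Agent.MP_b5e119_nt.G27.PRIG

/-! The count of sign patterns with the values `L(1, χ)` kept. -/

namespace Pool.Agent.G27

open Finset Filter Topology Pool.Agent.G60 DirichletCharacter

theorem z_log {p k : ℕ} (h : 2 ^ k ≤ p) : k ≤ Nat.log 2 p := Nat.le_log_of_pow_le one_lt_two h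

theorem z_real {p : ℕ} (hp : p ≠ 0) : Real.log p ≤ (Nat.log 2 p : ℝ) + 1 := by
  have a1 : (p : ℝ) ≤ (2 : ℝ) ^ (Nat.log 2 p + 1) := by
    exact_mod_cast (Nat.lt_pow_succ_log_self one_lt_two p).le
  have a2 := Real.log_le_log (by exact_mod_cast Nat.pos_of_ne_zero hp) a1
  rw [Real.log_pow] at a2
  have a3 := Real.log_two_lt_d9
  have a4 : (0 : ℝ) ≤ Nat.log 2 p := Nat.cast_nonneg _
  push_cast at a2
  nlinarith

theorem odsz_row [Sg] (hLIO : LIO_s) (hMON : MON_s) (hODG : ODG_s) : ODSZ_s := by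
  intro B
  obtain ⟨C, hC, h⟩ := hLIO (B + 1)
  obtain ⟨p₂, hp₂⟩ := odsg_ev B (1 / 2) (by norm_num)
  refine ⟨⌈Real.exp (12 * C * 8 ^ B)⌉₊ + 64 + p₂, fun N hN e he G hG hc M g _ hM hg => ?_⟩
  have hN64 : (64 : ℝ) ≤ N := by exact_mod_cast (by omega : 64 ≤ N)
  have hN0 : (0 : ℝ) < N := by linarith
  have hq2 := hp₂ N (by omega)
  have hl := odsg_log N (by omega)
  have hl6 : (6 : ℝ) ≤ Nat.log 2 N := by exact_mod_cast z_log (k := 6) (p := N) (by omega)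
  have hLN : 12 * C * 8 ^ B ≤ Real.log N := by
    rw [Real.le_log_iff_exp_le hN0]
    refine (Nat.le_ceil _).trans ?_
    exact_mod_cast (by omega : ⌈Real.exp (12 * C * 8 ^ B)⌉₊ ≤ N)
  have hg0 : 0 < g := Nat.pos_of_ne_zero fun e0 => by
    rw [e0, mul_zero] at hM
    omega
  have hM0 : (0 : ℝ) ≤ M := Nat.cast_nonneg _
  have hgM : g ≤ M := by
    have a1 : g * g ≤ M * g := by
      rw [hM]
      exact le_trans (by rw [sq]; exact Nat.mul_le_mul hg hg) hG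
    exact Nat.le_of_mul_le_mul_right a1 hg0
  have hNM : (N : ℝ) ≤ (M : ℝ) ^ 2 := by
    have a1 : N ≤ M ^ 2 := by rw [← hM, sq]; exact Nat.mul_le_mul_left _ hgM
    exact_mod_cast a1
  have hk1 : (N : ℝ) ^ (1 / 2 : ℝ) ≤ M := by
    rw [← Real.sqrt_eq_rpow]
    exact Real.sqrt_le_iff.2 ⟨hM0, hNM⟩
  have hsq : (N : ℝ) ≤ 4 * (M : ℝ) ^ 2 := by nlinarith
  have hcM : cnt N e (-Sg.s * e) * Nat.log 2 N ^ (B + 1) ≤ M := by
    refine Nat.le_of_mul_le_mul_right ?_ hg0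
    rw [hM]
    refine le_trans ?_ hc
    rw [mul_right_comm]
    exact Nat.mul_le_mul_right _ (Nat.mul_le_mul_left _ hg)
  have hM4 : (4 : ℝ) ≤ M := by nlinarith
  have hM4' : 4 ≤ M := by exact_mod_cast hM4
  obtain ⟨x, rfl⟩ : ∃ x, M = x + 1 := ⟨M - 1, by omega⟩
  have hx3 : (3 : ℝ) ≤ x := by exact_mod_cast (by omega : 3 ≤ x)
  have hL0 : 0 < Real.log x := Real.log_pos (by linarith)
  have hLx : Real.log N ≤ 4 * Real.log x := by
    have a0 : 2 * ((x : ℝ) + 1) ≤ (x : ℝ) ^ 2 := by nlinarith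
    have a1 : (N : ℝ) ≤ (x : ℝ) ^ 4 := by
      push_cast at hsq
      nlinarith
    have a2 := Real.log_le_log hN0 a1
    rw [Real.log_pow] at a2
    exact_mod_cast a2
  have he' : lam g * e = 1 ∨ lam g * e = -1 := by
    rcases lam_cases g with a | a <;> rcases he with b | b <;> rw [a, b] <;> norm_num
  have h2 := hODG (x + 1) (lam g * e) he'
  rw [Nat.add_sub_cancel] at h2
  have h3 := hMON (x + 1) g (lam g * e) (-Sg.s * (lam g * e)) hg0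
  have e1 : lam g * (lam g * e) = e := by
    rcases lam_cases g with a | a <;> rw [a] <;> ring
  have e2 : lam g * (-Sg.s * (lam g * e)) = -Sg.s * e := by
    rcases lam_cases g with a | a <;> rw [a] <;> ring
  rw [hM, e1, e2] at h3
  have h4 : (od (x + 1) : ℝ) ≤ |∑ n ∈ Icc 1 x, (lam n : ℝ)| +
      2 * cnt (x + 1) (lam g * e) (-Sg.s * (lam g * e)) := by exact_mod_cast h2
  obtain ⟨c, hc0⟩ : ∃ c : ℝ, c = cnt N e (-Sg.s * e) := ⟨_, rfl⟩
  have hc1 : 0 ≤ c := by rw [hc0]; positivity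
  have h5 : (cnt (x + 1) (lam g * e) (-Sg.s * (lam g * e)) : ℝ) ≤ c := by
    rw [hc0]; exact_mod_cast h3
  have h1 := h x (by omega)
  have hlB : (Nat.log 2 N : ℝ) ^ B ≤ (2 * Real.log N) ^ B := by gcongr
  have t1 : |∑ n ∈ Icc 1 x, (lam n : ℝ)| * (Nat.log 2 N : ℝ) ^ B ≤ ((x + 1 : ℕ) : ℝ) / 3 := by
    calc _ ≤ C * x / Real.log x ^ (B + 1) * (8 * Real.log x) ^ B := by
          gcongr
          linarith
      _ = 3 * C * 8 ^ B / Real.log x * (x / 3) := by rw [mul_pow]; field_simp; ring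
      _ ≤ 1 * (x / 3) := by
          gcongr
          exact (div_le_one hL0).2 (by linarith)
      _ ≤ _ := by push_cast; linarith
  have hpos : (0 : ℝ) < (Nat.log 2 N : ℝ) ^ B := by positivity
  have t2 : 2 * c * (Nat.log 2 N : ℝ) ^ B ≤ ((x + 1 : ℕ) : ℝ) / 3 := by
    have a1 : c * (Nat.log 2 N : ℝ) ^ (B + 1) ≤ ((x + 1 : ℕ) : ℝ) := by
      rw [hc0]; exact_mod_cast hcM
    have a2 : c * (Nat.log 2 N : ℝ) ^ B * 6 ≤ c * (Nat.log 2 N : ℝ) ^ B * Nat.log 2 N :=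
      mul_le_mul_of_nonneg_left hl6 (by positivity)
    rw [pow_succ] at a1
    linarith
  have t3 : (Nat.log 2 N : ℝ) ^ B ≤ ((x + 1 : ℕ) : ℝ) / 3 := by linarith
  rw [div_mul_eq_mul_div, one_mul, le_div_iff₀ hpos]
  calc _ ≤ (|∑ n ∈ Icc 1 x, (lam n : ℝ)| + 2 * c + 1) * (Nat.log 2 N : ℝ) ^ B := by
        gcongr
        linarith
    _ ≤ _ := by
        rw [add_mul, add_mul, one_mul]
        linarith

theorem manyz_row (hSQ : SQ_s) (hH : HYP_s) (hT : TAIL_s) (hTAU : TAU_s) (hB : BURGG_s)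
    (hPHI : PHI_s) : MANYZ_s := by
  obtain ⟨κ, hκ, p₁, hc⟩ := manyg_core hSQ hH hT hTAU hB
  obtain ⟨c₀, hc₀, hS⟩ := siegg_norm hPHI (κ / 2) (by positivity)
  have ev2 : ∀ᶠ p : ℕ in atTop, 2 * (17 + 16 / κ) / c₀ < (p : ℝ) ^ (κ / 4) :=
    ((tendsto_rpow_atTop (by positivity)).comp tendsto_natCast_atTop_atTop).eventually_gt_atTop _
  obtain ⟨p₀, hp₀⟩ := eventually_atTop.1 (ev2.and
    ((eventually_ge_atTop p₁).and (eventually_ge_atTop (2 ^ 10))))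
  refine ⟨p₀, fun p _ hp χ hχ2 hχ1 => ?_⟩
  obtain ⟨h2, h3, h4⟩ := hp₀ p hp
  obtain ⟨L, eL, hlim⟩ := siegg_L hχ2 hχ1
  have hL := hS p χ hχ2 hχ1
  rw [eL] at hL ⊢
  have hL1 := hc p h3 χ hχ2 hχ1 L hlim
  have hp1 : (1 : ℝ) ≤ p := by exact_mod_cast (by omega : 1 ≤ p)
  have hp0 : (0 : ℝ) < p := by linarith
  obtain ⟨Z, hZ⟩ : ∃ Z : ℝ, Z = ∑ c ∈ SP χ, 1 / (c : ℝ) := ⟨_, rfl⟩
  have hZ0 : 0 ≤ Z := by rw [hZ]; positivity
  obtain ⟨δ, hδ⟩ : ∃ δ : ℝ, δ = (p : ℝ) ^ (-κ) := ⟨_, rfl⟩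
  have hδ0 : 0 < δ := by rw [hδ]; positivity
  rw [← hZ] at hL1 ⊢
  rw [← hδ] at hL1
  obtain ⟨s, hs⟩ : ∃ s : ℝ, s = (p : ℝ) ^ (κ / 4) := ⟨_, rfl⟩
  have hs1 : 1 ≤ s := by rw [hs]; exact Real.one_le_rpow hp1 (by positivity)
  have hs0 : 0 < s := by linarith
  have hs2 : (p : ℝ) ^ (κ / 2) = s ^ 2 := by
    rw [hs, ← Real.rpow_natCast, ← Real.rpow_mul hp0.le]; congr 1; push_cast; ring
  have hs4 : δ * s ^ 4 = 1 := by
    rw [hδ, hs, ← Real.rpow_natCast, ← Real.rpow_mul hp0.le, ← Real.rpow_add hp0]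
    have e : -κ + κ / 4 * ((4 : ℕ) : ℝ) = 0 := by push_cast; ring
    rw [e, Real.rpow_zero]
  have hlg : Real.log p ≤ s / (κ / 4) := by
    rw [hs]; exact Real.log_le_rpow_div hp0.le (by positivity)
  rw [← hs] at h2
  rw [hs2, div_le_iff₀ (by positivity)] at hL
  rw [div_lt_iff₀ hc₀] at h2
  have f1 : 17 + 4 * Real.log p ≤ (17 + 16 / κ) * s := by
    have e : (17 + 16 / κ) * s = 17 * s + 4 * (s / (κ / 4)) := by field_simp; ring
    rw [e]; linarith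
  have f2 : δ * (17 + 4 * Real.log p) ≤ δ * ((17 + 16 / κ) * s) :=
    mul_le_mul_of_nonneg_left f1 hδ0.le
  have f3 : δ * (2 * (17 + 16 / κ) * s) ≤ δ * (s * c₀ * s) :=
    mul_le_mul_of_nonneg_left (mul_le_mul_of_nonneg_right h2.le hs0.le) hδ0.le
  have f4 : δ * (s * c₀ * s) ≤ |L| := by
    refine le_of_mul_le_mul_right ?_ (by positivity : 0 < s ^ 2)
    have f5 : δ * (s * c₀ * s) * s ^ 2 = c₀ * (δ * s ^ 4) := by ring
    rw [f5, hs4, mul_one]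
    exact hL
  have f6 : |L| ≤ 8 * (1 + Real.log p) * Z := by linarith
  have f7 := z_real (p := p) (by omega)
  have f8 : (10 : ℝ) ≤ Nat.log 2 p := by exact_mod_cast z_log h4
  exact f6.trans (mul_le_mul_of_nonneg_right (by nlinarith) hZ0)

theorem z_euler {N r : ℕ} [NeZero N] (ψ : Ch r) :
    ‖∏ p ∈ N.primeFactors, (1 - ψ p * (p : ℂ) ^ (-(1 : ℂ)))‖ * N.totient ≤ N := by
  have hN : (0 : ℝ) < N := by exact_mod_cast NeZero.pos N
  have e : (N.totient : ℝ) = N * ∏ p ∈ N.primeFactors, (1 - (p : ℝ)⁻¹) := by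
    have h := congrArg (fun x : ℚ => (x : ℝ)) (Nat.totient_eq_mul_prod_factors N)
    simpa using h
  rw [e, norm_prod, mul_left_comm, ← prod_mul_distrib]
  refine mul_le_of_le_one_right hN.le (prod_le_one (fun p hp => ?_) fun p hp => ?_)
  · have : (1 : ℝ) ≤ p := by exact_mod_cast (Nat.prime_of_mem_primeFactors hp).one_le
    exact mul_nonneg (norm_nonneg _) (sub_nonneg.2 (inv_le_one_of_one_le₀ this))
  · have h1 : (1 : ℝ) ≤ p := by exact_mod_cast (Nat.prime_of_mem_primeFactors hp).one_le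
    have h2 := inv_le_one_of_one_le₀ h1
    have h0 : (0 : ℝ) ≤ (p : ℝ)⁻¹ := by positivity
    have h3 : ‖1 - ψ p * (p : ℂ) ^ (-(1 : ℂ))‖ ≤ 1 + (p : ℝ)⁻¹ := by
      refine (norm_sub_le _ _).trans ?_
      rw [norm_one, norm_mul, Complex.cpow_neg_one, norm_inv, Complex.norm_natCast]
      have := mul_le_mul_of_nonneg_right (ψ.norm_le_one p) h0
      linarith
    have h4 := mul_le_mul_of_nonneg_right h3 (sub_nonneg.2 h2)
    nlinarith

theorem priz_row [Sg] (hC : CHEB_s) (hMON : MON_s) (hPHI : PHI_s) (hO : ODSZ_s) (hR : RED_s)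
    (hCON : CONG_s) (hSTR : STRG_s) (hM : MANYZ_s) (hF : FING_s) : PRIZ_s := by
  obtain ⟨B₁, K, N₁, H⟩ := prig_core hC hCON hSTR hF
  obtain ⟨B₂, C, N₂, hR⟩ := hR B₁ K
  obtain ⟨N₃, hO⟩ := hO B₂
  obtain ⟨N₄, hM⟩ := hM
  obtain ⟨N₅, hE⟩ := prig_ev 1 one_pos (C * 2)
  obtain ⟨D, hD, hP⟩ := hPHI
  obtain ⟨W, hW⟩ : ∃ W, W = 2 ^ (⌈D⌉₊ + 1) := ⟨_, rfl⟩
  refine ⟨C + B₂ + 9, (N₁ + N₄) ^ 2 + N₂ + N₃ + N₅ + W, fun N _ hN m hm hχ e he => ?_⟩
  have hlD : ⌈D⌉₊ + 1 ≤ Nat.log 2 N := z_log (by rw [← hW]; omega)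
  have hN0 := NeZero.pos N
  have h0 : (0 : ℝ) < N := by exact_mod_cast hN0
  have hG : (Nat.log 2 N ^ C) ^ 2 ≤ N := by
    have := (hE N (by clear hW; omega)).le
    rw [Real.rpow_one, pow_mul] at this
    exact_mod_cast this
  have hN2 : 2 ≤ N := by
    have : 2 ^ 1 ≤ W := hW ▸ Nat.pow_le_pow_right two_pos (by omega)
    omega
  clear hW
  have hPN := hP N hN2
  obtain ⟨n, hn⟩ : ∃ n, n = Nat.log 2 N := ⟨_, rfl⟩
  have n1 : (1 : ℝ) ≤ n := by rw [hn]; exact_mod_cast (by omega : 1 ≤ Nat.log 2 N)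
  have nD : D ≤ n := (Nat.le_ceil D).trans (by rw [hn]; exact_mod_cast (by omega))
  obtain ⟨c, hc⟩ : ∃ c, c = cnt N e (-Sg.s * e) := ⟨_, rfl⟩
  have c0 : (0 : ℝ) ≤ c := Nat.cast_nonneg _
  by_cases hbig : cnt N e (-Sg.s * e) * Nat.log 2 N ^ C * Nat.log 2 N ^ (B₂ + 1) ≤ N
  · obtain ⟨M, g, _, hMg, hg, hGd⟩ := hR N (by omega) (hO N (by omega) e he _ hG hbig)
    have hg0 : 0 < g := Nat.pos_of_ne_zero fun e0 => by
      rw [e0, mul_zero] at hMg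
      omega
    have hgM : g ≤ M := by
      have a1 : g * g ≤ M * g := by
        rw [hMg]
        exact le_trans (by rw [sq]; exact Nat.mul_le_mul hg hg) hG
      exact Nat.le_of_mul_le_mul_right a1 hg0
    have hMl : N₁ + N₄ ≤ M := by
      have a1 : N ≤ M ^ 2 := by rw [← hMg, sq]; exact Nat.mul_le_mul_left _ hgM
      exact (Nat.pow_le_pow_iff_left two_ne_zero).1 (by omega : (N₁ + N₄) ^ 2 ≤ M ^ 2)
    have he' : lam g * e = 1 ∨ lam g * e = -1 := by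
      rcases lam_cases g with a | a <;> rcases he with b | b <;> rw [a, b] <;> norm_num
    obtain ⟨χ, h2, h1, h3⟩ := H M (by omega) hGd (lam g * e) he'
    have h4 := hMON M g (lam g * e) (-Sg.s * (lam g * e)) hg0
    have e1 : lam g * (lam g * e) = e := by
      rcases lam_cases g with a | a <;> rw [a] <;> ring
    have e2 : lam g * (-Sg.s * (lam g * e)) = -Sg.s * e := by
      rcases lam_cases g with a | a <;> rw [a] <;> ring
    rw [hMg, e1, e2, ← hc] at h4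
    have h5 := hM M (by omega) χ h2 h1
    have hd : M ∣ N := ⟨g, hMg.symm⟩
    have h6 := hχ (changeLevel hd χ) (fun h => h1 ((changeLevel_eq_one_iff hd).1 h))
      (by rw [← map_pow, h2, map_one])
    rw [LFunction_changeLevel hd χ (Or.inl h1), norm_mul] at h6
    have h7 := z_euler (N := N) χ
    obtain ⟨P, hPe⟩ : ∃ P, P = ‖∏ p ∈ N.primeFactors, (1 - χ p * (p : ℂ) ^ (-(1 : ℂ)))‖ := ⟨_, rfl⟩
    have P0 : 0 ≤ P := by rw [hPe]; positivity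
    rw [← hPe] at h6 h7
    have t0 : (0 : ℝ) < N.totient := by exact_mod_cast Nat.totient_pos.2 hN0
    have h8 : P ≤ (n : ℝ) ^ 2 := by
      refine le_of_mul_le_mul_right (h7.trans (hPN.trans ?_)) t0
      have a1 := Real.rpow_le_rpow_of_exponent_le n1 (by norm_num : (1 / 4 : ℝ) ≤ 1)
      rw [Real.rpow_one] at a1
      rw [← hn]
      calc D * N.totient * (n : ℝ) ^ (1 / 4 : ℝ) ≤ n * N.totient * n := by gcongr
        _ = _ := by ring
    have hlM : (Nat.log 2 M : ℝ) ≤ n := by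
      rw [hn]
      exact_mod_cast Nat.log_mono_right (Nat.le_of_dvd hN0 hd)
    obtain ⟨Z, hZ⟩ : ∃ Z : ℝ, Z = ∑ c ∈ SP χ, 1 / (c : ℝ) := ⟨_, rfl⟩
    have hZ0 : 0 ≤ Z := by rw [hZ]; positivity
    rw [← hZ] at h3 h5
    have h9 : m ≤ (n : ℝ) ^ 2 * Z * (n : ℝ) ^ 2 :=
      h6.trans (mul_le_mul (h5.trans (by gcongr)) h8 P0 (by positivity))
    have h10 : (M : ℝ) * Z ≤ (n : ℝ) ^ 5 * c :=
      h3.trans (mul_le_mul (by gcongr) (by exact_mod_cast h4) (by positivity) (by positivity))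
    have h11 : (g : ℝ) ≤ (n : ℝ) ^ C := by rw [hn]; exact_mod_cast hg
    have h12 : (N : ℝ) = M * g := by exact_mod_cast hMg.symm
    rw [← hc, ← hn]
    calc m * N ≤ (n : ℝ) ^ 2 * Z * (n : ℝ) ^ 2 * N := by gcongr
      _ = (n : ℝ) ^ 4 * g * (M * Z) := by rw [h12]; ring
      _ ≤ (n : ℝ) ^ 4 * (n : ℝ) ^ C * ((n : ℝ) ^ 5 * c) := by gcongr
      _ = c * (n : ℝ) ^ (C + 9) := by ring
      _ ≤ _ := mul_le_mul_of_nonneg_left (pow_le_pow_right₀ n1 (by omega)) c0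
  · rw [← hc, ← hn] at hbig ⊢
    have h1 : (N : ℝ) ≤ c * (n : ℝ) ^ C * (n : ℝ) ^ (B₂ + 1) := by
      exact_mod_cast (not_le.1 hbig).le
    calc m * N ≤ 1 * N := by gcongr
      _ ≤ c * (n : ℝ) ^ (C + (B₂ + 1)) := by rw [one_mul, pow_add, ← mul_assoc]; exact h1
      _ ≤ _ := mul_le_mul_of_nonneg_left (pow_le_pow_right₀ n1 (by omega)) c0

theorem topz_row (hP : ∀ i : Sg, @PRIZ_s i) : TOPZ_s := by
  obtain ⟨B₁, p₁, h1⟩ := hP ⟨1, Or.inl rfl⟩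
  obtain ⟨B₂, p₂, h2⟩ := hP ⟨-1, Or.inr rfl⟩
  refine ⟨2 * (B₁ + B₂), p₁ + p₂ + 2 ^ 4, fun p _ h m hm hχ e e' he he' => ?_⟩
  have h3 : m * p ≤ cnt p e (-1 * e) * (Nat.log 2 p : ℝ) ^ B₁ := h1 p (by omega) m hm hχ e he
  have h4 : m * p ≤ cnt p e (- -1 * e) * (Nat.log 2 p : ℝ) ^ B₂ := h2 p (by omega) m hm hχ e he
  have l4 : (4 : ℝ) ≤ Nat.log 2 p := by exact_mod_cast z_log (k := 4) (p := p) (by omega)
  have l5 := odsg_log p (by omega)
  have l6 : (Nat.log 2 p : ℝ) ≤ Real.log p ^ 2 := by nlinarith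
  have l7 : ∀ B ≤ B₁ + B₂, (Nat.log 2 p : ℝ) ^ B ≤ Real.log p ^ (2 * (B₁ + B₂)) := fun B hB => by
    rw [pow_mul]
    exact (pow_le_pow_right₀ (by linarith) hB).trans (pow_le_pow_left₀ (by linarith) l6 _)
  rw [div_le_iff₀ (pow_pos (by linarith) _)]
  rcases (by omega : e' = -1 * e ∨ e' = - -1 * e) with rfl | rfl
  · exact h3.trans (mul_le_mul_of_nonneg_left (l7 _ (by omega)) (Nat.cast_nonneg _))
  · exact h4.trans (mul_le_mul_of_nonneg_left (l7 _ (by omega)) (Nat.cast_nonneg _))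

end Pool.Agent.G27
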