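import Pool.Agent.MP_b5e119_nt.G27.Defs

/-! Statements that keep the values `L(1, χ)` in the count of sign patterns, any modulus. -/

namespace Pool.Agent.G27

open Finset Filter Topology Pool.Agent.G60

def MANYZ_s : Prop := ∃ N₀ : ℕ, ∀ (N : ℕ) [NeZero N], N₀ ≤ N → ∀ χ : Ch N, χ ^ 2 = 1 → χ ≠ 1 →
  ‖DirichletCharacter.LFunction χ 1‖ ≤ (Nat.log 2 N : ℝ) ^ 2 * ∑ c ∈ SP χ, 1 / (c : ℝ)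

def TOPZ_s : Prop := ∃ B N₀ : ℕ, ∀ (N : ℕ) [NeZero N], N₀ ≤ N → ∀ m : ℝ, m ≤ 1 →
  (∀ χ : DirichletCharacter ℂ N, χ ≠ 1 → χ ^ 2 = 1 → m ≤ ‖DirichletCharacter.LFunction χ 1‖) →
  ∀ e e' : ℤ, (e = 1 ∨ e = -1) → (e' = 1 ∨ e' = -1) → m * N / Real.log N ^ B ≤ cnt N e e'

variable [Sg]

def RED_s : Prop := ∀ A K : ℕ, ∃ B C N₀ : ℕ, ∀ N : ℕ, N₀ ≤ N →
  OD N (Nat.log 2 N ^ C) (1 / (Nat.log 2 N : ℝ) ^ B) →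
    ∃ (M g : ℕ) (_ : NeZero M), M * g = N ∧ g ≤ Nat.log 2 N ^ C ∧ Gd M A K

def ODSZ_s : Prop := ∀ B : ℕ, ∃ N₀ : ℕ, ∀ N : ℕ, N₀ ≤ N → ∀ e : ℤ, (e = 1 ∨ e = -1) → ∀ G : ℕ,
  G ^ 2 ≤ N → cnt N e (-Sg.s * e) * G * Nat.log 2 N ^ (B + 1) ≤ N →
    OD N G (1 / (Nat.log 2 N : ℝ) ^ B)

def PRIZ_s : Prop := ∃ B N₀ : ℕ, ∀ (N : ℕ) [NeZero N], N₀ ≤ N → ∀ m : ℝ, m ≤ 1 →
  (∀ χ : Ch N, χ ≠ 1 → χ ^ 2 = 1 → m ≤ ‖DirichletCharacter.LFunction χ 1‖) →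
  ∀ e : ℤ, (e = 1 ∨ e = -1) → m * N ≤ cnt N e (-Sg.s * e) * (Nat.log 2 N : ℝ) ^ B

end Pool.Agent.G27
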