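import Pool.Agent.MP_b5e119_nt.G27.ZDefs

namespace Pool.Agent.G27

open Finset Filter Topology Pool.Agent.G60

def red_fn (R a : ℕ) : ℤ := if a % R = 0 then 0 else lam (a % R)

theorem red_ff (R : ℕ) [NeZero R] (a : ℕ) : ff R (a : ZMod R) = red_fn R a := by
  unfold ff red_fn
  rw [ZMod.val_natCast]
  by_cases h : a % R = 0
  · rw [if_pos h, if_pos ((ZMod.natCast_eq_zero_iff a R).2 (Nat.dvd_of_mod_eq_zero h))]
  · rw [if_neg h, if_neg fun e => h (Nat.mod_eq_zero_of_dvd ((ZMod.natCast_eq_zero_iff a R).1 e))]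

theorem red_bad (R : ℕ) [NeZero R] (m : ℕ) :
    bad R m = #{a ∈ range R | red_fn R (m * a) ≠ lam m * red_fn R a} := by
  unfold bad
  refine card_nbij' (fun x => x.val) (fun a => (a : ZMod R)) (fun x hx => ?_) (fun a ha => ?_)
    (fun x _ => ZMod.natCast_zmod_val x) (fun a ha => ?_)
  · simp only [coe_filter, mem_univ, true_and, Set.mem_ofPred_eq, mem_range] at hx ⊢
    refine ⟨ZMod.val_lt x, ?_⟩
    rw [← red_ff, ← red_ff, Nat.cast_mul, ZMod.natCast_zmod_val]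
    exact hx
  · simp only [coe_filter, mem_univ, true_and, Set.mem_ofPred_eq, mem_range] at ha ⊢
    rw [← Nat.cast_mul, red_ff, red_ff]
    exact ha.2
  · exact ZMod.val_natCast_of_lt (mem_range.1 (mem_filter.1 (mem_coe.1 ha)).1)

theorem red_per (P : ℕ → Prop) [DecidablePred P] (R : ℕ) (h : ∀ k a, P (R * k + a) ↔ P a) (q : ℕ) :
    #{a ∈ range (R * q) | P a} = q * #{a ∈ range R | P a} := by
  induction q with
  | zero => simp
  | succ q ih =>
    simp only [card_filter] at ih ⊢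
    rw [mul_add, mul_one, sum_range_add, ih, add_mul, one_mul]
    congr 1
    exact sum_congr rfl fun a _ => by simp only [h]

theorem red_step (R q : ℕ) (hq : q.Prime) (a : ℕ) : red_fn (R * q) (q * a) = -red_fn R a := by
  unfold red_fn
  rw [mul_comm R q, Nat.mul_mod_mul_left]
  by_cases h : a % R = 0
  · simp [h]
  · rw [if_neg h, if_neg (mul_ne_zero hq.ne_zero h), lam_mul hq.ne_zero h, lam_prime hq]
    ring

theorem red_chain (N G q c u M : ℕ) (hq : q.Prime) (hM : M ≠ 0)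
    (H : ∀ (R g : ℕ) [NeZero R], R * g = N → g ≤ G → bad R q * u ≤ c * R) (i : ℕ) :
    ∀ j, M * q ^ i * q ^ j = N → q ^ (i + j) ≤ G →
      #{a ∈ range (M * q ^ i) | red_fn (M * q ^ i) a ≠ red_fn M a} * u ≤ i * c * (M * q ^ i) := by
  induction i with
  | zero => intro j _ _; simp
  | succ i ih =>
    intro j hj hG
    have h1 := ih (j + 1) (by rw [← hj]; ring) (by rwa [show i + (j + 1) = i + 1 + j by ring])
    have hR : M * q ^ (i + 1) = M * q ^ i * q := by ring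
    have : NeZero (M * q ^ i * q) :=
      ⟨mul_ne_zero (mul_ne_zero hM (pow_ne_zero _ hq.ne_zero)) hq.ne_zero⟩
    have h2 := H (M * q ^ i * q) (q ^ j) (by rw [← hj]; ring)
      (le_trans (Nat.pow_le_pow_right hq.pos (by omega)) hG)
    rw [hR]
    have h3 := red_per (fun a => red_fn (M * q ^ i) a ≠ red_fn M a) (M * q ^ i) (fun k a => by
      unfold red_fn
      rw [Nat.mul_add_mod, mul_assoc M, Nat.mul_add_mod]) q
    have h4 : #{a ∈ range (M * q ^ i * q) | red_fn (M * q ^ i * q) a ≠ red_fn M a} ≤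
        bad (M * q ^ i * q) q +
          #{a ∈ range (M * q ^ i * q) | red_fn (M * q ^ i) a ≠ red_fn M a} := by
      rw [red_bad]
      refine le_trans (card_le_card fun a ha => ?_) (card_union_le _ _)
      rw [mem_filter] at ha
      rw [mem_union, mem_filter, mem_filter]
      by_cases e : red_fn (M * q ^ i) a = red_fn M a
      · refine Or.inl ⟨ha.1, fun e' => ha.2 ?_⟩
        rw [red_step _ _ hq, lam_prime hq] at e'
        linarith
      · exact Or.inr ⟨ha.1, e⟩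
    rw [h3] at h4
    generalize #{a ∈ range (M * q ^ i * q) | red_fn (M * q ^ i * q) a ≠ red_fn M a} = D at h4 ⊢
    generalize #{a ∈ range (M * q ^ i) | red_fn (M * q ^ i) a ≠ red_fn M a} = D' at h1 h4
    generalize bad (M * q ^ i * q) q = b at h2 h4
    generalize M * q ^ i = R at h1 h2 ⊢
    calc D * u ≤ (b + q * D') * u := Nat.mul_le_mul_right _ h4
      _ = b * u + q * (D' * u) := by ring
      _ ≤ c * (R * q) + q * (i * c * R) := Nat.add_le_add h2 (Nat.mul_le_mul_left _ h1)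
      _ = _ := by ring

theorem red_B (M Q m : ℕ) [NeZero M] (hm : 0 < m) (hmQ : m ≤ Q) :
    bad M m ≤ #{a ∈ range (M * Q) | red_fn (M * Q) a ≠ red_fn M a} := by
  rw [red_bad]
  refine card_le_card_of_injOn (fun a => m * a) (fun a ha => ?_)
    fun a _ b _ e => Nat.eq_of_mul_eq_mul_left hm e
  simp only [coe_filter, Set.mem_ofPred_eq, mem_range] at ha ⊢
  have ha0 : a ≠ 0 := by
    rintro rfl
    exact ha.2 (by simp [red_fn])
  have hlt : m * a < M * Q := by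
    calc m * a ≤ Q * a := Nat.mul_le_mul_right _ hmQ
      _ < Q * M := Nat.mul_lt_mul_of_pos_left ha.1 (by omega)
      _ = M * Q := mul_comm _ _
  refine ⟨hlt, fun e => ha.2 ?_⟩
  rw [← e]
  unfold red_fn
  rw [Nat.mod_eq_of_lt hlt, Nat.mod_eq_of_lt ha.1, if_neg ha0, if_neg (mul_ne_zero hm.ne' ha0),
    lam_mul hm.ne' ha0]

theorem red_strip (N Z : ℕ) (hN : N ≠ 0) (hZ : 0 < Z) (y : ℕ)
    (h : ∀ q v : ℕ, q.Prime → q ≤ y → q ^ v ∣ N → q ^ v ≤ Z) :
    ∃ M g : ℕ, M * g = N ∧ g ≤ Z ^ y ∧ ∀ q : ℕ, q.Prime → q ≤ y → ¬q ∣ M := by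
  induction y with
  | zero => exact ⟨N, 1, mul_one _, by simp, fun q hq h0 => by have := hq.pos; omega⟩
  | succ y ih =>
    obtain ⟨M, g, e, hg, hM⟩ := ih fun q v hq hy => h q v hq (by omega)
    have hM0 : M ≠ 0 := fun e' => hN (by rw [← e, e', zero_mul])
    by_cases hp : (y + 1).Prime
    · obtain ⟨v, M', hnd, e'⟩ := Nat.exists_eq_pow_mul_and_not_dvd hM0 (y + 1) hp.one_lt.ne'
      have hv := h (y + 1) v hp le_rfl ⟨M' * g, by rw [← e, e']; ring⟩
      refine ⟨M', g * (y + 1) ^ v, by rw [← e, e']; ring, ?_, fun q hq hy hd => ?_⟩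
      · rw [pow_succ]
        exact Nat.mul_le_mul hg hv
      · rcases Nat.lt_or_ge y q with h1 | h1
        · obtain rfl : q = y + 1 := by omega
          exact hnd hd
        · exact hM q hq h1 (by rw [e']; exact hd.mul_left _)
    · refine ⟨M, g, e, hg.trans (Nat.pow_le_pow_right hZ (by omega)), fun q hq hy => ?_⟩
      rcases Nat.lt_or_ge y q with h1 | h1
      · obtain rfl : q = y + 1 := by omega
        exact absurd hq hp
      · exact hM q hq h1

theorem red_sub [Sg] (M : ℕ) [NeZero M] (x t : ℕ) (hx : x ≠ 0) (ht : t ≠ 0) :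
    bad M (x * t) ≤ badP M x t + bad M t := by
  unfold bad badP
  refine le_trans (card_le_card fun a ha => ?_) (card_union_le _ _)
  simp only [mem_filter, mem_univ, true_and, mem_union] at ha ⊢
  by_contra hc
  push Not at hc
  apply ha
  rw [Nat.cast_mul, mul_assoc, hc.1, hc.2, lam_mul hx ht, mul_assoc]

theorem red_list [Sg] (hP : PULL_s) (M : ℕ) [NeZero M] (u β : ℕ) (L : List ℕ)
    (h : ∀ x ∈ L, x ≠ 0 ∧ x.Coprime M ∧ bad M x * u ≤ β) :
    L.prod ≠ 0 ∧ L.prod.Coprime M ∧ bad M L.prod * u ≤ L.length * β := by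
  induction L with
  | nil => simp [bad, lam_one]
  | cons x L ih =>
    obtain ⟨h0, h1, h2⟩ := ih fun z hz => h z (List.mem_cons_of_mem _ hz)
    obtain ⟨x0, x1, x2⟩ := h x List.mem_cons_self
    rw [List.prod_cons, List.length_cons]
    refine ⟨mul_ne_zero x0 h0, Nat.Coprime.mul_left x1 h1, ?_⟩
    have h3 := red_sub M x L.prod x0 h0
    have h4 := (hP M M 1 L.prod (mul_one _) (Eq.symm h1)).2 x
    calc bad M (x * L.prod) * u ≤ (bad M x + bad M L.prod) * u :=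
          Nat.mul_le_mul_right _ (by omega)
      _ = bad M x * u + bad M L.prod * u := by ring
      _ ≤ β + L.length * β := Nat.add_le_add x2 h2
      _ = _ := by ring

theorem red_E (l C : ℕ) (h : C ^ 4 ≤ l) : ∃ E : ℕ, C ≤ E ∧ E ^ 4 ≤ l ∧ l ≤ (E + 1) ^ 4 := by
  refine ⟨Nat.sqrt (Nat.sqrt l), ?_, ?_, ?_⟩
  · rw [Nat.le_sqrt', Nat.le_sqrt']
    calc (C ^ 2) ^ 2 = C ^ 4 := by ring
      _ ≤ l := h
  · have h1 := Nat.sqrt_le' (Nat.sqrt l)
    have h2 := Nat.sqrt_le' l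
    calc Nat.sqrt (Nat.sqrt l) ^ 4 = (Nat.sqrt (Nat.sqrt l) ^ 2) ^ 2 := by ring
      _ ≤ Nat.sqrt l ^ 2 := Nat.pow_le_pow_left h1 2
      _ ≤ l := h2
  · have h1 : Nat.sqrt l + 1 ≤ (Nat.sqrt (Nat.sqrt l) + 1) ^ 2 := Nat.lt_succ_sqrt' (Nat.sqrt l)
    have h2 : l < (Nat.sqrt l + 1) ^ 2 := Nat.lt_succ_sqrt' l
    calc l ≤ (Nat.sqrt l + 1) ^ 2 := h2.le
      _ ≤ ((Nat.sqrt (Nat.sqrt l) + 1) ^ 2) ^ 2 := Nat.pow_le_pow_left h1 2
      _ = _ := by ring

/-- Case A: all small numbers are units at every level. -/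
theorem red_A [Sg] (hP : PULL_s) (hT : TRG_s) (hF : FEJG_s) (M : ℕ) [NeZero M]
    (y c u n w m : ℕ) (T : Finset ℕ) (hm : 2 ≤ m) (hmw : m ^ 2 ≤ 2 ^ w)
    (hy : ∀ x, 0 < x → x ≤ y → x.Coprime M)
    (hod : ∀ (R g : ℕ) [NeZero R], R * g = M → g ≤ m → od R * u ≤ R)
    (hb : ∀ (R g : ℕ) [NeZero R], R * g = M → g ≤ m → ∀ x, 0 < x → x ≤ y → bad R x * u ≤ c * R)
    (hTl : ∀ t ∈ T, ∃ l : List ℕ, l.prod = t ∧ l.length ≤ n ∧ ∀ x ∈ l, 0 < x ∧ x ≤ y)
    (hsz : ∀ t ∈ T, 2 * m ^ 2 * t ^ w < M) :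
    ∃ Z Y : ℕ, bad M m ≤ Z + Y ∧ Z * #T ≤ 4 * m ^ 2 * M ∧
      Y * u ≤ #T * ((2 + 2 * (w * (n * c))) * M) := by
  have hs : ∀ (R g : ℕ) [NeZero R], R * g = M → g ≤ m → ∀ t ∈ T,
      t ≠ 0 ∧ (t ^ w).Coprime R ∧ bad R (t ^ w) * u ≤ w * (n * (c * R)) := by
    intro R g _ e hg t htT
    obtain ⟨L, rfl, hlen, hL⟩ := hTl t htT
    obtain ⟨h0, h1, h2⟩ := red_list hP R u (c * R) L fun x hx =>
      ⟨(hL x hx).1.ne', Nat.Coprime.coprime_dvd_right ⟨g, e.symm⟩ (hy x (hL x hx).1 (hL x hx).2),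
        hb R g e hg x (hL x hx).1 (hL x hx).2⟩
    have h3 := red_list hP R u (n * (c * R)) (List.replicate w L.prod) fun x hx => by
      rw [List.eq_of_mem_replicate hx]
      exact ⟨h0, h1, h2.trans (Nat.mul_le_mul_right _ hlen)⟩
    rw [List.prod_replicate, List.length_replicate] at h3
    exact ⟨h0, h3.2.1, h3.2.2⟩
  have hM0 : M ≠ 0 := NeZero.ne M
  obtain ⟨R, hR⟩ : Nat.gcd m M ∣ M := Nat.gcd_dvd_right m M
  have hR' : R * Nat.gcd m M = M := by rw [mul_comm]; exact hR.symm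
  have : NeZero R := ⟨fun e => hM0 (by rw [← hR', e, zero_mul])⟩
  have hgm : Nat.gcd m M ≤ m := Nat.le_of_dvd (by omega) (Nat.gcd_dvd_left m M)
  refine ⟨_, _, hT M m (T.image (· ^ w)) (by omega), hF M m w T hm hmw fun t htT =>
    ⟨Nat.pos_of_ne_zero (hs M 1 (mul_one _) (by omega) t htT).1, hsz t htT⟩, ?_⟩
  rw [sum_mul]
  refine le_trans (sum_le_card_nsmul _ _ ((2 + 2 * (w * (n * c))) * M) fun s hs' => ?_) ?_
  · obtain ⟨t, htT, rfl⟩ := mem_image.1 hs'
    obtain ⟨-, a1, a2⟩ := hs M 1 (mul_one _) (by omega) t htT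
    obtain ⟨-, -, b2⟩ := hs R _ hR' hgm t htT
    have p1 := (hP M M 1 (t ^ w) (mul_one _) (Eq.symm a1)).1
    have p2 := (hP M R _ (m * t ^ w) hR' (Nat.Coprime.gcd_mul_right_cancel m a1).symm).1
    have p3 := (hP M R _ m hR' rfl).2 (t ^ w)
    have o1 := hod M 1 (mul_one _) (by omega)
    have o2 := hod R _ hR' hgm
    have q1 : odP M (t ^ w) * u ≤ M := le_trans (Nat.mul_le_mul_right _ (by omega)) o1
    have q2 : odP M (m * t ^ w) * u ≤ M := by
      calc _ ≤ Nat.gcd m M * od R * u := Nat.mul_le_mul_right _ p2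
        _ = Nat.gcd m M * (od R * u) := by ring
        _ ≤ Nat.gcd m M * R := Nat.mul_le_mul_left _ o2
        _ = M := by rw [mul_comm]; exact hR'
    have q3 : badP M (t ^ w) m * u ≤ w * (n * (c * M)) := by
      calc _ ≤ Nat.gcd m M * bad R (t ^ w) * u := Nat.mul_le_mul_right _ p3
        _ = Nat.gcd m M * (bad R (t ^ w) * u) := by ring
        _ ≤ Nat.gcd m M * (w * (n * (c * R))) := Nat.mul_le_mul_left _ b2
        _ = w * (n * (c * (R * Nat.gcd m M))) := by ring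
        _ = _ := by rw [hR']
    calc _ = odP M (t ^ w) * u + odP M (m * t ^ w) * u + badP M (t ^ w) m * u +
          bad M (t ^ w) * u := by ring
      _ ≤ M + M + w * (n * (c * M)) + w * (n * (c * M)) := by omega
      _ = _ := by ring
  · rw [smul_eq_mul]
    exact Nat.mul_le_mul_right _ card_image_le

theorem red_row [Sg] (hSMO : SMO_s) (hP : PULL_s) (hT : TRG_s) (hD : DIRG_s) (hF : FEJG_s) :
    RED_s := by
  intro A K
  obtain ⟨k, hk⟩ : ∃ k, k = 8 * (A + 2 * K) + 3 := ⟨_, rfl⟩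
  obtain ⟨y, hy⟩ := hSMO k
  obtain ⟨c, hc0, hc⟩ := hD y
  obtain ⟨c1, hc1⟩ : ∃ c, c = 1 + 8 * K + 8 * (y * k * K) + 4 * (K * y) := ⟨_, rfl⟩
  obtain ⟨c2, hc2⟩ : ∃ z, z = 16 * (K * k * c) + 2 := ⟨_, rfl⟩
  refine ⟨k + 3 + A + 2 * K, K * y + K + 2, 2 ^ ((c1 + 2 * c2 + y + c + 2) ^ 4),
    fun N h0 hOD => ?_⟩
  have hN : N ≠ 0 := by
    have : 0 < 2 ^ ((c1 + 2 * c2 + y + c + 2) ^ 4) := by positivity
    omega
  have hl0 : (c1 + 2 * c2 + y + c + 2) ^ 4 ≤ Nat.log 2 N := Nat.le_log_of_pow_le (by norm_num) h0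
  have hlp : 2 ^ Nat.log 2 N ≤ N := Nat.pow_log_le_self 2 hN
  have hmono : ∀ M g : ℕ, M * g = N → Nat.log 2 M ≤ Nat.log 2 N := fun M g e =>
    Nat.log_mono_right (Nat.le_of_dvd (Nat.pos_of_ne_zero hN) ⟨g, e.symm⟩)
  generalize Nat.log 2 N = l at *
  obtain ⟨E, hE, hE4, hlE⟩ := red_E l _ hl0
  have hE2 : 2 ≤ E := by omega
  have hEE : E ≤ E ^ 2 := by nlinarith
  have hEl : E ≤ l := le_trans (Nat.le_self_pow (by norm_num) E) hE4
  have hlpos : 0 < l := by omega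
  have hpw : ∀ a b : ℕ, a ≤ b → l ^ a ≤ l ^ b := fun a b h => Nat.pow_le_pow_right hlpos h
  obtain ⟨u, hu⟩ : ∃ u, u = l ^ (k + 3 + A + 2 * K) := ⟨_, rfl⟩
  have hu0 : (0 : ℝ) < u := by rw [hu]; positivity
  have hδ : (1 / (l : ℝ) ^ (k + 3 + A + 2 * K)) = 1 / (u : ℝ) := by rw [hu]; push_cast; rfl
  rw [hδ] at hOD
  have hod : ∀ (R g : ℕ) [NeZero R], R * g = N → g ≤ l ^ (K * y + K + 2) → od R * u ≤ R := by
    intro R g _ e hg
    have h1 := hOD R g e hg
    rw [one_div, inv_mul_eq_div, le_div_iff₀ hu0] at h1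
    have h2 : (od R : ℝ) * u ≤ R := by nlinarith
    exact_mod_cast h2
  have hbd : ∀ (R g : ℕ) [NeZero R], R * g = N → g ≤ l ^ (K * y + K + 1) →
      ∀ x, 0 < x → x ≤ y → bad R x * u ≤ c * R := by
    intro R g _ e hg x h1 h2
    have h3 := hc N (l ^ (K * y + K + 1)) (1 / (u : ℝ)) (Nat.pos_of_ne_zero hN)
      (fun M' g' _ e' hg' => hOD M' g' e' (hg'.trans (by
        rw [pow_succ l (K * y + K + 1)]
        exact Nat.mul_le_mul_left _ (by omega)))) x h1 h2 R g e hg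
    rw [mul_one_div, div_mul_eq_mul_div, le_div_iff₀ hu0] at h3
    exact_mod_cast h3
  have hfin : ∀ (M g : ℕ) [NeZero M], M * g = N → g ≤ l ^ (K * y + K + 2) →
      (∀ m, 2 ≤ m → m ≤ l ^ K → bad M m * l ^ A ≤ M) → Gd M A K := by
    intro M g _ e hg h
    have h1 := hmono M g e
    have h2 : Nat.log 2 M ^ A ≤ l ^ A := Nat.pow_le_pow_left h1 A
    refine ⟨le_trans (Nat.mul_le_mul_left _ (h2.trans ?_)) (hod M g e hg), fun m hm hmK => ?_⟩
    · rw [hu]
      exact hpw _ _ (by omega)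
    · rcases Nat.lt_or_ge m 2 with hm2 | hm2
      · obtain rfl : m = 1 := by omega
        simp [bad, lam_one]
      · exact le_trans (Nat.mul_le_mul_left _ h2)
          (h m hm2 (hmK.trans (Nat.pow_le_pow_left h1 K)))
  by_cases hcase : ∀ q v : ℕ, q.Prime → q ≤ y → q ^ v ∣ N → q ^ v ≤ l ^ K
  · obtain ⟨M, g, e, hg, hM⟩ := red_strip N (l ^ K) hN (by positivity) y hcase
    rw [← pow_mul] at hg
    have : NeZero M := ⟨fun e' => hN (by rw [← e, e', zero_mul])⟩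
    refine ⟨M, g, this, e, hg.trans (hpw _ _ (by omega)),
      hfin M g e (hg.trans (hpw _ _ (by omega))) fun m hm2 hmK => ?_⟩
    obtain ⟨T, hT', hTl⟩ := hy E
    obtain ⟨w, hw⟩ : ∃ w, w = 8 * K * E := ⟨_, rfl⟩
    have hl2 : l ≤ 2 ^ (4 * E) := by
      have h1 : E + 1 ≤ 2 ^ E := Nat.lt_two_pow_self
      calc l ≤ (E + 1) ^ 4 := hlE
        _ ≤ (2 ^ E) ^ 4 := Nat.pow_le_pow_left h1 4
        _ = _ := by ring
    have hmm : m ^ 2 ≤ l ^ (2 * K) := by
      calc m ^ 2 ≤ (l ^ K) ^ 2 := Nat.pow_le_pow_left hmK 2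
        _ = _ := by ring
    have hmw : m ^ 2 ≤ 2 ^ w := by
      calc m ^ 2 ≤ l ^ (2 * K) := hmm
        _ ≤ (2 ^ (4 * E)) ^ (2 * K) := Nat.pow_le_pow_left hl2 _
        _ = _ := by rw [hw, ← pow_mul]; congr 1; ring
    have hexp : 1 + w + y * (k * E) * w + 4 * E * (K * y) < l := by
      have h1 : 1 + w + y * (k * E) * w + 4 * E * (K * y) ≤ c1 * E ^ 2 := by
        have h2 : 1 ≤ E ^ 2 := by omega
        have h3 : K * E ≤ K * E ^ 2 := Nat.mul_le_mul_left K hEE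
        have h3' : K * y * E ≤ K * y * E ^ 2 := Nat.mul_le_mul_left _ hEE
        have h4 : y * (k * E) * w = 8 * (y * k * K) * E ^ 2 := by rw [hw]; ring
        have h5 : c1 * E ^ 2 = E ^ 2 + 8 * (K * E ^ 2) + 8 * (y * k * K) * E ^ 2 +
            4 * (K * y * E ^ 2) := by rw [hc1]; ring
        have h6 : w = 8 * (K * E) := by rw [hw]; ring
        have h7 : 4 * E * (K * y) = 4 * (K * y * E) := by ring
        omega
      have h2 : c1 * E ^ 2 < E ^ 2 * E ^ 2 := Nat.mul_lt_mul_of_pos_right (by omega) (by omega)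
      have h3 : E ^ 2 * E ^ 2 = E ^ 4 := by ring
      omega
    have hlev : ∀ R g' : ℕ, R * g' = M → g' ≤ m → R * (g' * g) = N ∧ g' * g ≤ l ^ (K * y + K) := by
      intro R g' e' hg'
      refine ⟨by rw [← mul_assoc, e', e], ?_⟩
      rw [pow_add, mul_comm]
      exact Nat.mul_le_mul hg (hg'.trans hmK)
    obtain ⟨Z, Y, hR, hZ', hY'⟩ := red_A hP hT hF M y c u (k * E) w m T hm2 hmw
      (fun x h1 h2 => Nat.Coprime.symm (Nat.coprime_of_dvd fun p hp hpM hpx =>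
        hM p hp ((Nat.le_of_dvd h1 hpx).trans h2) hpM))
      (fun R g' _ e' hg' => hod R _ (hlev R g' e' hg').1
        ((hlev R g' e' hg').2.trans (hpw _ _ (by omega))))
      (fun R g' _ e' hg' => hbd R _ (hlev R g' e' hg').1
        ((hlev R g' e' hg').2.trans (hpw _ _ (by omega))))
      hTl (fun t htT => by
        obtain ⟨L, rfl, hlen, hL⟩ := hTl t htT
        have hle : L.prod ≤ 2 ^ (y * (k * E)) := by
          calc L.prod ≤ (2 ^ y) ^ L.length := List.prod_le_pow_card L _ fun x hxL =>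
                (hL x hxL).2.trans Nat.lt_two_pow_self.le
            _ ≤ (2 ^ y) ^ (k * E) := Nat.pow_le_pow_right (by positivity) hlen
            _ = _ := by rw [← pow_mul]
        have hg2 : g ≤ 2 ^ (4 * E * (K * y)) := by
          rw [pow_mul]
          exact hg.trans (Nat.pow_le_pow_left hl2 _)
        apply Nat.lt_of_mul_lt_mul_right (a := g)
        calc 2 * m ^ 2 * L.prod ^ w * g
            ≤ 2 * 2 ^ w * (2 ^ (y * (k * E))) ^ w * 2 ^ (4 * E * (K * y)) :=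
              Nat.mul_le_mul
                (Nat.mul_le_mul (Nat.mul_le_mul_left 2 hmw) (Nat.pow_le_pow_left hle w)) hg2
          _ = 2 ^ (1 + w + y * (k * E) * w + 4 * E * (K * y)) := by rw [← pow_mul]; ring
          _ < 2 ^ l := Nat.pow_lt_pow_right (by norm_num) hexp
          _ ≤ M * g := by rw [e]; exact hlp)
    rw [hT'] at hZ' hY'
    have hl8 : l ≤ E ^ 8 := by
      have h1 : E + 1 ≤ E ^ 2 := by nlinarith
      calc l ≤ (E + 1) ^ 4 := hlE
        _ ≤ (E ^ 2) ^ 4 := Nat.pow_le_pow_left h1 4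
        _ = _ := by ring
    have hZ : Z * (2 * l ^ A) ≤ M := by
      have h1 : 2 * l ^ A * (4 * l ^ (2 * K)) ≤ E ^ k := by
        calc 2 * l ^ A * (4 * l ^ (2 * K)) = 2 ^ 3 * l ^ (A + 2 * K) := by ring
          _ ≤ E ^ 3 * (E ^ 8) ^ (A + 2 * K) :=
            Nat.mul_le_mul (Nat.pow_le_pow_left hE2 3) (Nat.pow_le_pow_left hl8 _)
          _ = E ^ k := by rw [hk, ← pow_mul, ← pow_add, add_comm]
      apply Nat.le_of_mul_le_mul_right _ (show 0 < 4 * l ^ (2 * K) by positivity)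
      calc Z * (2 * l ^ A) * (4 * l ^ (2 * K)) = Z * (2 * l ^ A * (4 * l ^ (2 * K))) := by ring
        _ ≤ Z * E ^ k := Nat.mul_le_mul_left _ h1
        _ ≤ 4 * m ^ 2 * M := hZ'
        _ ≤ 4 * l ^ (2 * K) * M := Nat.mul_le_mul_right _ (Nat.mul_le_mul_left _ hmm)
        _ = _ := by ring
    have hY : Y * (2 * l ^ A) ≤ M := by
      have h1 : 2 + 2 * (w * (k * E * c)) ≤ c2 * E ^ 2 := by
        have h2 : c2 * E ^ 2 = 2 * (w * (k * E * c)) + 2 * E ^ 2 := by rw [hc2, hw]; ring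
        omega
      have h2 : E ^ k * (c2 * E ^ 2) * (2 * l ^ A) ≤ u := by
        calc E ^ k * (c2 * E ^ 2) * (2 * l ^ A) = E ^ (k + 2) * (2 * c2) * l ^ A := by ring
          _ ≤ l ^ (k + 2) * l * l ^ A := Nat.mul_le_mul_right _
            (Nat.mul_le_mul (Nat.pow_le_pow_left hEl _) (by omega))
          _ = l ^ (k + 3 + A) := by ring
          _ ≤ u := by rw [hu]; exact hpw _ _ (by omega)
      apply Nat.le_of_mul_le_mul_right _ (show 0 < u by exact_mod_cast hu0)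
      calc Y * (2 * l ^ A) * u = Y * u * (2 * l ^ A) := by ring
        _ ≤ E ^ k * (c2 * E ^ 2 * M) * (2 * l ^ A) := Nat.mul_le_mul_right _
          (hY'.trans (Nat.mul_le_mul_left _ (Nat.mul_le_mul_right _ h1)))
        _ = M * (E ^ k * (c2 * E ^ 2) * (2 * l ^ A)) := by ring
        _ ≤ M * u := Nat.mul_le_mul_left _ h2
    have h1 : bad M m * (2 * l ^ A) ≤ (Z + Y) * (2 * l ^ A) := Nat.mul_le_mul_right _ hR
    have h2 : bad M m * (2 * l ^ A) = 2 * (bad M m * l ^ A) := by ring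
    rw [add_mul] at h1
    omega
  · push Not at hcase
    obtain ⟨q, v, hq, hqy, hdv, hv⟩ := hcase
    have hex : ∃ i, l ^ K < q ^ i := ⟨v, hv⟩
    have hi := Nat.find_spec hex
    have hiv : Nat.find hex ≤ v := Nat.find_min' hex hv
    have hi0 : Nat.find hex ≠ 0 := fun e => by
      rw [e, pow_zero] at hi
      have : 0 < l ^ K := by positivity
      omega
    obtain ⟨i, hi'⟩ : ∃ i, Nat.find hex = i + 1 := ⟨Nat.find hex - 1, by omega⟩
    have hlow : q ^ i ≤ l ^ K := not_lt.1 (Nat.find_min hex (by omega))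
    rw [hi'] at hi hiv
    have hQ : q ^ (i + 1) ≤ l ^ (K + 1) := by
      rw [pow_succ, pow_succ]
      exact Nat.mul_le_mul hlow (by omega)
    obtain ⟨M, hM⟩ := (pow_dvd_pow q hiv).trans hdv
    have e : M * q ^ (i + 1) = N := by rw [hM, mul_comm]
    have hM0 : M ≠ 0 := fun e' => hN (by rw [← e, e', zero_mul])
    have : NeZero M := ⟨hM0⟩
    refine ⟨M, _, this, e, hQ.trans (hpw _ _ (by omega)),
      hfin M _ e (hQ.trans (hpw _ _ (by omega))) fun m hm2 hmK => ?_⟩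
    have h1 := red_chain N (l ^ (K * y + K + 1)) q c u M hq hM0
      (fun R g _ e' hg => hbd R g e' hg q hq.pos hqy) (i + 1) 0 (by rw [pow_zero, mul_one, e])
      (hQ.trans (hpw _ _ (by omega)))
    have h2 := red_B M (q ^ (i + 1)) m (by omega) (by omega)
    have h3 : i + 1 ≤ l ^ (K + 1) := (Nat.lt_pow_self hq.one_lt).le.trans hQ
    have h4 : l ^ (K + 1) * l * l ^ (K + 1) * l ^ A ≤ u := by
      calc _ = l ^ (3 + A + 2 * K) := by ring
        _ ≤ u := by rw [hu]; exact hpw _ _ (by omega)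
    apply Nat.le_of_mul_le_mul_right _ (show 0 < u by exact_mod_cast hu0)
    calc bad M m * l ^ A * u = bad M m * u * l ^ A := by ring
      _ ≤ (i + 1) * c * (M * q ^ (i + 1)) * l ^ A :=
        Nat.mul_le_mul_right _ ((Nat.mul_le_mul_right _ h2).trans h1)
      _ ≤ l ^ (K + 1) * l * (M * l ^ (K + 1)) * l ^ A := Nat.mul_le_mul_right _
        (Nat.mul_le_mul (Nat.mul_le_mul h3 (by omega)) (Nat.mul_le_mul_left _ hQ))
      _ = M * (l ^ (K + 1) * l * l ^ (K + 1) * l ^ A) := by ring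
      _ ≤ M * u := Nat.mul_le_mul_left _ h4

end Pool.Agent.G27
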