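import Pool.Agent.MP_b5e119_nt.G27.ZA
import Pool.Agent.MP_b5e119_nt.G27.ZRed
import Pool.Agent.MP_b5e119_nt.G27.Main

/-! Only the real characters of one parity enter the count of a sign pattern. -/

namespace Pool.Agent.G27

open Finset Filter Topology Pool.Agent.G60 DirichletCharacter

def TOPY_s : Prop := ∃ B N₀ : ℕ, ∀ (N : ℕ) [NeZero N], N₀ ≤ N →
  ∀ e e' : ℤ, (e = 1 ∨ e = -1) → (e' = 1 ∨ e' = -1) → ∀ m : ℝ, m ≤ 1 →
  (∀ χ : DirichletCharacter ℂ N, χ ≠ 1 → χ ^ 2 = 1 → χ (-1) = -((e * e' : ℤ) : ℂ) →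
    m ≤ ‖DirichletCharacter.LFunction χ 1‖) → m * N / Real.log N ^ B ≤ cnt N e e'

def PRIY_s [Sg] : Prop := ∃ B N₀ : ℕ, ∀ (N : ℕ) [NeZero N], N₀ ≤ N → ∀ m : ℝ, m ≤ 1 →
  (∀ χ : Ch N, χ ≠ 1 → χ ^ 2 = 1 → χ (-1) = (Sg.s : ℂ) →
    m ≤ ‖DirichletCharacter.LFunction χ 1‖) →
  ∀ e : ℤ, (e = 1 ∨ e = -1) → m * N ≤ cnt N e (-Sg.s * e) * (Nat.log 2 N : ℝ) ^ B

theorem priy_core [Sg] (hC : CHEB_s) (hCON : CONG_s) (hSTR : STRG_s) (hF : FING_s) :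
    ∃ B K N₀ : ℕ, ∀ (N : ℕ) [NeZero N], N₀ ≤ N → Gd N B K → ∀ e : ℤ, (e = 1 ∨ e = -1) →
      ∃ χ : Ch N, χ ^ 2 = 1 ∧ χ ≠ 1 ∧ χ (-1) = (Sg.s : ℂ) ∧ (N : ℝ) * ∑ c ∈ SP χ, 1 / (c : ℝ) ≤
        (Nat.log 2 N : ℝ) ^ 5 * cnt N e (-Sg.s * e) := by
  obtain ⟨B, K, N₁, hCON⟩ := hCON 6
  obtain ⟨N₂, hSTR⟩ := hSTR
  obtain ⟨N₃, hF⟩ := hF
  refine ⟨B + 1, K, N₁ + N₂ + N₃ + 2, fun N _ hN hG e he => ?_⟩
  have hl : 1 ≤ Nat.log 2 N := Nat.le_log_of_pow_le one_lt_two (by omega : 2 ^ 1 ≤ N)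
  have hB : Nat.log 2 N ^ B ≤ Nat.log 2 N ^ (B + 1) := Nat.pow_le_pow_right hl (by omega)
  have hB1 : Nat.log 2 N ≤ Nat.log 2 N ^ (B + 1) := Nat.le_self_pow (by omega) _
  have hG' : Gd N B K := ⟨(Nat.mul_le_mul_left _ hB).trans hG.1,
    fun m h0 hm => (Nat.mul_le_mul_left _ hB).trans (hG.2 m h0 hm)⟩
  obtain ⟨χ, h2, h1, h3, h4⟩ := hCON N (by omega) hG'
  obtain ⟨σ, hσ, h5, h6⟩ := hSTR N (by omega) χ 6 (by omega) h2 h3
    ((Nat.mul_le_mul_left _ hB1).trans hG.1)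
  have h7 : χ (-1) = (Sg.s : ℂ) := by
    rw [← h6, re_coe h2, Nat.cast_sub (by omega), ZMod.natCast_self, Nat.cast_one, zero_sub]
  refine ⟨χ, h2, h1, h7, ?_⟩
  have hN1 : (1 : ℝ) ≤ N := by exact_mod_cast (by omega : 1 ≤ N)
  have hS : ∀ q ∈ SP χ, q.Prime ∧ re χ q = 1 ∧ (q : ℝ) ≤ (N : ℝ) ^ (0.33 : ℝ) := fun q hq => by
    classical
    exact (mem_filter.1 hq).2
  obtain ⟨n, hn⟩ : ∃ n, n = Nat.log 2 N := ⟨_, rfl⟩
  have g1 : ∀ q ∈ SP χ, (N : ℝ) * (1 / (q : ℝ)) ≤ (n : ℝ) ^ 4 *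
      (#{m ∈ Icc 1 ((N - 1) / q) | lam (q * m) = e ∧ lam (N - q * m) = -Sg.s * e} : ℕ) := by
    intro q hq
    obtain ⟨q1, q2, q3⟩ := hS q hq
    have hq0 : (0 : ℝ) < q := by exact_mod_cast q1.pos
    have hq3 : q ^ 3 ≤ N := by
      have a1 := pow_le_pow_left₀ hq0.le q3 3
      rw [← Real.rpow_natCast ((N : ℝ) ^ (0.33 : ℝ)), ← Real.rpow_mul (by linarith)] at a1
      have a2 := Real.rpow_le_rpow_of_exponent_le hN1
        (by norm_num : (0.33 : ℝ) * ((3 : ℕ) : ℝ) ≤ 1)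
      rw [Real.rpow_one] at a2
      exact_mod_cast a1.trans a2
    have g := hF N (by omega) χ σ e Sg.s q h2 h1 hσ he Sg.hs hq (h4 q q1 q2 hq3) h6 h5
    rw [← hn] at g
    rw [mul_one_div, div_le_iff₀ hq0]
    have g' : (N : ℝ) ≤ ((n ^ 4 * q *
      #{m ∈ Icc 1 ((N - 1) / q) | lam (q * m) = e ∧ lam (N - q * m) = -Sg.s * e} : ℕ) : ℝ) := by
      exact_mod_cast g
    push_cast at g'
    linarith
  have g2 := sum_le_sum g1
  rw [← mul_sum, ← mul_sum, ← Nat.cast_sum] at g2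
  have g3 := prig_fib hC N (SP χ) (fun q hq => (hS q hq).1) e (-Sg.s * e)
  rw [← hn] at g3 ⊢
  calc _ ≤ _ := g2
    _ ≤ (n : ℝ) ^ 4 * ((cnt N e (-Sg.s * e) : ℝ) * n) :=
      mul_le_mul_of_nonneg_left (by exact_mod_cast g3) (by positivity)
    _ = _ := by ring

theorem priy_row [Sg] (hC : CHEB_s) (hMON : MON_s) (hPHI : PHI_s) (hO : ODSZ_s) (hR : RED_s)
    (hCON : CONG_s) (hSTR : STRG_s) (hM : MANYZ_s) (hF : FING_s) : PRIY_s := by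
  obtain ⟨B₁, K, N₁, H⟩ := priy_core hC hCON hSTR hF
  obtain ⟨B₂, C, N₂, hR⟩ := hR B₁ K
  obtain ⟨N₃, hO⟩ := hO B₂
  obtain ⟨N₄, hM⟩ := hM
  obtain ⟨N₅, hE⟩ := prig_ev 1 one_pos (C * 2)
  obtain ⟨D, hD, hP⟩ := hPHI
  obtain ⟨W, hW⟩ : ∃ W, W = 2 ^ (⌈D⌉₊ + 1) := ⟨_, rfl⟩
  refine ⟨C + B₂ + 9, (N₁ + N₄) ^ 2 + N₂ + N₃ + N₅ + W, fun N _ hN m hm hχ e he => ?_⟩
  have hlD : ⌈D⌉₊ + 1 ≤ Nat.log 2 N := z_log (by rw [← hW]; omega)
  have hN0 := NeZero.pos N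
  have h0 : (0 : ℝ) < N := by exact_mod_cast hN0
  have hG : (Nat.log 2 N ^ C) ^ 2 ≤ N := by
    have := (hE N (by clear hW; omega)).le
    rw [Real.rpow_one, pow_mul] at this
    exact_mod_cast this
  have hN2 : 2 ≤ N := by
    have : 2 ^ 1 ≤ W := hW ▸ Nat.pow_le_pow_right two_pos (by omega)
    omega
  clear hW
  have hPN := hP N hN2
  obtain ⟨n, hn⟩ : ∃ n, n = Nat.log 2 N := ⟨_, rfl⟩
  have n1 : (1 : ℝ) ≤ n := by rw [hn]; exact_mod_cast (by omega : 1 ≤ Nat.log 2 N)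
  have nD : D ≤ n := (Nat.le_ceil D).trans (by rw [hn]; exact_mod_cast (by omega))
  obtain ⟨c, hc⟩ : ∃ c, c = cnt N e (-Sg.s * e) := ⟨_, rfl⟩
  have c0 : (0 : ℝ) ≤ c := Nat.cast_nonneg _
  by_cases hbig : cnt N e (-Sg.s * e) * Nat.log 2 N ^ C * Nat.log 2 N ^ (B₂ + 1) ≤ N
  · obtain ⟨M, g, _, hMg, hg, hGd⟩ := hR N (by omega) (hO N (by omega) e he _ hG hbig)
    have hg0 : 0 < g := Nat.pos_of_ne_zero fun e0 => by
      rw [e0, mul_zero] at hMg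
      omega
    have hgM : g ≤ M := by
      have a1 : g * g ≤ M * g := by
        rw [hMg]
        exact le_trans (by rw [sq]; exact Nat.mul_le_mul hg hg) hG
      exact Nat.le_of_mul_le_mul_right a1 hg0
    have hMl : N₁ + N₄ ≤ M := by
      have a1 : N ≤ M ^ 2 := by rw [← hMg, sq]; exact Nat.mul_le_mul_left _ hgM
      exact (Nat.pow_le_pow_iff_left two_ne_zero).1 (by omega : (N₁ + N₄) ^ 2 ≤ M ^ 2)
    have he' : lam g * e = 1 ∨ lam g * e = -1 := by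
      rcases lam_cases g with a | a <;> rcases he with b | b <;> rw [a, b] <;> norm_num
    obtain ⟨χ, h2, h1, hpar, h3⟩ := H M (by omega) hGd (lam g * e) he'
    have h4 := hMON M g (lam g * e) (-Sg.s * (lam g * e)) hg0
    have e1 : lam g * (lam g * e) = e := by
      rcases lam_cases g with a | a <;> rw [a] <;> ring
    have e2 : lam g * (-Sg.s * (lam g * e)) = -Sg.s * e := by
      rcases lam_cases g with a | a <;> rw [a] <;> ring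
    rw [hMg, e1, e2, ← hc] at h4
    have h5 := hM M (by omega) χ h2 h1
    have hd : M ∣ N := ⟨g, hMg.symm⟩
    have h6 := hχ (changeLevel hd χ) (fun h => h1 ((changeLevel_eq_one_iff hd).1 h))
      (by rw [← map_pow, h2, map_one]) (by
        have hu := changeLevel_eq_cast_of_dvd χ hd (-1)
        rw [Units.val_neg, Units.val_one] at hu
        rw [hu, ZMod.cast_neg_one, ← hpar]
        congr 1
        rw [(ZMod.natCast_eq_zero_iff N M).2 hd, zero_sub])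
    rw [LFunction_changeLevel hd χ (Or.inl h1), norm_mul] at h6
    have h7 := z_euler (N := N) χ
    obtain ⟨P, hPe⟩ : ∃ P, P = ‖∏ p ∈ N.primeFactors, (1 - χ p * (p : ℂ) ^ (-(1 : ℂ)))‖ := ⟨_, rfl⟩
    have P0 : 0 ≤ P := by rw [hPe]; positivity
    rw [← hPe] at h6 h7
    have t0 : (0 : ℝ) < N.totient := by exact_mod_cast Nat.totient_pos.2 hN0
    have h8 : P ≤ (n : ℝ) ^ 2 := by
      refine le_of_mul_le_mul_right (h7.trans (hPN.trans ?_)) t0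
      have a1 := Real.rpow_le_rpow_of_exponent_le n1 (by norm_num : (1 / 4 : ℝ) ≤ 1)
      rw [Real.rpow_one] at a1
      rw [← hn]
      calc D * N.totient * (n : ℝ) ^ (1 / 4 : ℝ) ≤ n * N.totient * n := by gcongr
        _ = _ := by ring
    have hlM : (Nat.log 2 M : ℝ) ≤ n := by
      rw [hn]
      exact_mod_cast Nat.log_mono_right (Nat.le_of_dvd hN0 hd)
    obtain ⟨Z, hZ⟩ : ∃ Z : ℝ, Z = ∑ c ∈ SP χ, 1 / (c : ℝ) := ⟨_, rfl⟩
    have hZ0 : 0 ≤ Z := by rw [hZ]; positivity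
    rw [← hZ] at h3 h5
    have h9 : m ≤ (n : ℝ) ^ 2 * Z * (n : ℝ) ^ 2 :=
      h6.trans (mul_le_mul (h5.trans (by gcongr)) h8 P0 (by positivity))
    have h10 : (M : ℝ) * Z ≤ (n : ℝ) ^ 5 * c :=
      h3.trans (mul_le_mul (by gcongr) (by exact_mod_cast h4) (by positivity) (by positivity))
    have h11 : (g : ℝ) ≤ (n : ℝ) ^ C := by rw [hn]; exact_mod_cast hg
    have h12 : (N : ℝ) = M * g := by exact_mod_cast hMg.symm
    rw [← hc, ← hn]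
    calc m * N ≤ (n : ℝ) ^ 2 * Z * (n : ℝ) ^ 2 * N := by gcongr
      _ = (n : ℝ) ^ 4 * g * (M * Z) := by rw [h12]; ring
      _ ≤ (n : ℝ) ^ 4 * (n : ℝ) ^ C * ((n : ℝ) ^ 5 * c) := by gcongr
      _ = c * (n : ℝ) ^ (C + 9) := by ring
      _ ≤ _ := mul_le_mul_of_nonneg_left (pow_le_pow_right₀ n1 (by omega)) c0
  · rw [← hc, ← hn] at hbig ⊢
    have h1 : (N : ℝ) ≤ c * (n : ℝ) ^ C * (n : ℝ) ^ (B₂ + 1) := by
      exact_mod_cast (not_le.1 hbig).le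
    calc m * N ≤ 1 * N := by gcongr
      _ ≤ c * (n : ℝ) ^ (C + (B₂ + 1)) := by rw [one_mul, pow_add, ← mul_assoc]; exact h1
      _ ≤ _ := mul_le_mul_of_nonneg_left (pow_le_pow_right₀ n1 (by omega)) c0

theorem topy_row (hP : ∀ i : Sg, @PRIY_s i) : TOPY_s := by
  obtain ⟨B₁, p₁, h1⟩ := hP ⟨1, Or.inl rfl⟩
  obtain ⟨B₂, p₂, h2⟩ := hP ⟨-1, Or.inr rfl⟩
  refine ⟨2 * (B₁ + B₂), p₁ + p₂ + 2 ^ 4, fun p _ h e e' he he' m hm hχ => ?_⟩
  have hee : (e : ℂ) * e = 1 := by rcases he with a | a <;> rw [a] <;> norm_num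
  have l4 : (4 : ℝ) ≤ Nat.log 2 p := by exact_mod_cast z_log (k := 4) (p := p) (by omega)
  have l5 := odsg_log p (by omega)
  have l6 : (Nat.log 2 p : ℝ) ≤ Real.log p ^ 2 := by nlinarith
  have l7 : ∀ B ≤ B₁ + B₂, (Nat.log 2 p : ℝ) ^ B ≤ Real.log p ^ (2 * (B₁ + B₂)) := fun B hB => by
    rw [pow_mul]
    exact (pow_le_pow_right₀ (by linarith) hB).trans (pow_le_pow_left₀ (by linarith) l6 _)
  rw [div_le_iff₀ (pow_pos (by linarith) _)]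
  rcases (by omega : e' = -1 * e ∨ e' = - -1 * e) with rfl | rfl
  · have h3 : m * p ≤ cnt p e (-1 * e) * (Nat.log 2 p : ℝ) ^ B₁ :=
      h1 p (by omega) m hm (fun χ a b c => hχ χ a b (by
        rw [c]; push_cast; linear_combination -hee)) e he
    exact h3.trans (mul_le_mul_of_nonneg_left (l7 _ (by omega)) (Nat.cast_nonneg _))
  · have h4 : m * p ≤ cnt p e (- -1 * e) * (Nat.log 2 p : ℝ) ^ B₂ :=
      h2 p (by omega) m hm (fun χ a b c => hχ χ a b (by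
        rw [c]; push_cast; linear_combination hee)) e he
    exact h4.trans (mul_le_mul_of_nonneg_left (l7 _ (by omega)) (Nat.cast_nonneg _))

theorem priy [Sg] : PRIY_s :=
  priy_row cheb_row mon_row phi (odsz_row (lio_row sq_row hyp_row lio1_row) mon_row odg_row)
    (red_row smo_row pull_row trg_row (dirg_row pull_row trg_row far_row) fejg_row) cong
    (strg_row phi) (manyz_row sq_row hyp_row tail_row tau_row burgg phi)
    (fing_row cheb_row phi (fin1g_row tau_row phi uni_row burgg))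

theorem topy : TOPY_s := topy_row fun i => @priy i

end Pool.Agent.G27
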